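import Pool.Agent.Lib.MP_778b46_nt.MA.Defs

set_option autoImplicit false

noncomputable section

namespace Pool.Agent.Lib.MP_778b46_nt.MA

open Complex Finset MeasureTheory
open scoped Real ContDiff
open Pool.Agent.Lib.MP_03e5d0_nt (Sm ex ft bump)
open Pool.Agent.Lib.MP_778b46_nt.GX (Lf Lp)

/-! Weights and trivial bounds. The lemmas on `bump`, `ex`, `Sm`, `ft` are in
`Lib/MP_03e5d0_nt/TSm`, `TFt` (`bump_eq_one`, `bump_eq_zero`, `bump_mem`, `norm_ex`). -/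

theorem o1_smooth (ρ : ℝ) : ContDiff ℝ ∞ (bump ρ) :=
  (Real.smoothTransition.contDiff.comp ((contDiff_id.add contDiff_const).add contDiff_const)).mul
    (Real.smoothTransition.contDiff.comp (contDiff_const.sub contDiff_id))

theorem wt_w0 : Wt w0 := by
  refine ⟨(o1_smooth _).comp ((contDiff_const.mul contDiff_id).sub contDiff_const),
    fun x hx => MP_03e5d0_nt.bump_eq_zero ?_⟩
  rcases hx with hx | hx
  · exact le_abs.2 (Or.inr (by linarith))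
  · exact le_abs.2 (Or.inl (by linarith))

theorem wt_w1 : Wt w1 := by
  exact ⟨wt_w0.smooth.mul wt_w0.smooth, fun x hx => by rw [w1, wt_w0.supp x hx, mul_zero]⟩

theorem w0_mem (x : ℝ) : 0 ≤ w0 x ∧ w0 x ≤ 1 := by
  exact MP_03e5d0_nt.bump_mem _ _

theorem w1_mem (x : ℝ) : 0 ≤ w1 x ∧ w1 x ≤ 1 := by
  exact ⟨mul_self_nonneg _, mul_le_one₀ (w0_mem x).2 (w0_mem x).1 (w0_mem x).2⟩

theorem w0_one {x : ℝ} (h1 : 3 / 8 ≤ x) (h2 : x ≤ 3 / 4) : w0 x = 1 := by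
  exact MP_03e5d0_nt.bump_eq_one (abs_le.2 ⟨by linarith, by linarith⟩)

theorem kk_mem (y : ℝ) : 0 ≤ kk y ∧ kk y ≤ 1 := by
  exact MP_03e5d0_nt.bump_mem _ _

theorem kk_one {y : ℝ} (h : |y| ≤ 1) : kk y = 1 := by
  exact MP_03e5d0_nt.bump_eq_one h

theorem kk_zero {y : ℝ} (h : 2 ≤ |y|) : kk y = 0 := by
  exact MP_03e5d0_nt.bump_eq_zero (by linarith)

theorem kk_cont : Continuous kk := by
  exact (o1_smooth 1).continuous

theorem kk_sm (j : ℕ) : ∃ B : ℝ, Sm j (-2) 2 B fun y => (kk y : ℂ) := by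
  obtain ⟨B, hB⟩ := MP_03e5d0_nt.sm_bump j 1
  exact ⟨B, hB.mono le_rfl (by norm_num) (by norm_num) le_rfl⟩

theorem o1_kk {T y : ℝ} (hT : 0 < T) (hy : y ∉ Set.Icc (-(2 * T)) (2 * T)) : kk (y / T) = 0 := by
  refine kk_zero ?_
  rw [abs_div, abs_of_pos hT, le_div_iff₀ hT]
  exact (not_le.1 fun h => hy (abs_le.1 h)).le

/-- Continuous with compact support. -/
theorem kk_integrable {T : ℝ} (hT : 0 < T) {F : ℝ → ℂ} (hF : Continuous F) :
    Integrable fun y : ℝ => (kk (y / T) : ℂ) * F y := by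
  refine Continuous.integrable_of_hasCompactSupport
    ((continuous_ofReal.comp (kk_cont.comp (continuous_id.div_const T))).mul hF)
    (HasCompactSupport.intro (isCompact_Icc (a := -(2 * T)) (b := 2 * T)) fun y hy => ?_)
  rw [o1_kk hT hy, ofReal_zero, zero_mul]

/-- The integrand vanishes for `2 T ≤ |y|` and `0 ≤ kk ≤ 1`. -/
theorem kk_int_le {T B : ℝ} (hT : 0 < T) {F : ℝ → ℂ} (hF : ∀ y, |y| ≤ 2 * T → ‖F y‖ ≤ B) :
    ‖∫ y : ℝ, (kk (y / T) : ℂ) * F y‖ ≤ 4 * T * B := by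
  have hi : Integrable ((Set.Icc (-(2 * T)) (2 * T)).indicator fun _ : ℝ => B) :=
    (integrable_indicator_iff measurableSet_Icc).2 (integrableOn_const (by simp))
  refine (norm_integral_le_of_norm_le hi (Filter.Eventually.of_forall fun y => ?_)).trans ?_
  · by_cases hy : y ∈ Set.Icc (-(2 * T)) (2 * T)
    · rw [Set.indicator_of_mem hy, norm_mul, norm_real, Real.norm_of_nonneg (kk_mem _).1]
      exact (mul_le_of_le_one_left (norm_nonneg _) (kk_mem _).2).trans (hF y (abs_le.2 hy))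
    · rw [Set.indicator_of_notMem hy, o1_kk hT hy, ofReal_zero, zero_mul, norm_zero]
  · rw [integral_indicator_const _ measurableSet_Icc, Real.volume_real_Icc_of_le (by linarith),
      smul_eq_mul]
    exact le_of_eq (by ring)

/-- Continuous functions with compact support are bounded. -/
theorem Wt.bdd {v : ℝ → ℝ} (h : Wt v) :
    ∃ C : ℝ, 0 ≤ C ∧ (∀ x, |v x| ≤ C) ∧ ∀ x, |deriv v x| ≤ C := by
  have hc : HasCompactSupport v :=
    HasCompactSupport.intro (isCompact_Icc (a := 1 / 4) (b := 1)) fun x hx => h.supp x (by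
      rw [Set.mem_Icc, not_and_or, not_le, not_le] at hx
      exact hx.imp le_of_lt le_of_lt)
  obtain ⟨C, hC⟩ := h.smooth.continuous.bounded_above_of_compact_support hc
  obtain ⟨C', hC'⟩ :=
    (h.smooth.continuous_deriv (by simp)).bounded_above_of_compact_support hc.deriv
  exact ⟨max C C', (norm_nonneg _).trans ((hC 0).trans (le_max_left _ _)),
    fun x => (hC x).trans (le_max_left _ _), fun x => (hC' x).trans (le_max_right _ _)⟩

theorem lp_nonneg (n : ℕ) : 0 ≤ lp n := by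
  unfold lp
  split_ifs
  · exact Real.log_natCast_nonneg n
  · exact le_rfl

theorem lp_le (n : ℕ) : lp n ≤ ArithmeticFunction.vonMangoldt n := by
  unfold lp
  split_ifs with h
  · rw [ArithmeticFunction.vonMangoldt_apply_prime h]
  · exact ArithmeticFunction.vonMangoldt_nonneg

theorem o1_theta (X : ℝ) : ∑ n ∈ Icc 1 ⌊X⌋₊, lp n = Chebyshev.theta X := by
  rw [Chebyshev.theta, sum_filter]
  rfl

/-- `Chebyshev.theta_le_log4_mul_x`. -/
theorem sum_lp_le {X : ℝ} (hX : 0 ≤ X) : ∑ n ∈ Icc 1 ⌊X⌋₊, lp n ≤ 2 * X := by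
  rw [o1_theta]
  refine (Chebyshev.theta_le_log4_mul_x hX).trans (mul_le_mul_of_nonneg_right ?_ hX)
  rw [show (4 : ℝ) = 2 ^ 2 by norm_num, Real.log_pow]
  have := Real.log_two_lt_d9
  push_cast
  linarith

/-- `Chebyshev.psi_sub_theta_le_mul_sqrt`. -/
theorem sum_sub_lp : ∃ C : ℝ, 0 ≤ C ∧ ∀ X : ℝ, 1 ≤ X →
    ∑ n ∈ Icc 1 ⌊X⌋₊, (ArithmeticFunction.vonMangoldt n - lp n) ≤ C * √X := by
  obtain ⟨C, hC⟩ := Chebyshev.psi_sub_theta_le_mul_sqrt
  refine ⟨max C 0, le_max_right _ _, fun X _ => ?_⟩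
  rw [sum_sub_distrib, o1_theta]
  exact (hC X).trans (mul_le_mul_of_nonneg_right (le_max_left _ _) (Real.sqrt_nonneg _))

theorem o1_term {n : ℕ} {w : ℝ} {z : ℂ} (hw : 0 ≤ w ∧ w ≤ 1) (hz : ‖z‖ ≤ 1) (t y : ℝ) :
    ‖((lp n * w : ℝ) : ℂ) * z * ex t y‖ ≤ lp n := by
  rw [norm_mul, norm_mul, MP_03e5d0_nt.norm_ex, mul_one, norm_real,
    Real.norm_of_nonneg (mul_nonneg (lp_nonneg n) hw.1), mul_assoc]
  exact mul_le_of_le_one_right (lp_nonneg n) (mul_le_one₀ hw.2 (norm_nonneg _) hz)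

theorem o1_congr {v : ℝ → ℝ} (hv : Wt v) {X : ℝ} (hX : 0 < X) {f g : ℕ → ℂ}
    (h : ∀ n : ℕ, n.Prime → X / 4 < n → f n = g n) (n : ℕ) :
    ((lp n * v (n / X) : ℝ) : ℂ) * f n = ((lp n * v (n / X) : ℝ) : ℂ) * g n := by
  by_cases hn : n.Prime
  · by_cases h4 : X / 4 < n
    · rw [h n hn h4]
    · rw [hv.supp _ (Or.inl (by rw [div_le_iff₀ hX]; linarith [not_lt.1 h4]))]
      simp
  · simp [lp, hn]

theorem norm_SS_le {X : ℝ} (hX : 0 ≤ X) {f : ℕ → ℂ} (hf : ∀ n, ‖f n‖ ≤ 1) (y : ℝ) :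
    ‖SS X f y‖ ≤ 2 * X := by
  exact (norm_sum_le_of_le _ fun n _ => o1_term (w1_mem _) (hf n) _ _).trans (sum_lp_le hX)

theorem norm_DD_le {X : ℝ} (hX : 0 ≤ X) {f : ℕ → ℂ} (hf : ∀ n, ‖f n‖ ≤ 1) (t : ℝ) :
    ‖DD X f t‖ ≤ 2 * X := by
  exact (norm_sum_le_of_le _ fun n _ => o1_term (w0_mem _) (hf n) _ _).trans (sum_lp_le hX)

/-- Only the primes `n > X / 4` contribute. -/
theorem SS_congr {X : ℝ} (hX : 0 < X) {f g : ℕ → ℂ}
    (h : ∀ n : ℕ, n.Prime → X / 4 < n → f n = g n) (y : ℝ) : SS X f y = SS X g y := by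
  exact sum_congr rfl fun n _ => by rw [o1_congr wt_w1 hX h n]

theorem DD_congr {X : ℝ} (hX : 0 < X) {f g : ℕ → ℂ}
    (h : ∀ n : ℕ, n.Prime → X / 4 < n → f n = g n) (t : ℝ) : DD X f t = DD X g t := by
  exact sum_congr rfl fun n _ => by rw [o1_congr wt_w0 hX h n]

theorem DD_sum {ι : Type} (A : Finset ι) (c : ι → ℂ) (f : ι → ℕ → ℂ) (X t : ℝ) :
    DD X (fun n => ∑ i ∈ A, c i * f i n) t = ∑ i ∈ A, c i * DD X (f i) t := by
  simp only [DD, mul_sum, sum_mul]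
  rw [sum_comm]
  exact sum_congr rfl fun i _ => sum_congr rfl fun n _ => by ring

theorem SS_cont (X : ℝ) (f : ℕ → ℂ) : Continuous (SS X f) := by
  unfold SS ex
  fun_prop

theorem norm_JJ_le {X T : ℝ} (hX : 0 ≤ X) (hT : 0 < T) (m : ℕ) {f g : ℕ → ℂ}
    (hf : ∀ n, ‖f n‖ ≤ 1) (hg : ∀ n, ‖g n‖ ≤ 1) : ‖JJ X m T f g‖ ≤ 16 * T * X ^ 2 := by
  have h := kk_int_le (B := 2 * X * (2 * X)) hT
    (F := fun y => SS X f y * SS X g y * ex (-y) (m / X)) fun y _ => by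
      rw [norm_mul, norm_mul, MP_03e5d0_nt.norm_ex, mul_one]
      exact mul_le_mul (norm_SS_le hX hf y) (norm_SS_le hX hg y) (norm_nonneg _) (by positivity)
  simp only [← mul_assoc] at h
  exact h.trans (le_of_eq (by ring))

theorem norm_ee (x : ℝ) : ‖ee x‖ = 1 := by
  rw [ee, show 2 * π * I * x = ((2 * π * x : ℝ) : ℂ) * I by push_cast; ring,
    norm_exp_ofReal_mul_I]

theorem ee_add (x y : ℝ) : ee (x + y) = ee x * ee y := by
  rw [ee, ee, ee, ← Complex.exp_add, ofReal_add, mul_add]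

theorem ee_int (k : ℤ) : ee k = 1 := by
  rw [ee, ofReal_intCast, mul_comm, exp_int_mul_two_pi_mul_I]

theorem norm_ac (q c n : ℕ) : ‖ac q c n‖ ≤ 1 := by
  exact (norm_ee _).le

theorem norm_cf {q : ℕ} (χ : DirichletCharacter ℂ q) (n : ℕ) : ‖cf χ n‖ ≤ 1 := by
  exact χ.norm_le_one _

theorem mem_II {T : ℝ} (hT : 0 ≤ T) {t : ℤ} : t ∈ II T ↔ |(t : ℝ)| ≤ T := by
  rw [II, mem_Icc, ← abs_le, ← Int.cast_abs, ← Int.le_floor, ← Int.natCast_floor_eq_floor hT]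

theorem II_mono {T T' : ℝ} (h : T ≤ T') : II T ⊆ II T' := by
  have h1 : (⌊T⌋₊ : ℤ) ≤ ⌊T'⌋₊ := by exact_mod_cast Nat.floor_le_floor h
  exact Icc_subset_Icc (neg_le_neg h1) h1

theorem card_II {T : ℝ} (hT : 0 ≤ T) : ((II T).card : ℝ) ≤ 2 * T + 1 := by
  have h1 := Nat.floor_le hT
  have h2 : (II T).card = 2 * ⌊T⌋₊ + 1 := by
    rw [II, Int.card_Icc]
    omega
  rw [h2]
  push_cast
  linarith

/-- A prime larger than `P` does not divide `⌊P⌋₊ !`. -/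
theorem coprime_fact {P X : ℝ} (hP : 0 ≤ P) (h : 4 * P ≤ X) {n : ℕ} (hn : n.Prime)
    (hX : X / 4 < n) : Nat.Coprime n ⌊P⌋₊.factorial := by
  refine (Nat.Prime.coprime_iff_not_dvd hn).2 fun hd => ?_
  have h1 : (n : ℝ) ≤ ⌊P⌋₊ := by exact_mod_cast hn.dvd_factorial.1 hd
  linarith [Nat.floor_le hP]

theorem tu_pos {m : ℕ} (hm : 1 ≤ m) : 1 ≤ tu m := by
  have : 1 ≤ m.divisors.card := card_pos.2 ⟨1, Nat.one_mem_divisors.2 (by omega)⟩
  unfold tu
  exact_mod_cast this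

end Pool.Agent.Lib.MP_778b46_nt.MA
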