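import Pool.Agent.Lib.MP_778b46_nt.MA.F1

set_option autoImplicit false

noncomputable section

namespace Pool.Agent.Lib.MP_778b46_nt.MA

open Complex Finset MeasureTheory
open scoped Real ContDiff
open Pool.Agent.Lib.MP_03e5d0_nt (Sm ex ft bump)
open Pool.Agent.Lib.MP_778b46_nt.GX (Lf Lp)

/-! The terms of the singular series. -/

variable {N : ℕ} [NeZero N]

theorem f2_ee {q : ℕ} (hq : 0 < q) {x y : ℤ} (h : x ≡ y [ZMOD q]) :
    ee (x / q) = ee (y / q) := by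
  obtain ⟨k, hk⟩ := h.dvd
  have hq' : (q : ℝ) ≠ 0 := by positivity
  have e : (y : ℝ) / q = x / q + k := by
    have : (y : ℝ) = x + q * k := by exact_mod_cast (by linarith : y = x + q * k)
    rw [this]
    field_simp
  rw [e, ee_add, ee_int, mul_one]

theorem f2_pos {q : ℕ} (hq : q ∣ N) : 0 < q := Nat.pos_of_dvd_of_pos hq (NeZero.pos N)

theorem f2_tot {q : ℕ} (hq : 0 < q) : (Nat.totient q : ℂ) ≠ 0 :=
  Nat.cast_ne_zero.2 (Nat.totient_pos.2 hq).ne'

theorem f2_mod (a q : ℕ) : ((a % q : ℕ) : ℤ) ≡ a [ZMOD q] := by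
  rw [Int.natCast_mod]
  exact Int.mod_modEq _ _

open Classical in
theorem f2_orth (χ χ' : DirichletCharacter ℂ N) :
    ∑ u : (ZMod N)ˣ, χ u * (starRingEnd ℂ) (χ' u) =
      if χ = χ' then ((Nat.totient N : ℝ) : ℂ) else 0 := by
  have h0 : ee 0 = 1 := by simpa using ee_int 0
  have h1 := gs_units (χ * χ'⁻¹) 1 0
  simp only [GS, Int.cast_zero, mul_zero, zero_div, h0, mul_one] at h1
  have h2 : ∀ u : (ZMod N)ˣ, χ u * (starRingEnd ℂ) (χ' u) = (χ * χ'⁻¹) u := fun u => by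
    rw [MulChar.mul_apply, ← MulChar.star_apply']
    rfl
  simp only [h2]
  rw [← h1]
  split_ifs with h
  · rw [h, mul_inv_cancel, MulChar.sum_one_eq_card_units, ZMod.card_units_eq_totient]
    simp
  · exact MulChar.sum_eq_zero_of_ne_one fun h' => h (mul_inv_eq_one.1 h')

/-- Orthogonality (`DirichletCharacter.sum_char_inv_mul_char_eq`). -/
theorem expand {q : ℕ} (hq : q ∣ N) (c : ℕ) {n : ℕ} (hn : Nat.Coprime n N) :
    ac q c n = ∑ χ : DirichletCharacter ℂ N, gc χ q c * cf χ n := by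
  have hq0 := f2_pos hq
  have hN := f2_tot (NeZero.pos N)
  have h1 : ∀ χ : DirichletCharacter ℂ N, gc χ q c * cf χ n = ∑ u : (ZMod N)ˣ,
      (Nat.totient N : ℂ)⁻¹ * ee ((u : ZMod N).val * (c : ℤ) / q) *
        (χ (u : ZMod N)⁻¹ * χ n) := fun χ => by
    rw [gc, gs_units, cf, Finset.mul_sum, Finset.sum_mul]
    refine Finset.sum_congr rfl fun u _ => ?_
    rw [ZMod.inv_coe_unit, map_units_inv, MulChar.inv_apply_eq_inv']
    ring
  simp only [h1]
  rw [Finset.sum_comm]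
  simp only [← Finset.mul_sum, DirichletCharacter.sum_char_inv_mul_char_eq ℂ (Units.isUnit _)]
  rw [Finset.sum_eq_single (ZMod.unitOfCoprime n hn)]
  · rw [ZMod.coe_unitOfCoprime, if_pos rfl, mul_right_comm, inv_mul_cancel₀ hN, one_mul, ac,
      ZMod.val_natCast]
    have h2 : ((n % N : ℕ) : ℤ) * c ≡ n * c [ZMOD q] :=
      ((f2_mod n N).of_dvd (Int.natCast_dvd_natCast.2 hq)).mul_right _
    have h3 := f2_ee hq0 h2
    simp only [Int.cast_mul, Int.cast_natCast] at h3 ⊢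
    exact h3.symm
  · intro u _ hu
    rw [if_neg fun h => hu (Units.ext (h.trans (ZMod.coe_unitOfCoprime n hn).symm)), mul_zero]
  · intro h
    exact absurd (Finset.mem_univ _) h

/-- `gs_congr`, `gs_unit`. -/
theorem gc_unit (χ : DirichletCharacter ℂ N) {q : ℕ} (hq : q ∣ N) (u : (ZMod N)ˣ) :
    gc χ q ((u : ZMod N).val % q) = χ u * gc χ q 1 := by
  have h1 : (((u : ZMod N).val % q : ℕ) : ℤ) ≡ (u : ZMod N).val * ((1 : ℕ) : ℤ) [ZMOD q] := by
    rw [Nat.cast_one, mul_one]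
    exact f2_mod _ _
  rw [gc, gc, gs_congr _ (f2_pos hq) h1, gs_unit _ hq, inv_inv]
  ring

/-- `gs_bd` with `h = 1`, `conductor_inv`. -/
theorem gc_bd (χ : DirichletCharacter ℂ N) {q : ℕ} (hq : q ∣ N) :
    ‖gc χ q 1‖ ≤ √χ.conductor / Nat.totient q ∧
      (gc χ q 1 ≠ 0 → χ.conductor ∣ q ∧ Nat.Coprime χ.conductor (q / χ.conductor)) := by
  have h := gs_bd χ⁻¹ hq ((1 : ℕ) : ℤ)
  have e : qd q ((1 : ℕ) : ℤ).natAbs = q := by simp [qd]
  rw [e, DirichletCharacter.conductor_inv] at h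
  have hN : (0 : ℝ) < Nat.totient N := Nat.cast_pos.2 (Nat.totient_pos.2 (NeZero.pos N))
  refine ⟨?_, fun h0 => h.2 (right_ne_zero_of_mul h0)⟩
  rw [gc, norm_mul, norm_inv, Complex.norm_natCast]
  refine (mul_le_mul_of_nonneg_left h.1 (inv_nonneg.2 hN.le)).trans_eq ?_
  field_simp

/-- `sum_cop` (cast to `ℂ`), `gc_unit`, Parseval on the units (`lsmul_parseval`,
`DirichletCharacter.sum_eq_zero` type orthogonality `∑ u, χ u * conj (χ' u) = φ N [χ = χ']`),
`gc_bd`. -/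
theorem gc_orth {q : ℕ} (hq : q ∣ N) (z : DirichletCharacter ℂ N → ℂ) :
    ∑ c ∈ cop q, ‖∑ χ, gc χ q c * z χ‖ ^ 2 ≤
      ∑ χ ∈ univ.filter (fun χ : DirichletCharacter ℂ N => χ.conductor ∣ q),
        (χ.conductor : ℝ) / Nat.totient q * ‖z χ‖ ^ 2 := by
  classical
  have hN := f2_tot (NeZero.pos N)
  have hq0 : (0 : ℝ) < Nat.totient q := Nat.cast_pos.2 (Nat.totient_pos.2 (f2_pos hq))
  have h1 : ∑ c ∈ cop q, ‖∑ χ, gc χ q c * z χ‖ ^ 2 =
      ∑ χ, (Nat.totient q : ℝ) * ‖gc χ q 1 * z χ‖ ^ 2 := by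
    have h2 := MP_c03ca8_nt.Q.lsmul_parseval
      (fun (u : (ZMod N)ˣ) (χ : DirichletCharacter ℂ N) => χ u) (fun _ => (Nat.totient N : ℝ))
      (fun χ χ' => by convert f2_orth χ χ') fun χ => gc χ q 1 * z χ
    apply Complex.ofReal_injective
    rw [Complex.ofReal_sum, sum_cop hq fun c => ((‖∑ χ, gc χ q c * z χ‖ ^ 2 : ℝ) : ℂ)]
    simp only [gc_unit _ hq, mul_assoc]
    rw [← Complex.ofReal_sum, h2, ← Finset.mul_sum, ← Finset.mul_sum]
    push_cast
    field_simp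
  rw [h1, Finset.sum_filter]
  refine Finset.sum_le_sum fun χ _ => ?_
  obtain ⟨h2, h3⟩ := gc_bd χ hq
  split_ifs with h
  · rw [norm_mul, mul_pow, ← mul_assoc]
    refine mul_le_mul_of_nonneg_right ?_ (sq_nonneg _)
    refine (mul_le_mul_of_nonneg_left (pow_le_pow_left₀ (norm_nonneg _) h2 2) hq0.le).trans_eq ?_
    rw [div_pow, Real.sq_sqrt (Nat.cast_nonneg _)]
    field_simp
  · have h0 : gc χ q 1 = 0 := by
      by_contra h0
      exact h (h3 h0).1
    simp [h0]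

/-- `sum_cop`, `gc_unit`, `gs_units`. -/
theorem ww_eq {q : ℕ} (hq : q ∣ N) (m : ℕ) (χ χ' : DirichletCharacter ℂ N) :
    ww q m χ χ' = (Nat.totient q : ℂ) / Nat.totient N * (gc χ q 1 * gc χ' q 1) *
      GS (χ * χ') q (-(m : ℤ)) := by
  rw [ww, sum_cop hq fun c => ee (-(m * c / q)) * gc χ q c * gc χ' q c, gs_units, mul_assoc,
    Finset.mul_sum _ _ (gc χ q 1 * gc χ' q 1)]
  refine congrArg _ (Finset.sum_congr rfl fun u _ => ?_)
  have h2 : (((u : ZMod N).val % q : ℕ) : ℤ) * (-(m : ℤ)) ≡ (u : ZMod N).val * (-(m : ℤ)) [ZMOD q] :=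
    (f2_mod _ _).mul_right _
  have h3 := f2_ee (f2_pos hq) h2
  have e : -((m : ℝ) * (((u : ZMod N).val % q : ℕ) : ℝ) / q) =
      (((((u : ZMod N).val % q : ℕ) : ℤ) * (-(m : ℤ)) : ℤ) : ℝ) / q := by
    simp only [Int.cast_mul, Int.cast_natCast, Int.cast_neg]
    ring
  rw [gc_unit _ hq, gc_unit _ hq, e, h3, MulChar.mul_apply, Int.cast_mul, Int.cast_natCast]
  ring

theorem ww_bd {q : ℕ} (hq : q ∣ N) (m : ℕ) (χ χ' : DirichletCharacter ℂ N) :
    ‖ww q m χ χ'‖ ≤ √χ.conductor * √χ'.conductor * √(χ * χ').conductor /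
      (Nat.totient q * Nat.totient (qd q m)) := by
  have hN : (0 : ℝ) < Nat.totient N := Nat.cast_pos.2 (Nat.totient_pos.2 (NeZero.pos N))
  have hq0 : (0 : ℝ) < Nat.totient q := Nat.cast_pos.2 (Nat.totient_pos.2 (f2_pos hq))
  have h := (gs_bd (χ * χ') hq (-(m : ℤ))).1
  rw [Int.natAbs_neg, Int.natAbs_natCast] at h
  rw [ww_eq hq, norm_mul, norm_mul, norm_mul, norm_div, Complex.norm_natCast, Complex.norm_natCast]
  have h1 := mul_le_mul (gc_bd χ hq).1 (gc_bd χ' hq).1 (norm_nonneg _) (by positivity)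
  refine (mul_le_mul (mul_le_mul_of_nonneg_left h1 (div_pos hq0 hN).le) h (norm_nonneg _)
    (by positivity)).trans_eq ?_
  field_simp

/-- Compare factorizations. For a prime `p ∣ r''`, `p` divides `r` or `r'`, say `r`; then
`v_p q = v_p r ≤ v_p (lcm r r') ≤ v_p q`. -/
theorem dvd_qd {r r' r'' q m : ℕ} (hq : 0 < q) (h1 : r ∣ q) (h2 : r' ∣ q)
    (c1 : Nat.Coprime r (q / r)) (c2 : Nat.Coprime r' (q / r')) (h3 : r'' ∣ Nat.lcm r r')
    (h4 : r'' ∣ qd q m) : r'' ∣ qd (Nat.lcm r r') m := by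
  have hL : Nat.lcm r r' ∣ q := Nat.lcm_dvd h1 h2
  have hL0 : Nat.lcm r r' ≠ 0 := ne_zero_of_dvd_ne_zero hq.ne' hL
  have h0 : r'' ≠ 0 := ne_zero_of_dvd_ne_zero hL0 h3
  have hg0 : Nat.gcd q m ≠ 0 := (Nat.gcd_pos_of_pos_left m hq).ne'
  have e : Nat.gcd (Nat.lcm r r') m = Nat.gcd (Nat.lcm r r') (Nat.gcd q m) := by
    rw [← Nat.gcd_assoc, Nat.gcd_eq_left hL]
  have top : ∀ {s p : ℕ}, p.Prime → s ∣ q → Nat.Coprime s (q / s) → p ∣ s → s ∣ Nat.lcm r r' →
      q.factorization p ≤ (Nat.lcm r r').factorization p := by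
    intro s p hp hs hc hps hsL
    have hs0 : s ≠ 0 := ne_zero_of_dvd_ne_zero hq.ne' hs
    have hd0 : q / s ≠ 0 := (Nat.div_pos (Nat.le_of_dvd hq hs) (Nat.pos_of_ne_zero hs0)).ne'
    have e1 := congrArg (fun f => f p) (Nat.factorization_mul hs0 hd0)
    have e2 : (q / s).factorization p = 0 := Nat.factorization_eq_zero_of_not_dvd fun h =>
      hp.one_lt.ne' (Nat.eq_one_of_dvd_coprimes hc hps h)
    have e3 := (Nat.factorization_le_iff_dvd hs0 hL0).2 hsL p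
    simp only [Nat.mul_div_cancel' hs, Finsupp.add_apply] at e1
    omega
  rw [qd, Nat.dvd_div_iff_mul_dvd (Nat.gcd_dvd_left _ _)] at h4 ⊢
  rw [e]
  have hg1 : Nat.gcd (Nat.lcm r r') (Nat.gcd q m) ≠ 0 :=
    (Nat.gcd_pos_of_pos_left _ (Nat.pos_of_ne_zero hL0)).ne'
  refine (Nat.factorization_prime_le_iff_dvd (mul_ne_zero hg1 h0) hL0).1 fun p hp => ?_
  have e4 := (Nat.factorization_le_iff_dvd (mul_ne_zero hg0 h0) hq.ne').2 h4 p
  rw [Nat.factorization_mul hg0 h0, Finsupp.add_apply] at e4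
  rw [Nat.factorization_mul hg1 h0, Nat.factorization_gcd hL0 hg0, Finsupp.add_apply,
    Finsupp.inf_apply]
  by_cases hp' : p ∣ r''
  · have e5 : q.factorization p ≤ (Nat.lcm r r').factorization p := by
      rcases (hp.dvd_mul).1 ((hp'.trans h3).trans (Nat.lcm_dvd_mul r r')) with h | h
      · exact top hp h1 c1 h (Nat.dvd_lcm_left _ _)
      · exact top hp h2 c2 h (Nat.dvd_lcm_right _ _)
    omega
  · rw [Nat.factorization_eq_zero_of_not_dvd hp']
    omega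

/-- `ww_eq`, `gc_bd`, `gs_bd`, `conductor_mul_dvd_lcm_conductor`, `dvd_qd`. -/
theorem ww_ne {q : ℕ} (hq : q ∣ N) (m : ℕ) (χ χ' : DirichletCharacter ℂ N)
    (h : ww q m χ χ' ≠ 0) :
    χ.conductor ∣ q ∧ χ'.conductor ∣ q ∧ (χ * χ').conductor ∣ gg m χ χ' := by
  rw [ww_eq hq] at h
  have h1 := right_ne_zero_of_mul (left_ne_zero_of_mul h)
  obtain ⟨a1, a2⟩ := (gc_bd χ hq).2 (left_ne_zero_of_mul h1)
  obtain ⟨b1, b2⟩ := (gc_bd χ' hq).2 (right_ne_zero_of_mul h1)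
  have h2 := ((gs_bd (χ * χ') hq (-(m : ℤ))).2 (right_ne_zero_of_mul h)).1
  rw [Int.natAbs_neg, Int.natAbs_natCast] at h2
  exact ⟨a1, b1, dvd_qd (f2_pos hq) a1 b1 a2 b2
    (DirichletCharacter.conductor_mul_dvd_lcm_conductor χ χ') h2⟩

theorem f2_frac (F : ℝ → ℂ) :
    ∑ q ∈ N.divisors, ∑ c ∈ cop q, F (c / q) = ∑ j ∈ range N, F (j / N) := by
  have hN := NeZero.pos N
  rw [← Nat.sum_div_divisors N fun q => ∑ c ∈ cop q, F (c / q),
    ← Finset.sum_fiberwise_of_maps_to (s := range N) (t := N.divisors) (g := fun j => Nat.gcd j N)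
      fun j _ => Nat.mem_divisors.2 ⟨Nat.gcd_dvd_right _ _, hN.ne'⟩]
  refine Finset.sum_congr rfl fun d hd => ?_
  obtain ⟨k, hk⟩ := Nat.dvd_of_mem_divisors hd
  have hd0 : 0 < d := Nat.pos_of_mem_divisors hd
  have e : N / d = k := by rw [hk, Nat.mul_div_cancel_left _ hd0]
  rw [e]
  refine Finset.sum_bij (fun c _ => d * c) (fun c hc => ?_) (fun c _ c' _ h => ?_)
    (fun j hj => ?_) fun c _ => ?_
  · obtain ⟨h1, h2⟩ := Finset.mem_filter.1 hc
    refine Finset.mem_filter.2 ⟨Finset.mem_range.2 ?_, ?_⟩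
    · rw [hk]
      exact Nat.mul_lt_mul_of_pos_left (Finset.mem_range.1 h1) hd0
    · rw [hk, Nat.gcd_mul_left, h2, mul_one]
  · exact Nat.eq_of_mul_eq_mul_left hd0 h
  · obtain ⟨h1, h2⟩ := Finset.mem_filter.1 hj
    obtain ⟨c, rfl⟩ : d ∣ j := h2 ▸ Nat.gcd_dvd_left j N
    refine ⟨c, Finset.mem_filter.2 ⟨Finset.mem_range.2 ?_, ?_⟩, rfl⟩
    · have := Finset.mem_range.1 h1
      rw [hk] at this
      exact Nat.lt_of_mul_lt_mul_left this
    · rw [hk, Nat.gcd_mul_left] at h2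
      exact Nat.eq_of_mul_eq_mul_left hd0 (h2.trans (mul_one d).symm)
  · have hd' : (d : ℝ) ≠ 0 := by positivity
    rw [hk, Nat.cast_mul, Nat.cast_mul, mul_div_mul_left _ _ hd']

/-- The fractions `j / N`, `j < N`, are the reduced fractions `c / q`, `q ∣ N`
(compare the proof of `Nat.sum_totient`, `Nat.sum_div_divisors`); geometric sum. -/
theorem sum_ram (h : ℤ) : ∑ q ∈ N.divisors, ∑ c ∈ cop q, ee (h * c / q) =
    if (N : ℤ) ∣ h then (N : ℂ) else 0 := by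
  have hN : (N : ℝ) ≠ 0 := Nat.cast_ne_zero.2 (NeZero.ne N)
  have h1 := f2_frac (N := N) fun x => ee (h * x)
  simp only [← mul_div_assoc] at h1
  have h2 : ∀ j : ℕ, ee (h * j / N) = ee (h / N) ^ j := fun j => by
    rw [ee, ee, ← Complex.exp_nat_mul]
    congr 1
    push_cast
    ring
  rw [h1]
  simp only [h2]
  split_ifs with hd
  · obtain ⟨k, rfl⟩ := hd
    have e : (((N : ℤ) * k : ℤ) : ℝ) / N = k := by
      push_cast
      field_simp
    simp [e, ee_int, -Int.cast_mul]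
  · have h3 : ee (h / N) ≠ 1 := fun h4 => by
      obtain ⟨k, hk⟩ := Complex.exp_eq_one_iff.1 h4
      have h5 : (((h : ℝ) / N : ℝ) : ℂ) = ((k : ℝ) : ℂ) := by
        refine mul_left_cancel₀ Complex.two_pi_I_ne_zero (hk.trans ?_)
        push_cast
        ring
      have h6 : (h : ℝ) = N * k := by
        rw [← Complex.ofReal_injective h5]
        field_simp
      exact hd ⟨k, by exact_mod_cast h6⟩
    rw [geom_sum_eq h3, ← h2, mul_div_cancel_right₀ _ hN, ee_int, sub_self, zero_div]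

/-- Unfold `gc`, `GS`, exchange the sums, `sum_ram` with `h = a.val + b.val - m`. -/
theorem sum_ww (m : ℕ) (χ χ' : DirichletCharacter ℂ N) :
    ∑ q ∈ N.divisors, ww q m χ χ' = SG m χ χ' := by
  have h1 : ∀ q c : ℕ, ee (-(m * c / q)) * gc χ q c * gc χ' q c =
      ∑ a : ZMod N, ∑ b : ZMod N, ((Nat.totient N : ℂ) ^ 2)⁻¹ * (χ⁻¹ a * χ'⁻¹ b) *
        ee (((a.val + b.val - m : ℤ) : ℝ) * c / q) := fun q c => by
    have e : ∀ a b : ZMod N, ee (((a.val + b.val - m : ℤ) : ℝ) * c / q) = ee (-(m * c / q)) *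
        (ee (a.val * (c : ℤ) / q) * ee (b.val * (c : ℤ) / q)) := fun a b => by
      rw [← ee_add, ← ee_add]
      congr 1
      simp only [Int.cast_sub, Int.cast_add, Int.cast_natCast]
      ring
    simp only [e]
    rw [gc, gc, GS, GS, mul_assoc, mul_mul_mul_comm, Finset.sum_mul_sum, ← mul_assoc,
      Finset.mul_sum]
    refine Finset.sum_congr rfl fun a _ => ?_
    rw [Finset.mul_sum]
    refine Finset.sum_congr rfl fun b _ => ?_
    ring
  have h2 : ∀ a b : ZMod N, ((N : ℤ) ∣ (a.val + b.val - m : ℤ)) ↔ b = m - a := fun a b => by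
    rw [← ZMod.intCast_zmod_eq_zero_iff_dvd]
    simp only [Int.cast_sub, Int.cast_add, Int.cast_natCast, ZMod.natCast_zmod_val]
    exact ⟨fun h => by linear_combination h, fun h => by linear_combination h⟩
  have h3 : ∑ q ∈ N.divisors, ww q m χ χ' = ∑ a : ZMod N, ∑ b : ZMod N,
      ((Nat.totient N : ℂ) ^ 2)⁻¹ * (χ⁻¹ a * χ'⁻¹ b) *
        ∑ q ∈ N.divisors, ∑ c ∈ cop q, ee (((a.val + b.val - m : ℤ) : ℝ) * c / q) := by
    simp only [ww, h1, Finset.mul_sum]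
    rw [Finset.sum_congr rfl fun q _ => Finset.sum_comm, Finset.sum_comm]
    refine Finset.sum_congr rfl fun a _ => ?_
    rw [Finset.sum_congr rfl fun q _ => Finset.sum_comm, Finset.sum_comm]
  rw [h3, SG, Finset.mul_sum]
  refine Finset.sum_congr rfl fun a _ => ?_
  simp only [sum_ram, h2, mul_ite, mul_zero, Finset.sum_ite_eq', Finset.mem_univ, if_true]
  ring

end Pool.Agent.Lib.MP_778b46_nt.MA
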