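import Pool.Agent.Lib.MP_778b46_nt.MA.LVc

/- Large values of the Dirichlet polynomial over the primes: outside a small exceptional set the
mean square is small (abstract form). -/

noncomputable section

namespace Pool.Agent.Lib.MP_778b46_nt.MA

open Complex Finset Pool.Agent.Lib.MP_778b46_nt.GX
open ArithmeticFunction (moebius vonMangoldt zeta)

theorem sq_four (a b c d : ℂ) :
    ‖a + (b - (c + d))‖ ^ 2 ≤ 4 * (‖a‖ ^ 2 + ‖b‖ ^ 2 + ‖c‖ ^ 2 + ‖d‖ ^ 2) := by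
  have h : ‖a + (b - (c + d))‖ ≤ ‖a‖ + (‖b‖ + (‖c‖ + ‖d‖)) :=
    norm_add_le_of_le le_rfl (norm_sub_le_of_le le_rfl (norm_add_le _ _))
  refine (pow_le_pow_left₀ (norm_nonneg _) h 2).trans ?_
  nlinarith [sq_nonneg (‖a‖ - ‖b‖), sq_nonneg (‖a‖ - ‖c‖), sq_nonneg (‖a‖ - ‖d‖),
    sq_nonneg (‖b‖ - ‖c‖), sq_nonneg (‖b‖ - ‖d‖), sq_nonneg (‖c‖ - ‖d‖)]

theorem ranges {X δ : ℝ} {V : ℕ} (hV : 1 ≤ V) (hVX : 8 * (V : ℝ) ≤ X) (hδ : 0 < δ) (hδ1 : δ ≤ 1) :
    ∃ (K : ℕ) (a : ℕ → ℕ) (y yy : ℕ → ℝ), Monotone a ∧ a 0 = V ∧ 3 * X ≤ a K ∧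
      (a K : ℝ) ≤ 2 * X ^ 2 ∧ (K : ℝ) ≤ 3 * (1 + Real.log X) / δ ∧ (∀ r, a (r + 1) ≤ 6 * a r) ∧
      (∀ r, (a r : ℝ) ≤ y r) ∧ (∀ r, ∀ n ∈ Ioc (a r) (a (r + 1)), yy n = y r) ∧
      ∀ n, V < n → n ≤ a K → yy n ≤ n ∧ (n : ℝ) ≤ (1 + 2 * δ) * yy n := by
  have hV1 : (1 : ℝ) ≤ V := by exact_mod_cast hV
  have hX : 8 ≤ X := by linarith
  have hlog : 0 ≤ Real.log X := Real.log_nonneg (by linarith)
  have he : Real.exp δ ≤ 1 + 2 * δ := by
    have := Real.abs_exp_sub_one_le (x := δ) (by rw [abs_of_pos hδ]; exact hδ1)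
    rw [abs_of_pos hδ] at this
    linarith [le_abs_self (Real.exp δ - 1)]
  set y : ℕ → ℝ := fun r => V * Real.exp (r * δ) with hy
  have hy1 : ∀ r, 1 ≤ y r := fun r =>
    one_le_mul_of_one_le_of_one_le hV1 (Real.one_le_exp (by positivity))
  have hys : ∀ r, y (r + 1) = Real.exp δ * y r := fun r => by
    simp only [hy]; push_cast; rw [add_mul, one_mul, Real.exp_add]; ring
  have hym : Monotone y := monotone_nat_of_le_succ fun r => by
    rw [hys]; exact le_mul_of_one_le_left (by linarith [hy1 r]) (Real.one_le_exp hδ.le)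
  set a : ℕ → ℕ := fun r => ⌊y r⌋₊ with ha
  have ham : Monotone a := fun r s h => Nat.floor_le_floor (hym h)
  have hay : ∀ r, (a r : ℝ) ≤ y r := fun r => Nat.floor_le (by linarith [hy1 r])
  have hya : ∀ r, y r < a r + 1 := fun r => Nat.lt_floor_add_one _
  have hex : ∀ n, ∃ v : ℝ, ∀ r, n ∈ Ioc (a r) (a (r + 1)) → v = y r := by
    intro n
    by_cases h : ∃ r, n ∈ Ioc (a r) (a (r + 1))
    · obtain ⟨r, hr⟩ := h
      refine ⟨y r, fun s hs => congrArg y ?_⟩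
      rw [mem_Ioc] at hr hs
      by_contra hne
      rcases lt_or_gt_of_ne hne with h | h
      · have := ham (show r + 1 ≤ s from h); omega
      · have := ham (show s + 1 ≤ r from h); omega
    · exact ⟨0, fun r hr => absurd ⟨r, hr⟩ h⟩
  choose yy hyy using hex
  have hl0 : 0 ≤ Real.log (3 * X + 1) := Real.log_nonneg (by linarith)
  have hK1 := Nat.le_ceil (Real.log (3 * X + 1) / δ)
  have hK2 := Nat.ceil_lt_add_one (show 0 ≤ Real.log (3 * X + 1) / δ by positivity)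
  generalize ⌈Real.log (3 * X + 1) / δ⌉₊ = K at hK1 hK2
  rw [div_le_iff₀ hδ] at hK1
  have hK3 : K * δ ≤ Real.log (3 * X + 1) + 1 := by
    have := mul_le_mul_of_nonneg_right hK2.le hδ.le
    rw [add_mul, div_mul_cancel₀ _ hδ.ne'] at this
    linarith
  have a0 : a 0 = V := by simp [ha, hy]
  refine ⟨K, a, y, yy, ham, a0, ?_, ?_, ?_, fun r => ?_, hay, fun r n hn => hyy n r hn, ?_⟩
  · have k1 : 3 * X + 1 ≤ Real.exp (K * δ) := by
      rw [← Real.exp_log (show 0 < 3 * X + 1 by linarith)]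
      exact Real.exp_le_exp.2 hK1
    have k2 : Real.exp (K * δ) ≤ y K := le_mul_of_one_le_left (by positivity) hV1
    linarith [hya K]
  · refine (hay K).trans ?_
    have k1 : Real.exp (K * δ) ≤ (3 * X + 1) * 3 := by
      refine (Real.exp_le_exp.2 hK3).trans ?_
      rw [Real.exp_add, Real.exp_log (by linarith)]
      exact mul_le_mul_of_nonneg_left (by linarith [Real.exp_one_lt_d9]) (by linarith)
    have k2 : y K ≤ X / 8 * ((3 * X + 1) * 3) :=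
      mul_le_mul (by linarith) k1 (by positivity) (by positivity)
    nlinarith
  · rw [le_div_iff₀ hδ]
    have k1 := Real.log_le_log (by linarith) (show 3 * X + 1 ≤ 2 * (2 * X) by linarith)
    rw [Real.log_mul (by norm_num) (by positivity), Real.log_mul (by norm_num) (by positivity)] at k1
    linarith [Real.log_two_lt_d9]
  · have k1 : (1 : ℝ) ≤ a r := by exact_mod_cast Nat.le_floor (by simpa using hy1 r)
    have k2 : y (r + 1) ≤ 3 * y r := by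
      rw [hys]; exact mul_le_mul_of_nonneg_right (by linarith) (by linarith [hy1 r])
    exact_mod_cast (show (a (r + 1) : ℝ) ≤ 6 * a r by linarith [hay (r + 1), hya r])
  · intro n h1 h2
    have hex : ∃ r, n ≤ a (r + 1) := ⟨K, h2.trans (ham (Nat.le_succ K))⟩
    have k1 := Nat.find_spec hex
    have k2 : a (Nat.find hex) < n := by
      rcases Nat.eq_zero_or_pos (Nat.find hex) with h | h
      · rw [h, a0]; exact h1
      · have := Nat.find_min hex (show Nat.find hex - 1 < Nat.find hex by omega)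
        rw [Nat.sub_add_cancel h] at this
        exact not_le.1 this
    generalize Nat.find hex = r at k1 k2
    rw [hyy n r (mem_Ioc.2 ⟨k2, k1⟩)]
    have k3 : (a r : ℝ) + 1 ≤ n := by exact_mod_cast k2
    have k4 : (n : ℝ) ≤ a (r + 1) := by exact_mod_cast k1
    refine ⟨by linarith [hya r], (k4.trans (hay _)).trans ?_⟩
    rw [hys]
    exact mul_le_mul_of_nonneg_right he (by linarith [hy1 r])

theorem lv_core (C0 L : ℝ) (hC : 0 ≤ C0) (hL : 1 ≤ L) : ∃ C : ℝ, 0 ≤ C ∧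
    ∀ (ι : Type) [DecidableEq ι] (I : Finset ι) (f : ι → ℕ → ℂ) (η : ι → ℝ) (w : ℝ → ℝ)
      (X D β δ E : ℝ) (V : ℕ), Fam I f η C0 D β → Wg w L → 1 ≤ V → 8 * (V : ℝ) ≤ X → 0 < δ →
      δ ≤ 1 → (I.card : ℝ) ≤ 3 * D → D ≤ (V : ℝ) ^ 20 → D ≤ δ ^ 4 * X →
      D ^ 2 * β ^ 2 * (V : ℝ) ^ 2 ≤ δ ^ 4 * X ^ 2 → ∑ i ∈ I, η i ^ 2 ≤ δ ^ 4 →
      1 + Real.log X ≤ E → (∀ n : ℕ, (n : ℝ) ≤ X ^ 60 → (n.divisors.card : ℝ) ^ 40 ≤ E) →
      ∃ Bad : Finset ι, (Bad.card : ℝ) ≤ C * E ^ 3 / δ ^ 81 ∧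
        ∑ i ∈ I \ Bad, ‖∑ n ∈ Ioc 0 ⌊X⌋₊, (w (n / X) : ℂ) * ((lp n : ℂ) * f i n)‖ ^ 2 ≤
          C * E ^ 6 * δ ^ 2 * X ^ 2 := by
  classical
  refine ⟨6 * C0 * 6 ^ 20 + 4 * (12 + 2312 * L ^ 2 + 9 * (8 * C0 + 2) + 864 * C0 * L ^ 2),
    by positivity, ?_⟩
  intro ι _ I f η w X D β δ E V h hw hV hVX hδ hδ1 hI hDV hDX hβ hη hE hτ
  obtain ⟨K, a, y, yy, ham, a0, hZ1, hZ2, hK, ha6, hay, hyy, hy⟩ := ranges hV hVX hδ hδ1
  have hV1 : (1 : ℝ) ≤ V := by exact_mod_cast hV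
  have hX : 8 ≤ X := by linarith
  have hX0 : 0 < X := by linarith
  have hlog : 0 ≤ Real.log X := Real.log_nonneg (by linarith)
  have hE1 : 1 ≤ E := by linarith
  have hD1 := h.D1
  have hβ0 := h.β0
  have hVE : 1 + Real.log V ≤ E := by
    linarith [Real.log_le_log (by linarith) (show (V : ℝ) ≤ X by linarith)]
  have hVa : ∀ r, V ≤ a r := fun r => a0 ▸ ham (Nat.zero_le r)
  have hK' : (K : ℝ) ≤ 3 * E / δ := hK.trans (by gcongr)
  have hZ3 : (a K : ℝ) ≤ X ^ 3 := hZ2.trans (by nlinarith [sq_nonneg X])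
  have hZ0 : ⌊X⌋₊ ≤ a K := by
    exact_mod_cast (show (⌊X⌋₊ : ℝ) ≤ a K by linarith [Nat.floor_le hX0.le])
  have hδ4 : δ ^ 4 ≤ δ ^ 2 := pow_le_pow_of_le_one hδ.le hδ1 (by norm_num)
  have hδ2 : δ ^ 4 ≤ 1 := pow_le_one₀ hδ.le hδ1
  set B : ℕ → ι → ℂ := fun r i => ∑ n ∈ Ioc (a r) (a (r + 1)), bV V n * f i n with hB
  set A : ℕ → ι → ℂ := fun r i =>
    ∑ l ∈ Ioc 0 (a K), ((vonMangoldt l * w (y r * l / X) : ℝ) : ℂ) * f i l with hA
  refine ⟨(range K).biUnion fun r => I.filter fun i => δ ^ 2 * a r ≤ ‖B r i‖, ?_, ?_⟩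
  · have h1 : ∀ r ∈ range K, ((I.filter fun i => δ ^ 2 * a r ≤ ‖B r i‖).card : ℝ) ≤
        2 * C0 * 6 ^ 20 * E ^ 2 / (δ ^ 2) ^ 40 := by
      intro r hr
      refine h.bad V (hV.trans (hVa r)) (ha6 r) (hDV.trans (pow_le_pow_left₀ (by positivity)
        (by exact_mod_cast hVa r) _)) (by positivity) (fun n hn => hτ n ?_) _ (filter_subset _ _)
        fun i hi => (mem_filter.1 hi).2
      have k1 : (a (r + 1) : ℝ) ≤ X ^ 3 := le_trans (by exact_mod_cast ham (mem_range.1 hr)) hZ3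
      calc (n : ℝ) ≤ (a (r + 1) : ℝ) ^ 20 := by exact_mod_cast hn
        _ ≤ (X ^ 3) ^ 20 := pow_le_pow_left₀ (by positivity) k1 _
        _ = X ^ 60 := by ring
    have h2 := sum_le_card_nsmul _ _ _ h1
    rw [card_range, nsmul_eq_mul] at h2
    refine le_trans (by exact_mod_cast card_biUnion_le) (h2.trans ?_)
    calc _ ≤ 3 * E / δ * (2 * C0 * 6 ^ 20 * E ^ 2 / (δ ^ 2) ^ 40) := by gcongr
      _ = 6 * C0 * 6 ^ 20 * E ^ 3 / δ ^ 81 := by field_simp; ring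
      _ ≤ _ := by gcongr; exact le_add_of_nonneg_right (by positivity)
  set S := I \ (range K).biUnion fun r => I.filter fun i => δ ^ 2 * a r ≤ ‖B r i‖ with hS
  have hSI : S ⊆ I := sdiff_subset
  have hSc : (S.card : ℝ) ≤ 3 * D := le_trans (by exact_mod_cast card_le_card hSI) hI
  set T0 : ι → ℂ := fun i => ∑ m ∈ Ioc 0 (a K), (w (m / X) : ℂ) *
    (((lp m - vonMangoldt m : ℝ) : ℂ) * f i m) with hT0
  set T1 : ι → ℂ := fun i => ∑ m ∈ Ioc 0 (a K), (w (m / X) : ℂ) *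
    ((∑ x ∈ m.divisorsAntidiagonal, muV V x.1 * (Real.log x.2 : ℝ)) * f i m) with hT1
  set T3 : ι → ℂ := fun i => ∑ m ∈ Ioc 0 (a K), er w X V yy m * f i m with hT3
  have e : ∀ i, ∑ n ∈ Ioc 0 ⌊X⌋₊, (w (n / X) : ℂ) * ((lp n : ℂ) * f i n) =
      T0 i + (T1 i - (∑ r ∈ range K, B r i * A r i + T3 i)) := by
    intro i
    have e1 := decomp hw hX0 hZ1 yy (fun n h1 h2 => ((hy n h1 h2).2.trans
      (mul_le_mul_of_nonneg_right (by linarith) (by
        by_contra hc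
        have k1 := (hy n h1 h2).2
        have k2 : (0 : ℝ) ≤ n := Nat.cast_nonneg n
        have k3 : (V : ℝ) < n := by exact_mod_cast h1
        nlinarith)))) (f i) (h.mul i)
    have e2 : ∑ n ∈ Ioc V (a K), bV V n * f i n *
        ∑ l ∈ Ioc 0 (a K), ((vonMangoldt l * w (yy n * l / X) : ℝ) : ℂ) * f i l =
        ∑ r ∈ range K, B r i * A r i := by
      conv_lhs => rw [← a0]
      rw [sum_tele a ham, a0]
      refine sum_congr rfl fun r _ => ?_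
      simp only [hB, hA]
      rw [sum_mul]
      exact sum_congr rfl fun n hn => by rw [hyy r n hn]
    rw [e2] at e1
    simp only [hT0, hT1, hT3]
    rw [← e1, hw.cut hX0 le_rfl, ← hw.cut hX0 hZ0, ← sum_sub_distrib, ← sum_add_distrib]
    refine sum_congr rfl fun m _ => ?_
    have := vM_split hV m
    rw [ofReal_sub]
    linear_combination (w (m / X) : ℂ) * f i m * this
  simp only [e]
  refine (sum_le_sum fun i _ => sq_four _ _ _ _).trans ?_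
  rw [← mul_sum, sum_add_distrib, sum_add_distrib, sum_add_distrib]
  have t0 : 0 ≤ δ ^ 2 * X ^ 2 := by positivity
  have hE2 : E ^ 2 ≤ E ^ 6 := pow_le_pow_right₀ hE1 (by norm_num)
  have hE4 : E ^ 4 ≤ E ^ 6 := pow_le_pow_right₀ hE1 (by norm_num)
  have b0 : ∑ i ∈ S, ‖T0 i‖ ^ 2 ≤ 12 * (E ^ 6 * δ ^ 2 * X ^ 2) := by
    refine (sum_le_card_nsmul _ _ (4 * X * E ^ 2) fun i _ => ?_).trans ?_
    · refine (pow_le_pow_left₀ (norm_nonneg _)
        (prime_pow hw (by linarith) hZ0 (f i) (h.le i)) 2).trans ?_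
      rw [mul_pow, mul_pow, Real.sq_sqrt hX0.le]
      gcongr
      · norm_num
      · linarith
    · rw [nsmul_eq_mul]
      calc _ ≤ 3 * (δ ^ 2 * X) * (4 * X * E ^ 6) := by
            gcongr
            exact hSc.trans (by nlinarith)
        _ = _ := by ring
  have b1 : ∑ i ∈ S, ‖T1 i‖ ^ 2 ≤ 2312 * L ^ 2 * (E ^ 6 * δ ^ 2 * X ^ 2) := by
    have k1 : ∀ i ∈ S, ‖T1 i‖ ^ 2 ≤ (17 * L * E) ^ 2 * (2 * (V * β) ^ 2) +
        (17 * L * E) ^ 2 * (2 * (X * E) ^ 2) * η i ^ 2 := by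
      intro i hi
      have k0 := h.η0 i
      have k2 : ‖T1 i‖ ≤ 17 * L * E * (V * β + X * E * η i) := by
        refine (h.term1 hw (hSI hi) hV hVX hZ0 hE).trans ?_
        rw [mul_right_comm X (η i)]
        gcongr
      refine (pow_le_pow_left₀ (norm_nonneg _) k2 2).trans ?_
      rw [mul_pow, mul_assoc ((17 * L * E) ^ 2), ← mul_add]
      exact mul_le_mul_of_nonneg_left (by nlinarith [sq_nonneg (V * β - X * E * η i)])
        (by positivity)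
    refine (sum_le_sum k1).trans ?_
    rw [sum_add_distrib, sum_const, nsmul_eq_mul, ← mul_sum]
    have k3 : ∑ i ∈ S, η i ^ 2 ≤ δ ^ 2 :=
      (sum_le_sum_of_subset_of_nonneg hSI fun _ _ _ => by positivity).trans (hη.trans hδ4)
    have k4 : (S.card : ℝ) ≤ 3 * D ^ 2 := hSc.trans (by nlinarith)
    calc _ ≤ 3 * D ^ 2 * ((17 * L * E) ^ 2 * (2 * (V * β) ^ 2)) +
          (17 * L * E) ^ 2 * (2 * (X * E) ^ 2) * δ ^ 2 := by gcongr
      _ = 1734 * L ^ 2 * E ^ 2 * (D ^ 2 * β ^ 2 * (V : ℝ) ^ 2) +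
          578 * L ^ 2 * E ^ 4 * (δ ^ 2 * X ^ 2) := by ring
      _ ≤ 1734 * L ^ 2 * E ^ 6 * (δ ^ 2 * X ^ 2) + 578 * L ^ 2 * E ^ 6 * (δ ^ 2 * X ^ 2) := by
          have k5 : D ^ 2 * β ^ 2 * (V : ℝ) ^ 2 ≤ δ ^ 2 * X ^ 2 := hβ.trans (by gcongr)
          exact add_le_add (mul_le_mul (by gcongr) k5 (by positivity) (by positivity)) (by gcongr)
      _ = _ := by ring
  have b2 : ∑ i ∈ S, ‖∑ r ∈ range K, B r i * A r i‖ ^ 2 ≤
      9 * (8 * C0 + 2) * (E ^ 6 * δ ^ 2 * X ^ 2) := by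
    have k1 : ∀ i ∈ S, ‖∑ r ∈ range K, B r i * A r i‖ ^ 2 ≤
        K * ∑ r ∈ range K, ‖B r i * A r i‖ ^ 2 := fun i _ =>
      (pow_le_pow_left₀ (norm_nonneg _) (norm_sum_le _ _) 2).trans (by
        simpa using sq_sum_le_card_mul_sum_sq (s := range K) (f := fun r => ‖B r i * A r i‖))
    refine (sum_le_sum k1).trans ?_
    rw [← mul_sum, sum_comm]
    have k2 : ∀ r ∈ range K, ∑ i ∈ S, ‖B r i * A r i‖ ^ 2 ≤
        (8 * C0 + 2) * δ ^ 4 * X ^ 2 * E ^ 4 := fun r hr =>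
      h.prod hw (a K) (by linarith) hV (hVa r) (ham (Nat.le_succ r)) (ha6 r) (hay r) hE hVE hη hβ
        S hSI fun i hi => le_of_lt (not_le.1 fun hc => (mem_sdiff.1 hi).2
          (mem_biUnion.2 ⟨r, hr, mem_filter.2 ⟨hSI hi, hc⟩⟩))
    have k3 := sum_le_card_nsmul _ _ _ k2
    rw [card_range, nsmul_eq_mul] at k3
    calc _ ≤ 3 * E / δ * (3 * E / δ * ((8 * C0 + 2) * δ ^ 4 * X ^ 2 * E ^ 4)) :=
          mul_le_mul hK' (k3.trans (by gcongr)) (by positivity) (by positivity)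
      _ = _ := by field_simp; ring
  have b3 : ∑ i ∈ S, ‖T3 i‖ ^ 2 ≤ 864 * C0 * L ^ 2 * (E ^ 6 * δ ^ 2 * X ^ 2) := by
    have hy3 : ∀ n, V < n → n ≤ a K → yy n ≤ n ∧ (n : ℝ) ≤ 3 * yy n := fun n h1 h2 =>
      ⟨(hy n h1 h2).1, (hy n h1 h2).2.trans (mul_le_mul_of_nonneg_right (by linarith) (by
        by_contra hc
        have k1 := (hy n h1 h2).2
        have k2 : (0 : ℝ) ≤ n := Nat.cast_nonneg n
        have k3 : (V : ℝ) < n := by exact_mod_cast h1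
        nlinarith))⟩
    have k1 := ls_smooth h.ls hC hD1 (M := 3 * X) (G := 6 * L * δ * E ^ 2) (by linarith) (a K)
      (er w X V yy) (fun m hm h0 => er_supp hw hX yy hy3 hm h0) fun m hm => by
        have m0 : (0 : ℝ) < m := by exact_mod_cast (mem_Ioc.1 hm).1
        have m1 : (m : ℝ) ≤ X ^ 3 := le_trans (by exact_mod_cast (mem_Ioc.1 hm).2) hZ3
        refine er_le hw hX0 hδ.le yy hy hm (le_trans (pow_le_pow_right₀ ?_ (by norm_num))
          (hτ m (m1.trans (pow_le_pow_right₀ (by linarith) (by norm_num))))) ?_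
        · exact_mod_cast card_pos.2 ⟨1, Nat.one_mem_divisors.2 (mem_Ioc.1 hm).1.ne'⟩
        · have := Real.log_le_log m0 m1
          rw [Real.log_pow] at this
          push_cast at this
          linarith
    refine ((sum_le_sum_of_subset_of_nonneg hSI fun _ _ _ => by positivity).trans k1).trans ?_
    have k2 : D ≤ X := hDX.trans (by nlinarith)
    calc _ ≤ 2 * C0 * (3 * X + X) * (3 * X) * (6 * L * δ * E ^ 2) ^ 2 := by gcongr
      _ = 864 * C0 * L ^ 2 * (E ^ 4 * δ ^ 2 * X ^ 2) := by ring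
      _ ≤ _ := by gcongr
  have b4 : 0 ≤ 6 * C0 * 6 ^ 20 * (E ^ 6 * δ ^ 2 * X ^ 2) := by positivity
  calc _ ≤ 4 * (12 * (E ^ 6 * δ ^ 2 * X ^ 2) + 2312 * L ^ 2 * (E ^ 6 * δ ^ 2 * X ^ 2) +
        9 * (8 * C0 + 2) * (E ^ 6 * δ ^ 2 * X ^ 2) +
        864 * C0 * L ^ 2 * (E ^ 6 * δ ^ 2 * X ^ 2)) := by gcongr
    _ ≤ _ := by linarith

end Pool.Agent.Lib.MP_778b46_nt.MA
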