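import Pool.Agent.Lib.MP_778b46_nt.MA.Defs
import Pool.Agent.Lib.MP_778b46_nt.VA.Wt

/-! The mean square of the contribution of the minor arcs. -/

set_option autoImplicit false

noncomputable section

namespace Pool.Agent.Lib.MP_778b46_nt.MA

open Finset MeasureTheory
open scoped Real
open Pool.Agent.Lib.MP_03e5d0_nt (ex bump bump_eq_one bump_eq_zero bump_mem)
open Pool.Agent.Lib.MP_778b46_nt.VA (nd nd_le nd_neg nd_nonneg ee_add ee_int ee_orth norm_ee
  conj_ee continuous_ee parseval frs Near near_unique)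

theorem a1_ee : ee = VA.ee := rfl

theorem a1_nd_cont : Continuous nd := by
  have : nd = fun x : ℝ => ‖(x : UnitAddCircle)‖ := by
    funext x
    rw [UnitAddCircle.norm_eq]
    rfl
  rw [this]
  exact continuous_norm.comp continuous_quotient_mk'

theorem a1_nd_add (x : ℝ) (n : ℤ) : nd (x + n) = nd x := by
  unfold nd
  rw [round_add_intCast]
  push_cast
  ring_nf

theorem a1_nd_eq {x : ℝ} (h : |x| ≤ 1 / 2) : nd x = |x| := by
  refine le_antisymm (by simpa using nd_le x 0) ?_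
  unfold nd
  rcases eq_or_ne (round x) 0 with h0 | h0
  · simp [h0]
  · have h1 : (1 : ℝ) ≤ |(round x : ℝ)| := by exact_mod_cast Int.one_le_abs h0
    have h2 := abs_sub_abs_le_abs_sub (round x : ℝ) x
    rw [abs_sub_comm] at h2
    linarith

theorem a1_bessel (F : ℝ → ℂ) (hF : Continuous F) (S : Finset ℕ) :
    ∑ m ∈ S, ‖∫ x in (0 : ℝ)..1, F x * VA.ee (-(m * x))‖ ^ 2 ≤ ∫ x in (0 : ℝ)..1, ‖F x‖ ^ 2 := by
  have hce := continuous_ee
  set z : ℕ → ℂ := fun m => ∫ x in (0 : ℝ)..1, F x * VA.ee (-(m * x)) with hz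
  set T : ℝ → ℂ := fun x => ∑ m ∈ S, z m * VA.ee (((m : ℤ) : ℝ) * x) with hT
  have hTc : Continuous T := by
    simp only [hT]
    fun_prop
  have h1 := parseval S (fun m : ℕ => (m : ℤ)) Nat.cast_injective.injOn z
  have e : ((∑ m ∈ S, ‖z m‖ ^ 2 : ℝ) : ℂ) =
      ∫ x in (0 : ℝ)..1, F x * (starRingEnd ℂ) (T x) := by
    simp only [hT, map_sum, map_mul, conj_ee, mul_sum]
    rw [intervalIntegral.integral_finsetSum fun m _ =>
      Continuous.intervalIntegrable (by fun_prop) _ _, Complex.ofReal_sum]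
    refine sum_congr rfl fun m _ => ?_
    simp only [mul_left_comm (F _), intervalIntegral.integral_const_mul, Int.cast_natCast]
    rw [Complex.ofReal_pow, ← Complex.conj_mul']
  have h2 : ‖∫ x in (0 : ℝ)..1, F x * (starRingEnd ℂ) (T x)‖ ≤
      ∫ x in (0 : ℝ)..1, (‖F x‖ ^ 2 + ‖T x‖ ^ 2) / 2 := by
    refine intervalIntegral.norm_integral_le_of_norm_le (by norm_num)
      (Filter.Eventually.of_forall fun x _ => ?_) (Continuous.intervalIntegrable (by fun_prop) _ _)
    rw [norm_mul, Complex.norm_conj]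
    nlinarith [sq_nonneg (‖F x‖ - ‖T x‖)]
  rw [← e, Complex.norm_real, Real.norm_of_nonneg (sum_nonneg fun _ _ => sq_nonneg _),
    intervalIntegral.integral_div, intervalIntegral.integral_add
      (Continuous.intervalIntegrable (by fun_prop) _ _)
      (Continuous.intervalIntegrable (by fun_prop) _ _), h1] at h2
  linarith

theorem a1_kk_abs (y : ℝ) : kk |y| = kk y := by
  rcases abs_choice y with h | h
  · rw [h]
  · rw [h, kk, kk, bump, bump, mul_comm]
    congr 2 <;> ring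

theorem a1_kk_cont : Continuous kk := by
  have := Real.smoothTransition.continuous
  unfold kk bump
  fun_prop

theorem a1_w1_zero {x : ℝ} (h : x ≤ 0 ∨ 1 ≤ x) : w1 x = 0 := by
  rw [w1, w0, bump_eq_zero, zero_mul]
  rw [le_abs]
  rcases h with h | h
  · right; linarith
  · left; linarith

theorem a1_w1_mem (x : ℝ) : 0 ≤ w1 x ∧ w1 x ≤ 1 :=
  ⟨mul_self_nonneg _, mul_le_one₀ (bump_mem _ _).2 (bump_mem _ _).1 (bump_mem _ _).2⟩

theorem a1_lip : ∃ K : ℝ, 0 ≤ K ∧ ∀ x y, |w1 x - w1 y| ≤ K * |x - y| := by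
  have h1 : ContDiff ℝ 1 w1 := by
    have := Real.smoothTransition.contDiff (n := 1)
    unfold w1 w0 bump
    fun_prop
  have h2 : HasCompactSupport w1 := HasCompactSupport.intro (isCompact_Icc (a := 0) (b := 1))
    fun x hx => a1_w1_zero (by
      rw [Set.mem_Icc, not_and_or, not_le, not_le] at hx
      exact hx.imp le_of_lt le_of_lt)
  obtain ⟨K, hK⟩ := ContDiff.lipschitzWith_of_hasCompactSupport h2 h1 (by simp)
  exact ⟨K, K.2, fun x y => hK.dist_le_mul x y⟩

/-- The coefficients of the exponential sum. -/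
def a1f (X : ℝ) (n : ℕ) : ℝ := lp n * w1 (n / X)

/-- The exponential sum. -/
def a1S (X x : ℝ) : ℂ := ∑ n ∈ Icc 1 ⌊X⌋₊, (a1f X n : ℂ) * VA.ee (n * x)

/-- The multiplier of one arc. -/
def a1K (X T β : ℝ) : ℝ := kk (2 * π * X * nd β / T)

theorem a1S_cont (X : ℝ) : Continuous (a1S X) := by
  have := continuous_ee
  unfold a1S
  fun_prop

theorem a1K_cont (X T : ℝ) : Continuous (a1K X T) := by
  have := a1_kk_cont
  have := a1_nd_cont
  unfold a1K
  fun_prop

theorem a1f_zero {X : ℝ} (hX : 0 < X) {n : ℕ} (h : n ∉ Icc 1 ⌊X⌋₊) : a1f X n = 0 := by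
  rw [a1f, a1_w1_zero, mul_zero]
  rw [mem_Icc, not_and_or, not_le, not_le] at h
  rcases h with h | h
  · left
    rw [show n = 0 by omega]
    simp
  · right
    rw [le_div_iff₀ hX, one_mul]
    exact (Nat.lt_of_floor_lt h).le

theorem a1_RR {X : ℝ} (hX : 0 < X) (m : ℕ) :
    (RR X m : ℂ) = ∫ x in (0 : ℝ)..1, a1S X x * a1S X x * VA.ee (-(m * x)) := by
  have hce := continuous_ee
  have e : ∀ x : ℝ, a1S X x * a1S X x * VA.ee (-(m * x)) = ∑ p ∈ Icc 1 ⌊X⌋₊ ×ˢ Icc 1 ⌊X⌋₊,
      ((a1f X p.1 * a1f X p.2 : ℝ) : ℂ) * VA.ee (((p.1 + p.2 - m : ℤ) : ℝ) * x) := by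
    intro x
    rw [a1S, sum_mul_sum, ← sum_product', sum_mul]
    refine sum_congr rfl fun p _ => ?_
    have : ((p.1 + p.2 - m : ℤ) : ℝ) * x = p.1 * x + p.2 * x + -(m * x) := by
      push_cast
      ring
    rw [this, ee_add, ee_add]
    push_cast
    ring
  simp only [e]
  rw [intervalIntegral.integral_finsetSum fun p _ =>
    Continuous.intervalIntegrable (by fun_prop) _ _]
  simp only [intervalIntegral.integral_const_mul, ee_orth, mul_ite, mul_one, mul_zero]
  rw [← sum_filter, ← Complex.ofReal_sum, RR]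
  congr 1
  symm
  refine sum_subset (fun p hp => ?_) fun p hp hp' => ?_
  · have := (mem_filter.1 hp).2
    rw [HasAntidiagonal.mem_antidiagonal]
    omega
  · rw [HasAntidiagonal.mem_antidiagonal] at hp
    rw [mem_filter, mem_product, not_and_or, not_and_or] at hp'
    rcases hp' with (h | h) | h
    · rw [a1f_zero hX h, zero_mul]
    · rw [a1f_zero hX h, mul_zero]
    · exact absurd (by omega) h

theorem a1S_add (X x : ℝ) : a1S X (x + 1) = a1S X x := by
  refine sum_congr rfl fun n _ => ?_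
  have := ee_int n
  rw [Int.cast_natCast] at this
  rw [mul_add, ee_add, mul_one, this, mul_one]

theorem a1_arc {X T : ℝ} (hT : 0 < T) (hTX : T ≤ X) (q c m : ℕ) :
    (2 * π * X : ℂ)⁻¹ * (ee (-(m * c / q)) * JJ X m T (ac q c) (ac q c)) =
      ∫ x in (0 : ℝ)..1, (a1K X T (x - c / q) : ℂ) * (a1S X x * a1S X x * VA.ee (-(m * x))) := by
  have hX : 0 < X := hT.trans_le hTX
  have hpi := Real.pi_gt_three
  have hX' : (X : ℂ) ≠ 0 := Complex.ofReal_ne_zero.2 hX.ne'
  set φ : ℝ → ℂ := fun β => a1S X (β + c / q) * a1S X (β + c / q) *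
    VA.ee (-(m * (β + c / q))) with hφ
  have e0 : ∀ β u : ℝ, ex (2 * π * X * β) (u / X) = VA.ee (u * β) := by
    intro β u
    unfold ex VA.ee
    congr 1
    push_cast
    field_simp
  have e1 : ∀ β : ℝ, SS X (ac q c) (2 * π * X * β) = a1S X (β + c / q) := by
    intro β
    refine sum_congr rfl fun n _ => ?_
    rw [e0, mul_add, ee_add, ac, a1_ee, mul_div_assoc (n : ℝ), a1f]
    ring
  have e2 := Measure.integral_comp_mul_left (fun y : ℝ => ee (-(m * c / q)) *
    ((kk (y / T) : ℂ) * SS X (ac q c) y * SS X (ac q c) y * ex (-y) (m / X))) (2 * π * X)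
  rw [abs_of_pos (by positivity), Complex.real_smul] at e2
  push_cast at e2
  rw [JJ, ← integral_const_mul, ← e2]
  have e3 : ∀ β : ℝ, ee (-(m * c / q)) * ((kk (2 * π * X * β / T) : ℂ) *
      SS X (ac q c) (2 * π * X * β) * SS X (ac q c) (2 * π * X * β) *
      ex (-(2 * π * X * β)) (m / X)) = (kk (2 * π * X * β / T) : ℂ) * φ β := by
    intro β
    have : -((m : ℝ) * (β + c / q)) = -(m * c / q) + m * -β := by ring
    rw [e1, ← mul_neg, e0, hφ]
    simp only
    rw [this, ee_add, a1_ee]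
    ring
  simp only [e3]
  have e4 : ∫ β in (-(1 / 2) : ℝ)..(-(1 / 2) + 1), (kk (2 * π * X * β / T) : ℂ) * φ β =
      ∫ β, (kk (2 * π * X * β / T) : ℂ) * φ β := by
    refine intervalIntegral.integral_eq_integral_of_support_subset fun β hβ => ?_
    by_contra hc
    refine hβ ?_
    have h1 : 1 / 2 ≤ |β| := by
      rw [Set.mem_Ioc, not_and_or, not_lt, not_le] at hc
      rw [le_abs]
      rcases hc with h | h
      · right; linarith
      · left; linarith
    have h2 : kk (2 * π * X * β / T) = 0 := by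
      refine bump_eq_zero ?_
      rw [abs_div, abs_mul, abs_of_pos hT, abs_of_pos (by positivity : 0 < 2 * π * X),
        le_div_iff₀ hT]
      nlinarith [mul_le_mul_of_nonneg_left h1 (by positivity : 0 ≤ 2 * π * X)]
    simp only [h2, Complex.ofReal_zero, zero_mul]
  have e5 : ∫ β in (-(1 / 2) : ℝ)..(-(1 / 2) + 1), (kk (2 * π * X * β / T) : ℂ) * φ β =
      ∫ β in (-(1 / 2) : ℝ)..(-(1 / 2) + 1), (a1K X T β : ℂ) * φ β := by
    refine intervalIntegral.integral_congr fun β hβ => ?_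
    rw [Set.uIcc_of_le (by norm_num)] at hβ
    rw [a1K, a1_nd_eq (abs_le.2 ⟨hβ.1, by linarith [hβ.2]⟩), ← a1_kk_abs (2 * π * X * β / T),
      abs_div, abs_mul, abs_of_pos hT, abs_of_pos (by positivity : 0 < 2 * π * X)]
  have hp : Function.Periodic (fun β => (a1K X T β : ℂ) * φ β) 1 := by
    intro β
    have a1 := a1_nd_add β 1
    have a2 := ee_int (-m)
    push_cast at a1 a2
    have a3 : -((m : ℝ) * (β + c / q + 1)) = -(m * (β + c / q)) + -m := by ring
    simp only [hφ, a1K]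
    rw [a1, add_right_comm, a1S_add, a3, ee_add, a2, mul_one]
  rw [← e4, e5, hp.intervalIntegral_add_eq (-(1 / 2)) (0 - c / q),
    show (0 : ℝ) - c / q + 1 = 1 - c / q by ring,
    ← intervalIntegral.integral_comp_sub_right (fun β => (a1K X T β : ℂ) * φ β)]
  simp only [hφ, sub_add_cancel]

/-- The multiplier of the major arcs. -/
def a1M (X P H x : ℝ) : ℝ := ∑ ω ∈ frs (Icc 1 ⌊P⌋₊), a1K X (H / ω.1) (x - ω.2 / ω.1)

theorem a1M_cases {X P H : ℝ} (hP : 1 ≤ P) (hPH : P ≤ H) (hX : P * H ≤ X) (x : ℝ) :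
    |1 - a1M X P H x| ≤ 1 ∧ ∀ ω ∈ frs (Icc 1 ⌊P⌋₊),
      2 * π * X * nd (x - ω.2 / ω.1) ≤ H / ω.1 → a1M X P H x = 1 := by
  have hpi := Real.pi_gt_three
  have hH : 0 < H := by linarith
  have hpos : ∀ ω ∈ frs (Icc 1 ⌊P⌋₊), (0 : ℝ) < ω.1 := fun ω hω => by
    exact_mod_cast (mem_Icc.1 (mem_sigma.1 hω).1).1
  have h1 : ∀ ω ∈ frs (Icc 1 ⌊P⌋₊), a1K X (H / ω.1) (x - ω.2 / ω.1) ≠ 0 → Near P (-x) ω := by
    intro ω hω h
    have h0 := hpos ω hω
    have h2 := nd_nonneg (x - ω.2 / ω.1)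
    have h3 := not_le.1 (mt bump_eq_zero h)
    have hX0 : 0 ≤ X := by nlinarith
    rw [abs_of_nonneg (by positivity), div_lt_iff₀ (by positivity), ← mul_div_assoc,
      lt_div_iff₀ h0] at h3
    unfold Near
    rw [← nd_neg, show -(-x + (ω.2 : ℝ) / ω.1) = x - ω.2 / ω.1 by ring]
    have h4 : 0 ≤ nd (x - ω.2 / ω.1) * ω.1 := by positivity
    have h5 := mul_le_mul_of_nonneg_left hX h4
    have h6 : 0 ≤ X * (nd (x - ω.2 / ω.1) * ω.1) := mul_nonneg (by nlinarith) h4
    refine lt_of_mul_lt_mul_left ?_ hH.le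
    nlinarith
  have h2 : ∀ ω ∈ frs (Icc 1 ⌊P⌋₊), a1K X (H / ω.1) (x - ω.2 / ω.1) ≠ 0 →
      a1M X P H x = a1K X (H / ω.1) (x - ω.2 / ω.1) := fun ω hω h =>
    sum_eq_single_of_mem ω hω fun ω' hω' hne => by
      by_contra h'
      exact hne (near_unique (fun r hr => (Nat.cast_le.2 (mem_Icc.1 hr).2).trans
        (Nat.floor_le (by linarith))) hω' hω (h1 ω' hω' h') (h1 ω hω h))
  refine ⟨?_, fun ω hω h => ?_⟩
  · by_cases h : ∃ ω ∈ frs (Icc 1 ⌊P⌋₊), a1K X (H / ω.1) (x - ω.2 / ω.1) ≠ 0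
    · obtain ⟨ω, hω, h⟩ := h
      rw [h2 ω hω h]
      have : 0 ≤ a1K X (H / ω.1) (x - ω.2 / ω.1) ∧ a1K X (H / ω.1) (x - ω.2 / ω.1) ≤ 1 :=
        bump_mem _ _
      exact abs_le.2 ⟨by linarith [this.2], by linarith [this.1]⟩
    · push Not at h
      rw [a1M, sum_eq_zero h]
      simp
  · have h0 := hpos ω hω
    have h3 : a1K X (H / ω.1) (x - ω.2 / ω.1) = 1 := by
      refine bump_eq_one ?_
      have := nd_nonneg (x - ω.2 / ω.1)
      have : 0 ≤ X := by nlinarith
      rwa [abs_of_nonneg (by positivity), div_le_one (by positivity)]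
    rw [h2 ω hω (by rw [h3]; exact one_ne_zero), h3]

theorem a1_sup {K X P H : ℝ} (hK : 0 ≤ K) (hL : ∀ x y, |w1 x - w1 y| ≤ K * |x - y|) (hX : 2 ≤ X)
    (hP : 1 ≤ P) (hPH : P ≤ H) (hHX : P * H ≤ X) (h25 : P ≤ X ^ (2 / 5 : ℝ)) (x : ℝ) :
    |1 - a1M X P H x| * ‖a1S X x‖ ≤ (1 + K) * 40000 * (X / √P) * Real.log X ^ 3 := by
  have hpi := Real.pi_gt_three
  have hpi' := Real.pi_lt_four
  have hX0 : 0 < X := by linarith
  have hl : 1 / 2 ≤ Real.log X := by
    linarith [Real.log_le_log (by norm_num) hX, Real.log_two_gt_d9]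
  have h0 : 0 ≤ X / √P := by positivity
  obtain ⟨h1, h2⟩ := a1M_cases hP hPH hHX x
  have hPX : P ≤ X := by nlinarith
  obtain ⟨b, q, hq, a1, a2, a3⟩ := VA.dirichlet x (Q := 2 * π * X / P)
    (by rw [le_div_iff₀ (by linarith)]; nlinarith)
  have hq' : (0 : ℝ) < q := by exact_mod_cast hq
  have hqz : (0 : ℤ) < q := by exact_mod_cast hq
  rcases le_or_gt (q : ℝ) P with h | h
  · have ha : (((b % q).toNat : ℕ) : ℤ) = b % q := Int.toNat_of_nonneg (Int.emod_nonneg _ hqz.ne')
    have hd := Int.emod_add_mul_ediv b q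
    rw [h2 ⟨q, (b % q).toNat⟩, sub_self, abs_zero, zero_mul]
    · positivity
    · simp only [frs, mem_sigma, mem_filter, mem_range, mem_Icc]
      refine ⟨⟨hq, Nat.le_floor h⟩, ?_, ?_⟩
      · have := Int.emod_lt_of_pos b hqz
        omega
      · rw [← Nat.isCoprime_iff_coprime, ha]
        have : b % q = b + q * (-(b / q)) := by linarith
        rw [this]
        exact a2.add_mul_left_left _
    · simp only
      have h4 := nd_le (x - ((b % q).toNat : ℕ) / q) (b / q)
      have h5 : (((b % q).toNat : ℕ) : ℝ) + q * (b / q : ℤ) = b := by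
        rw [← ha] at hd
        exact_mod_cast hd
      have e : x - ((b % q).toNat : ℕ) / q - (b / q : ℤ) = x - b / q := by
        rw [eq_sub_of_add_eq h5]
        field_simp
        ring
      rw [e] at h4
      refine (mul_le_mul_of_nonneg_left (h4.trans a3) (by positivity)).trans ?_
      have e2 : 2 * π * X * (1 / (q * (2 * π * X / P))) = P / q := by field_simp
      rw [e2]
      gcongr
  · have h45 : X ^ (4 / 5 : ℝ) ≤ X / √P := by
      rw [le_div_iff₀ (by positivity)]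
      have b1 : √P ≤ X ^ (1 / 5 : ℝ) := by
        refine Real.sqrt_le_iff.2 ⟨by positivity, h25.trans (le_of_eq ?_)⟩
        rw [← Real.rpow_natCast, ← Real.rpow_mul hX0.le]
        norm_num
      refine (mul_le_mul_of_nonneg_left b1 (by positivity)).trans (le_of_eq ?_)
      rw [← Real.rpow_add hX0]
      norm_num
    have b2 : √(X * (2 * π * X / P)) ≤ 3 * (X / √P) := by
      refine Real.sqrt_le_iff.2 ⟨by positivity, ?_⟩
      rw [mul_pow, div_pow, Real.sq_sqrt (by linarith)]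
      have : X * (2 * π * X / P) = 2 * π * (X ^ 2 / P) := by ring
      rw [this]
      exact mul_le_mul_of_nonneg_right (by linarith) (by positivity)
    have b3 : √X ≤ X / √P := by
      rw [le_div_iff₀ (by positivity), ← Real.sqrt_mul hX0.le]
      exact Real.sqrt_le_iff.2 ⟨hX0.le, by nlinarith⟩
    have hN : (⌊X⌋₊ : ℝ) ≤ X := Nat.floor_le hX0.le
    have b4 := VA.wsum_le (N := ⌊X⌋₊) (Y := X) (V := 1 + K) (w := 1) (x := x)
      (B := 277 * (5 * (X / √P)) * (3 * Real.log X) ^ 3) (by linarith) hN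
      (fun n => (w1 (n / X) : ℝ)) (add_le_add ?_ ?_) zero_le_one fun k hk => ?_
    · have e : a1S X x = ∑ n ∈ Ioc 0 ⌊X⌋₊, ((w1 (n / X) : ℝ) : ℂ) *
          ((VA.lp n : ℂ) * VA.ee (n * x)) := by
        refine sum_congr (Finset.Icc_add_one_left_eq_Ioc 0 _) fun n _ => ?_
        rw [a1f, show lp n = VA.lp n from rfl]
        push_cast
        ring
      rw [mul_one, mul_one, ← e] at b4
      refine (mul_le_of_le_one_left (norm_nonneg _) h1).trans (b4.trans ?_)
      rw [mul_assoc (1 + K), mul_assoc (1 + K)]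
      refine mul_le_mul_of_nonneg_left ?_ (by linarith)
      have c1 : Real.log X ≤ 4 * Real.log X ^ 3 := by nlinarith [sq_nonneg (Real.log X - 1 / 2)]
      have c2 : √X * Real.log X ≤ X / √P * (4 * Real.log X ^ 3) :=
        mul_le_mul b3 c1 (by linarith) h0
      have c3 : 0 ≤ X / √P * Real.log X ^ 3 := by positivity
      nlinarith
    · rw [Complex.norm_real, Real.norm_of_nonneg (a1_w1_mem _).1]
      exact (a1_w1_mem _).2
    · refine (sum_le_card_nsmul _ _ (K / X) fun k _ => ?_).trans ?_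
      · rw [← Complex.ofReal_sub, Complex.norm_real, Real.norm_eq_abs]
        refine (hL _ _).trans (le_of_eq ?_)
        rw [← sub_div]
        push_cast
        rw [add_sub_cancel_left, abs_of_pos (by positivity), mul_one_div]
      · rw [card_range, nsmul_eq_mul, ← mul_div_assoc, div_le_iff₀ hX0]
        nlinarith
    · rw [mul_one]
      refine (VA.GG_le (by linarith) ((Nat.cast_le.2 hk).trans hN) (by linarith) h45 h.le a1 a2
        (a3.trans (one_div_le_one_div_of_le (by positivity) (by nlinarith)))).trans ?_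
      gcongr <;> linarith

theorem minor_ms : ∃ C : ℝ, ∀ X P H : ℝ, 2 ≤ X → 1 ≤ P → P ≤ H → P * H ≤ X →
    P ≤ X ^ (2 / 5 : ℝ) → ∀ S : Finset ℕ,
      ∑ m ∈ S, ‖(RR X m : ℂ) - R1 X P H m‖ ^ 2 ≤ C * X ^ 3 / P * Real.log X ^ 9 := by
  obtain ⟨K, hK, hL⟩ := a1_lip
  refine ⟨2 * ((1 + K) * 40000) ^ 2, fun X P H hX hP hPH hHX h25 S => ?_⟩
  have hX0 : 0 < X := by linarith
  have hl : 1 / 2 ≤ Real.log X := by
    linarith [Real.log_le_log (by norm_num) hX, Real.log_two_gt_d9]
  have c1 := continuous_ee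
  have c2 := a1S_cont X
  have c3 := a1K_cont X
  have c4 : Continuous (a1M X P H) := continuous_finsetSum _ fun ω _ => (c3 _).comp (by fun_prop)
  set F : ℝ → ℂ := fun x => ((1 - a1M X P H x : ℝ) : ℂ) * (a1S X x * a1S X x) with hF
  have c5 : Continuous F := by
    simp only [hF]
    fun_prop
  have e : ∀ m ∈ S, ‖(RR X m : ℂ) - R1 X P H m‖ ^ 2 =
      ‖∫ x in (0 : ℝ)..1, F x * VA.ee (-(m * x))‖ ^ 2 := by
    intro m _
    have e1 : R1 X P H m = ∫ x in (0 : ℝ)..1,
        (a1M X P H x : ℂ) * (a1S X x * a1S X x * VA.ee (-(m * x))) := by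
      simp only [a1M, Complex.ofReal_sum, sum_mul]
      rw [intervalIntegral.integral_finsetSum fun ω _ => Continuous.intervalIntegrable
        (by have := c3 (H / ω.1); fun_prop) _ _, frs, sum_sigma, R1, mul_sum]
      refine sum_congr rfl fun q hq => ?_
      rw [mul_sum]
      have hq' : (1 : ℝ) ≤ q := by exact_mod_cast (mem_Icc.1 hq).1
      exact sum_congr rfl fun c _ => a1_arc (div_pos (by linarith) (by linarith))
        ((div_le_self (by linarith) hq').trans (by nlinarith)) q c m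
    rw [e1, a1_RR hX0, ← intervalIntegral.integral_sub
      (Continuous.intervalIntegrable (by fun_prop) _ _)
      (Continuous.intervalIntegrable (by fun_prop) _ _)]
    congr 2
    refine intervalIntegral.integral_congr fun x _ => ?_
    simp only [hF]
    push_cast
    ring
  rw [sum_congr rfl e]
  refine (a1_bessel F c5 S).trans ?_
  have h1 := parseval (Icc 1 ⌊X⌋₊) (fun n : ℕ => (n : ℤ)) Nat.cast_injective.injOn
    fun n => (a1f X n : ℂ)
  simp only [Int.cast_natCast] at h1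
  have h2 : ∫ x in (0 : ℝ)..1, ‖F x‖ ^ 2 ≤ ∫ x in (0 : ℝ)..1,
      ((1 + K) * 40000 * (X / √P) * Real.log X ^ 3) ^ 2 * ‖a1S X x‖ ^ 2 := by
    refine intervalIntegral.integral_mono_on (by norm_num)
      (Continuous.intervalIntegrable (by fun_prop) _ _)
      (Continuous.intervalIntegrable (by fun_prop) _ _) fun x _ => ?_
    simp only [hF]
    rw [norm_mul, norm_mul, ← mul_assoc, mul_pow, Complex.norm_real, Real.norm_eq_abs]
    exact mul_le_mul_of_nonneg_right
      (pow_le_pow_left₀ (by positivity) (a1_sup hK hL hX hP hPH hHX h25 x) 2) (sq_nonneg _)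
  have h3 : ∑ n ∈ Icc 1 ⌊X⌋₊, ‖(a1f X n : ℂ)‖ ^ 2 ≤ X * Real.log X ^ 2 := by
    refine (sum_le_card_nsmul _ _ (Real.log X ^ 2) fun n hn => ?_).trans ?_
    · have a1 : (n : ℝ) ≤ X := (Nat.cast_le.2 (mem_Icc.1 hn).2).trans (Nat.floor_le hX0.le)
      have a2 := Real.log_le_log (by exact_mod_cast (mem_Icc.1 hn).1) a1
      have a3 : 0 ≤ lp n := VA.lp_nonneg n
      rw [Complex.norm_real, a1f, Real.norm_of_nonneg (mul_nonneg a3 (a1_w1_mem _).1)]
      exact pow_le_pow_left₀ (mul_nonneg a3 (a1_w1_mem _).1)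
        ((mul_le_of_le_one_right a3 (a1_w1_mem _).2).trans ((VA.lp_le_log n).trans a2)) 2
    · rw [Nat.card_Icc, nsmul_eq_mul, Nat.add_sub_cancel]
      exact mul_le_mul_of_nonneg_right (Nat.floor_le hX0.le) (by positivity)
  rw [intervalIntegral.integral_const_mul] at h2
  refine h2.trans ((mul_le_mul_of_nonneg_left (h1.le.trans h3) (sq_nonneg _)).trans ?_)
  rw [mul_pow, mul_pow, div_pow, Real.sq_sqrt (by linarith)]
  have h4 : Real.log X ^ 8 ≤ 2 * Real.log X ^ 9 := by
    have : 0 ≤ Real.log X ^ 8 := by positivity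
    nlinarith
  calc _ = ((1 + K) * 40000) ^ 2 * (X ^ 3 / P) * Real.log X ^ 8 := by ring
    _ ≤ ((1 + K) * 40000) ^ 2 * (X ^ 3 / P) * (2 * Real.log X ^ 9) := by gcongr
    _ = _ := by ring

end Pool.Agent.Lib.MP_778b46_nt.MA
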