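import Pool.Agent.Lib.MP_778b46_nt.GX.Z4a
import Pool.Agent.Lib.MP_778b46_nt.GX.Z4c
import Pool.Agent.Lib.MP_778b46_nt.GX.Z4p

/- Large values of the Dirichlet polynomial over the primes: general tools (summation by parts,
twisted character sums, the hyperbola rearrangement and the decomposition of the von Mangoldt
function). -/

noncomputable section

namespace Pool.Agent.Lib.MP_778b46_nt.MA

open Complex Finset Pool.Agent.Lib.MP_778b46_nt.GX
open ArithmeticFunction (moebius vonMangoldt zeta)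

theorem abel_le (a g : ℕ → ℂ) {K K2 : ℕ} (hK : K ≤ K2) {B : ℝ}
    (hB : ∀ K', K ≤ K' → K' ≤ K2 → ‖∑ k ∈ Ioc K K', a k‖ ≤ B) :
    ‖∑ k ∈ Ioc K K2, g k * a k‖ ≤ B * (‖g (K2 + 1)‖ + ∑ k ∈ Ioc K K2, ‖g k - g (k + 1)‖) := by
  have e : ∀ K', K ≤ K' → ∑ k ∈ Ioc K K', g k * a k = (∑ k ∈ Ioc K K', a k) * g (K' + 1) +
      ∑ k ∈ Ioc K K', (∑ m ∈ Ioc K k, a m) * (g k - g (k + 1)) := by
    intro K' h
    induction K', h using Nat.le_induction with
    | base => simp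
    | succ N hN ih =>
      rw [sum_Ioc_succ_top hN, ih, sum_Ioc_succ_top hN
        (fun n => (∑ m ∈ Ioc K n, a m) * (g n - g (n + 1))), sum_Ioc_succ_top hN a]
      ring
  rw [e K2 hK, mul_add, mul_sum]
  refine norm_add_le_of_le ?_ (norm_sum_le_of_le _ fun k hk => ?_)
  · rw [norm_mul]
    exact mul_le_mul_of_nonneg_right (hB K2 hK le_rfl) (norm_nonneg _)
  · rw [norm_mul]
    exact mul_le_mul_of_nonneg_right (hB k (mem_Ioc.1 hk).1.le (mem_Ioc.1 hk).2) (norm_nonneg _)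

theorem cpow_diff {s : ℂ} (hs : s.re = 0) {n : ℕ} (hn : 0 < n) {x : ℝ}
    (hx : x ∈ Set.Icc (n : ℝ) (n + 1)) :
    ‖((n + 1 : ℕ) : ℂ) ^ (-s) - (x : ℂ) ^ (-s)‖ ≤ ‖s‖ / n := by
  rcases eq_or_ne s 0 with rfl | hs0
  · simp
  have hn' : (0 : ℝ) < n := Nat.cast_pos.2 hn
  have h := (convex_Icc (n : ℝ) (n + 1)).norm_image_sub_le_of_norm_hasDerivWithin_le
    (f := fun y : ℝ => (y : ℂ) ^ (-s)) (f' := fun y : ℝ => -s * (y : ℂ) ^ (-s - 1))
    (C := ‖s‖ / n) (x := x) (y := n + 1)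
    (fun y hy => (hasDerivAt_ofReal_cpow_const (hn'.trans_le hy.1).ne'
      (neg_ne_zero.2 hs0)).hasDerivWithinAt)
    (fun y hy => by
      rw [norm_mul, norm_neg, norm_cpow_eq_rpow_re_of_pos (hn'.trans_le hy.1), div_eq_mul_inv]
      refine mul_le_mul_of_nonneg_left ?_ (norm_nonneg _)
      simp only [sub_re, neg_re, one_re, hs, neg_zero, zero_sub, Real.rpow_neg_one]
      exact inv_anti₀ hn' hy.1)
    hx ⟨by linarith, le_rfl⟩
  have h1 : ‖(n : ℝ) + 1 - x‖ ≤ 1 := by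
    rw [Real.norm_eq_abs, abs_le]
    constructor <;> linarith [hx.1, hx.2]
  have h2 := h.trans (mul_le_of_le_one_right (by positivity) h1)
  simpa using h2

theorem zu_le0 {s : ℂ} (hs : s.re = 0) {n : ℕ} (hn : 0 < n) : ‖zu n s‖ ≤ ‖s - 1‖ * (‖s‖ / n) := by
  have hn' : (0 : ℝ) < n := Nat.cast_pos.2 hn
  have hs1' : 1 - s ≠ 0 := fun h => by
    have := congrArg re h
    simp [hs] at this
  have h := (convex_Icc (n : ℝ) (n + 1)).norm_image_sub_le_of_norm_hasDerivWithin_le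
    (f := fun y : ℝ => (s - 1) * ((n + 1 : ℕ) : ℂ) ^ (-s) * (y : ℂ) + (y : ℂ) ^ (1 - s))
    (f' := fun y : ℝ => (s - 1) * (((n + 1 : ℕ) : ℂ) ^ (-s) - (y : ℂ) ^ (-s)))
    (C := ‖s - 1‖ * (‖s‖ / n)) (x := n) (y := n + 1)
    (fun y hy => by
      have k1 := hasDerivAt_ofReal_cpow_const (hn'.trans_le hy.1).ne' hs1'
      have k2 : HasDerivAt (fun y : ℝ => (s - 1) * ((n + 1 : ℕ) : ℂ) ^ (-s) * (y : ℂ))
          ((s - 1) * ((n + 1 : ℕ) : ℂ) ^ (-s) * 1) y :=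
        (Complex.ofRealCLM.hasDerivAt (x := y)).const_mul _
      refine ((k2.add k1).congr_deriv ?_).hasDerivWithinAt
      rw [show 1 - s - 1 = -s by ring]
      ring)
    (fun y hy => by
      rw [norm_mul]
      exact mul_le_mul_of_nonneg_left (cpow_diff hs hn hy) (norm_nonneg _))
    ⟨le_rfl, by linarith⟩ ⟨by linarith, le_rfl⟩
  rw [add_sub_cancel_left, norm_one, mul_one] at h
  refine le_trans (le_of_eq ?_) h
  congr 1
  unfold zu
  push_cast
  ring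

theorem sum_inv_le {K K' : ℕ} (hK : 1 ≤ K) (h : K' ≤ 16 * K) (S : Finset ℕ) (hS : S ⊆ Icc K K')
    {c : ℝ} (hc : 0 ≤ c) : ∑ k ∈ S, c / k ≤ 16 * c := by
  have hK0 : (0 : ℝ) < K := by exact_mod_cast hK
  refine (sum_le_card_nsmul S _ (c / K) fun k hk => div_le_div_of_nonneg_left hc hK0
    (by exact_mod_cast (mem_Icc.1 (hS hk)).1)).trans ?_
  have h1 : S.card ≤ 16 * K := (card_le_card hS).trans (by rw [Nat.card_Icc]; omega)
  have h2 : (S.card : ℝ) ≤ 16 * K := by exact_mod_cast h1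
  rw [nsmul_eq_mul]
  refine (mul_le_mul_of_nonneg_right h2 (by positivity)).trans (le_of_eq ?_)
  field_simp

theorem pvt_ne {c : ℕ} [NeZero c] {ψ : DirichletCharacter ℂ c} (hψ : ψ.IsPrimitive) (h1 : ψ ≠ 1)
    {s : ℂ} (hs : s.re = 0) {K K' : ℕ} (hK : 1 ≤ K) (hK' : K ≤ K') (h : K' ≤ 16 * K) :
    ‖∑ k ∈ Ioc K K', ψ (k : ZMod c) * (k : ℂ) ^ (-s)‖ ≤
      2 * (√c * (1 + Real.log c)) * (1 + 16 * ‖s‖) := by
  have h2 := abel_le (fun k => ψ (k : ZMod c)) (fun k => (k : ℂ) ^ (-s)) hK'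
    (B := 2 * (√c * (1 + Real.log c))) (fun M hM _ => by
      have e := sum_Ioc_consecutive (fun k : ℕ => ψ (k : ZMod c)) (Nat.zero_le K) hM
      rw [eq_sub_of_add_eq' e, two_mul]
      exact norm_sub_le_of_le (pv hψ h1 M) (pv hψ h1 K))
  simp only [mul_comm (ψ _)]
  refine h2.trans (mul_le_mul_of_nonneg_left (add_le_add ?_ ?_) (le_trans (norm_nonneg _) (by
    rw [two_mul]; exact norm_sub_le_of_le (pv hψ h1 0) (pv hψ h1 0))))
  · rw [norm_natCast_cpow_of_pos (Nat.succ_pos _)]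
    simp [hs]
  · refine le_trans (sum_le_sum fun k hk => ?_) (sum_inv_le hK h _ Ioc_subset_Icc_self
      (norm_nonneg s))
    have hk0 : 0 < k := by have := (mem_Ioc.1 hk).1; omega
    rw [norm_sub_rev]
    simpa using cpow_diff hs hk0 (x := k) ⟨le_rfl, by linarith⟩

theorem pvt_one {s : ℂ} (hs : s.re = 0) {K K' : ℕ} (hK : 1 ≤ K) (hK' : K ≤ K') (h : K' ≤ 16 * K) :
    ‖∑ k ∈ Ioc K K', (k : ℂ) ^ (-s)‖ ≤ 16 * ‖s‖ + K * (34 / (1 + ‖s‖)) := by
  have e1 := zu_sum s hK'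
  rw [← sum_Ioc_consecutive (fun k : ℕ => (k : ℂ) ^ (-s)) (Nat.zero_le K) hK'] at e1
  have e2 : (s - 1) * ∑ k ∈ Ioc K K', (k : ℂ) ^ (-s) =
      (K : ℂ) ^ (1 - s) - (K' : ℂ) ^ (1 - s) + ∑ n ∈ Ico K K', zu n s := by
    linear_combination e1
  have n1 : ∀ M : ℕ, 0 < M → ‖(M : ℂ) ^ (1 - s)‖ = M := fun M hM => by
    rw [norm_natCast_cpow_of_pos hM]; simp [hs]
  have e3 : ‖∑ n ∈ Ico K K', zu n s‖ ≤ ‖s - 1‖ * (16 * ‖s‖) := by
    refine (norm_sum_le_of_le _ fun n hn => zu_le0 hs (by have := (mem_Ico.1 hn).1; omega)).trans ?_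
    rw [← mul_sum]
    exact mul_le_mul_of_nonneg_left (sum_inv_le hK h _ Ico_subset_Icc_self (norm_nonneg s))
      (norm_nonneg _)
  have e4 := norm_add_le_of_le (norm_sub_le ((K : ℂ) ^ (1 - s)) ((K' : ℂ) ^ (1 - s))) e3
  rw [← e2, norm_mul, n1 K hK, n1 K' (by omega)] at e4
  have e5 : (1 + ‖s‖) / 2 ≤ ‖s - 1‖ := by
    have k1 := abs_re_le_norm (s - 1)
    have k2 := abs_im_le_norm (s - 1)
    have k3 := norm_le_abs_re_add_abs_im s
    simp only [sub_re, hs, one_re, zero_sub, abs_neg, abs_one, sub_im, one_im, sub_zero, abs_zero,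
      zero_add] at k1 k2 k3
    linarith
  have e6 : (K' : ℝ) ≤ 16 * K := by exact_mod_cast h
  have hn := norm_nonneg s
  have e7 : (K : ℝ) + K' ≤ ‖s - 1‖ * (K * (34 / (1 + ‖s‖))) := by
    refine le_trans ?_ (mul_le_mul_of_nonneg_right e5 (by positivity))
    have : (1 + ‖s‖) / 2 * (K * (34 / (1 + ‖s‖))) = 17 * K := by field_simp; ring
    linarith
  refine le_of_mul_le_mul_left ?_ (show 0 < ‖s - 1‖ by linarith)
  rw [mul_add]
  linarith

theorem sum_anti (a a' : ℕ) (G : ℕ → ℕ → ℂ) :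
    ∑ m ∈ Ioc a a', ∑ x ∈ m.divisorsAntidiagonal, G x.1 x.2 =
      ∑ d ∈ Ioc 0 a', ∑ k ∈ Ioc (a / d) (a' / d), G d k := by
  rw [sum_sigma', sum_sigma']
  refine sum_nbij' (fun x => ⟨x.2.1, x.2.2⟩) (fun x => ⟨x.1 * x.2, x.1, x.2⟩) ?_ ?_ ?_ ?_ ?_
  · rintro ⟨m, d, k⟩ h
    simp only [mem_sigma, mem_Ioc, Nat.mem_divisorsAntidiagonal] at h ⊢
    obtain ⟨⟨h1, h2⟩, rfl, h3⟩ := h
    have hd : 0 < d := Nat.pos_of_ne_zero (left_ne_zero_of_mul h3)
    have hk : 0 < k := Nat.pos_of_ne_zero (right_ne_zero_of_mul h3)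
    refine ⟨⟨hd, (Nat.le_mul_of_pos_right _ hk).trans h2⟩, ?_, ?_⟩
    · rwa [Nat.div_lt_iff_lt_mul hd, mul_comm]
    · rwa [Nat.le_div_iff_mul_le hd, mul_comm]
  · rintro ⟨d, k⟩ h
    simp only [mem_sigma, mem_Ioc, Nat.mem_divisorsAntidiagonal] at h ⊢
    obtain ⟨⟨hd, -⟩, h1, h2⟩ := h
    rw [Nat.div_lt_iff_lt_mul hd, mul_comm] at h1
    rw [Nat.le_div_iff_mul_le hd, mul_comm] at h2
    exact ⟨⟨h1, h2⟩, trivial, by omega⟩
  · rintro ⟨m, d, k⟩ h
    simp only [mem_sigma, Nat.mem_divisorsAntidiagonal] at h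
    obtain ⟨-, rfl, -⟩ := h
    rfl
  · rintro ⟨d, k⟩ _
    rfl
  · rintro ⟨m, d, k⟩ _
    rfl

/-- the truncated Moebius function -/
def muV (V : ℕ) : ArithmeticFunction ℂ := ⟨fun n => if n ≤ V then moebius n else 0, by simp⟩

/-- its sum over the divisors -/
def bV (V n : ℕ) : ℂ := ∑ x ∈ n.divisorsAntidiagonal, muV V x.1

theorem muV_le (V n : ℕ) : ‖muV V n‖ ≤ if n ≤ V then 1 else 0 := by
  simp only [muV, ArithmeticFunction.coe_mk]
  split_ifs
  · rw [norm_intCast]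
    exact_mod_cast ArithmeticFunction.abs_moebius_le_one
  · simp

theorem card_anti (n : ℕ) : n.divisorsAntidiagonal.card = n.divisors.card := by
  rw [← Nat.map_div_right_divisors, card_map]

theorem bV_le (V n : ℕ) : ‖bV V n‖ ≤ n.divisors.card := by
  refine (norm_sum_le_of_le _ (n := fun _ => (1 : ℝ)) fun x _ => (muV_le V x.1).trans ?_).trans ?_
  · split_ifs <;> norm_num
  · simp [card_anti]

theorem bV_eq (V n : ℕ) : bV V n = (muV V * (zeta : ArithmeticFunction ℂ)) n := by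
  rw [ArithmeticFunction.mul_apply]
  refine sum_congr rfl fun x hx => ?_
  simp [ArithmeticFunction.natCoe_apply, Nat.right_ne_zero_of_mem_divisorsAntidiagonal hx]

theorem bV_small {V n : ℕ} (h : n ≤ V) : bV V n = if n = 1 then 1 else 0 := by
  have h2 := congrArg (fun g : ArithmeticFunction ℂ => g n)
    (ArithmeticFunction.coe_moebius_mul_coe_zeta (R := ℂ))
  simp only [ArithmeticFunction.mul_apply, ArithmeticFunction.one_apply] at h2
  rw [bV, ← h2]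
  refine sum_congr rfl fun x hx => ?_
  have h3 : x.1 ≤ V := (Nat.divisor_le (Nat.fst_mem_divisors_of_mem_antidiagonal hx)).trans h
  simp [muV, h3, ArithmeticFunction.natCoe_apply, Nat.right_ne_zero_of_mem_divisorsAntidiagonal hx]

theorem vM_split {V : ℕ} (hV : 1 ≤ V) (m : ℕ) : ((vonMangoldt m : ℝ) : ℂ) =
    ∑ x ∈ m.divisorsAntidiagonal, muV V x.1 * (Real.log x.2 : ℝ) -
      ∑ x ∈ m.divisorsAntidiagonal, (if V < x.1 then bV V x.1 else 0) * (vonMangoldt x.2 : ℝ) := by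
  let L : ArithmeticFunction ℂ := ⟨fun n => (vonMangoldt n : ℝ), by simp⟩
  let G : ArithmeticFunction ℂ := ⟨fun n => (Real.log n : ℝ), by simp⟩
  have h1 : L * (zeta : ArithmeticFunction ℂ) = G := by
    ext n
    rw [ArithmeticFunction.coe_mul_zeta_apply]
    simp only [L, G, ArithmeticFunction.coe_mk]
    exact_mod_cast ArithmeticFunction.vonMangoldt_sum
  have h2 : (muV V * G) m = ((muV V * (zeta : ArithmeticFunction ℂ)) * L) m := by
    rw [← h1, mul_assoc, mul_comm L]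
  have h3 : L m = ((1 : ArithmeticFunction ℂ) * L) m := by rw [one_mul]
  rw [ArithmeticFunction.mul_apply, ArithmeticFunction.mul_apply] at h2
  rw [ArithmeticFunction.mul_apply] at h3
  simp only [L, G, ArithmeticFunction.coe_mk] at h2 h3
  rw [h2, h3, ← sum_sub_distrib]
  refine sum_congr rfl fun x _ => ?_
  rw [← bV_eq, ArithmeticFunction.one_apply]
  rcases lt_or_ge V x.1 with h | h
  · rw [if_pos h, if_neg (by omega)]; ring
  · rw [if_neg (not_lt.2 h), bV_small h]; ring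

end Pool.Agent.Lib.MP_778b46_nt.MA
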