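import Pool.Agent.Lib.MP_778b46_nt.MA.F2
import Pool.Agent.Lib.MP_778b46_nt.Mertens

set_option autoImplicit false

noncomputable section

namespace Pool.Agent.Lib.MP_778b46_nt.MA

open Complex Finset MeasureTheory
open scoped Real ContDiff
open Pool.Agent.Lib.MP_03e5d0_nt (Sm ex ft bump)
open Pool.Agent.Lib.MP_778b46_nt.GX (Lf Lp)
open scoped Classical

/-! Tails of the singular series. -/

/-- `q / φ q = ∏ p ∣ q, (1 + 1 / (p - 1))` (`Nat.totient_eq_mul_prod_factors`), `mert_le`. -/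
theorem rat_fact : ∃ C : ℝ, 1 ≤ C ∧ ∀ n : ℕ, 2 ≤ n → Rat0 n.factorial (C * Real.log n) := by
  obtain ⟨C, hC, h⟩ := mert_le
  refine ⟨C, hC, fun n hn q hq => ?_⟩
  have h1 : (Nat.totient q : ℝ) = q * ∏ p ∈ q.primeFactors, (1 - (p : ℝ)⁻¹) := by
    have := congrArg (Rat.cast : ℚ → ℝ) (Nat.totient_eq_mul_prod_factors q)
    push_cast at this
    exact this
  have h2 : mert q.primeFactors * Nat.totient q = q := by
    rw [h1, mert, mul_left_comm, ← prod_mul_distrib, prod_eq_one, mul_one]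
    intro p hp
    have h3 : (2 : ℝ) ≤ p := by exact_mod_cast (Nat.prime_of_mem_primeFactors hp).two_le
    have h4 : (p : ℝ) - 1 ≠ 0 := by linarith
    have h5 : (p : ℝ) ≠ 0 := by linarith
    unfold uu
    field_simp
    ring
  rw [← h2]
  refine mul_le_mul_of_nonneg_right (h n hn _ fun p hp => ?_) (Nat.cast_nonneg _)
  have hp' := Nat.prime_of_mem_primeFactors hp
  exact Nat.mem_primesLE.2
    ⟨hp'.dvd_factorial.1 ((Nat.dvd_of_mem_primeFactors hp).trans hq), hp'⟩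

theorem Rat0.one_le {N : ℕ} {Λ : ℝ} (h : Rat0 N Λ) : 1 ≤ Λ := by
  simpa using h 1 (one_dvd N)

theorem f4_inv_sq {x : ℝ} (hx : 0 < x) (T : Finset ℕ) (hT : ∀ j ∈ T, x < j) :
    ∑ j ∈ T, ((j : ℝ) ^ 2)⁻¹ ≤ 2 / x := by
  refine le_trans (sum_le_sum_of_subset_of_nonneg (fun j hj => mem_Ioo.2
    ⟨(Nat.floor_lt hx.le).2 (hT j hj), Nat.lt_succ_of_le (le_sup (f := id) hj)⟩)
    fun _ _ _ => by positivity) ((sum_Ioo_inv_sq_le ⌊x⌋₊ (T.sup id + 1)).trans ?_)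
  exact div_le_div_of_nonneg_left (by norm_num) hx (Nat.lt_floor_add_one x).le

/-- sums over multiples -/
theorem f4_sum_mul (r : ℕ) (S : Finset ℕ) (f : ℕ → ℝ) :
    ∑ q ∈ S.filter (fun q => r ∣ q), f q =
      ∑ k ∈ (S.filter fun q => r ∣ q).image (· / r), f (r * k) := by
  rw [sum_image]
  · exact sum_congr rfl fun q hq => by rw [Nat.mul_div_cancel' (mem_filter.1 hq).2]
  · intro q hq q' hq' e
    rw [← Nat.mul_div_cancel' (mem_filter.1 hq).2, ← Nat.mul_div_cancel' (mem_filter.1 hq').2]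
    exact congrArg (r * ·) e

theorem f4_mem {r k : ℕ} {S : Finset ℕ} (h : k ∈ (S.filter fun q => r ∣ q).image (· / r)) :
    r * k ∈ S := by
  obtain ⟨q, hq, rfl⟩ := mem_image.1 h
  rw [Nat.mul_div_cancel' (mem_filter.1 hq).2]
  exact (mem_filter.1 hq).1

/-- `gcd k m ≤ ∑ e ∣ m, e [e ∣ k]`, `k = e j`, and `∑ j > x, 1 / j ^ 2 ≤ 2 / x` for `x > 0`. -/
theorem sum_gcd_tail {m : ℕ} (hm : 1 ≤ m) {K : ℝ} (hK : 0 < K) (S : Finset ℕ)
    (hS : ∀ k ∈ S, K < k) : ∑ k ∈ S, (Nat.gcd k m : ℝ) / (k : ℝ) ^ 2 ≤ 2 * tu m / K := by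
  have h1 : ∀ k ∈ S, (Nat.gcd k m : ℝ) / (k : ℝ) ^ 2 ≤
      ∑ e ∈ m.divisors, if e ∣ k then (e : ℝ) / (k : ℝ) ^ 2 else 0 := fun k _ => by
    refine le_trans ?_ (single_le_sum (fun e _ => by split_ifs <;> positivity)
      (Nat.mem_divisors.2 ⟨Nat.gcd_dvd_right k m, by omega⟩))
    rw [if_pos (Nat.gcd_dvd_left k m)]
  refine (sum_le_sum h1).trans ?_
  rw [sum_comm]
  refine (sum_le_card_nsmul _ _ (2 / K) fun e he => ?_).trans (le_of_eq ?_)
  · have he0 : 0 < e := Nat.pos_of_mem_divisors he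
    have he1 : (0 : ℝ) < e := by exact_mod_cast he0
    rw [← sum_filter, f4_sum_mul e]
    have h2 := f4_inv_sq (div_pos hK he1) ((S.filter fun q => e ∣ q).image (· / e)) fun j hj => by
      have := hS _ (f4_mem hj)
      rw [div_lt_iff₀' he1]
      exact_mod_cast this
    calc _ = (e : ℝ)⁻¹ * ∑ j ∈ (S.filter fun q => e ∣ q).image (· / e), ((j : ℝ) ^ 2)⁻¹ := by
          rw [mul_sum]
          refine sum_congr rfl fun j _ => ?_
          push_cast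
          rw [mul_pow, div_eq_mul_inv, mul_inv, ← mul_assoc]
          congr 1
          field_simp
      _ ≤ (e : ℝ)⁻¹ * (2 / (K / e)) := by gcongr
      _ = 2 / K := by field_simp
  · rw [nsmul_eq_mul, tu]
    ring

theorem f4_qd_pos {r : ℕ} (hr : 0 < r) (m : ℕ) : 0 < qd r m :=
  Nat.div_pos (Nat.gcd_le_left m hr) (Nat.gcd_pos_of_pos_left m hr)

theorem f4_qd_mul (r m : ℕ) : Nat.gcd r m * qd r m = r :=
  Nat.mul_div_cancel' (Nat.gcd_dvd_left r m)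

theorem f4_qd_le {r k : ℕ} (hr : 0 < r) (hk : 0 < k) (m : ℕ) :
    qd r m * k ≤ qd (r * k) m * Nat.gcd k m := by
  have h0 : 0 < Nat.gcd r m := Nat.gcd_pos_of_pos_left m hr
  have h1 : Nat.gcd (r * k) m ≤ Nat.gcd r m * Nat.gcd k m :=
    Nat.le_of_dvd (Nat.mul_pos h0 (Nat.gcd_pos_of_pos_left m hk))
      (Nat.gcd_mul_left_dvd_mul_gcd m r k)
  refine Nat.le_of_mul_le_mul_left ?_ h0
  rw [← mul_assoc, f4_qd_mul]
  calc r * k = Nat.gcd (r * k) m * qd (r * k) m := (f4_qd_mul _ _).symm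
    _ ≤ Nat.gcd r m * Nat.gcd k m * qd (r * k) m := Nat.mul_le_mul_right _ h1
    _ = _ := by ring

theorem f4_real {Λ a r g k d q' f f' s : ℝ} (hΛ : 0 < Λ) (hr : 0 < r) (hg : 0 < g) (hk : 0 < k)
    (hd : 0 < d) (ha : a ≤ r) (hs0 : 0 ≤ s) (hs : s ≤ √g) (hf : r * k ≤ Λ * f)
    (hf' : q' ≤ Λ * f') (hq : g * k ≤ q' * d) : a * s / (f * f') ≤ Λ ^ 2 / √g * (d / k ^ 2) := by
  have h1 : r * k / Λ ≤ f := by rwa [div_le_iff₀' hΛ]
  have h2 : g * k / d / Λ ≤ f' := by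
    rw [div_le_iff₀' hΛ, div_le_iff₀ hd]
    exact hq.trans (by gcongr)
  have h3 : 0 < √g := Real.sqrt_pos.2 hg
  calc a * s / (f * f') ≤ r * √g / (r * k / Λ * (g * k / d / Λ)) := by
        have : 0 ≤ f := le_trans (by positivity) h1
        gcongr
    _ = _ := by
        have h4 : g = √g * √g := (Real.mul_self_sqrt hg.le).symm
        generalize √g = t at h3 h4
        subst h4
        field_simp

variable {N : ℕ} [NeZero N]

theorem f4_lcm_pos (χ χ' : DirichletCharacter ℂ N) : 0 < Nat.lcm χ.conductor χ'.conductor :=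
  Nat.lcm_pos (Nat.pos_of_ne_zero χ.conductor_ne_zero) (Nat.pos_of_ne_zero χ'.conductor_ne_zero)

/-- Nonzero terms have `q = r₀ k`, `r₀ = lcm r r'` (`ww_ne`). By `ww_bd` and `Rat0` (for `q` and
`qd q m`), `√r √r' ≤ r₀`, `r'' ≤ g`, and `gcd (r₀ k) m ∣ gcd r₀ m * gcd k m`, the term is at most
`Λ ^ 2 gcd k m / (k ^ 2 √g)`. -/
theorem ww_tail {Λ : ℝ} (hΛ : Rat0 N Λ) {m : ℕ} (hm : 1 ≤ m) (χ χ' : DirichletCharacter ℂ N)
    {P : ℝ} (hP : 0 < P) :
    ∑ q ∈ N.divisors.filter (fun q : ℕ => P < q), ‖ww q m χ χ'‖ ≤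
      2 * Λ ^ 2 * tu m * ((Nat.lcm χ.conductor χ'.conductor : ℕ) / P) / √(gg m χ χ') := by
  have hΛ1 := hΛ.one_le
  have hr : 0 < Nat.lcm χ.conductor χ'.conductor := f4_lcm_pos χ χ'
  set r := Nat.lcm χ.conductor χ'.conductor with hrd
  have hr' : (0 : ℝ) < r := by exact_mod_cast hr
  have hg : 0 < gg m χ χ' := f4_qd_pos hr m
  rw [← sum_filter_of_ne (p := fun q => r ∣ q) fun q hq h => by
    obtain ⟨h1, h2, -⟩ := ww_ne (Nat.dvd_of_mem_divisors (mem_filter.1 hq).1) m χ χ'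
      (norm_ne_zero_iff.1 h)
    exact Nat.lcm_dvd h1 h2, f4_sum_mul r]
  set S := ((N.divisors.filter fun q : ℕ => P < q).filter fun q => r ∣ q).image (· / r)
  have hS : ∀ k ∈ S, r * k ∣ N ∧ P / r < k := fun k hk => by
    have := mem_filter.1 (f4_mem hk)
    refine ⟨Nat.dvd_of_mem_divisors this.1, ?_⟩
    rw [div_lt_iff₀' hr']
    exact_mod_cast this.2
  calc _ ≤ ∑ k ∈ S, Λ ^ 2 / √(gg m χ χ') * ((Nat.gcd k m : ℝ) / (k : ℝ) ^ 2) := by
        refine sum_le_sum fun k hk => ?_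
        obtain ⟨h1, h2⟩ := hS k hk
        have hk0 : (0 : ℝ) < k := (div_pos hP hr').trans h2
        have hk1 : 0 < k := by exact_mod_cast hk0
        by_cases h0 : ww (r * k) m χ χ' = 0
        · rw [h0, norm_zero]; positivity
        refine (ww_bd h1 m χ χ').trans (f4_real (q' := qd (r * k) m) (by linarith) hr'
          (by exact_mod_cast hg) hk0 (by exact_mod_cast Nat.gcd_pos_of_pos_left m hk1) ?_
          (Real.sqrt_nonneg _) (Real.sqrt_le_sqrt ?_) (by exact_mod_cast hΛ _ h1)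
          (hΛ _ ((Nat.div_dvd_of_dvd (Nat.gcd_dvd_left _ _)).trans h1))
          (by exact_mod_cast f4_qd_le hr hk1 m))
        · rw [← Real.mul_self_sqrt hr'.le]
          have k1 : (χ.conductor : ℝ) ≤ r := by
            exact_mod_cast Nat.le_of_dvd hr (Nat.dvd_lcm_left _ _)
          have k2 : (χ'.conductor : ℝ) ≤ r := by
            exact_mod_cast Nat.le_of_dvd hr (Nat.dvd_lcm_right _ _)
          gcongr
        · exact_mod_cast Nat.le_of_dvd hg (ww_ne h1 m χ χ' h0).2.2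
    _ ≤ Λ ^ 2 / √(gg m χ χ') * (2 * tu m / (P / r)) := by
        rw [← mul_sum]
        exact mul_le_mul_of_nonneg_left
          (sum_gcd_tail hm (div_pos hP hr') S fun k hk => (hS k hk).2) (by positivity)
    _ = _ := by field_simp

/-- `ww_tail` with `P = r₀ / 2`. -/
theorem ww_all {Λ : ℝ} (hΛ : Rat0 N Λ) {m : ℕ} (hm : 1 ≤ m) (χ χ' : DirichletCharacter ℂ N) :
    ∑ q ∈ N.divisors, ‖ww q m χ χ'‖ ≤ 4 * Λ ^ 2 * tu m / √(gg m χ χ') := by
  have hr : 0 < Nat.lcm χ.conductor χ'.conductor := f4_lcm_pos χ χ'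
  have hr' : (0 : ℝ) < Nat.lcm χ.conductor χ'.conductor := by exact_mod_cast hr
  have := ww_tail hΛ hm χ χ' (half_pos hr')
  rw [sum_filter_of_ne fun q hq h => by
    obtain ⟨h1, h2, -⟩ := ww_ne (Nat.dvd_of_mem_divisors hq) m χ χ' (norm_ne_zero_iff.1 h)
    exact (half_lt_self hr').trans_le (by
      exact_mod_cast Nat.le_of_dvd (Nat.pos_of_mem_divisors hq) (Nat.lcm_dvd h1 h2))] at this
  refine this.trans (le_of_eq ?_)
  field_simp
  ring

theorem f4_icc {P : ℝ} (hN : N = ⌊P⌋₊.factorial) : Icc 1 ⌊P⌋₊ ⊆ N.divisors := fun _ hq =>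
  Nat.mem_divisors.2 ⟨hN ▸ Nat.dvd_factorial (mem_Icc.1 hq).1 (mem_Icc.1 hq).2, NeZero.ne N⟩

/-- The divisors of `N` outside `Icc 1 ⌊P⌋₊` exceed `P`; with `r₀ = d g`, `d = gcd r₀ m`, the
minimum of the bounds of `ww_tail` and `ww_all` is at most their geometric mean. -/
theorem ww_compl {Λ P Z : ℝ} (hΛ : Rat0 N Λ) (hP : 1 ≤ P) (hN : N = ⌊P⌋₊.factorial) {m : ℕ}
    (hm : 1 ≤ m) (χ χ' : DirichletCharacter ℂ N) (hZ : 0 ≤ Z)
    (h : (Nat.gcd (Nat.lcm χ.conductor χ'.conductor) m : ℝ) ≤ Z ^ 2 * P) :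
    ‖∑ q ∈ Icc 1 ⌊P⌋₊, ww q m χ χ' - SG m χ χ'‖ ≤ 3 * Λ ^ 2 * tu m * Z := by
  have hP0 : 0 < P := by linarith
  have h1 : Icc 1 ⌊P⌋₊ = N.divisors.filter fun q : ℕ => ¬P < q := by
    ext q
    rw [mem_filter, not_lt, ← Nat.le_floor_iff hP0.le]
    exact ⟨fun hq => ⟨f4_icc hN hq, (mem_Icc.1 hq).2⟩,
      fun hq => mem_Icc.2 ⟨Nat.pos_of_mem_divisors hq.1, hq.2⟩⟩
  rw [← sum_ww, h1, ← sum_filter_add_sum_filter_not N.divisors (fun q : ℕ => P < q),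
    sub_add_cancel_right, norm_neg]
  refine (norm_sum_le _ _).trans ?_
  have h2 := ww_tail hΛ hm χ χ' hP0
  have h3 := (sum_le_sum_of_subset_of_nonneg (filter_subset (fun q : ℕ => P < q) _)
    fun _ _ _ => norm_nonneg _).trans (ww_all hΛ hm χ χ')
  have h4 : 0 ≤ ∑ q ∈ N.divisors.filter (fun q : ℕ => P < q), ‖ww q m χ χ'‖ :=
    sum_nonneg fun _ _ => norm_nonneg _
  have hg : (0 : ℝ) < gg m χ χ' := by exact_mod_cast f4_qd_pos (f4_lcm_pos χ χ') m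
  have h5 : ((Nat.lcm χ.conductor χ'.conductor : ℕ) : ℝ) =
      Nat.gcd (Nat.lcm χ.conductor χ'.conductor) m * gg m χ χ' := by
    exact_mod_cast (f4_qd_mul _ m).symm
  have hτ : 0 ≤ tu m := Nat.cast_nonneg _
  refine (pow_le_pow_iff_left₀ h4 (by positivity) two_ne_zero).1 ?_
  rw [sq]
  refine (mul_le_mul h2 h3 h4 (by positivity)).trans ?_
  rw [h5, div_mul_div_comm, Real.mul_self_sqrt hg.le]
  calc _ = 8 * (Λ ^ 2 * tu m) ^ 2 * (Nat.gcd (Nat.lcm χ.conductor χ'.conductor) m / P) := by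
        field_simp
        ring
    _ ≤ 9 * (Λ ^ 2 * tu m) ^ 2 * Z ^ 2 := by
        rw [← div_le_iff₀ hP0] at h
        gcongr
        norm_num
    _ = _ := by ring

theorem ww_icc {Λ P : ℝ} (hΛ : Rat0 N Λ) (hN : N = ⌊P⌋₊.factorial) {m : ℕ} (hm : 1 ≤ m)
    (χ χ' : DirichletCharacter ℂ N) :
    ∑ q ∈ Icc 1 ⌊P⌋₊, ‖ww q m χ χ'‖ ≤ 4 * Λ ^ 2 * tu m := by
  refine ((sum_le_sum_of_subset_of_nonneg (f4_icc hN) fun _ _ _ => norm_nonneg _).trans
    (ww_all hΛ hm χ χ')).trans (div_le_self ?_ (Real.one_le_sqrt.2 ?_))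
  · have hτ : 0 ≤ tu m := Nat.cast_nonneg _
    positivity
  · exact_mod_cast f4_qd_pos (f4_lcm_pos χ χ') m

/-- `q = r k`, `r / φ q ≤ Λ / k`, harmonic sum. -/
theorem sum_ratio {Λ P : ℝ} (hΛ : Rat0 N Λ) (hP : 1 ≤ P) (hN : N = ⌊P⌋₊.factorial) {r : ℕ}
    (hr : 1 ≤ r) : ∑ q ∈ (Icc 1 ⌊P⌋₊).filter (fun q => r ∣ q), (r : ℝ) / Nat.totient q ≤
      Λ * (1 + Real.log P) := by
  have hΛ1 := hΛ.one_le
  have hr' : (0 : ℝ) < r := by exact_mod_cast hr
  rw [f4_sum_mul r]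
  calc _ ≤ ∑ k ∈ ((Icc 1 ⌊P⌋₊).filter fun q => r ∣ q).image (· / r), Λ * (k : ℝ)⁻¹ := by
        refine sum_le_sum fun k hk => ?_
        have h1 := f4_icc hN (f4_mem hk)
        have h2 := hΛ _ (Nat.dvd_of_mem_divisors h1)
        have h3 := Nat.pos_of_mem_divisors h1
        have h4 : (0 : ℝ) < k := by exact_mod_cast Nat.pos_of_mul_pos_left h3
        have h5 : (0 : ℝ) < Nat.totient (r * k) := by exact_mod_cast Nat.totient_pos.2 h3
        rw [← div_eq_mul_inv, div_le_div_iff₀ h5 h4]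
        exact_mod_cast h2
    _ ≤ ∑ k ∈ Icc 1 ⌊P⌋₊, Λ * (k : ℝ)⁻¹ := by
        refine sum_le_sum_of_subset_of_nonneg (fun k hk => ?_) fun _ _ _ => by positivity
        have h1 := mem_Icc.1 (f4_mem hk)
        exact mem_Icc.2 ⟨Nat.pos_of_mul_pos_left h1.1, (Nat.le_mul_of_pos_left k hr).trans h1.2⟩
    _ ≤ _ := by
        rw [← mul_sum]
        refine mul_le_mul_of_nonneg_left ?_ (by linarith)
        have h1 := harmonic_le_one_add_log ⌊P⌋₊
        simp only [harmonic_eq_sum_Icc, Rat.cast_sum, Rat.cast_inv, Rat.cast_natCast] at h1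
        refine h1.trans ?_
        have h2 : (0 : ℝ) < ⌊P⌋₊ := by exact_mod_cast Nat.floor_pos.2 hP
        have := Real.log_le_log h2 (Nat.floor_le (by linarith))
        linarith

theorem f4_one {r : ℕ} (hr : 0 < r) (M : ℕ) {Z : ℝ} (hZ : 0 < Z) :
    (((Icc 1 M).filter fun m : ℕ => Z < (Nat.gcd r m : ℝ)).card : ℝ) ≤ tu r * (M / Z) := by
  have h1 : ((Icc 1 M).filter fun m : ℕ => Z < (Nat.gcd r m : ℝ)) ⊆
      (r.divisors.filter fun e : ℕ => Z < e).biUnion fun e => (Ioc 0 M).filter fun m => e ∣ m :=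
    fun m hm => mem_biUnion.2 ⟨Nat.gcd r m, mem_filter.2
      ⟨Nat.mem_divisors.2 ⟨Nat.gcd_dvd_left r m, hr.ne'⟩, (mem_filter.1 hm).2⟩, mem_filter.2
        ⟨mem_Ioc.2 (mem_Icc.1 (mem_filter.1 hm).1), Nat.gcd_dvd_right r m⟩⟩
  refine (Nat.cast_le.2 ((card_le_card h1).trans card_biUnion_le)).trans ?_
  rw [Nat.cast_sum]
  refine (sum_le_card_nsmul _ _ (M / Z) fun e he => ?_).trans ?_
  · rw [Nat.Ioc_filter_dvd_card_eq_div]
    exact Nat.cast_div_le.trans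
      (div_le_div_of_nonneg_left (Nat.cast_nonneg _) hZ (mem_filter.1 he).2.le)
  · rw [nsmul_eq_mul, tu]
    gcongr
    exact filter_subset _ _

/-- Union bound over the pairs and the divisors `e > Z` of the least common multiple; `e` has at
most `M / e` multiples in `Icc 1 M`. -/
theorem bad_card (B : Finset (DirichletCharacter ℂ N)) (M : ℕ) {Z τ : ℝ} (hZ : 0 < Z)
    (hτ : ∀ χ ∈ B, ∀ χ' ∈ B, tu (Nat.lcm χ.conductor χ'.conductor) ≤ τ) :
    (((Icc 1 M).filter fun m : ℕ => ∃ χ ∈ B, ∃ χ' ∈ B,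
      Z < (Nat.gcd (Nat.lcm χ.conductor χ'.conductor) m : ℝ)).card : ℝ) ≤
      (B.card : ℝ) ^ 2 * τ * M / Z := by
  have h1 : ((Icc 1 M).filter fun m : ℕ => ∃ χ ∈ B, ∃ χ' ∈ B,
      Z < (Nat.gcd (Nat.lcm χ.conductor χ'.conductor) m : ℝ)) ⊆ (B ×ˢ B).biUnion fun x =>
        (Icc 1 M).filter fun m : ℕ =>
          Z < (Nat.gcd (Nat.lcm x.1.conductor x.2.conductor) m : ℝ) := fun m hm => by
    obtain ⟨h0, χ, h2, χ', h3, h4⟩ := mem_filter.1 hm
    exact mem_biUnion.2 ⟨(χ, χ'), mem_product.2 ⟨h2, h3⟩, mem_filter.2 ⟨h0, h4⟩⟩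
  refine (Nat.cast_le.2 ((card_le_card h1).trans card_biUnion_le)).trans ?_
  rw [Nat.cast_sum]
  refine (sum_le_card_nsmul _ _ (τ * (M / Z)) fun x hx => ?_).trans (le_of_eq ?_)
  · exact (f4_one (f4_lcm_pos _ _) M hZ).trans (mul_le_mul_of_nonneg_right
      (hτ _ (mem_product.1 hx).1 _ (mem_product.1 hx).2) (by positivity))
  · rw [nsmul_eq_mul, card_product]
    push_cast
    ring

end Pool.Agent.Lib.MP_778b46_nt.MA
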