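import Pool.Agent.Lib.MP_778b46_nt.MA.Defs
import Pool.Agent.Lib.MP_778b46_nt.GX.Z4a
import Pool.Agent.Lib.MP_778b46_nt.GX.Basic

set_option autoImplicit false

noncomputable section

namespace Pool.Agent.Lib.MP_778b46_nt.MA

open Complex Finset MeasureTheory
open scoped Real ContDiff
open Pool.Agent.Lib.MP_03e5d0_nt (Sm ex ft bump)
open Pool.Agent.Lib.MP_778b46_nt.GX (Lf Lp)

/-! Size and logarithmic derivative of `L`-functions. -/

/-- `GX.LF_upper` (`LF` and `Lf` are the same definition), `Ln.lfun_lower`, `GX.Lf_ne_zero`. -/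
theorem lf_ent : ∃ C : ℝ, 1 ≤ C ∧ ∀ (q : ℕ) [NeZero q] (ξ : DirichletCharacter ℂ q) (T : ℝ),
    1 ≤ T → Ent (Lf ξ) (C * (1 + Real.log (q * T))) T := by
  refine ⟨10100, by norm_num, fun q _ ξ T hT => ?_⟩
  have hq : (1 : ℝ) ≤ q := by exact_mod_cast Nat.pos_of_ne_zero (NeZero.ne q)
  have hx : (1 : ℝ) ≤ q * T := one_le_mul_of_one_le_of_one_le hq hT
  have hL : 0 ≤ Real.log (q * T) := Real.log_nonneg hx
  have hC : (10100 : ℝ) ≤ Real.exp 10100 := by linarith [Real.add_one_le_exp 10100]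
  refine ⟨GX.Lf_diff ξ, by linarith, fun s h1 h2 h3 => ?_, fun s hs => ?_,
    fun s hs => GX.Lf_ne_zero ξ hs⟩
  · have a1 : ‖Lf ξ s‖ ≤ 12 * q * (1 + ‖s‖) ^ 2 := GX.LF_upper ξ h1
    have a2 : ‖s‖ ≤ 7 * T := by
      have := norm_le_abs_re_add_abs_im s
      rw [abs_of_pos (show 0 < s.re by linarith)] at this
      linarith
    have a3 : (1 + ‖s‖) ^ 2 ≤ (8 * T) ^ 2 := pow_le_pow_left₀ (by positivity) (by linarith) 2
    have a4 : (q * T : ℝ) ^ 2 = Real.exp (2 * Real.log (q * T)) := by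
      rw [two_mul, Real.exp_add, Real.exp_log (by linarith), sq]
    have a5 : Real.exp 10100 * Real.exp (2 * Real.log (q * T)) ≤
        Real.exp (10100 * (1 + Real.log (q * T))) := by
      rw [← Real.exp_add]
      exact Real.exp_le_exp.2 (by linarith)
    have a6 : (q : ℝ) * T ^ 2 ≤ (q * T) ^ 2 := by
      rw [mul_pow]
      exact mul_le_mul_of_nonneg_right (by nlinarith) (by positivity)
    have a7 : 12 * q * (1 + ‖s‖) ^ 2 ≤ 12 * q * (8 * T) ^ 2 :=
      mul_le_mul_of_nonneg_left a3 (by positivity)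
    rw [← a4] at a5
    have a8 := mul_le_mul_of_nonneg_right hC (sq_nonneg (q * T : ℝ))
    have a9 : 0 ≤ (q : ℝ) * T ^ 2 := by positivity
    nlinarith
  · have a1 := MP_e97e2b_nt.Ln.lfun_lower ξ (s := s) (by linarith)
    have a2 : 1 / 101 ≤ (s.re - 1) / s.re := by
      rw [le_div_iff₀ (by linarith)]
      linarith
    have a3 : Real.exp (-(10100 * (1 + Real.log (q * T)))) ≤ 1 / 10100 := by
      rw [Real.exp_neg, one_div]
      exact inv_anti₀ (by norm_num) (hC.trans (Real.exp_le_exp.2 (by linarith)))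
    refine a3.trans ?_
    rcases eq_or_ne ξ 1 with rfl | h
    · have hne : s ≠ 1 := fun h => by
        rw [h, one_re] at hs
        linarith
      rw [GX.Lf_one, DirichletCharacter.LFunctionTrivChar₁, Function.update_of_ne hne, norm_mul]
      have a4 : 1 / 100 ≤ ‖s - 1‖ := by
        have := re_le_norm (s - 1)
        rw [sub_re, one_re] at this
        linarith
      have := mul_le_mul a4 (a2.trans a1) (by norm_num) (norm_nonneg _)
      linarith
    · rw [GX.Lf_of_ne h]
      linarith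

open Classical in
/-- `DirichletCharacter.LSeries_twist_vonMangoldt_eq`, `LFunction_eq_LSeries`,
`deriv_LFunction_eq_deriv_LSeries`, `deriv_LFunctionTrivChar₁_apply_of_ne_one`. -/
theorem lf_series {q : ℕ} [NeZero q] (ξ : DirichletCharacter ℂ q) {s : ℂ} (hs : 1 < s.re) :
    LSeries (fun n => cf ξ n * (ArithmeticFunction.vonMangoldt n : ℝ)) s =
      -(deriv (Lf ξ) s / Lf ξ s) + (if ξ = 1 then 1 else 0) * (s - 1)⁻¹ := by
  have h1 : LSeries (fun n => cf ξ n * (ArithmeticFunction.vonMangoldt n : ℝ)) s =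
      -deriv ξ.LFunction s / ξ.LFunction s := by
    rw [ξ.deriv_LFunction_eq_deriv_LSeries hs, ξ.LFunction_eq_LSeries hs]
    exact ξ.LSeries_twist_vonMangoldt_eq hs
  have hne : s ≠ 1 := fun h => by
    rw [h, one_re] at hs
    exact lt_irrefl _ hs
  have h2 := ξ.LFunction_ne_zero_of_one_le_re (Or.inr hne) hs.le
  rw [h1]
  rcases eq_or_ne ξ 1 with rfl | h
  · have h3 : s - 1 ≠ 0 := sub_ne_zero.2 hne
    rw [GX.Lf_one, if_pos rfl, DirichletCharacter.deriv_LFunctionTrivChar₁_apply_of_ne_one q hne,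
      DirichletCharacter.LFunctionTrivChar₁, Function.update_of_ne hne,
      DirichletCharacter.LFunctionTrivChar]
    field_simp
    ring
  · rw [GX.Lf_of_ne h, if_neg h, zero_mul, add_zero, neg_div]

end Pool.Agent.Lib.MP_778b46_nt.MA
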