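import Pool.Agent.Lib.MP_778b46_nt.MA.O3

set_option autoImplicit false

noncomputable section

namespace Pool.Agent.Lib.MP_778b46_nt.MA

open Complex Finset MeasureTheory
open scoped Real ContDiff
open Pool.Agent.Lib.MP_03e5d0_nt (Sm ex ft bump)
open Pool.Agent.Lib.MP_778b46_nt.GX (Lf Lp)

/-! Mellin inversion for the exponential sum. -/

theorem e6_term {X : ℝ} (hX : 0 < X) {g : ℕ → ℂ} (h0 : g 0 = 0) (s : ℂ) (n : ℕ) :
    (X : ℂ) ^ s * LSeries.term g s n = cexp (-s * (Real.log (n / X) : ℝ)) * g n := by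
  rcases n.eq_zero_or_pos with rfl | hn
  · simp [h0]
  have hn' : (0 : ℝ) < n := by exact_mod_cast hn
  rw [LSeries.term_of_ne_zero hn.ne', Real.log_div hn'.ne' hX.ne',
    cpow_def_of_ne_zero (ofReal_ne_zero.2 hX.ne'), cpow_def_of_ne_zero (Nat.cast_ne_zero.2 hn.ne'),
    ← ofReal_log hX.le, ← natCast_log, div_eq_mul_inv, ← Complex.exp_neg, mul_left_comm,
    ← Complex.exp_add, mul_comm]
  congr 2
  push_cast
  ring

/-- `mm_inv` at `x = n / X` for every `n ≥ 1`, the left side as a `tsum` (the terms vanish for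
`n > X`), exchange of `tsum` and integral (`integral_tsum_of_summable_integral_norm`,
`mm_integrable`, `ArithmeticFunction.LSeriesSummable_vonMangoldt`). -/
theorem ss_mellin {X : ℝ} (hX : 1 ≤ X) {f : ℕ → ℂ} (hf : ∀ n, ‖f n‖ ≤ 1) (y : ℝ) {c : ℝ}
    (h1 : 1 < c) (h2 : c ≤ 2) :
    ∑ n ∈ Icc 1 ⌊X⌋₊, ((ArithmeticFunction.vonMangoldt n * w1 (n / X) : ℝ) : ℂ) * f n *
        ex y (n / X) =
      (2 * π : ℂ)⁻¹ * ∫ t : ℝ, MM w1 y (c + t * I) * (X : ℂ) ^ (c + t * I : ℂ) *
        LSeries (fun n => f n * (ArithmeticFunction.vonMangoldt n : ℝ)) (c + t * I) := by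
  have hX0 : 0 < X := by linarith
  set g : ℕ → ℂ := fun n => f n * (ArithmeticFunction.vonMangoldt n : ℝ) with hg
  have g0 : g 0 = 0 := by simp [hg]
  have hM := mm_integrable wt_w1 y (by linarith : 0 ≤ c) h2
  have hS : LSeriesSummable g c := by
    refine (ArithmeticFunction.LSeriesSummable_vonMangoldt (s := c) (by simpa using h1)).norm.of_norm_bounded
      fun n => LSeries.norm_term_le _ ?_
    rw [hg, norm_mul]
    exact mul_le_of_le_one_left (norm_nonneg _) (hf n)
  have hn : ∀ (n : ℕ) (t : ℝ), ‖cexp (-(c + I * t) * (Real.log (n / X) : ℝ)) * g n‖ =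
      X ^ c * ‖LSeries.term g c n‖ := fun n t => by
    rw [← e6_term hX0 g0, norm_mul, norm_cpow_eq_rpow_re_of_pos hX0, LSeries.norm_term_eq,
      LSeries.norm_term_eq]
    simp
  have hI : ∀ n : ℕ, Integrable fun t : ℝ => MM w1 y (c + I * t) *
      (cexp (-(c + I * t) * (Real.log (n / X) : ℝ)) * g n) := fun n =>
    hM.mul_bdd (Continuous.aestronglyMeasurable (by fun_prop))
      (Filter.Eventually.of_forall fun t => (hn n t).le)
  have key := integral_tsum_of_summable_integral_norm hI (by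
    simp only [norm_mul (MM _ _ _), hn, integral_mul_const]
    exact (hS.norm.mul_left _).mul_left _)
  have e : ∀ t : ℝ, MM w1 y (c + t * I) * (X : ℂ) ^ (c + t * I : ℂ) * LSeries g (c + t * I) =
      ∑' n : ℕ, MM w1 y (c + I * t) * (cexp (-(c + I * t) * (Real.log (n / X) : ℝ)) * g n) :=
    fun t => by
      rw [mul_comm (t : ℂ) I, LSeries, ← tsum_mul_left]
      exact tsum_congr fun n => by rw [mul_assoc, e6_term hX0 g0]
  simp only [e]
  rw [← key, ← tsum_mul_left, ← tsum_eq_sum (L := SummationFilter.unconditional ℕ)]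
  · refine tsum_congr fun n => ?_
    rcases n.eq_zero_or_pos with rfl | hn0
    · simp [g0]
    have h3 := mm_inv wt_w1 y (by linarith : 0 ≤ c) h2
      (div_pos (show (0 : ℝ) < n by exact_mod_cast hn0) hX0)
    simp only [← mul_assoc (MM _ _ _), integral_mul_const]
    rw [← mul_assoc, ← h3, hg]
    push_cast
    ring
  · intro n hn
    rcases n.eq_zero_or_pos with rfl | hn0
    · simp
    have h3 : X < n := Nat.lt_of_floor_lt (by
      by_contra h4
      exact hn (mem_Icc.2 ⟨hn0, not_lt.1 h4⟩))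
    rw [wt_w1.supp _ (Or.inr ((one_le_div hX0).2 h3.le))]
    simp

end Pool.Agent.Lib.MP_778b46_nt.MA
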