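import Pool.Agent.Lib.MP_778b46_nt.MA.E3
import Pool.Agent.Lib.MP_778b46_nt.MA.E5
import Pool.Agent.Lib.MP_778b46_nt.MA.E6

set_option autoImplicit false

noncomputable section

namespace Pool.Agent.Lib.MP_778b46_nt.MA

open Complex Finset MeasureTheory
open scoped Real ContDiff
open Pool.Agent.Lib.MP_03e5d0_nt (Sm ex ft bump)
open Pool.Agent.Lib.MP_778b46_nt.GX (Lf Lp)

/-! The explicit formula. -/

theorem e4_tail {G : ℝ → ℂ} (hG : Continuous G) {T K : ℝ} (hT : 0 ≤ T) (hK : 0 ≤ K)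
    (h : ∀ t : ℝ, T ≤ |t| → ‖G t‖ ≤ K * (1 + t ^ 2)⁻¹) :
    ‖(∫ t : ℝ, G t) - ∫ t in (-T)..T, G t‖ ≤ K * π := by
  have hm : MeasurableSet (Set.Ioc (-T) T) := measurableSet_Ioc
  have hb : Integrable fun t : ℝ => K * (1 + t ^ 2)⁻¹ := integrable_inv_one_add_sq.const_mul K
  have hae : ∀ᵐ t ∂(volume.restrict (Set.Ioc (-T) T)ᶜ), ‖G t‖ ≤ K * (1 + t ^ 2)⁻¹ := by
    rw [ae_restrict_iff' hm.compl]
    refine Filter.Eventually.of_forall fun t ht => h t ?_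
    rw [Set.mem_compl_iff, Set.mem_Ioc, not_and_or, not_lt, not_le] at ht
    rcases ht with ht | ht
    · exact le_abs.2 (Or.inr (by linarith))
    · exact le_abs.2 (Or.inl ht.le)
  have i1 : IntegrableOn G (Set.Ioc (-T) T) := hG.integrableOn_Ioc
  have i2 : IntegrableOn G (Set.Ioc (-T) T)ᶜ :=
    Integrable.mono' hb.integrableOn hG.aestronglyMeasurable hae
  have i3 : Integrable G := by
    rw [← integrableOn_univ, ← Set.union_compl_self (Set.Ioc (-T) T)]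
    exact i1.union i2
  rw [intervalIntegral.integral_of_le (by linarith), ← integral_add_compl hm i3, add_sub_cancel_left]
  refine (norm_integral_le_of_norm_le hb.integrableOn hae).trans ?_
  refine (setIntegral_le_integral hb (Filter.Eventually.of_forall fun t => ?_)).trans ?_
  · show (0 : ℝ) ≤ K * (1 + t ^ 2)⁻¹
    positivity
  · rw [integral_const_mul, integral_univ_inv_one_add_sq]

theorem e4_ls : ∃ B : ℝ, 0 ≤ B ∧ ∀ (f : ℕ → ℂ), (∀ n, ‖f n‖ ≤ 1) → ∀ s : ℂ, 101 / 100 ≤ s.re →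
    ‖LSeries (fun n => f n * (ArithmeticFunction.vonMangoldt n : ℝ)) s‖ ≤ B := by
  have hs : LSeriesSummable (fun n => ((ArithmeticFunction.vonMangoldt n : ℝ) : ℂ))
      ((101 / 100 : ℝ) : ℂ) :=
    ArithmeticFunction.LSeriesSummable_vonMangoldt (by rw [ofReal_re]; norm_num)
  have hn := hs.norm
  refine ⟨_, tsum_nonneg fun n => norm_nonneg _, fun f hf s h => tsum_of_norm_bounded hn.hasSum ?_⟩
  intro n
  refine (LSeries.norm_term_le_of_re_le_re _ (s := ((101 / 100 : ℝ) : ℂ))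
    (by rw [ofReal_re]; exact h) n).trans (LSeries.norm_term_le _ ?_)
  rw [norm_mul]
  exact mul_le_of_le_one_left (norm_nonneg _) (hf n)

theorem e4_lp : ∃ C : ℝ, 0 ≤ C ∧ ∀ (X : ℝ) (f : ℕ → ℂ) (y : ℝ), 1 ≤ X → (∀ n, ‖f n‖ ≤ 1) →
    ‖SS X f y - ∑ n ∈ Icc 1 ⌊X⌋₊,
      ((ArithmeticFunction.vonMangoldt n * w1 (n / X) : ℝ) : ℂ) * f n * ex y (n / X)‖ ≤
      C * √X := by
  obtain ⟨C, hC, h⟩ := sum_sub_lp
  refine ⟨C, hC, fun X f y hX hf => ?_⟩
  rw [SS, ← Finset.sum_sub_distrib]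
  refine (norm_sum_le _ _).trans ((Finset.sum_le_sum fun n _ => ?_).trans (h X hX))
  rw [← sub_mul, ← sub_mul, norm_mul, norm_mul, MP_03e5d0_nt.norm_ex, mul_one, ← ofReal_sub,
    norm_real, Real.norm_eq_abs, ← sub_mul, abs_mul, abs_sub_comm,
    abs_of_nonneg (sub_nonneg.2 (lp_le n)), abs_of_nonneg (w1_mem _).1, mul_assoc]
  exact mul_le_of_le_one_right (sub_nonneg.2 (lp_le n))
    (mul_le_one₀ (w1_mem _).2 (norm_nonneg _) (hf n))

theorem e4_far {κ : ℝ} (hκ : 0 < κ) : ∃ K : ℝ, 0 ≤ K ∧ ∀ (X T₁ T y : ℝ) (s : ℂ), 2 ≤ X →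
    1 ≤ T₁ → T₁ * X ^ κ ≤ T → T ≤ X → |y| ≤ 2 * T₁ → 0 ≤ s.re → s.re ≤ 2 → T ≤ |s.im| →
    ‖MM w1 y s * (X : ℂ) ^ s‖ ≤ K * (1 + s.im ^ 2)⁻¹ := by
  obtain ⟨k, hk⟩ := exists_nat_ge (4 / κ)
  have hk4 : 4 ≤ κ * k := by
    rw [div_le_iff₀ hκ] at hk
    linarith
  obtain ⟨C, hC, h⟩ := mm_bd wt_w1 (k + 2)
  refine ⟨C * 3 ^ (k + 2), by positivity, fun X T₁ T y s hX hT₁ hT hTX hy h0 h2 hs => ?_⟩
  have hX0 : 0 < X := by linarith
  have hX1 : 1 ≤ X := by linarith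
  have hp : 1 ≤ X ^ κ := Real.one_le_rpow hX1 hκ.le
  have hT1 : T₁ ≤ T := le_trans (le_mul_of_one_le_right (by linarith) hp) hT
  have ha : 0 ≤ |s.im| := abs_nonneg _
  have hy0 : 0 ≤ |y| := abs_nonneg _
  have r1 : (1 + |y|) / (1 + |s.im|) ≤ 3 / X ^ κ := by
    rw [div_le_div_iff₀ (by linarith) (by linarith)]
    nlinarith
  have r2 : (1 + |y|) / (1 + |s.im|) ≤ 3 * X / (1 + |s.im|) := by
    gcongr
    linarith
  have r0 : 0 ≤ (1 + |y|) / (1 + |s.im|) := by positivity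
  have p1 : ((1 + |y|) / (1 + |s.im|)) ^ k ≤ 3 ^ k / X ^ 4 := by
    refine (pow_le_pow_left₀ r0 r1 k).trans ?_
    rw [div_pow, ← Real.rpow_natCast (X ^ κ), ← Real.rpow_mul hX0.le]
    gcongr
    rw [← Real.rpow_natCast]
    exact Real.rpow_le_rpow_of_exponent_le hX1 (by exact_mod_cast hk4)
  have p2 : ((1 + |y|) / (1 + |s.im|)) ^ 2 ≤ 3 ^ 2 * X ^ 2 * (1 + s.im ^ 2)⁻¹ := by
    refine (pow_le_pow_left₀ r0 r2 2).trans ?_
    rw [div_pow, mul_pow, div_eq_mul_inv]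
    gcongr
    nlinarith [sq_abs s.im]
  have p3 : X ^ s.re ≤ X ^ 2 := by
    rw [← Real.rpow_natCast]
    exact Real.rpow_le_rpow_of_exponent_le hX1 (by exact_mod_cast h2)
  rw [norm_mul, norm_cpow_eq_rpow_re_of_pos hX0]
  calc ‖MM w1 y s‖ * X ^ s.re
      ≤ C * ((3 ^ k / X ^ 4) * (3 ^ 2 * X ^ 2 * (1 + s.im ^ 2)⁻¹)) * X ^ 2 := by
        refine mul_le_mul ((h y s h0 h2).trans ?_) p3 (by positivity) (by positivity)
        rw [pow_add]
        gcongr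
    _ = C * 3 ^ (k + 2) * (1 + s.im ^ 2)⁻¹ := by
        field_simp
        ring

open Classical in
theorem e4_vv {X : ℝ} (hX : 0 < X) {N : ℕ} [NeZero N] (χ : DirichletCharacter ℂ N) (δ T y : ℝ) :
    X * VV X χ δ T y =
      (if χ.primitiveCharacter = 1 then 1 else 0) * (MM w1 y 1 * (X : ℂ) ^ (1 : ℂ)) -
        ∑ ρ ∈ zs (Lf χ.primitiveCharacter) δ T,
          (analyticOrderNatAt (Lf χ.primitiveCharacter) ρ : ℂ) * (MM w1 y ρ * (X : ℂ) ^ ρ) := by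
  have h0 : (X : ℂ) ≠ 0 := ofReal_ne_zero.2 hX.ne'
  rw [VV, mul_sub, Finset.mul_sum, cpow_one]
  congr 1
  · simp only [GX.prim_eq_one_iff]
    ring
  · refine Finset.sum_congr rfl fun ρ _ => ?_
    rw [cpow_sub _ _ h0, cpow_one]
    unfold GX.Lp
    field_simp

theorem e4_cont {f F : ℂ → ℂ} {b T : ℝ} (hf : Ent f b T) (hF : Differentiable ℂ F) (e : ℂ) :
    Continuous fun t : ℝ => F ((101 / 100 : ℝ) + t * I) *
      (-(deriv f ((101 / 100 : ℝ) + t * I) / f ((101 / 100 : ℝ) + t * I)) +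
        e * (((101 / 100 : ℝ) + t * I) - 1)⁻¹) := by
  have hs : Continuous fun t : ℝ => ((101 / 100 : ℝ) + t * I : ℂ) := by fun_prop
  have hre : ∀ t : ℝ, ((101 / 100 : ℝ) + t * I : ℂ).re = 101 / 100 := fun t => by simp
  refine (hF.continuous.comp hs).mul (Continuous.add (Continuous.neg (Continuous.div
    (hf.diff.deriv.continuous.comp hs) (hf.diff.continuous.comp hs) fun t => ?_))
    (continuous_const.mul ((hs.sub continuous_const).inv₀ fun t h => ?_)))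
  · exact hf.ne _ (by rw [hre]; norm_num)
  · have : (((101 / 100 : ℝ) + t * I : ℂ) - 1).re = (0 : ℂ).re := congrArg Complex.re h
    rw [sub_re, hre, one_re, zero_re] at this
    norm_num at this

/-- `SS_congr` to the primitive character `ψ` (`GX.pr_eq`), `sum_sub_lp`, `ss_mellin` with
`c = 101/100`, `lf_series`, `GX.prim_eq_one_iff`. `F s = MM w1 y s * X ^ s` is entire (`mm_diff`),
`M₀` from `mm_bd 0`, and for `T ≤ |im s|` `mm_bd (k + 2)`, `κ k ≥ 4`, gives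
`‖F s‖ ≤ C / (1 + |im s|) ^ 2`; this bounds `M₁` and the part `|t| > T` of the integral (the
`LSeries` is bounded on the line). `ent_contour` with `b ≤ C log X`. -/
theorem ef {δ κ : ℝ} (h0 : 0 < δ) (h1 : δ ≤ 1 / 40) (hκ : 0 < κ) : ∃ C : ℝ, 0 ≤ C ∧
    ∀ (X T₁ T y : ℝ) (N : ℕ) [NeZero N] (χ : DirichletCharacter ℂ N), 2 ≤ X → 1 ≤ T₁ →
    T₁ * X ^ κ ≤ T → T ≤ X → (χ.conductor : ℝ) ≤ X → |y| ≤ 2 * T₁ →
    (∀ n : ℕ, n.Prime → X / 4 < n → Nat.Coprime n N) →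
    ‖SS X (cf χ) y - X * VV X χ δ T y‖ ≤ C * X ^ (1 - δ) * T ^ 2 * Real.log X ^ 2 := by
  classical
  obtain ⟨C₁, hC₁, H₁⟩ := e4_lp
  obtain ⟨B, hB, HB⟩ := e4_ls
  obtain ⟨K, hK, HK⟩ := e4_far hκ
  obtain ⟨M, hM, HM⟩ := mm_bd wt_w1 0
  obtain ⟨C₂, hC₂, H₂⟩ := lf_ent
  obtain ⟨C₃, hC₃, H₃⟩ := ent_contour h0 h1
  refine ⟨4 * C₁ + 4 * (K * B) + C₃ * (4 * C₂) ^ 2 * (M + K), by positivity,
    fun X T₁ T y N _ χ hX hT₁ hT hTX hq hy hN => ?_⟩
  have hX0 : 0 < X := by linarith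
  have hX1 : 1 ≤ X := by linarith
  have hX' : (X : ℂ) ≠ 0 := ofReal_ne_zero.2 hX0.ne'
  have hp : 1 ≤ X ^ κ := Real.one_le_rpow hX1 hκ.le
  have hT1 : 1 ≤ T := le_trans (one_le_mul_of_one_le_of_one_le hT₁ hp) hT
  set ψ := χ.primitiveCharacter with hψ
  set F : ℂ → ℂ := fun s => MM w1 y s * (X : ℂ) ^ s with hF
  set e : ℂ := if ψ = 1 then 1 else 0 with he
  have hFd : Differentiable ℂ F :=
    (mm_diff wt_w1 y).mul (differentiable_id.const_cpow (Or.inl hX'))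
  have hE := H₂ χ.conductor ψ T hT1
  set b := C₂ * (1 + Real.log (χ.conductor * T)) with hb
  have he1 : ‖e‖ ≤ 1 := by
    rw [he]
    split_ifs <;> simp
  have hre : ∀ t : ℝ, ((101 / 100 : ℝ) + t * I : ℂ).re = 101 / 100 := fun t => by simp
  have him : ∀ t : ℝ, ((101 / 100 : ℝ) + t * I : ℂ).im = t := fun t => by simp
  have a1 : SS X (cf χ) y = SS X (cf ψ) y :=
    SS_congr hX0 (fun n hn hl => (GX.pr_eq χ (hN n hn hl)).symm) y
  have a2 := H₁ X (cf ψ) y hX1 (norm_cf ψ)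
  have a3 := ss_mellin hX1 (norm_cf ψ) y (c := 101 / 100) (by norm_num) (by norm_num)
  have hL : ∀ t : ℝ, LSeries (fun n => cf ψ n * (ArithmeticFunction.vonMangoldt n : ℝ))
      ((101 / 100 : ℝ) + t * I) =
      -(deriv (Lf ψ) ((101 / 100 : ℝ) + t * I) / Lf ψ ((101 / 100 : ℝ) + t * I)) +
        e * (((101 / 100 : ℝ) + t * I) - 1)⁻¹ := fun t =>
    lf_series ψ (by rw [hre]; norm_num)
  simp only [hL] at a3
  have a4 := e4_tail (e4_cont hE hFd e) (T := T) (K := K * B) (by linarith) (by positivity)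
    (fun t ht => by
      rw [norm_mul, ← hL, mul_right_comm]
      refine mul_le_mul ?_ (HB _ (norm_cf ψ) _ (hre t).ge) (norm_nonneg _) (by positivity)
      have := HK X T₁ T y ((101 / 100 : ℝ) + t * I) hX hT₁ hT hTX hy (by rw [hre]; norm_num)
        (by rw [hre]; norm_num) (by rwa [him])
      rwa [him] at this)
  have a5 := H₃ (Lf ψ) F e b T X M K hE hT1 he1 hX1 hM hK hFd
    (fun s s1 s2 => by
      rw [hF, norm_mul, norm_cpow_eq_rpow_re_of_pos hX0]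
      have := HM y s (by linarith) (by linarith)
      rw [pow_zero, mul_one] at this
      gcongr)
    (fun s s1 s2 s3 => by
      refine (HK X T₁ T y s hX hT₁ hT hTX hy (by linarith) (by linarith) s3).trans ?_
      exact mul_le_of_le_one_right hK (inv_le_one_of_one_le₀ (by nlinarith [sq_nonneg s.im])))
  rw [e4_vv hX0, a1]
  rw [a3] at a2
  set J := ∫ t : ℝ, F ((101 / 100 : ℝ) + t * I) *
    (-(deriv (Lf ψ) ((101 / 100 : ℝ) + t * I) / Lf ψ ((101 / 100 : ℝ) + t * I)) +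
      e * (((101 / 100 : ℝ) + t * I) - 1)⁻¹) with hJ
  set J' := ∫ t in (-T)..T, F ((101 / 100 : ℝ) + t * I) *
    (-(deriv (Lf ψ) ((101 / 100 : ℝ) + t * I) / Lf ψ ((101 / 100 : ℝ) + t * I)) +
      e * (((101 / 100 : ℝ) + t * I) - 1)⁻¹) with hJ'
  set Z := e * F 1 - ∑ ρ ∈ zs (Lf ψ) δ T, (analyticOrderNatAt (Lf ψ) ρ : ℂ) * F ρ with hZ
  change ‖SS X (cf ψ) y - (2 * π : ℂ)⁻¹ * J‖ ≤ _ at a2
  change ‖SS X (cf ψ) y - Z‖ ≤ _
  have a6 : ‖(2 * π : ℂ)⁻¹ * (J - J')‖ ≤ K * B := by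
    have hn : ‖(2 * π : ℂ)⁻¹‖ = (2 * π)⁻¹ := by
      rw [norm_inv, norm_mul, norm_real, Real.norm_eq_abs, abs_of_pos Real.pi_pos]
      simp
    rw [norm_mul, hn]
    have hπ := Real.pi_pos
    calc (2 * π)⁻¹ * ‖J - J'‖ ≤ (2 * π)⁻¹ * (K * B * π) := by gcongr
      _ = K * B / 2 := by field_simp
      _ ≤ K * B := by have := mul_nonneg hK hB; linarith
  have hl : 1 / 2 ≤ Real.log X :=
    le_trans (by have := Real.log_two_gt_d9; linarith) (Real.log_le_log (by norm_num) hX)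
  have hq1 : (1 : ℝ) ≤ χ.conductor := by
    exact_mod_cast Nat.pos_of_ne_zero χ.conductor_ne_zero
  have hbl : b ≤ 4 * C₂ * Real.log X := by
    have : Real.log (χ.conductor * T) ≤ 2 * Real.log X := by
      rw [Real.log_mul (by linarith) (by linarith)]
      have := Real.log_le_log (by linarith) hq
      have := Real.log_le_log (by linarith) hTX
      linarith
    rw [hb]
    nlinarith
  have hb0 : 0 ≤ b := le_trans zero_le_one hE.one
  have hY : 1 ≤ X ^ (1 - δ) := Real.one_le_rpow hX1 (by linarith)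
  have hs : √X ≤ X ^ (1 - δ) := by
    rw [Real.sqrt_eq_rpow]
    exact Real.rpow_le_rpow_of_exponent_le hX1 (by linarith)
  set Y := X ^ (1 - δ)
  set l := Real.log X
  have hT2 : 1 ≤ T ^ 2 := one_le_pow₀ hT1
  have hW : 1 ≤ T ^ 2 * (4 * l ^ 2) :=
    one_le_mul_of_one_le_of_one_le hT2 (by nlinarith)
  have b1 : C₁ * √X ≤ 4 * C₁ * Y * T ^ 2 * l ^ 2 :=
    calc C₁ * √X ≤ C₁ * Y * (T ^ 2 * (4 * l ^ 2)) :=
          le_trans (by gcongr) (le_mul_of_one_le_right (by positivity) hW)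
      _ = _ := by ring
  have b2 : K * B ≤ 4 * (K * B) * Y * T ^ 2 * l ^ 2 :=
    calc K * B ≤ K * B * Y * (T ^ 2 * (4 * l ^ 2)) :=
          le_trans (le_mul_of_one_le_right (by positivity) hY)
            (le_mul_of_one_le_right (by positivity) hW)
      _ = _ := by ring
  have b3 : C₃ * b ^ 2 * T ^ 2 * (M * Y + K) ≤
      C₃ * (4 * C₂) ^ 2 * (M + K) * Y * T ^ 2 * l ^ 2 :=
    calc C₃ * b ^ 2 * T ^ 2 * (M * Y + K) ≤
          C₃ * (4 * C₂ * l) ^ 2 * T ^ 2 * (M * Y + K * Y) := by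
          gcongr
          exact le_mul_of_one_le_right hK hY
      _ = _ := by ring
  calc ‖SS X (cf ψ) y - Z‖ = ‖(SS X (cf ψ) y - (2 * π : ℂ)⁻¹ * J) + (2 * π : ℂ)⁻¹ * (J - J') +
        ((2 * π : ℂ)⁻¹ * J' - Z)‖ := by congr 1; ring
    _ ≤ _ := norm_add₃_le
    _ ≤ _ := by linarith

end Pool.Agent.Lib.MP_778b46_nt.MA
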