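import Pool.Agent.Lib.MP_778b46_nt.MA.B1

set_option autoImplicit false

noncomputable section

namespace Pool.Agent.Lib.MP_778b46_nt.MA

open Complex Finset MeasureTheory
open scoped Real ContDiff
open Pool.Agent.Lib.MP_03e5d0_nt (Sm ex ft bump)
open Pool.Agent.Lib.MP_778b46_nt.GX (Lf Lp)

/-! From the bilinear form to the singular series. -/

/-- The truncated integral over one arc. -/
def b5_K (X T T' : ℝ) (m : ℕ) (f g : ℕ → ℂ) : ℂ :=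
  (2 * π : ℂ)⁻¹ ^ 2 * ∑ t ∈ II T', ∑ t' ∈ II T',
    PS w0 T (m / X) (-(I * t)) (-(I * t')) * (DD X f t * DD X g t')

theorem b5_int (X T' : ℝ) {T : ℝ} (hT : 0 < T) (m : ℕ) (f g : ℕ → ℂ) :
    ∫ y : ℝ, (kk (y / T) : ℂ) *
      ((2 * π : ℂ)⁻¹ * ∑ t ∈ II T', MM w0 y (-(I * t)) * DD X f t) *
      ((2 * π : ℂ)⁻¹ * ∑ t ∈ II T', MM w0 y (-(I * t)) * DD X g t) * ex (-y) (m / X) =
      b5_K X T T' m f g := by
  rw [b5_K, ← bil_ps wt_w0 (II T') (II T') (fun t : ℤ => -(I * t)) (fun t : ℤ => DD X f t)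
    (fun t : ℤ => -(I * t)) (fun t : ℤ => DD X g t) hT, ← integral_const_mul]
  refine integral_congr_ae (Filter.Eventually.of_forall fun y => ?_)
  simp only
  ring

theorem b5_res {N : ℕ} [NeZero N] (B : Finset (DirichletCharacter ℂ N))
    (F : DirichletCharacter ℂ N → DirichletCharacter ℂ N → ℂ) (S : Finset ℤ) (p : ℤ → ℤ → ℂ)
    (a : DirichletCharacter ℂ N → ℤ → ℂ) :
    ∑ χ, ∑ χ', F χ χ' * ∑ t ∈ S, ∑ t' ∈ S, p t t' * (res B a χ t * res B a χ' t') =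
      ∑ χ ∈ B, ∑ χ' ∈ B, F χ χ' * ∑ t ∈ S, ∑ t' ∈ S, p t t' * (a χ t * a χ' t') := by
  symm
  refine Finset.sum_subset_zero_on_sdiff (Finset.subset_univ B) (fun χ hχ => ?_) fun χ hχ => ?_
  · have h := (Finset.mem_sdiff.1 hχ).2
    simp [res, h]
  · refine Finset.sum_subset_zero_on_sdiff (Finset.subset_univ B) (fun χ' hχ' => ?_)
      fun χ' hχ' => ?_
    · have h := (Finset.mem_sdiff.1 hχ').2
      simp [res, h]
    · simp [res, hχ, hχ']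

theorem b5_bb {N : ℕ} [NeZero N] (B : Finset (DirichletCharacter ℂ N)) (X P H : ℝ) (m : ℕ)
    {T : ℝ} (hT : 0 < T) : BB X P H m (fun _ => T) (res B (dd X)) (res B (dd X)) =
      ∑ χ ∈ B, ∑ χ' ∈ B, ∑ q ∈ Icc 1 ⌊P⌋₊, ww q m χ χ' * b5_K X T (H / q) m (cf χ) (cf χ') := by
  rw [bb_ps X P H m fun _ _ => hT]
  simp only [b5_res]
  rw [Finset.sum_comm, Finset.mul_sum]
  refine Finset.sum_congr rfl fun χ _ => ?_
  rw [Finset.sum_comm, Finset.mul_sum]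
  refine Finset.sum_congr rfl fun χ' _ => ?_
  rw [Finset.mul_sum]
  refine Finset.sum_congr rfl fun q _ => ?_
  simp only [b5_K, dd]
  ring

/-- `bb_ps`; for each `q`, `χ`, `χ'` the double sum over `t`, `t'` times `(2 π)⁻¹ ^ 2` is the
integral of `jj_trunc` with `T' = H / q ≥ T X ^ κ` (`bil_ps`), cost `C` times `ww_icc`; then
`ww_compl` and `norm_JJ_le`. -/
theorem bb_sg {κ : ℝ} (hκ : 0 < κ) : ∃ C : ℝ, 0 ≤ C ∧ ∀ (X P H Λ T Z : ℝ) (m N : ℕ) [NeZero N]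
    (B : Finset (DirichletCharacter ℂ N)), 2 ≤ X → 1 ≤ P → N = ⌊P⌋₊.factorial → Rat0 N Λ →
    1 ≤ m → 1 ≤ T → T ≤ X → P * (T * X ^ κ) ≤ H → 0 ≤ Z →
    (∀ χ ∈ B, ∀ χ' ∈ B, (Nat.gcd (Nat.lcm χ.conductor χ'.conductor) m : ℝ) ≤ Z ^ 2 * P) →
    ‖BB X P H m (fun _ => T) (res B (dd X)) (res B (dd X)) -
        ∑ χ ∈ B, ∑ χ' ∈ B, SG m χ χ' * JJ X m T (cf χ) (cf χ')‖ ≤
      C * (B.card : ℝ) ^ 2 * Λ ^ 2 * tu m * (1 + Z * T * X ^ 2) := by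
  obtain ⟨C, hC, hJ⟩ := jj_trunc hκ
  refine ⟨4 * C + 48, by positivity, fun X P H Λ T Z m N _ B hX hP hN hΛ hm hT hTX hH hZ hB => ?_⟩
  have hT0 : 0 < T := by linarith
  have hX0 : 0 ≤ X := by linarith
  have htu : 0 ≤ tu m := le_trans zero_le_one (tu_pos hm)
  have hK : ∀ q ∈ Icc 1 ⌊P⌋₊, ∀ χ χ' : DirichletCharacter ℂ N,
      ‖b5_K X T (H / q) m (cf χ) (cf χ') - JJ X m T (cf χ) (cf χ')‖ ≤ C := by
    intro q hq χ χ'
    obtain ⟨h1, h2⟩ := Finset.mem_Icc.1 hq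
    have hq0 : (0 : ℝ) < q := by exact_mod_cast h1
    have hqP : (q : ℝ) ≤ P := (Nat.le_floor_iff (by linarith)).1 h2
    have h3 : T * X ^ κ ≤ H / q := by
      rw [le_div_iff₀ hq0, mul_comm]
      exact le_trans (mul_le_mul_of_nonneg_right hqP (by positivity)) hH
    have h4 := hJ X T (H / q) m (cf χ) (cf χ') hX hT hTX h3 (norm_cf χ) (norm_cf χ')
    rw [b5_int X (H / q) hT0] at h4
    rw [norm_sub_rev]
    exact h4
  have hone : ∀ χ ∈ B, ∀ χ' ∈ B,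
      ‖∑ q ∈ Icc 1 ⌊P⌋₊, ww q m χ χ' * b5_K X T (H / q) m (cf χ) (cf χ') -
        SG m χ χ' * JJ X m T (cf χ) (cf χ')‖ ≤
      (4 * C + 48) * Λ ^ 2 * tu m * (1 + Z * T * X ^ 2) := by
    intro χ hχ χ' hχ'
    have e : ∑ q ∈ Icc 1 ⌊P⌋₊, ww q m χ χ' * b5_K X T (H / q) m (cf χ) (cf χ') -
        SG m χ χ' * JJ X m T (cf χ) (cf χ') =
        ∑ q ∈ Icc 1 ⌊P⌋₊, ww q m χ χ' *
          (b5_K X T (H / q) m (cf χ) (cf χ') - JJ X m T (cf χ) (cf χ')) +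
        (∑ q ∈ Icc 1 ⌊P⌋₊, ww q m χ χ' - SG m χ χ') * JJ X m T (cf χ) (cf χ') := by
      simp only [mul_sub, Finset.sum_sub_distrib, sub_mul, Finset.sum_mul]
      ring
    have h1 : ‖∑ q ∈ Icc 1 ⌊P⌋₊, ww q m χ χ' *
          (b5_K X T (H / q) m (cf χ) (cf χ') - JJ X m T (cf χ) (cf χ'))‖ ≤
        4 * Λ ^ 2 * tu m * C := by
      refine (norm_sum_le _ _).trans (le_trans (Finset.sum_le_sum fun q hq => ?_)
        ((Finset.sum_mul _ _ C).symm.le.trans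
          (mul_le_mul_of_nonneg_right (ww_icc hΛ hN hm χ χ') hC)))
      rw [norm_mul]
      exact mul_le_mul_of_nonneg_left (hK q hq χ χ') (norm_nonneg _)
    have h2 : ‖(∑ q ∈ Icc 1 ⌊P⌋₊, ww q m χ χ' - SG m χ χ') * JJ X m T (cf χ) (cf χ')‖ ≤
        3 * Λ ^ 2 * tu m * Z * (16 * T * X ^ 2) := by
      rw [norm_mul]
      exact mul_le_mul (ww_compl hΛ hP hN hm χ χ' hZ (hB χ hχ χ' hχ'))
        (norm_JJ_le hX0 hT0 m (norm_cf χ) (norm_cf χ')) (norm_nonneg _) (by positivity)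
    rw [e]
    refine (norm_add_le _ _).trans ((add_le_add h1 h2).trans ?_)
    have h3 : 0 ≤ Λ ^ 2 * tu m * (48 + 4 * C * (Z * T * X ^ 2)) := by positivity
    nlinarith [h3]
  rw [b5_bb B X P H m hT0, ← Finset.sum_sub_distrib]
  refine (norm_sum_le _ _).trans ?_
  have h5 : ∀ χ ∈ B, ‖∑ χ' ∈ B, ∑ q ∈ Icc 1 ⌊P⌋₊, ww q m χ χ' * b5_K X T (H / q) m (cf χ) (cf χ') -
      ∑ χ' ∈ B, SG m χ χ' * JJ X m T (cf χ) (cf χ')‖ ≤
      B.card * ((4 * C + 48) * Λ ^ 2 * tu m * (1 + Z * T * X ^ 2)) := by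
    intro χ hχ
    rw [← Finset.sum_sub_distrib]
    refine (norm_sum_le _ _).trans ((Finset.sum_le_sum (hone χ hχ)).trans ?_)
    rw [Finset.sum_const, nsmul_eq_mul]
  refine (Finset.sum_le_sum h5).trans ?_
  rw [Finset.sum_const, nsmul_eq_mul]
  exact le_of_eq (by ring)

end Pool.Agent.Lib.MP_778b46_nt.MA
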