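import Pool.Agent.Lib.MP_778b46_nt.MA.LVe

/- Mean squares of the Dirichlet polynomials over the primes: the full mass and the mass of the
small values. -/

noncomputable section

namespace Pool.Agent.Lib.MP_778b46_nt.MA

open Complex Finset Pool.Agent.Lib.MP_778b46_nt.GX

theorem lv_log {u : ℝ} (hu : 1 ≤ u) {R : ℝ} (hR : 1 ≤ R) (h : R ≤ u ^ 72) :
    1 + Real.log (2 * R) ≤ 74 * u := by
  have k1 := Real.log_le_log (by linarith) (show 2 * R ≤ 2 * u ^ 72 by linarith)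
  rw [Real.log_mul (y := u ^ 72) (by norm_num) (by positivity), Real.log_pow] at k1
  have k2 := Real.log_le_sub_one_of_pos (show 0 < u by linarith)
  push_cast at k1
  linarith [Real.log_two_lt_d9]

theorem lv_root {X H : ℝ} (hX : 1 ≤ X) (hH : H ≤ X ^ (9 / 25 : ℝ)) :
    ∃ u : ℝ, 1 ≤ u ∧ X = u ^ 200 ∧ H ≤ u ^ 72 := by
  refine ⟨X ^ (1 / 200 : ℝ), Real.one_le_rpow hX (by norm_num), ?_, hH.trans (le_of_eq ?_)⟩ <;>
    rw [← Real.rpow_natCast, ← Real.rpow_mul (by linarith)] <;> norm_num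

theorem lv_mass : ∃ C : ℝ, 0 ≤ C ∧ ∀ X P H : ℝ, 2 ≤ X → 1 ≤ P → P ≤ H → H ≤ X ^ (9 / 25 : ℝ) →
    mass P H (fun _ ψ t => DD X (cf ψ) t) ≤ C * X ^ 2 * Real.log X ^ 4 := by
  obtain ⟨C0, hC, h⟩ := fam_IB
  obtain ⟨L, hw⟩ := wg_w0
  refine ⟨10 * (2 * C0 * 297), by positivity, fun X P H hX hP hPH hH => ?_⟩
  obtain ⟨u, hu, hXu, hHu⟩ := lv_root (by linarith) hH
  have hX0 : 0 < X := by linarith
  have hl : 2 / 3 ≤ Real.log X := by
    linarith [Real.log_le_log (by norm_num) hX, Real.log_two_gt_d9]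
  have hHX : H ≤ X := hHu.trans ((pow_le_pow_right₀ hu (by norm_num)).trans hXu.ge)
  refine (mass_blocks (B := 2 * C0 * 297 * X ^ 2 * Real.log X ^ 2) hP hPH (by positivity) _
    fun R A hR hRH hA => ?_).trans ?_
  · have hR1 : (1 : ℝ) ≤ R := by exact_mod_cast hR
    have k := h R A H (74 * u) (-1) hR hRH hA (lv_log hu hR1 (hRH.trans hHu)) _ Subset.rfl
      fun i _ _ => by linarith [abs_nonneg (i.2 : ℝ)]
    have k1 := ls_smooth k.ls hC k.D1 (G := Real.log X) hX0 ⌊X⌋₊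
      (fun n => (w0 (n / X) : ℂ) * lp n) (fun n hn h0 => ?_) fun n hn => ?_
    · simp only [norm_DD hX0, ← mul_assoc]
      refine k1.trans ?_
      have k2 : 4 * H * R * (74 * u) ≤ 296 * X := by
        have : 0 ≤ H := by linarith
        calc _ ≤ 4 * u ^ 72 * u ^ 72 * (74 * u) := by gcongr; exact hRH.trans hHu
          _ = 296 * u ^ 145 := by ring
          _ ≤ 296 * u ^ 200 := by gcongr; norm_num
          _ = _ := by rw [hXu]
      calc _ ≤ 2 * C0 * (X + 296 * X) * X * Real.log X ^ 2 := by gcongr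
        _ = _ := by ring
    · have k1 : n.Prime := by
        by_contra hc
        exact h0 (by simp [lp, hc])
      have k2 : (n : ℝ) ≤ X := (Nat.le_floor_iff hX0.le).1 (mem_Ioc.1 hn).2
      refine ⟨k1.two_le, ?_, k2⟩
      by_contra hc
      exact h0 (by rw [hw.zero _ (Or.inl (by rw [div_le_iff₀ hX0]; linarith))]; simp)
    · have k2 : (n : ℝ) ≤ X := (Nat.le_floor_iff hX0.le).1 (mem_Ioc.1 hn).2
      rw [norm_mul, norm_real, norm_real, Real.norm_eq_abs, Real.norm_eq_abs]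
      refine (mul_le_of_le_one_left (abs_nonneg _) (hw.le _)).trans ?_
      unfold lp
      split_ifs
      · rw [abs_of_nonneg (Real.log_natCast_nonneg n)]
        exact Real.log_le_log (by exact_mod_cast (mem_Ioc.1 hn).1) k2
      · rw [abs_zero]; linarith
  · have k1 := Real.log_le_log (by linarith) hHX
    calc _ ≤ 10 * Real.log X ^ 2 * (2 * C0 * 297 * X ^ 2 * Real.log X ^ 2) :=
          mul_le_mul_of_nonneg_right (by nlinarith) (by positivity)
      _ = _ := by ring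

theorem sml_le (Y : ℝ) (z : ℂ) : ‖sml Y z‖ ^ 2 ≤ ‖z‖ ^ 2 ∧ ‖sml Y z‖ ^ 2 ≤ Y ^ 2 := by
  unfold sml
  split_ifs with h
  · exact ⟨le_rfl, pow_le_pow_left₀ (norm_nonneg _) h 2⟩
  · simp only [norm_zero, ne_eq, OfNat.ofNat_ne_zero, not_false_eq_true, zero_pow]
    exact ⟨by positivity, by positivity⟩

theorem lv_block : ∃ C : ℝ, 0 ≤ C ∧ ∀ (X u H δ E : ℝ) (R : ℕ) (A : Finset ℕ), 2000 ≤ u →
    X = u ^ 200 → H ≤ u ^ 72 → 0 < δ → δ ≤ 1 → 1 ≤ δ * u ^ 4 → 1 + Real.log X ≤ E →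
    (∀ n : ℕ, (n : ℝ) ≤ X ^ 60 → (n.divisors.card : ℝ) ^ 40 ≤ E) → 1 ≤ R → (R : ℝ) ≤ H →
    A ⊆ Ico R (2 * R) → ∑ i ∈ IB A H, ‖sml (δ ^ 50 * X) (DD X (cf i.1.2) i.2)‖ ^ 2 ≤
      C * E ^ 6 * δ ^ 2 * X ^ 2 := by
  classical
  obtain ⟨C0, hC0, h⟩ := fam_IB
  obtain ⟨L, hw⟩ := wg_w0
  obtain ⟨C, hC, hc⟩ := lv_core C0 L hC0 hw.L1
  refine ⟨2 * C + 4627, by positivity, ?_⟩
  intro X u H δ E R A hu hXu hHu hδ hδ1 hδu hE hτ hR hRH hA
  have hu1 : 1 ≤ u := by linarith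
  have hu0 : 0 < u := by linarith
  have hR1 : (1 : ℝ) ≤ R := by exact_mod_cast hR
  have hH0 : 0 ≤ H := by linarith
  have hX1 : 1 ≤ X := (one_le_pow₀ hu1).trans hXu.ge
  have hX0 : 0 < X := by linarith
  have hE1 : 1 ≤ E := by linarith [Real.log_nonneg hX1]
  have hA1 : ∀ c ∈ A, 1 ≤ c := fun c hc => hR.trans (mem_Ico.1 (hA hc)).1
  have hδ4 : δ ^ 4 ≤ 1 := pow_le_one₀ hδ.le hδ1
  obtain ⟨M, hM1, hM2⟩ : ∃ M : ℕ, 2312 / δ ^ 4 ≤ M ∧ (M : ℝ) ≤ 2312 / δ ^ 4 + 1 :=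
    ⟨_, Nat.le_ceil _, (Nat.ceil_lt_add_one (by positivity)).le⟩
  have hM0 : (1 : ℝ) ≤ M := le_trans (by rw [le_div_iff₀ (by positivity)]; linarith) hM1
  obtain ⟨V, hV1, hV2⟩ : ∃ V : ℕ, u ^ 8 ≤ V ∧ (V : ℝ) ≤ 2 * u ^ 8 :=
    ⟨_, Nat.le_ceil _, (Nat.ceil_lt_add_one (by positivity)).le.trans (by
      linarith [one_le_pow₀ (n := 8) hu1])⟩
  have hV0 : (1 : ℝ) ≤ V := (one_le_pow₀ hu1).trans hV1
  set S := (IB A H).filter fun i => ¬ (i.1.1 = 1 ∧ |(i.2 : ℝ)| ≤ M) with hS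
  have hD : 4 * H * R * (74 * u) ≤ u ^ 146 := by
    calc _ ≤ 4 * u ^ 72 * u ^ 72 * (74 * u) := by gcongr; exact hRH.trans hHu
      _ = 296 * u ^ 145 := by ring
      _ ≤ u * u ^ 145 := by gcongr; linarith
      _ = _ := by ring
  have hδ16 : ∀ k : ℕ, u ^ k ≤ δ ^ 4 * u ^ (k + 16) := fun k => by
    calc _ ≤ (δ * u ^ 4) ^ 4 * u ^ k := le_mul_of_one_le_left (by positivity) (one_le_pow₀ hδu)
      _ = _ := by ring
  obtain ⟨Bad, hB1, hB2⟩ := hc _ S fz (fun i => eta M i.1.1 i.2) w0 X _ _ δ E V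
    (h R A H (74 * u) M hR hRH hA (lv_log hu1 hR1 (hRH.trans hHu)) S (filter_subset _ _)
      fun i hi e => not_le.1 fun k => (mem_filter.1 hi).2 ⟨e, k⟩) hw (by exact_mod_cast hV0)
    (by
      calc 8 * (V : ℝ) ≤ u * u ^ 8 := by nlinarith [one_le_pow₀ (n := 8) hu1]
        _ = u ^ 9 := by ring
        _ ≤ X := (pow_le_pow_right₀ hu1 (by norm_num)).trans hXu.ge) hδ hδ1
    (by
      have k1 := IB_sum hA1 H (fun _ _ => 1) fun _ _ => zero_le_one
      have k2 : ∑ c ∈ A, (c : ℝ) * ∑ t ∈ II (H / c), (1 : ℝ) ≤ A.card • (4 * H) :=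
        sum_le_card_nsmul _ _ _ fun c hc => by
          have c0 : (0 : ℝ) < c := by exact_mod_cast hA1 c hc
          have c1 : (c : ℝ) ≤ 2 * R := by exact_mod_cast (mem_Ico.1 (hA hc)).2.le
          rw [sum_const, nsmul_eq_mul, mul_one]
          refine (mul_le_mul_of_nonneg_left (lve_card_II (by positivity)) c0.le).trans ?_
          rw [mul_add, mul_left_comm, mul_div_cancel₀ _ c0.ne']
          linarith
      have k3 : (A.card : ℝ) ≤ R := by
        exact_mod_cast (card_le_card hA).trans (by rw [Nat.card_Ico]; omega)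
      have k4 : (S.card : ℝ) ≤ (IB A H).card := by exact_mod_cast card_filter_le _ _
      rw [sum_const, nsmul_eq_mul, mul_one] at k1
      rw [nsmul_eq_mul] at k2
      calc _ ≤ R * (4 * H) * 1 := by
            rw [mul_one]
            exact k4.trans (k1.trans (k2.trans (by gcongr)))
        _ ≤ R * (4 * H) * (222 * u) := by gcongr; linarith
        _ = _ := by ring)
    (hD.trans (by
      calc u ^ 146 ≤ u ^ 160 := pow_le_pow_right₀ hu1 (by norm_num)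
        _ = (u ^ 8) ^ 20 := by ring
        _ ≤ _ := by gcongr))
    (hD.trans ((pow_le_pow_right₀ hu1 (by norm_num)).trans ((hδ16 184).trans (by rw [hXu]))))
    (by
      calc _ = (136 * 74 ^ 2 * H ^ 2 * u ^ 2) ^ 2 * √(2 * R) ^ 2 * (V : ℝ) ^ 2 := by
            field_simp; ring
        _ ≤ (136 * 74 ^ 2 * (u ^ 72) ^ 2 * u ^ 2) ^ 2 * (2 * u ^ 72) * (2 * u ^ 8) ^ 2 := by
            rw [Real.sq_sqrt (by positivity)]
            gcongr
            exact hRH.trans hHu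
        _ = 8 * (136 * 74 ^ 2) ^ 2 * u ^ 380 := by ring
        _ ≤ u ^ 4 * u ^ 380 := by
            gcongr
            exact le_trans (by norm_num) (pow_le_pow_left₀ (by norm_num) hu 4)
        _ = u ^ 384 := by ring
        _ ≤ δ ^ 4 * u ^ (384 + 16) := hδ16 384
        _ = _ := by rw [hXu]; ring)
    (by
      refine (sum_le_sum_of_subset_of_nonneg (filter_subset _ _) fun _ _ _ => by positivity).trans
        ((IB_one hA1 H (fun c t => eta M c t ^ 2) (fun _ _ => by positivity)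
          fun c t hc => by simp [eta, hc]).trans ((eta_sum (by exact_mod_cast hM0) H).trans ?_))
      rw [div_le_iff₀ (by positivity)] at hM1 ⊢
      linarith) hE hτ
  have hB0 : (((IB A H).filter fun i => i.1.1 = 1 ∧ |(i.2 : ℝ)| ≤ M).card : ℝ) ≤ 2 * M + 1 := by
    have k1 := IB_one hA1 H (fun c t => if c = 1 ∧ |(t : ℝ)| ≤ M then 1 else 0)
      (fun _ _ => by split_ifs <;> norm_num) fun c t hc => by simp [hc]
    simp only [sum_boole, true_and] at k1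
    refine k1.trans (le_trans ?_ (lve_card_II (Nat.cast_nonneg M)))
    refine Nat.cast_le.2 (card_le_card fun t ht => ?_)
    rw [II, Nat.floor_natCast, mem_Icc, ← abs_le]
    exact_mod_cast (mem_filter.1 ht).2
  have hY : ∀ T : Finset (Σ _ : Ch, ℤ), ∑ i ∈ T, ‖sml (δ ^ 50 * X) (DD X (cf i.1.2) i.2)‖ ^ 2 ≤
      T.card * (δ ^ 50 * X) ^ 2 := fun T => by
    rw [← nsmul_eq_mul]
    exact sum_le_card_nsmul _ _ _ fun i _ => (sml_le _ _).2
  have h81 : ∀ c : ℝ, 0 ≤ c → c * E ^ 3 / δ ^ 81 * (δ ^ 50 * X) ^ 2 ≤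
      c * E ^ 6 * δ ^ 2 * X ^ 2 := fun c hc => by
    calc _ = c * E ^ 3 * δ ^ 19 * X ^ 2 := by field_simp
      _ ≤ _ := by
        have := pow_le_pow_of_le_one hδ.le hδ1 (show 2 ≤ 19 by norm_num)
        gcongr
        norm_num
  rw [← sum_filter_add_sum_filter_not (IB A H) fun i => i.1.1 = 1 ∧ |(i.2 : ℝ)| ≤ M, ← hS,
    ← sum_inter_add_sum_sdiff S Bad]
  have b1 := (hY _).trans ((mul_le_mul_of_nonneg_right (hB0.trans
    (show _ ≤ 4627 * E ^ 3 / δ ^ 81 from ?_)) (by positivity)).trans (h81 _ (by norm_num)))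
  · have b2 := (hY (S ∩ Bad)).trans ((mul_le_mul_of_nonneg_right (le_trans (by
      exact_mod_cast card_le_card inter_subset_right) hB1) (by positivity)).trans (h81 _ hC))
    have b3 := (sum_le_sum fun i _ => (sml_le (δ ^ 50 * X) _).1.trans
      (le_of_eq (by rw [norm_DD hX0]))).trans hB2
    linarith
  · have k1 : 1 ≤ 1 / δ ^ 4 := by rw [le_div_iff₀ (by positivity)]; linarith
    calc _ ≤ 4627 * 1 / δ ^ 4 := by
          rw [show 2312 / δ ^ 4 = 2312 * (1 / δ ^ 4) by ring] at hM2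
          rw [mul_div_assoc]
          linarith
      _ ≤ _ := div_le_div₀ (by positivity) (by gcongr; exact one_le_pow₀ hE1) (by positivity)
          (pow_le_pow_of_le_one hδ.le hδ1 (by norm_num))

theorem lv_small {κ : ℝ} (h0 : 0 < κ) (h1 : κ ≤ 1) : ∃ C : ℝ, 0 ≤ C ∧ ∀ X P H : ℝ, 2 ≤ X →
    1 ≤ P → P ≤ H → H ≤ X ^ (9 / 25 : ℝ) →
    mass P H (fun _ ψ t => sml (X ^ (1 - κ)) (DD X (cf ψ) t)) ≤ C * X ^ (2 - κ / 40) := by
  obtain ⟨C1, hC1, hm⟩ := lv_mass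
  obtain ⟨C2, hC2, hb⟩ := lv_block
  obtain ⟨C3, hC3, hd⟩ := MP_2a1a00_nt.card_divisors_le (κ / 500 / 2400) (by positivity)
  obtain ⟨Z, hZ0, hZ⟩ : ∃ Z : ℝ, 0 ≤ Z ∧ ∀ u : ℝ, 0 ≤ u → u ≤ 2000 → u ^ 200 ≤ Z :=
    ⟨_, by positivity, fun u h h' => pow_le_pow_left₀ h h' 200⟩
  refine ⟨C1 * Z ^ 6 + 2 * C2 * (C3 ^ 40 + 1 + 500 / κ) ^ 7, by positivity,
    fun X P H hX hP hPH hH => ?_⟩
  obtain ⟨u, hu, hXu, hHu⟩ := lv_root (by linarith) hH
  have hX1 : 1 ≤ X := by linarith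
  have hX0 : 0 < X := by linarith
  have hp : 1 ≤ X ^ (2 - κ / 40) := Real.one_le_rpow hX1 (by linarith)
  rw [add_mul]
  rcases le_total u 2000 with hu2 | hu2
  · refine le_add_of_le_of_nonneg (le_trans ?_ ((hm X P H hX hP hPH hH).trans ?_)) (by positivity)
    · exact sum_le_sum fun c _ => sum_le_sum fun ψ _ => sum_le_sum fun t _ => (sml_le _ _).1
    · have k1 : X ≤ Z := hXu.le.trans (hZ u (by linarith) hu2)
      have k2 : Real.log X ≤ X := by linarith [Real.log_le_sub_one_of_pos hX0]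
      have k3 := Real.log_nonneg hX1
      calc _ ≤ C1 * Z ^ 2 * Z ^ 4 := by gcongr; linarith
        _ = C1 * Z ^ 6 * 1 := by ring
        _ ≤ _ := by gcongr
  refine le_add_of_nonneg_of_le (by positivity) ?_
  have hHX : H ≤ X := hHu.trans ((pow_le_pow_right₀ hu (by norm_num)).trans hXu.ge)
  have hx1 : 1 ≤ X ^ (κ / 500) := Real.one_le_rpow hX1 (by positivity)
  have hE : 1 + Real.log X ≤ (C3 ^ 40 + 1 + 500 / κ) * X ^ (κ / 500) := by
    have k1 := Real.log_le_rpow_div hX0.le (show 0 < κ / 500 by positivity)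
    rw [show X ^ (κ / 500) / (κ / 500) = 500 / κ * X ^ (κ / 500) by field_simp] at k1
    have k2 : 0 ≤ C3 ^ 40 * X ^ (κ / 500) := by positivity
    linarith
  have e1 : X ^ (1 - κ) = (X ^ (-(κ / 50))) ^ 50 * X := by
    rw [← Real.rpow_natCast, ← Real.rpow_mul hX0.le, ← Real.rpow_add_one hX0.ne']
    congr 1; push_cast; ring
  rw [e1]
  have hb' := fun R A k1 k2 => hb X u H (X ^ (-(κ / 50))) _ R A hu2 hXu
    hHu (by positivity) (Real.rpow_le_one_of_one_le_of_nonpos hX1 (by linarith)) k1 hE k2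
  refine le_trans (mass_blocks hP hPH (by positivity)
    (fun _ ψ t => sml ((X ^ (-(κ / 50))) ^ 50 * X) (DD X (cf ψ) t))
    fun R A => hb' R A ?_ fun n hn => ?_) ?_
  · have e2 : u ^ 4 = X ^ (1 / 50 : ℝ) := by
      rw [hXu, ← Real.rpow_natCast, ← Real.rpow_natCast, ← Real.rpow_mul (by linarith)]
      norm_num
    rw [e2, ← Real.rpow_add hX0]
    exact Real.one_le_rpow hX1 (by linarith)
  · calc _ ≤ (C3 * (X ^ 60) ^ (κ / 500 / 2400)) ^ 40 :=
          pow_le_pow_left₀ (by positivity) ((hd n).trans (by gcongr)) _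
      _ = C3 ^ 40 * X ^ (κ / 500) := by
          rw [mul_pow, ← Real.rpow_natCast X, ← Real.rpow_mul hX0.le, ← Real.rpow_natCast (X ^ _),
            ← Real.rpow_mul hX0.le]
          congr 2; push_cast; ring
      _ ≤ _ := by gcongr; linarith [show 0 ≤ 500 / κ by positivity]
  · have k1 := Real.log_le_log (by linarith) hHX
    have e3 : (X ^ (κ / 500)) ^ 7 * (X ^ (-(κ / 50))) ^ 2 * X ^ 2 ≤ X ^ (2 - κ / 40) := by
      simp only [← Real.rpow_natCast, ← Real.rpow_mul hX0.le, ← Real.rpow_add hX0]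
      exact Real.rpow_le_rpow_of_exponent_le hX1 (by push_cast; linarith)
    generalize C3 ^ 40 + 1 + 500 / κ = C4 at hE ⊢
    have k2 : 0 ≤ C4 := by
      by_contra hc
      nlinarith [Real.log_nonneg hX1]
    calc _ ≤ 2 * (C4 * X ^ (κ / 500)) * (C2 * (C4 * X ^ (κ / 500)) ^ 6 *
          (X ^ (-(κ / 50))) ^ 2 * X ^ 2) := by gcongr; linarith
      _ = 2 * C2 * C4 ^ 7 * ((X ^ (κ / 500)) ^ 7 * (X ^ (-(κ / 50))) ^ 2 * X ^ 2) := by ring
      _ ≤ _ := by gcongr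

end Pool.Agent.Lib.MP_778b46_nt.MA
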