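import Pool.Agent.Lib.MP_778b46_nt.MA.B4
import Pool.Agent.Lib.MP_778b46_nt.MA.B5
import Pool.Agent.Lib.MP_778b46_nt.MA.LV
import Pool.Agent.Lib.MP_2a1a00_nt.Div

set_option autoImplicit false

noncomputable section

namespace Pool.Agent.Lib.MP_778b46_nt.MA

open Complex Finset MeasureTheory
open scoped Real ContDiff
open Pool.Agent.Lib.MP_03e5d0_nt (Sm ex ft bump)
open Pool.Agent.Lib.MP_778b46_nt.GX (Lf Lp)

/-! The major arcs reduce to the large characters. -/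

theorem s2_big {ε : ℝ} (hε : 0 < ε) {K : ℝ} (hK : 0 ≤ K) :
    ∃ X₀ : ℝ, 2 ≤ X₀ ∧ ∀ X, X₀ ≤ X → K * (1 + Real.log X) ≤ X ^ ε := by
  have h := (tendsto_rpow_atTop (half_pos hε)).eventually_ge_atTop (K * (1 + 2 / ε))
  obtain ⟨X₁, hX₁⟩ := Filter.eventually_atTop.1 h
  refine ⟨max 2 X₁, le_max_left _ _, fun X hX => ?_⟩
  have h2 : 2 ≤ X := (le_max_left _ _).trans hX
  have h3 := hX₁ X ((le_max_right _ _).trans hX)
  have h4 := Real.log_le_rpow_div (by linarith : 0 ≤ X) (half_pos hε)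
  have h5 : 1 ≤ X ^ (ε / 2) := Real.one_le_rpow (by linarith) (half_pos hε).le
  have h6 : X ^ (ε / 2) / (ε / 2) = 2 / ε * X ^ (ε / 2) := by field_simp
  have h7 : X ^ ε = X ^ (ε / 2) * X ^ (ε / 2) := by
    rw [← Real.rpow_add (by linarith), add_halves]
  calc K * (1 + Real.log X) ≤ K * ((1 + 2 / ε) * X ^ (ε / 2)) :=
        mul_le_mul_of_nonneg_left (by linarith) hK
    _ = K * (1 + 2 / ε) * X ^ (ε / 2) := by ring
    _ ≤ X ^ (ε / 2) * X ^ (ε / 2) := mul_le_mul_of_nonneg_right h3 (by linarith)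
    _ = X ^ ε := h7.symm

theorem s2_mul {X x y a b : ℝ} (hX : 1 ≤ X) (h : x ≤ X ^ a) (h' : y ≤ X ^ b) (hy : 0 ≤ y) :
    x * y ≤ X ^ (a + b) := by
  rw [Real.rpow_add (by linarith)]
  exact mul_le_mul h h' hy (Real.rpow_nonneg (by linarith) _)

theorem s2_le {X x a b : ℝ} (hX : 1 ≤ X) (h : x ≤ X ^ a) (hab : a ≤ b) : x ≤ X ^ b :=
  h.trans (Real.rpow_le_rpow_of_exponent_le hX hab)

theorem s2_sq {X a : ℝ} (hX : 1 ≤ X) : (X ^ a) ^ 2 = X ^ (2 * a) := by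
  rw [pow_two, ← Real.rpow_add (by linarith), two_mul]

theorem s2_add {X x y a e : ℝ} (hX : 1 ≤ X) (h2 : 2 ≤ X ^ e) (h : x ≤ X ^ a) (h' : y ≤ X ^ a) :
    x + y ≤ X ^ (e + a) := by
  have := s2_mul hX h2 (le_refl (X ^ a)) (Real.rpow_nonneg (by linarith) _)
  linarith

/-- With `T₁ = X ^ (15 k)`, `H₀ = P T₁`, `H = H₀ X ^ k`, `Y = X ^ (1 - k)`, `Λ = C log X`
(`rat_fact`), `A ^ 2 = C X ^ 2 log ^ 4` (`lv_mass`, `nsq_le_mass` with `F = id`),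
`α ^ 2 = C X ^ (2 - k / 40)` (`lv_small`), `B` from `exists_large`, `Z = X ^ (-22 k)`,
`tu m ≤ C X ^ (k / 10)`: chain `r1_bb`, `bb_narrow`, `bb_res`, `bb_sg`. The errors are
`P ^ 2 ≤ X`, `X ^ (2 - k / 80) log ^ 4`, `X ^ (2 - 2.9 k) log ^ 10`, `X ^ (2 - 0.9 k) log ^ 2`. -/
theorem r1_sg {k : ℝ} (h0 : 0 < k) (h1 : k ≤ 1 / 2000) : ∃ X₀ : ℝ, 2 ≤ X₀ ∧
    ∀ (X P : ℝ) (N : ℕ) [NeZero N], X₀ ≤ X → 2 ≤ P → P ≤ X ^ (7 / 20 : ℝ) →
    N = ⌊P⌋₊.factorial → ∃ B : Finset (DirichletCharacter ℂ N), 1 ∈ B ∧ B ⊆ CH N P ∧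
      (B.card : ℝ) ≤ X ^ (3 * k) ∧ ∀ m : ℕ, 1 ≤ m → (m : ℝ) ≤ 2 * X →
        (∀ χ ∈ B, ∀ χ' ∈ B,
          (Nat.gcd (Nat.lcm χ.conductor χ'.conductor) m : ℝ) ≤ X ^ (-(44 * k)) * P) →
        ‖2 * π * X * R1 X P (P * X ^ (15 * k)) m -
          ∑ χ ∈ B, ∑ χ' ∈ B, SG m χ χ' * JJ X m (X ^ (15 * k)) (cf χ) (cf χ')‖ ≤
          X ^ (2 - k / 90) := by
  obtain ⟨e, he⟩ : ∃ e : ℝ, e = k / 14400 := ⟨_, rfl⟩
  have he0 : 0 < e := by rw [he]; positivity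
  obtain ⟨C1, hC1, r1⟩ := r1_bb h0
  obtain ⟨C2, hC2, r2⟩ := bb_narrow
  obtain ⟨C3, hC3, r3⟩ := bb_res
  obtain ⟨C4, hC4, r4⟩ := bb_sg h0
  obtain ⟨C5, hC5, r5⟩ := lv_mass
  obtain ⟨C6, hC6, r6⟩ := lv_small h0 (by linarith)
  obtain ⟨C7, hC7, r7⟩ := rat_fact
  obtain ⟨C8, hC8, r8⟩ := MP_2a1a00_nt.card_divisors_le (e / 2) (half_pos he0)
  obtain ⟨X₀, hX₀, hbig⟩ := s2_big he0
    (show 0 ≤ 2 + C1 + C2 + C3 + C4 + C5 + C6 + C7 + C8 by linarith)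
  refine ⟨X₀, hX₀, fun X P N _ hX hP hPX hN => ?_⟩
  have hX2 : 2 ≤ X := hX₀.trans hX
  have hX1 : 1 ≤ X := by linarith
  have hXp : 0 < X := by linarith
  have hlog : 0 ≤ Real.log X := Real.log_nonneg hX1
  have hb := hbig X hX
  have hnn : ∀ a : ℝ, 0 ≤ X ^ a := fun a => Real.rpow_nonneg hXp.le a
  have hone : ∀ a : ℝ, 0 ≤ a → 1 ≤ X ^ a := fun a ha => Real.one_le_rpow hX1 ha
  have hK : ∀ C : ℝ, 0 ≤ C → C ≤ 2 + C1 + C2 + C3 + C4 + C5 + C6 + C7 + C8 →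
      C * (1 + Real.log X) ≤ X ^ e := fun C _ h =>
    (mul_le_mul_of_nonneg_right h (by linarith)).trans hb
  have hK' : ∀ C : ℝ, 0 ≤ C → C ≤ 2 + C1 + C2 + C3 + C4 + C5 + C6 + C7 + C8 → C ≤ X ^ e :=
    fun C h0 h => (le_mul_of_one_le_right h0 (by linarith)).trans (hK C h0 h)
  have u2 : 2 ≤ X ^ e := hK' 2 (by norm_num) (by linarith)
  have u1 := hK' C1 hC1 (by linarith)
  have u3 := hK' C3 hC3 (by linarith)
  have u22 := hK' C2 hC2 (by linarith)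
  have u4 := hK' C4 hC4 (by linarith)
  have u5 := hK' C5 hC5 (by linarith)
  have u6 := hK' C6 hC6 (by linarith)
  have u8 := hK' C8 hC8 (by linarith)
  have uL : 1 + Real.log X ≤ X ^ e := by
    have := hK 1 (by norm_num) (by linarith)
    linarith
  have hP1 : 1 ≤ P := by linarith
  have hP0 : 0 ≤ P := by linarith
  have hXX : X ^ (1 : ℝ) = X := Real.rpow_one X
  have hPX' : P ≤ X := hXX ▸ s2_le hX1 hPX (by norm_num)
  have h4P : 4 * P ≤ X := by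
    have h := s2_mul hX1 (s2_mul hX1 u2 u2 (by norm_num)) hPX hP0
    have h' := s2_le hX1 h (show e + e + 7 / 20 ≤ 1 by linarith)
    rw [hXX] at h'
    linarith
  have hlP : Real.log P ≤ Real.log X := Real.log_le_log (by linarith) hPX'
  have hlP0 : 0 ≤ 1 + Real.log P := by have := Real.log_nonneg hP1; linarith
  have uP : 1 + Real.log P ≤ X ^ e := by linarith
  have hfl : 2 ≤ ⌊P⌋₊ := Nat.le_floor (by exact_mod_cast hP)
  have hR : Rat0 N (C7 * Real.log (⌊P⌋₊ : ℕ)) := hN ▸ r7 _ hfl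
  set Λ := C7 * Real.log (⌊P⌋₊ : ℕ) with hΛ
  have hΛ0 : 0 ≤ Λ := by have := hR.one_le; linarith
  have uΛ : Λ ≤ X ^ e := by
    refine le_trans (mul_le_mul_of_nonneg_left ?_ (by linarith)) (hK C7 (by linarith) (by linarith))
    have : Real.log (⌊P⌋₊ : ℕ) ≤ Real.log P :=
      Real.log_le_log (by exact_mod_cast (by omega : 0 < ⌊P⌋₊)) (Nat.floor_le hP0)
    linarith
  have hT1 : 1 ≤ X ^ (15 * k) := hone _ (by positivity)
  have hH0 : P * X ^ (15 * k) ≤ X ^ (7 / 20 + 15 * k) := s2_mul hX1 hPX le_rfl (hnn _)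
  have hH : P * X ^ (15 * k) * X ^ k ≤ X ^ (9 / 25 : ℝ) :=
    s2_le hX1 (s2_mul hX1 hH0 le_rfl (hnn _)) (by linarith)
  have hPH0 : P ≤ P * X ^ (15 * k) := le_mul_of_one_le_right hP0 hT1
  have hPH : P ≤ P * X ^ (15 * k) * X ^ k :=
    hPH0.trans (le_mul_of_one_le_right (by linarith) (hone _ h0.le))
  set H := P * X ^ (15 * k) * X ^ k with hHd
  have hH0' : 0 ≤ H := by linarith
  have hX2' : X ^ 2 = X ^ (2 : ℝ) := by rw [← Real.rpow_natCast]; norm_num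
  have hA : nsq P H (dd X : DirichletCharacter ℂ N → ℤ → ℂ) ≤ (X ^ (1 + 3 * e)) ^ 2 := by
    refine (nsq_le_mass H hXp hP0 h4P hN id).trans ((r5 X P H hX2 hP1 hPH hH).trans ?_)
    have l1 : Real.log X ≤ X ^ e := by linarith
    have l2 := s2_mul hX1 l1 l1 hlog
    have l4 := s2_mul hX1 l2 l2 (mul_nonneg hlog hlog)
    have l5 := s2_mul hX1 (s2_mul hX1 u5 hX2'.le (by positivity)) l4 (by positivity)
    rw [s2_sq hX1]
    refine s2_le hX1 (le_of_eq_of_le (by ring) l5) (by linarith)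
  have hα : nsq P H (fun (χ : DirichletCharacter ℂ N) t => sml (X ^ (1 - k)) (dd X χ t)) ≤
      (X ^ (1 - k / 80 + e)) ^ 2 := by
    refine (nsq_le_mass H hXp hP0 h4P hN (sml (X ^ (1 - k)))).trans
      ((r6 X P H hX2 hP1 hPH hH).trans ?_)
    rw [s2_sq hX1]
    exact s2_le hX1 (s2_mul hX1 u6 le_rfl (hnn _)) (by linarith)
  have hY : 0 < X ^ (1 - k) := Real.rpow_pos_of_pos hXp _
  obtain ⟨B, hB1, hB2, hB3, hB4⟩ := exists_large hP1 hY _ hA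
  have hcard : (B.card : ℝ) ≤ X ^ (3 * k) := by
    rw [s2_sq hX1, s2_sq hX1, ← Real.rpow_sub hXp] at hB3
    refine s2_le hX1 (hB3.trans (s2_add hX1 u2 (hone _ (by linarith)) le_rfl)) (by linarith)
  refine ⟨B, hB1, hB2, hcard, fun m hm hmX hg => ?_⟩
  have ut : tu m ≤ X ^ (e + e) := by
    refine (r8 m).trans (s2_mul hX1 u8 ?_ (by positivity))
    have h2 : (m : ℝ) ≤ X ^ (2 : ℝ) := by rw [← hX2']; nlinarith
    refine (Real.rpow_le_rpow (by positivity) h2 (by positivity)).trans ?_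
    rw [← Real.rpow_mul hXp.le]
    exact le_of_eq (by congr 1; ring)
  have ht0 : 0 ≤ tu m := Nat.cast_nonneg _
  have hW : ∀ q ∈ Icc 1 ⌊P⌋₊, X ^ (15 * k) ≤ P * X ^ (15 * k) / q := fun q hq => by
    rw [mem_Icc] at hq
    have q0 : (0 : ℝ) < q := by exact_mod_cast hq.1
    have q1 : (q : ℝ) ≤ P := (Nat.cast_le.2 hq.2).trans (Nat.floor_le hP0)
    rw [le_div_iff₀ q0, mul_comm]
    exact mul_le_mul_of_nonneg_right q1 (hnn _)
  have e1 := r1 X P (P * X ^ (15 * k)) H m N hX2 hP1 h4P hPH0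
    ((s2_le hX1 hH0 (by linarith)).trans hXX.le) le_rfl hN
  have e2 := r2 X P H Λ _ _ _ (X ^ (15 * k)) m N (fun q => P * X ^ (15 * k) / q)
    (fun _ => X ^ (15 * k)) (dd X) hP1 hH0' hN hR hm hT1 hW (fun _ _ => le_rfl) hY (hnn _) (hnn _)
    hA hα
  have e3 := r3 X P H Λ _ _ _ m N (fun _ => X ^ (15 * k)) (dd X) B hP1 hH0' hN hR
    (fun _ _ => by linarith) (hnn _) (hnn _) hA hα hB4
  have e4 := r4 X P H Λ (X ^ (15 * k)) (X ^ (-(22 * k))) m N B hX2 hP1 hN hR hm hT1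
    ((Real.rpow_le_rpow_of_exponent_le hX1 (by linarith)).trans hXX.le) (le_of_eq (by rw [hHd]; ring))
    (hnn _) (fun χ hχ χ' hχ' => by
      rw [s2_sq hX1, show 2 * -(22 * k) = -(44 * k) by ring]
      exact hg χ hχ χ' hχ')
  have b1 : C1 * P ^ 2 ≤ X ^ (2 - k / 80 + 17 * e) := by
    have := s2_mul hX1 u1 (s2_mul hX1 hPX hPX hP0) (by positivity)
    exact s2_le hX1 (le_of_eq_of_le (by ring) this) (by linarith)
  have a1 : Λ * (1 + Real.log P) * (X ^ (1 - k / 80 + e) * X ^ (1 + 3 * e)) ≤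
      X ^ (2 - k / 80 + 6 * e) :=
    s2_le hX1 (s2_mul hX1 (s2_mul hX1 uΛ uP hlP0) (s2_mul hX1 le_rfl le_rfl (hnn _))
      (mul_nonneg (hnn _) (hnn _))) (by linarith)
  have a10 : 0 ≤ Λ * (1 + Real.log P) * (X ^ (1 - k / 80 + e) * X ^ (1 + 3 * e)) :=
    mul_nonneg (mul_nonneg hΛ0 hlP0) (mul_nonneg (hnn _) (hnn _))
  have uΛ2 : Λ ^ 2 ≤ X ^ (e + e) := by rw [pow_two]; exact s2_mul hX1 uΛ uΛ hΛ0
  have a2 : Λ ^ 2 * tu m * (X ^ (15 * k)) ^ (-(1 / 3 : ℝ)) *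
      ((X ^ (1 + 3 * e)) ^ 2 / X ^ (1 - k)) ^ 2 ≤ X ^ (2 - k / 80 + 6 * e) := by
    rw [← Real.rpow_mul hXp.le, s2_sq hX1, ← Real.rpow_sub hXp, s2_sq hX1]
    exact s2_le hX1 (s2_mul hX1 (s2_mul hX1 (s2_mul hX1 uΛ2 ut ht0) le_rfl (hnn _)) le_rfl
      (hnn _)) (by linarith)
  have a20 : 0 ≤ Λ ^ 2 * tu m * (X ^ (15 * k)) ^ (-(1 / 3 : ℝ)) *
      ((X ^ (1 + 3 * e)) ^ 2 / X ^ (1 - k)) ^ 2 :=
    mul_nonneg (mul_nonneg (mul_nonneg (sq_nonneg _) ht0) (Real.rpow_nonneg (hnn _) _))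
      (sq_nonneg _)
  have b2 := e2.trans (s2_le hX1 (s2_mul hX1 u22 (s2_add hX1 u2 a1 a2) (add_nonneg a10 a20))
    (show _ ≤ 2 - k / 80 + 17 * e by linarith))
  have b3 := e3.trans (le_of_eq_of_le (by ring) (s2_le hX1 (s2_mul hX1 u3 a1 a10)
    (show _ ≤ 2 - k / 80 + 17 * e by linarith)))
  have a4 : X ^ (-(22 * k)) * X ^ (15 * k) * X ^ 2 ≤ X ^ (2 - 7 * k) :=
    s2_le hX1 (s2_mul hX1 (s2_mul hX1 le_rfl le_rfl (hnn _)) hX2'.le (by positivity))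
      (by linarith)
  have a40 : 0 ≤ 1 + X ^ (-(22 * k)) * X ^ (15 * k) * X ^ 2 := by positivity
  have uB : (B.card : ℝ) ^ 2 ≤ X ^ (3 * k + 3 * k) := by
    rw [pow_two]; exact s2_mul hX1 hcard hcard (Nat.cast_nonneg _)
  have b4 := e4.trans (s2_le hX1 (s2_mul hX1 (s2_mul hX1 (s2_mul hX1 (s2_mul hX1 u4 uB
    (sq_nonneg _)) uΛ2 (sq_nonneg _)) ut ht0) (s2_add hX1 u2 (hone _ (by linarith)) a4) a40)
    (show _ ≤ 2 - k / 80 + 17 * e by linarith))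
  have b12 := s2_add hX1 u2 (e1.trans b1) b2
  have b34 := s2_add hX1 u2 b3 b4
  have b5 := s2_le hX1 (s2_add hX1 u2 b12 b34) (show _ ≤ 2 - k / 90 by linarith)
  refine le_trans ?_ b5
  exact (norm_sub_le_norm_sub_add_norm_sub _ _ _).trans (add_le_add
    (norm_sub_le_norm_sub_add_norm_sub _ _ _) (norm_sub_le_norm_sub_add_norm_sub _ _ _))

end Pool.Agent.Lib.MP_778b46_nt.MA
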