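import Pool.Agent.Lib.MP_778b46_nt.MA.S1
import Pool.Agent.Lib.MP_778b46_nt.MA.S2
import Pool.Agent.Lib.MP_778b46_nt.MA.E4
import Pool.Agent.Lib.MP_778b46_nt.MA.A1

set_option autoImplicit false

noncomputable section

namespace Pool.Agent.Lib.MP_778b46_nt.MA

open Complex Finset MeasureTheory
open scoped Real ContDiff
open Pool.Agent.Lib.MP_03e5d0_nt (Sm ex ft bump)
open Pool.Agent.Lib.MP_778b46_nt.GX (Lf Lp)

/-! The major arc theorem. -/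

theorem s3_ev (K : ℝ) (j : ℕ) {a : ℝ} (ha : 0 < a) :
    ∃ X₁ : ℝ, ∀ X : ℝ, X₁ ≤ X → K * Real.log X ^ j ≤ X ^ a := by
  have h := (isLittleO_log_rpow_rpow_atTop (j : ℝ) ha).bound
    (c := 1 / (|K| + 1)) (by positivity)
  obtain ⟨X₁, h⟩ := Filter.eventually_atTop.1 h
  refine ⟨max X₁ 1, fun X hX => ?_⟩
  have h1 : 1 ≤ X := (le_max_right _ _).trans hX
  have h2 := h X ((le_max_left _ _).trans hX)
  have h3 : 0 ≤ Real.log X ^ j := pow_nonneg (Real.log_nonneg h1) _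
  have h4 : 0 ≤ X ^ a := by positivity
  rw [Real.rpow_natCast, Real.norm_of_nonneg h3, Real.norm_of_nonneg h4, one_div_mul_eq_div,
    le_div_iff₀ (by positivity)] at h2
  nlinarith [le_abs_self K]

theorem s3_key {X K a b g : ℝ} (hX : 1 ≤ X) (hK : K ≤ X ^ g) (h : g + a ≤ b) :
    K * X ^ a ≤ X ^ b := by
  have h0 : 0 < X := by linarith
  calc K * X ^ a ≤ X ^ g * X ^ a := mul_le_mul_of_nonneg_right hK (by positivity)
    _ = X ^ (g + a) := (Real.rpow_add h0 _ _).symm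
    _ ≤ X ^ b := Real.rpow_le_rpow_of_exponent_le hX h

theorem s3_tot {X : ℝ} (hX : 0 ≤ X) (N : ℕ) [NeZero N] (P δ T : ℝ) : 0 ≤ Tot X N P δ T := by
  refine sum_nonneg fun χ _ => sum_nonneg fun ρ _ => ?_
  unfold xw
  positivity

theorem s3_fin {X S J L L' W R C U V D Y Z : ℝ} (hX : 0 < X) (hY : 0 ≤ Y) (hS : 1 / 2 ≤ S)
    (hJ : 1 / 8 ≤ J) (hW : 1 ≤ W)
    (h1 : 2 * π * X ^ 2 * (S * J) * (1 - L - L') - C * S * (U + X ^ 2 * V * W) ≤ Z)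
    (h2 : Z ≤ 2 * π * X * R + 8 * D) (hU : 4 * (C * U) ≤ X ^ 2 * Y) (hV : 4 * (C * V) ≤ Y)
    (hD : 64 * D ≤ X ^ 2 * Y) : X * S * J * (1 - L - L' - Y * W) ≤ R := by
  have hpi := Real.pi_gt_three
  have a0 : 0 ≤ X ^ 2 * Y := by positivity
  have a1 : X ^ 2 * Y * S ≤ X ^ 2 * Y * S * W := le_mul_of_one_le_right (by positivity) hW
  have a2 : X ^ 2 * Y * (1 / 2) ≤ X ^ 2 * Y * S := mul_le_mul_of_nonneg_left hS a0
  have a3 : S * (4 * (C * U)) ≤ S * (X ^ 2 * Y) := mul_le_mul_of_nonneg_left hU (by linarith)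
  have a4 : S * X ^ 2 * W * (4 * (C * V)) ≤ S * X ^ 2 * W * Y :=
    mul_le_mul_of_nonneg_left hV (by positivity)
  have a5 : 3 / 4 ≤ 2 * π * J := by nlinarith
  have a6 : X ^ 2 * Y * S * W * (3 / 4) ≤ X ^ 2 * Y * S * W * (2 * π * J) :=
    mul_le_mul_of_nonneg_left a5 (by positivity)
  refine le_of_mul_le_mul_left ?_ (by positivity : 0 < 2 * π * X)
  nlinarith

theorem s3_re {X R D : ℝ} {z w : ℂ} (hX : 0 < X) (h1 : X * ‖(R : ℂ) - z‖ ≤ D)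
    (h2 : ‖2 * π * X * z - w‖ ≤ D) : w.re ≤ 2 * π * X * R + 8 * D := by
  have hpi := Real.pi_lt_d2
  have hpi' := Real.pi_pos
  have hD : 0 ≤ D := (norm_nonneg _).trans h2
  have e : w - ((2 * π * X * R : ℝ) : ℂ) =
      -(2 * π * X * z - w) - ((2 * π * X : ℝ) : ℂ) * ((R : ℂ) - z) := by
    push_cast
    ring
  have h3 : ‖w - ((2 * π * X * R : ℝ) : ℂ)‖ ≤ D + 2 * π * D := by
    rw [e]
    refine (norm_sub_le _ _).trans (add_le_add (by rwa [norm_neg]) ?_)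
    rw [norm_mul, Complex.norm_real, Real.norm_of_nonneg (by positivity), mul_assoc]
    exact mul_le_mul_of_nonneg_left h1 (by positivity)
  have h4 := (Complex.re_le_norm _).trans h3
  rw [Complex.sub_re, Complex.ofReal_re] at h4
  nlinarith

theorem s3_cheb {S : Finset ℕ} {f : ℕ → ℝ} {y : ℝ} (hy : 0 ≤ y) (h : ∀ m ∈ S, y < f m) :
    (S.card : ℝ) * y ^ 2 ≤ ∑ m ∈ S, f m ^ 2 := by
  rw [← nsmul_eq_mul]
  exact card_nsmul_le_sum _ _ _ fun m hm => pow_le_pow_left₀ hy (h m hm).le 2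

theorem s3_tu {N : ℕ} [NeZero N] {X P C k : ℝ} (hC : 0 ≤ C) (hk : 0 < k)
    (h : ∀ n : ℕ, (n.divisors.card : ℝ) ≤ C * (n : ℝ) ^ k) (hP : P * P ≤ X)
    {χ χ' : DirichletCharacter ℂ N} (h1 : χ ∈ CH N P) (h2 : χ' ∈ CH N P) :
    tu (Nat.lcm χ.conductor χ'.conductor) ≤ C * X ^ k := by
  have a1 : (χ.conductor : ℝ) ≤ P := (mem_filter.1 h1).2
  have a2 : (χ'.conductor : ℝ) ≤ P := (mem_filter.1 h2).2
  have a3 : Nat.lcm χ.conductor χ'.conductor ≤ χ.conductor * χ'.conductor :=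
    Nat.div_le_self _ _
  have a4 : ((Nat.lcm χ.conductor χ'.conductor : ℕ) : ℝ) ≤ X := by
    refine (Nat.cast_le.2 a3).trans (le_trans ?_ hP)
    push_cast
    exact mul_le_mul a1 a2 (Nat.cast_nonneg _) ((Nat.cast_nonneg _).trans a1)
  exact (h _).trans (mul_le_mul_of_nonneg_left
    (Real.rpow_le_rpow (Nat.cast_nonneg _) a4 hk.le) hC)

/-- `k = min (δ / 100) (ε / 100)`, `η = 16 k`, `c = k / 100`, `P = X ^ ϑ`, `T₁ = X ^ (15 k)`,
`T = X ^ (16 k) = T₁ X ^ k`. `E` is the union of the `m ≤ 2 X` with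
`‖RR - R1‖ > X ^ (1 - k / 90)` (`minor_ms` with `H = P T₁`, Chebyshev) and of the set of
`bad_card` with `Z = X ^ (-44 k) P`, `τ = C X ^ k` (`card_divisors_le`, `lcm ≤ P ^ 2 ≤ X`).
`A = X * S0 * I0 ≥ X / 16` (`S0_ge`, `I0_ge`). `r1_sg`, `ef` (`κ = k`, `coprime_fact`; the term
`card B ^ 2 T₁ E X` is `X ^ (2 - δ + 53 k) log ^ 2 ≤ X ^ (2 - 46 k)`), `main_lower`. -/
theorem main : Main := by
  classical
  intro ϑ δ ε hϑ hϑ' hδ hδ' hε
  obtain ⟨k, hk, hkδ, hkε⟩ : ∃ k : ℝ, 0 < k ∧ 100 * k ≤ δ ∧ 100 * k ≤ ε :=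
    ⟨min (δ / 100) (ε / 100), lt_min (by linarith) (by linarith),
      by linarith [min_le_left (δ / 100) (ε / 100)],
      by linarith [min_le_right (δ / 100) (ε / 100)]⟩
  obtain ⟨C₀, hC₀, hml⟩ := main_lower
  obtain ⟨X₀, hX₀, hsg⟩ := r1_sg hk (by linarith)
  obtain ⟨Ce, hCe, hef⟩ := ef hδ hδ' hk
  obtain ⟨Cm, hmm⟩ := minor_ms
  obtain ⟨Cd, hCd, hdv⟩ := MP_2a1a00_nt.card_divisors_le k hk
  have hg : 0 < k / 900 := by linarith
  obtain ⟨X₁, e1⟩ := s3_ev 2 0 hϑ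
  obtain ⟨X₂, e2⟩ := s3_ev 64 0 hg
  obtain ⟨X₃, e3⟩ := s3_ev (2 * Cm) 9 hg
  obtain ⟨X₄, e4⟩ := s3_ev (4 * Cd) 0 hg
  obtain ⟨X₅, e5⟩ := s3_ev (8 * C₀ * Ce) 2 hg
  obtain ⟨X₆, e6⟩ := s3_ev (4 * C₀) 0 hg
  obtain ⟨C, c0, c1, c2, c3, c4, c5, c6, c7⟩ : ∃ C : ℝ, C₀ ≤ C ∧ X₀ ≤ C ∧ X₁ ≤ C ∧ X₂ ≤ C ∧
      X₃ ≤ C ∧ X₄ ≤ C ∧ X₅ ≤ C ∧ X₆ ≤ C := by
    refine ⟨|C₀| + |X₀| + |X₁| + |X₂| + |X₃| + |X₄| + |X₅| + |X₆|, ?_⟩
    have := abs_nonneg C₀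
    have := abs_nonneg X₀
    have := abs_nonneg X₁
    have := abs_nonneg X₂
    have := abs_nonneg X₃
    have := abs_nonneg X₄
    have := abs_nonneg X₅
    have := abs_nonneg X₆
    refine ⟨?_, ?_, ?_, ?_, ?_, ?_, ?_, ?_⟩ <;> refine (le_abs_self _).trans ?_ <;> linarith
  refine ⟨16 * k, k / 100, C, by linarith, by linarith, by linarith, hC₀.trans c0,
    fun X hX N _ hN => ?_⟩
  have hX2 : 2 ≤ X := hX₀.trans (c1.trans hX)
  have hX1 : 1 ≤ X := by linarith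
  have hX0 : 0 < X := by linarith
  replace e1 := e1 X (c2.trans hX)
  replace e2 := e2 X (c3.trans hX)
  replace e3 := e3 X (c4.trans hX)
  replace e4 := e4 X (c5.trans hX)
  replace e5 := e5 X (c6.trans hX)
  replace e6 := e6 X (c7.trans hX)
  rw [pow_zero, mul_one] at e1 e2 e4 e6
  have mono : ∀ {a b : ℝ}, a ≤ b → X ^ a ≤ X ^ b := fun h =>
    Real.rpow_le_rpow_of_exponent_le hX1 h
  have add : ∀ a b : ℝ, X ^ a * X ^ b = X ^ (a + b) := fun a b => (Real.rpow_add hX0 a b).symm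
  have one : ∀ {a : ℝ}, 0 ≤ a → 1 ≤ X ^ a := fun h => Real.one_le_rpow hX1 h
  have top : ∀ {a : ℝ}, a ≤ 1 → X ^ a ≤ X := fun h => (mono h).trans (Real.rpow_one X).le
  have pos : ∀ a : ℝ, 0 < X ^ a := fun a => Real.rpow_pos_of_pos hX0 a
  have two : X ^ 2 = X ^ (2 : ℝ) := (Real.rpow_two X).symm
  have hlog : 0 ≤ Real.log X ^ 2 := sq_nonneg _
  obtain ⟨B, hB1, hB2, hB3, hB⟩ := hsg X (X ^ ϑ) N (c1.trans hX) e1 (mono hϑ') hN
  have hT₁ : 1 ≤ X ^ (15 * k) := one (by linarith)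
  have h4P : 4 * X ^ ϑ ≤ X := by
    refine (s3_key hX1 (le_trans (by norm_num) e2) (b := 1) (by linarith)).trans
      (Real.rpow_one X).le
  set E₁ : Finset ℕ := (Icc 1 ⌊2 * X⌋₊).filter fun m : ℕ =>
    X ^ (1 - k / 90) < ‖(RR X m : ℂ) - R1 X (X ^ ϑ) (X ^ ϑ * X ^ (15 * k)) m‖ with hE₁
  set E₂ : Finset ℕ := (Icc 1 ⌊2 * X⌋₊).filter fun m : ℕ => ∃ χ ∈ B, ∃ χ' ∈ B,
    X ^ (-(44 * k)) * X ^ ϑ < (Nat.gcd (Nat.lcm χ.conductor χ'.conductor) m : ℝ) with hE₂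
  have b1 : 2 * (E₁.card : ℝ) ≤ X ^ (1 - ϑ + ε) := by
    have a1 := hmm X (X ^ ϑ) (X ^ ϑ * X ^ (15 * k)) hX2 (one hϑ.le)
      (le_mul_of_one_le_right (pos _).le hT₁) (by rw [add, add]; exact top (by linarith))
      (mono (by linarith)) E₁
    have a2 := (s3_cheb (S := E₁) (pos _).le fun m hm => (mem_filter.1 hm).2).trans a1
    have a3 : X ^ 3 / X ^ ϑ = X ^ (1 - ϑ + k / 45) * (X ^ (1 - k / 90)) ^ 2 := by
      rw [sq, add, add, div_eq_iff (pos _).ne', add, ← Real.rpow_natCast]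
      congr 1
      push_cast
      ring
    have a4 : Cm * X ^ 3 / X ^ ϑ * Real.log X ^ 9 =
        Cm * Real.log X ^ 9 * X ^ (1 - ϑ + k / 45) * (X ^ (1 - k / 90)) ^ 2 := by
      rw [mul_div_assoc, a3]
      ring
    rw [a4] at a2
    have a5 := le_of_mul_le_mul_right a2 (pow_pos (pos _) 2)
    have a6 := s3_key hX1 e3 (a := 1 - ϑ + k / 45) (b := 1 - ϑ + ε) (by linarith)
    linarith
  have b2 : 2 * (E₂.card : ℝ) ≤ X ^ (1 - ϑ + ε) := by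
    have a0 : X ^ ϑ * X ^ ϑ ≤ X := by
      rw [add]
      exact top (by linarith)
    have a1 := bad_card B ⌊2 * X⌋₊ (Z := X ^ (-(44 * k)) * X ^ ϑ) (τ := Cd * X ^ k)
      (mul_pos (pos _) (pos _)) fun χ h χ' h' => s3_tu hCd hk hdv a0 (hB2 h) (hB2 h')
    have a2 : (⌊2 * X⌋₊ : ℝ) ≤ 2 * X := Nat.floor_le (by linarith)
    have a3 : (B.card : ℝ) ^ 2 * (Cd * X ^ k) * ⌊2 * X⌋₊ / (X ^ (-(44 * k)) * X ^ ϑ) ≤
        (X ^ (3 * k)) ^ 2 * (Cd * X ^ k) * (2 * X) / (X ^ (-(44 * k)) * X ^ ϑ) := by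
      have := pos k
      gcongr
    have a4 : (X ^ (3 * k)) ^ 2 * (Cd * X ^ k) * (2 * X) / (X ^ (-(44 * k)) * X ^ ϑ) =
        2 * Cd * X ^ (1 - ϑ + 51 * k) := by
      have a5 : X ^ (1 - ϑ + 51 * k) * (X ^ (-(44 * k)) * X ^ ϑ) =
          X ^ (3 * k) * X ^ (3 * k) * X ^ k * X ^ (1 : ℝ) := by
        simp only [add]
        congr 1
        ring
      rw [div_eq_iff (mul_pos (pos _) (pos _)).ne', mul_assoc (2 * Cd), a5, Real.rpow_one]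
      ring
    have a6 := s3_key hX1 e4 (a := 1 - ϑ + 51 * k) (b := 1 - ϑ + ε) (by linarith)
    have a7 : (E₂.card : ℝ) ≤ 2 * Cd * X ^ (1 - ϑ + 51 * k) := by
      rw [← a4]
      refine le_trans (le_of_eq ?_) (a1.trans a3)
      rw [hE₂]
    linarith
  refine ⟨E₁ ∪ E₂, ?_, fun m hm h1 h2 hE => ?_⟩
  · have : ((E₁ ∪ E₂).card : ℝ) ≤ E₁.card + E₂.card := by exact_mod_cast card_union_le E₁ E₂
    linarith
  have hm1 : 1 ≤ m := by exact_mod_cast hX1.trans h1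
  have hm2 : (m : ℝ) ≤ 2 * X := by linarith
  have hmem : m ∈ Icc 1 ⌊2 * X⌋₊ := mem_Icc.2 ⟨hm1, Nat.le_floor hm2⟩
  rw [mem_union, not_or] at hE
  have g1 : ‖(RR X m : ℂ) - R1 X (X ^ ϑ) (X ^ ϑ * X ^ (15 * k)) m‖ ≤ X ^ (1 - k / 90) :=
    not_lt.1 fun h => hE.1 (mem_filter.2 ⟨hmem, h⟩)
  have g2 := hB m hm1 hm2 fun χ h χ' h' =>
    not_lt.1 fun h'' => hE.2 (mem_filter.2 ⟨hmem, χ, h, χ', h', h''⟩)
  have g3 := s3_re (D := X ^ (2 - k / 90)) hX0 (by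
    refine (mul_le_mul_of_nonneg_left g1 hX0.le).trans (le_of_eq ?_)
    rw [show 2 - k / 90 = 1 + (1 - k / 90) by ring, ← add, Real.rpow_one]) g2
  set F : ℝ := Ce * X ^ (1 - δ) * (X ^ (16 * k)) ^ 2 * Real.log X ^ 2 with hF
  have hF0 : 0 ≤ F := by
    have := pos (1 - δ)
    positivity
  have hF1 : F = Ce * Real.log X ^ 2 * X ^ (1 - δ + 32 * k) := by
    rw [hF, show 1 - δ + 32 * k = 1 - δ + (16 * k + 16 * k) by ring, ← add, ← add]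
    ring
  have hF2 : F ≤ X := by
    have a1 : Ce * Real.log X ^ 2 ≤ X ^ (k / 900) := by
      refine le_trans ?_ e5
      refine mul_le_mul_of_nonneg_right (le_mul_of_one_le_left hCe ?_) hlog
      linarith only [hC₀]
    rw [hF1]
    exact (s3_key hX1 a1 (b := 1) (by linarith)).trans (Real.rpow_one X).le
  have g4 := hml C X (X ^ ϑ) δ (X ^ (15 * k)) (X ^ (16 * k)) F m N B c0 hX1 hδ (by linarith) hT₁
    hF0 hm h1 h2 hB1 hB2 fun χ hχ y hy => hef X (X ^ (15 * k)) (X ^ (16 * k)) y N χ hX2 hT₁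
      (by rw [add]; exact mono (by linarith)) (top (by linarith))
      (le_trans (mem_filter.1 (hB2 hχ)).2 (top (by linarith))) hy
      fun n hn hn' => hN ▸ coprime_fact (pos _).le h4P hn hn'
  have hS := S0_ge (N := N) (NeZero.pos N) hm
  have hI : 1 / 8 ≤ I0 w1 (m / X) :=
    I0_ge (by rwa [le_div_iff₀ hX0, one_mul]) (by rwa [div_le_iff₀ hX0])
  have hT := s3_tot hX0.le N (X ^ ϑ) δ (X ^ (16 * k))
  have hY : X ^ 2 * X ^ (-(k / 100)) = X ^ (2 - k / 100) := by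
    rw [two, add, sub_eq_add_neg]
  refine ⟨X * S0 N m * I0 w1 (m / X), ?_,
    s3_fin hX0 (pos _).le hS hI (one_le_pow₀ (by linarith)) g4 g3 ?_ ?_ ?_⟩
  · have : 1 / 2 * (1 / 8) ≤ S0 N m * I0 w1 (m / X) :=
      mul_le_mul hS hI (by norm_num) (by linarith only [hS])
    have := mul_le_mul_of_nonneg_left this hX0.le
    linarith only [this]
  · have a1 : (B.card : ℝ) ^ 2 * (X ^ (15 * k) * F * (X + F)) ≤
        (X ^ (3 * k)) ^ 2 * (X ^ (15 * k) * F * (X + X)) := by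
      gcongr
    have a2 : X ^ (2 - δ + 53 * k) =
        X ^ (3 * k) * X ^ (3 * k) * X ^ (15 * k) * X ^ (1 - δ + 32 * k) * X ^ (1 : ℝ) := by
      simp only [add]
      congr 1
      ring
    have a3 := s3_key hX1 e5 (a := 2 - δ + 53 * k) (b := 2 - k / 100) (by linarith)
    rw [hY]
    refine le_trans ?_ a3
    rw [a2, Real.rpow_one]
    refine (mul_le_mul_of_nonneg_left (mul_le_mul_of_nonneg_left a1 (by linarith))
      (by norm_num)).trans (le_of_eq ?_)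
    rw [hF1]
    ring
  · rw [← Real.rpow_mul hX0.le, ← mul_assoc]
    exact s3_key hX1 e6 (by linarith)
  · rw [hY]
    exact s3_key hX1 e2 (by linarith)

end Pool.Agent.Lib.MP_778b46_nt.MA
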