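import Pool.Agent.Lib.MP_778b46_nt.MA.LWa
import Pool.Agent.Lib.MP_778b46_nt.MA.LV

/- Mean squares of the Dirichlet polynomials over the primes for every exponent below `2 / 5`. -/

noncomputable section

namespace Pool.Agent.Lib.MP_778b46_nt.MA

open Complex Finset Pool.Agent.Lib.MP_778b46_nt.GX

theorem lw_log {u : ℝ} (hu : 1 ≤ u) {R : ℝ} (hR : 1 ≤ R) (h : ℕ) (hRu : R ≤ u ^ h) :
    1 + Real.log (2 * R) ≤ (h + 2) * u := by
  have k1 := Real.log_le_log (by linarith) (show 2 * R ≤ 2 * u ^ h by linarith)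
  rw [Real.log_mul (y := u ^ h) (by norm_num) (by positivity), Real.log_pow] at k1
  have k2 := mul_le_mul_of_nonneg_left (show Real.log u ≤ u by
    linarith [Real.log_le_sub_one_of_pos (show 0 < u by linarith)]) (Nat.cast_nonneg (α := ℝ) h)
  linarith [Real.log_two_lt_d9]

theorem lw_root {X H θ : ℝ} {N h : ℕ} (hN : 0 < N) (hθ : θ * N ≤ h) (hX : 1 ≤ X)
    (hH : H ≤ X ^ θ) : ∃ u : ℝ, 1 ≤ u ∧ X = u ^ N ∧ H ≤ u ^ h := by
  have hN0 : (0 : ℝ) < N := by exact_mod_cast hN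
  refine ⟨X ^ (N : ℝ)⁻¹, Real.one_le_rpow hX (by positivity),
    (Real.rpow_inv_natCast_pow (by linarith) hN.ne').symm, hH.trans ?_⟩
  rw [← Real.rpow_natCast, ← Real.rpow_mul (by linarith)]
  refine Real.rpow_le_rpow_of_exponent_le hX ?_
  rwa [← div_eq_inv_mul, le_div_iff₀ hN0]

theorem lw_mass : ∃ C : ℝ, 0 ≤ C ∧ ∀ X P H : ℝ, 2 ≤ X → 1 ≤ P → P ≤ H → H ≤ X ^ (2 / 5 : ℝ) →
    mass P H (fun _ ψ t => DD X (cf ψ) t) ≤ C * X ^ 2 * Real.log X ^ 4 := by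
  obtain ⟨C0, hC, h⟩ := fam_IB
  obtain ⟨L, hw⟩ := wg_w0
  refine ⟨10 * (2 * C0 * 17), by positivity, fun X P H hX hP hPH hH => ?_⟩
  obtain ⟨u, hu, hXu, hHu⟩ := lw_root (N := 5) (h := 2) (by norm_num) (by norm_num)
    (by linarith) hH
  have hX0 : 0 < X := by linarith
  have hl : 2 / 3 ≤ Real.log X := by
    linarith [Real.log_le_log (by norm_num) hX, Real.log_two_gt_d9]
  have hHX : H ≤ X := hHu.trans ((pow_le_pow_right₀ hu (by norm_num)).trans hXu.ge)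
  refine (mass_blocks (B := 2 * C0 * 17 * X ^ 2 * Real.log X ^ 2) hP hPH (by positivity) _
    fun R A hR hRH hA => ?_).trans ?_
  · have hR1 : (1 : ℝ) ≤ R := by exact_mod_cast hR
    have k := h R A H (4 * u) (-1) hR hRH hA ((lw_log hu hR1 2 (hRH.trans hHu)).trans
      (by norm_num)) _ Subset.rfl fun i _ _ => by linarith [abs_nonneg (i.2 : ℝ)]
    have k1 := ls_smooth k.ls hC k.D1 (G := Real.log X) hX0 ⌊X⌋₊
      (fun n => (w0 (n / X) : ℂ) * lp n) (fun n hn h0 => ?_) fun n hn => ?_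
    · simp only [norm_DD hX0, ← mul_assoc]
      refine k1.trans ?_
      have k2 : 4 * H * R * (4 * u) ≤ 16 * X := by
        have : 0 ≤ H := by linarith
        calc _ ≤ 4 * u ^ 2 * u ^ 2 * (4 * u) := by gcongr; exact hRH.trans hHu
          _ = _ := by rw [hXu]; ring
      calc _ ≤ 2 * C0 * (X + 16 * X) * X * Real.log X ^ 2 := by gcongr
        _ = _ := by ring
    · have k1 : n.Prime := by
        by_contra hc
        exact h0 (by simp [lp, hc])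
      have k2 : (n : ℝ) ≤ X := (Nat.le_floor_iff hX0.le).1 (mem_Ioc.1 hn).2
      refine ⟨k1.two_le, ?_, k2⟩
      by_contra hc
      exact h0 (by rw [hw.zero _ (Or.inl (by rw [div_le_iff₀ hX0]; linarith))]; simp)
    · have k2 : (n : ℝ) ≤ X := (Nat.le_floor_iff hX0.le).1 (mem_Ioc.1 hn).2
      rw [norm_mul, norm_real, norm_real, Real.norm_eq_abs, Real.norm_eq_abs]
      refine (mul_le_of_le_one_left (abs_nonneg _) (hw.le _)).trans ?_
      unfold lp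
      split_ifs
      · rw [abs_of_nonneg (Real.log_natCast_nonneg n)]
        exact Real.log_le_log (by exact_mod_cast (mem_Ioc.1 hn).1) k2
      · rw [abs_zero]; linarith
  · have k1 := Real.log_le_log (by linarith) hHX
    calc _ ≤ 10 * Real.log X ^ 2 * (2 * C0 * 17 * X ^ 2 * Real.log X ^ 2) :=
          mul_le_mul_of_nonneg_right (by nlinarith) (by positivity)
      _ = _ := by ring

theorem lw_card {A : Finset ℕ} {R : ℕ} {H : ℝ} (hR : 1 ≤ R) (hRH : (R : ℝ) ≤ H)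
    (hA : A ⊆ Ico R (2 * R)) : ((IB A H).card : ℝ) ≤ R * (4 * H) := by
  have hA1 : ∀ c ∈ A, 1 ≤ c := fun c hc => hR.trans (mem_Ico.1 (hA hc)).1
  have hH0 : 0 ≤ H := (Nat.cast_nonneg _).trans hRH
  have k1 := IB_sum hA1 H (fun _ _ => 1) fun _ _ => zero_le_one
  have k2 : ∑ c ∈ A, (c : ℝ) * ∑ t ∈ II (H / c), (1 : ℝ) ≤ A.card • (4 * H) :=
    sum_le_card_nsmul _ _ _ fun c hc => by
      have c0 : (0 : ℝ) < c := by exact_mod_cast hA1 c hc
      have c1 : (c : ℝ) ≤ 2 * R := by exact_mod_cast (mem_Ico.1 (hA hc)).2.le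
      rw [sum_const, nsmul_eq_mul, mul_one]
      refine (mul_le_mul_of_nonneg_left (lve_card_II (by positivity)) c0.le).trans ?_
      rw [mul_add, mul_left_comm, mul_div_cancel₀ _ c0.ne']
      linarith
  have k3 : (A.card : ℝ) ≤ R := by
    exact_mod_cast (card_le_card hA).trans (by rw [Nat.card_Ico]; omega)
  rw [sum_const, nsmul_eq_mul, mul_one] at k1
  rw [nsmul_eq_mul] at k2
  exact k1.trans (k2.trans (by gcongr))

theorem lw_low {A : Finset ℕ} (hA1 : ∀ c ∈ A, 1 ≤ c) (H : ℝ) (M : ℕ) :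
    (((IB A H).filter fun i => i.1.1 = 1 ∧ |(i.2 : ℝ)| ≤ M).card : ℝ) ≤ 2 * M + 1 := by
  have k1 := IB_one hA1 H (fun c t => if c = 1 ∧ |(t : ℝ)| ≤ M then 1 else 0)
    (fun _ _ => by split_ifs <;> norm_num) fun c t hc => by simp [hc]
  simp only [sum_boole, true_and] at k1
  refine k1.trans (le_trans ?_ (lve_card_II (Nat.cast_nonneg M)))
  refine Nat.cast_le.2 (card_le_card fun t ht => ?_)
  rw [II, Nat.floor_natCast, mem_Icc, ← abs_le]
  exact_mod_cast (mem_filter.1 ht).2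

theorem lw_block (m : ℕ) : ∃ C : ℝ, 0 ≤ C ∧ ∀ (X u H δ E : ℝ) (R : ℕ) (A : Finset ℕ),
    4 * m + 20 ≤ u → X = u ^ (10 * m + 10) → H ≤ u ^ (4 * m) → 0 < δ → δ ≤ 1 → 1 ≤ δ * u →
    1 + Real.log X ≤ E → (∀ n : ℕ, (n : ℝ) ≤ (X ^ 3) ^ (5 * m + 3 + 1) →
      (n.divisors.card : ℝ) ^ (2 * (5 * m + 3 + 1)) ≤ E) → 1 ≤ R → (R : ℝ) ≤ H →
    A ⊆ Ico R (2 * R) →
    ∑ i ∈ IB A H, ‖sml (δ ^ (10 * m + 10) * X) (DD X (cf i.1.2) i.2)‖ ^ 2 ≤
      C * E ^ 6 * δ ^ 2 * X ^ 2 := by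
  classical
  obtain ⟨C0, hC0, h⟩ := fam_IB
  obtain ⟨C1, hC1, h'⟩ := ls_IB (B := 6 ^ (5 * m + 3 + 1)) (one_le_pow₀ (by norm_num))
  obtain ⟨L, hw⟩ := wg_w0
  obtain ⟨C, hC, hc⟩ := lw_core (5 * m + 3) C0 C1 L hC0 hC1 hw.L1
  refine ⟨2 * C + 4627, by positivity, ?_⟩
  intro X u H δ E R A hu hXu hHu hδ hδ1 hδu hE hτ hR hRH hA
  have hm0 : (0 : ℝ) ≤ m := Nat.cast_nonneg m
  have hu1 : 1 ≤ u := by linarith
  have hu0 : 0 < u := by linarith
  have hR1 : (1 : ℝ) ≤ R := by exact_mod_cast hR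
  have hH0 : 0 ≤ H := by linarith
  have hX1 : 1 ≤ X := (one_le_pow₀ hu1).trans hXu.ge
  have hX0 : 0 < X := by linarith
  have hE1 : 1 ≤ E := by linarith [Real.log_nonneg hX1]
  have hA1 : ∀ c ∈ A, 1 ≤ c := fun c hc => hR.trans (mem_Ico.1 (hA hc)).1
  have hδ4 : δ ^ 4 ≤ 1 := pow_le_one₀ hδ.le hδ1
  obtain ⟨M, hM1, hM2⟩ : ∃ M : ℕ, 2312 / δ ^ 4 ≤ M ∧ (M : ℝ) ≤ 2312 / δ ^ 4 + 1 :=
    ⟨_, Nat.le_ceil _, (Nat.ceil_lt_add_one (by positivity)).le⟩
  have hM0 : (1 : ℝ) ≤ M := le_trans (by rw [le_div_iff₀ (by positivity)]; linarith) hM1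
  obtain ⟨V, hV1, hV2⟩ : ∃ V : ℕ, u ^ 2 ≤ V ∧ (V : ℝ) ≤ 2 * u ^ 2 :=
    ⟨_, Nat.le_ceil _, (Nat.ceil_lt_add_one (by positivity)).le.trans (by
      linarith [one_le_pow₀ (n := 2) hu1])⟩
  have hV0 : (1 : ℝ) ≤ V := (one_le_pow₀ hu1).trans hV1
  have hLg : 1 + Real.log (2 * R) ≤ u ^ 2 := by
    refine (lw_log hu1 hR1 _ (hRH.trans hHu)).trans ?_
    rw [sq]
    exact mul_le_mul_of_nonneg_right (by push_cast; linarith) hu0.le
  set S := (IB A H).filter fun i => ¬ (i.1.1 = 1 ∧ |(i.2 : ℝ)| ≤ M) with hS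
  have hD : 4 * H * R * u ^ 2 ≤ u ^ (8 * m + 3) := by
    calc _ ≤ u * u ^ (4 * m) * u ^ (4 * m) * u ^ 2 := by
          gcongr
          · linarith
          · exact hRH.trans hHu
      _ = _ := by ring
  have hδ4' : ∀ k : ℕ, u ^ k ≤ δ ^ 4 * u ^ (k + 4) := fun k => by
    calc _ ≤ (δ * u) ^ 4 * u ^ k := le_mul_of_one_le_left (by positivity) (one_le_pow₀ hδu)
      _ = _ := by ring
  obtain ⟨Bad, hB1, hB2⟩ := hc _ S fz (fun i => eta M i.1.1 i.2) w0 X _ _ δ E V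
    (h R A H (u ^ 2) M hR hRH hA hLg S (filter_subset _ _)
      fun i hi e => not_le.1 fun k => (mem_filter.1 hi).2 ⟨e, k⟩)
    (h' R A H (u ^ 2) hR hRH hA hLg S (filter_subset _ _)) hw (by exact_mod_cast hV0)
    (by
      calc 8 * (V : ℝ) ≤ u * u ^ 2 := by nlinarith [one_le_pow₀ (n := 2) hu1]
        _ = u ^ 3 := by ring
        _ ≤ X := (pow_le_pow_right₀ hu1 (by omega)).trans hXu.ge) hδ hδ1
    (by
      have k4 : (S.card : ℝ) ≤ (IB A H).card := by exact_mod_cast card_filter_le _ _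
      calc _ ≤ R * (4 * H) * 1 := by
            rw [mul_one]
            exact k4.trans (lw_card hR hRH hA)
        _ ≤ R * (4 * H) * (3 * u ^ 2) := by gcongr; linarith [one_le_pow₀ (n := 2) hu1]
        _ = _ := by ring)
    (hD.trans (by
      calc u ^ (8 * m + 3) ≤ u ^ (2 * (5 * m + 3 + 1)) := pow_le_pow_right₀ hu1 (by omega)
        _ = (u ^ 2) ^ (5 * m + 3 + 1) := pow_mul _ _ _
        _ ≤ _ := by gcongr))
    (hD.trans ((hδ4' _).trans (mul_le_mul_of_nonneg_left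
      ((pow_le_pow_right₀ hu1 (by omega)).trans hXu.ge) (by positivity))))
    (by
      calc _ = (136 * H ^ 2 * u ^ 4) ^ 2 * √(2 * R) ^ 2 * (V : ℝ) ^ 2 := by
            field_simp; ring
        _ ≤ (136 * (u ^ (4 * m)) ^ 2 * u ^ 4) ^ 2 * (2 * u ^ (4 * m)) * (2 * u ^ 2) ^ 2 := by
            rw [Real.sq_sqrt (by positivity)]
            gcongr
            exact hRH.trans hHu
        _ = 8 * 136 ^ 2 * u ^ (20 * m + 12) := by ring
        _ ≤ u ^ 4 * u ^ (20 * m + 12) := by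
            gcongr
            exact le_trans (by norm_num)
              (pow_le_pow_left₀ (by norm_num) (show (20 : ℝ) ≤ u by linarith) 4)
        _ = u ^ (20 * m + 16) := by ring
        _ ≤ δ ^ 4 * u ^ (20 * m + 16 + 4) := hδ4' _
        _ = _ := by rw [hXu]; ring)
    (by
      refine (sum_le_sum_of_subset_of_nonneg (filter_subset _ _) fun _ _ _ => by positivity).trans
        ((IB_one hA1 H (fun c t => eta M c t ^ 2) (fun _ _ => by positivity)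
          fun c t hc => by simp [eta, hc]).trans ((eta_sum (by exact_mod_cast hM0) H).trans ?_))
      rw [div_le_iff₀ (by positivity)] at hM1 ⊢
      linarith) hE hτ
  have hY : ∀ T : Finset (Σ _ : Ch, ℤ),
      ∑ i ∈ T, ‖sml (δ ^ (10 * m + 10) * X) (DD X (cf i.1.2) i.2)‖ ^ 2 ≤
      T.card * (δ ^ (10 * m + 10) * X) ^ 2 := fun T => by
    rw [← nsmul_eq_mul]
    exact sum_le_card_nsmul _ _ _ fun i _ => (sml_le _ _).2
  have h81 : ∀ c : ℝ, 0 ≤ c → c * E ^ 3 / δ ^ (4 * (5 * m + 3) + 5) * (δ ^ (10 * m + 10) * X) ^ 2 ≤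
      c * E ^ 6 * δ ^ 2 * X ^ 2 := fun c hc => by
    calc _ = c * E ^ 3 * δ ^ 3 * X ^ 2 := by field_simp; ring
      _ ≤ _ := by
        have := pow_le_pow_of_le_one hδ.le hδ1 (show 2 ≤ 3 by norm_num)
        gcongr
        norm_num
  rw [← sum_filter_add_sum_filter_not (IB A H) fun i => i.1.1 = 1 ∧ |(i.2 : ℝ)| ≤ M, ← hS,
    ← sum_inter_add_sum_sdiff S Bad]
  have b1 := (hY _).trans ((mul_le_mul_of_nonneg_right ((lw_low hA1 H M).trans
    (show _ ≤ 4627 * E ^ 3 / δ ^ (4 * (5 * m + 3) + 5) from ?_)) (by positivity)).trans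
      (h81 _ (by norm_num)))
  · have b2 := (hY (S ∩ Bad)).trans ((mul_le_mul_of_nonneg_right (le_trans (by
      exact_mod_cast card_le_card inter_subset_right) hB1) (by positivity)).trans (h81 _ hC))
    have b3 := (sum_le_sum fun i _ => (sml_le (δ ^ (10 * m + 10) * X) _).1.trans
      (le_of_eq (by rw [norm_DD hX0]))).trans hB2
    linarith
  · have k1 : 1 ≤ 1 / δ ^ 4 := by rw [le_div_iff₀ (by positivity)]; linarith
    calc _ ≤ 4627 * 1 / δ ^ 4 := by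
          rw [show 2312 / δ ^ 4 = 2312 * (1 / δ ^ 4) by ring] at hM2
          rw [mul_div_assoc]
          linarith
      _ ≤ _ := div_le_div₀ (by positivity) (by gcongr; exact one_le_pow₀ hE1) (by positivity)
          (pow_le_pow_of_le_one hδ.le hδ1 (by omega))

theorem lw_par (m : ℕ) {κ : ℝ} (h0 : 0 < κ) (h1 : κ ≤ 1) : ∃ C : ℝ, 0 ≤ C ∧ ∀ X P H u : ℝ, 2 ≤ X →
    1 ≤ P → P ≤ H → H ≤ X ^ (2 / 5 : ℝ) → 1 ≤ u → X = u ^ (10 * m + 10) → H ≤ u ^ (4 * m) →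
    mass P H (fun _ ψ t => sml ((u ^ (-κ)) ^ (10 * m + 10) * X) (DD X (cf ψ) t)) ≤
      C * (X ^ 2 * u ^ (-κ)) := by
  obtain ⟨C1, hC1, hm⟩ := lw_mass
  obtain ⟨C2, hC2, hb⟩ := lw_block m
  obtain ⟨j, hj⟩ : ∃ j : ℕ, j = 5 * m + 3 + 1 := ⟨_, rfl⟩
  obtain ⟨N, hN⟩ : ∃ N : ℕ, N = 10 * m + 10 := ⟨_, rfl⟩
  rw [← hj, ← hN] at hb
  rw [← hN]
  have hj0 : (0 : ℝ) < j := by rw [hj]; positivity
  have hN0 : (0 : ℝ) < N := by rw [hN]; positivity
  obtain ⟨C3, hC3, hd⟩ := MP_2a1a00_nt.card_divisors_le (κ / 10 / (6 * j ^ 2 * N)) (by positivity)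
  obtain ⟨Z, hZ0, hZ⟩ : ∃ Z : ℝ, 0 ≤ Z ∧ ∀ u : ℝ, 0 ≤ u → u ≤ 4 * m + 20 → u ^ N ≤ Z :=
    ⟨_, by positivity, fun u h h' => pow_le_pow_left₀ h h' N⟩
  refine ⟨C1 * Z ^ 5 + 2 * C2 * (C3 ^ (2 * j) + 1 + N * (10 / κ)) ^ 7, by positivity,
    fun X P H u hX hP hPH hH hu hXu hHu => ?_⟩
  have hX1 : 1 ≤ X := by linarith
  have hX0 : 0 < X := by linarith
  have hu0 : 0 < u := by linarith
  have huX : u ≤ X := (le_self_pow₀ hu (by omega)).trans hXu.ge
  have hδu : 1 ≤ u ^ (-κ) * u := by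
    rw [← Real.rpow_add_one hu0.ne']
    exact Real.one_le_rpow hu (by linarith)
  have hδ0 : 0 < u ^ (-κ) := by positivity
  rw [add_mul]
  rcases le_total u (4 * m + 20) with hu2 | hu2
  · refine le_add_of_le_of_nonneg (le_trans ?_ ((hm X P H hX hP hPH hH).trans ?_)) (by positivity)
    · exact sum_le_sum fun c _ => sum_le_sum fun ψ _ => sum_le_sum fun t _ => (sml_le _ _).1
    · have k1 : X ≤ Z := hXu.le.trans (hZ u hu0.le hu2)
      have k2 : Real.log X ≤ Z := by linarith [Real.log_le_sub_one_of_pos hX0]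
      have k3 := Real.log_nonneg hX1
      have k4 : 1 ≤ u ^ (-κ) * Z := hδu.trans (by gcongr; linarith)
      calc _ ≤ C1 * X ^ 2 * Z ^ 4 * (u ^ (-κ) * Z) :=
            le_trans (by gcongr) (le_mul_of_one_le_right (by positivity) k4)
        _ = _ := by ring
  refine le_add_of_nonneg_of_le (by positivity) ?_
  have hHX : H ≤ X := hHu.trans ((pow_le_pow_right₀ hu (by omega)).trans hXu.ge)
  have hx1 : 1 ≤ u ^ (κ / 10) := Real.one_le_rpow hu (by positivity)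
  have hE : 1 + Real.log X ≤ (C3 ^ (2 * j) + 1 + N * (10 / κ)) * u ^ (κ / 10) := by
    have k1 := Real.log_le_rpow_div hu0.le (show 0 < κ / 10 by positivity)
    rw [show u ^ (κ / 10) / (κ / 10) = 10 / κ * u ^ (κ / 10) by field_simp] at k1
    have k2 : 0 ≤ C3 ^ (2 * j) * u ^ (κ / 10) := by positivity
    have k3 := mul_le_mul_of_nonneg_left k1 hN0.le
    rw [hXu, Real.log_pow]
    linarith
  have hb' := fun R A k2 => hb X u H (u ^ (-κ)) _ R A hu2 hXu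
    hHu hδ0 (Real.rpow_le_one_of_one_le_of_nonpos hu (by linarith)) hδu hE k2
  refine le_trans (mass_blocks hP hPH (by positivity)
    (fun _ ψ t => sml ((u ^ (-κ)) ^ N * X) (DD X (cf ψ) t))
    fun R A => hb' R A fun n hn => ?_) ?_
  · calc _ ≤ (C3 * ((X ^ 3) ^ j) ^ (κ / 10 / (6 * j ^ 2 * N))) ^ (2 * j) :=
          pow_le_pow_left₀ (by positivity) ((hd n).trans (by gcongr)) _
      _ = C3 ^ (2 * j) * u ^ (κ / 10) := by
          rw [mul_pow, hXu, ← pow_mul, ← pow_mul, ← Real.rpow_natCast u, ← Real.rpow_mul hu0.le,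
            ← Real.rpow_natCast (u ^ _), ← Real.rpow_mul hu0.le]
          congr 2; push_cast; field_simp; ring
      _ ≤ _ := by gcongr; linarith [show 0 ≤ N * (10 / κ) by positivity]
  · have k1 := Real.log_le_log (by linarith) hHX
    have e3 : (u ^ (κ / 10)) ^ 7 * (u ^ (-κ)) ^ 2 ≤ u ^ (-κ) := by
      simp only [← Real.rpow_natCast, ← Real.rpow_mul hu0.le, ← Real.rpow_add hu0]
      exact Real.rpow_le_rpow_of_exponent_le hu (by push_cast; linarith)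
    generalize C3 ^ (2 * j) + 1 + N * (10 / κ) = C4 at hE ⊢
    have k2 : 0 ≤ C4 := by
      by_contra hc
      nlinarith [Real.log_nonneg hX1]
    calc _ ≤ 2 * (C4 * u ^ (κ / 10)) * (C2 * (C4 * u ^ (κ / 10)) ^ 6 *
          (u ^ (-κ)) ^ 2 * X ^ 2) := by gcongr; linarith
      _ = 2 * C2 * C4 ^ 7 * (X ^ 2 * ((u ^ (κ / 10)) ^ 7 * (u ^ (-κ)) ^ 2)) := by ring
      _ ≤ _ := by gcongr

theorem lw_small {θ : ℝ} (hθ : θ < 2 / 5) : ∃ K : ℝ, 40 ≤ K ∧ ∀ κ : ℝ, 0 < κ → κ ≤ 1 →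
    ∃ C : ℝ, 0 ≤ C ∧ ∀ X P H : ℝ, 2 ≤ X → 1 ≤ P → P ≤ H → H ≤ X ^ θ →
      mass P H (fun _ ψ t => sml (X ^ (1 - κ)) (DD X (cf ψ) t)) ≤ C * X ^ (2 - κ / K) := by
  obtain ⟨m, hm⟩ := exists_nat_ge (3 + 4 / (4 - 10 * θ))
  have h4 : 0 < 4 - 10 * θ := by linarith
  have h5 : 0 < 4 / (4 - 10 * θ) := by positivity
  have h6 : 4 ≤ m * (4 - 10 * θ) := by
    rw [← div_le_iff₀ h4]
    linarith
  refine ⟨10 * m + 10, by linarith, fun κ h0 h1 => ?_⟩
  obtain ⟨C, hC, h⟩ := lw_par m h0 h1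
  refine ⟨C, hC, fun X P H hX hP hPH hH => ?_⟩
  have hX1 : 1 ≤ X := by linarith
  obtain ⟨u, hu, hXu, hHu⟩ := lw_root (N := 10 * m + 10) (h := 4 * m) (by omega)
    (by push_cast; linarith) hX1 hH
  have hu0 : 0 < u := by linarith
  have e0 : ∀ a : ℝ, X ^ a = u ^ ((10 * m + 10) * a) := fun a => by
    rw [hXu, ← Real.rpow_natCast, ← Real.rpow_mul hu0.le]
    push_cast
    rfl
  have e1 : X ^ (1 - κ) = (u ^ (-κ)) ^ (10 * m + 10) * X := by
    rw [sub_eq_neg_add, Real.rpow_add_one (by linarith), e0, ← Real.rpow_natCast,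
      ← Real.rpow_mul hu0.le]
    congr 2; push_cast; ring
  have e2 : X ^ (2 - κ / (10 * m + 10)) = X ^ 2 * u ^ (-κ) := by
    rw [sub_eq_add_neg, Real.rpow_add (by linarith), Real.rpow_two, e0]
    congr 2
    field_simp
  rw [e1, e2]
  exact h X P H u hX hP hPH (hH.trans (Real.rpow_le_rpow_of_exponent_le hX1 hθ.le)) hu hXu hHu

end Pool.Agent.Lib.MP_778b46_nt.MA
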