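import Pool.Agent.Lib.MP_778b46_nt.MA.LVd

/- Large values of the Dirichlet polynomial over the primes: the family of primitive characters
with conductor in a dyadic block, twisted by integer heights. -/

noncomputable section

namespace Pool.Agent.Lib.MP_778b46_nt.MA

open Complex Finset Pool.Agent.Lib.MP_778b46_nt.GX
open Pool.Agent.Lib.MP_c03ca8_nt.Q (prim)
open Pool.Agent.Lib.MP_03e5d0_nt (ex bump bump_mem bump_eq_zero)

/-- characters with conductor in `A` and heights up to `H / c` -/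
def IB (A : Finset ℕ) (H : ℝ) : Finset (Σ _ : Ch, ℤ) := (A.sigma prim).sigma fun x => II (H / x.1)

/-- the twisted character -/
def fz (i : Σ _ : Ch, ℤ) (n : ℕ) : ℂ := i.1.2 (n : ZMod i.1.1) * (n : ℂ) ^ (-(-((i.2 : ℝ) * I)))

/-- the size of the main term of the plain sums -/
def eta (M : ℝ) (c : ℕ) (t : ℤ) : ℝ := if c = 1 ∧ M < |(t : ℝ)| then 34 / (1 + |(t : ℝ)|) else 0

theorem lve_II {T : ℝ} (hT : 0 ≤ T) {t : ℤ} (h : t ∈ II T) : |(t : ℝ)| ≤ T := by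
  refine le_trans ?_ (Nat.floor_le hT)
  exact_mod_cast abs_le.2 (mem_Icc.1 h)

theorem lve_card_II {T : ℝ} (hT : 0 ≤ T) : ((II T).card : ℝ) ≤ 2 * T + 1 := by
  have h : (II T).card = 2 * ⌊T⌋₊ + 1 := by rw [II, Int.card_Icc]; omega
  rw [h]
  push_cast
  linarith [Nat.floor_le hT]

theorem lve_prim {c : ℕ} (hc : 1 ≤ c) : ((prim c).card : ℝ) ≤ c := by
  have : NeZero c := ⟨by omega⟩
  have h := DirichletCharacter.card_eq_totient_of_hasEnoughRootsOfUnity ℂ c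
  rw [Nat.card_eq_fintype_card] at h
  exact_mod_cast (card_le_univ _).trans (h.le.trans (Nat.totient_le c))

theorem IB_sum {A : Finset ℕ} (hA : ∀ c ∈ A, 1 ≤ c) (H : ℝ) (g : ℕ → ℤ → ℝ)
    (hg : ∀ c t, 0 ≤ g c t) :
    ∑ i ∈ IB A H, g i.1.1 i.2 ≤ ∑ c ∈ A, c * ∑ t ∈ II (H / c), g c t := by
  rw [IB, sum_sigma, sum_sigma]
  refine sum_le_sum fun c hc => ?_
  simp only [sum_const, nsmul_eq_mul]
  exact mul_le_mul_of_nonneg_right (lve_prim (hA c hc)) (sum_nonneg fun _ _ => hg _ _)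

theorem IB_one {A : Finset ℕ} (hA : ∀ c ∈ A, 1 ≤ c) (H : ℝ) (g : ℕ → ℤ → ℝ)
    (hg : ∀ c t, 0 ≤ g c t) (h1 : ∀ c t, c ≠ 1 → g c t = 0) :
    ∑ i ∈ IB A H, g i.1.1 i.2 ≤ ∑ t ∈ II H, g 1 t := by
  refine (IB_sum hA H g hg).trans ?_
  by_cases h : 1 ∈ A
  · rw [sum_eq_single_of_mem 1 h fun c _ hc => by simp [h1 c _ hc]]
    simp
  · rw [sum_eq_zero fun c hc => by simp [h1 c _ fun e => h (e ▸ hc)]]
    exact sum_nonneg fun _ _ => hg _ _

theorem eta_sum {M : ℕ} (hM : 1 ≤ M) (H : ℝ) : ∑ t ∈ II H, eta M 1 t ^ 2 ≤ 2312 / M := by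
  have h1 : ∑ t ∈ II H, eta M 1 t ^ 2 ≤ ∑ t ∈ (II H).filter fun t => M < t.natAbs,
      1156 * ((t.natAbs : ℝ) ^ 2)⁻¹ := by
    rw [sum_filter]
    refine sum_le_sum fun t _ => ?_
    have e : |(t : ℝ)| = t.natAbs := by rw [Nat.cast_natAbs, Int.cast_abs]
    simp only [eta, e, Nat.cast_lt, true_and]
    split_ifs with h
    · have : (0 : ℝ) < t.natAbs := by exact_mod_cast (show 0 < t.natAbs by omega)
      rw [div_pow, ← div_eq_mul_inv]
      exact div_le_div₀ (by norm_num) (by norm_num) (by positivity) (by gcongr; linarith)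
    · simp
  refine h1.trans ?_
  rw [← sum_fiberwise_of_maps_to (t := Ioc M (M + ⌊H⌋₊)) (g := Int.natAbs) (fun t ht => by
    have k1 := mem_Icc.1 (mem_filter.1 ht).1
    have k2 := (mem_filter.1 ht).2
    rw [mem_Ioc]; omega)]
  have h2 := sum_Ioc_inv_sq_le_sub (α := ℝ) (show M ≠ 0 by omega) (Nat.le_add_right M ⌊H⌋₊)
  have h3 : (0 : ℝ) ≤ (((M + ⌊H⌋₊ : ℕ) : ℝ))⁻¹ := by positivity
  refine le_trans (sum_le_sum fun n _ => ?_) (show ∑ n ∈ Ioc M (M + ⌊H⌋₊),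
    2312 * ((n : ℝ) ^ 2)⁻¹ ≤ _ by rw [← mul_sum, div_eq_mul_inv]; linarith)
  rw [sum_congr rfl (g := fun _ => 1156 * ((n : ℝ) ^ 2)⁻¹) fun t ht => by
    rw [(mem_filter.1 ht).2], sum_const, nsmul_eq_mul]
  have h4 : (((II H).filter fun t => M < t.natAbs).filter fun t => t.natAbs = n).card ≤ 2 := by
    refine (card_le_card (t := {(n : ℤ), -(n : ℤ)}) fun t ht => ?_).trans card_le_two
    have := (mem_filter.1 ht).2
    rw [mem_insert, mem_singleton]
    omega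
  calc _ ≤ 2 * (1156 * ((n : ℝ) ^ 2)⁻¹) :=
        mul_le_mul_of_nonneg_right (by exact_mod_cast h4) (by positivity)
    _ = _ := by ring

theorem fam_IB : ∃ C0 : ℝ, 0 ≤ C0 ∧ ∀ (R : ℕ) (A : Finset ℕ) (H Lg M : ℝ), 1 ≤ R → (R : ℝ) ≤ H →
    A ⊆ Ico R (2 * R) → 1 + Real.log (2 * R) ≤ Lg → ∀ S ⊆ IB A H,
    (∀ i ∈ S, i.1.1 = 1 → M < |(i.2 : ℝ)|) →
    Fam S fz (fun i => eta M i.1.1 i.2) C0 (4 * H * R * Lg) (34 * √(2 * R) * Lg * (H / R)) := by
  classical
  obtain ⟨C, hC, h⟩ := hybrid_ls 40 (by norm_num)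
  refine ⟨C * 2, by positivity, fun R A H Lg M hR hRH hA hLg S hS hM => ?_⟩
  have hR1 : (1 : ℝ) ≤ R := by exact_mod_cast hR
  have hl : 0 ≤ Real.log (2 * R) := Real.log_nonneg (by linarith)
  have hT : 1 ≤ H / R := (one_le_div (by linarith)).2 hRH
  have hmem : ∀ i ∈ S, R ≤ i.1.1 ∧ i.1.1 < 2 * R ∧ i.1.2.IsPrimitive ∧ |(i.2 : ℝ)| ≤ H / R := by
    intro i hi
    obtain ⟨k1, k2⟩ := mem_sigma.1 (hS hi)
    obtain ⟨k3, k4⟩ := mem_sigma.1 k1
    obtain ⟨k5, k6⟩ := mem_Ico.1 (hA k3)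
    have k7 : (R : ℝ) ≤ i.1.1 := by exact_mod_cast k5
    refine ⟨k5, k6, by simpa [prim] using k4, (lve_II (div_nonneg (by linarith) (by linarith))
      k2).trans (div_le_div_of_nonneg_left (by linarith) (by linarith) k7)⟩
  have hre : ∀ t : ℝ, (-((t : ℂ) * I)).re = 0 := fun t => by simp
  have hn : ∀ t : ℝ, ‖-((t : ℂ) * I)‖ = |t| := fun t => by simp
  have hs1 : 1 ≤ √(2 * R : ℝ) := Real.one_le_sqrt.2 (by linarith)
  have hL0 : 0 ≤ Lg := by linarith
  have hH0 : 0 ≤ H := by linarith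
  refine ⟨fun i m n => ?_, fun i n hn => ?_, fun U W hU hW => ?_, fun i hi K K' h1 h2 h3 => ?_,
    fun i => ?_, by positivity, by positivity, ?_⟩
  · simp only [fz, Nat.cast_mul, map_mul, natCast_mul_natCast_cpow]
    ring
  · rw [fz, norm_mul, norm_natCast_cpow_of_pos hn, neg_re, hre, neg_zero, Real.rpow_zero, mul_one]
    exact DirichletCharacter.norm_le_one _ _
  · refine (h _ S (fun i => i.1) (fun i => -((i.2 : ℝ) * I)) (2 * R) U W (H / R) 2 0 (by omega) hU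
      hW hT zero_le_two le_rfl (fun i hi => ?_) (fun i hi => ?_) fun x t => ?_).congr
      (fun _ _ _ _ => rfl) ?_
    · obtain ⟨k1, k2, k3, -⟩ := hmem i hi
      exact mem_PC.2 ⟨by omega, k2.le, k3⟩
    · rw [hre]
      refine ⟨le_rfl, zero_le_one, ?_⟩
      simpa using (hmem i hi).2.2.2
    · refine le_trans (Nat.cast_le.2 (card_le_card_of_injOn (t := {⌊1 / 2 - t⌋, ⌊1 / 2 - t⌋ - 1})
        (fun i => i.2) (fun i hi => ?_) fun i hi j hj e => ?_)) (by exact_mod_cast card_le_two)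
      · have k1 := (mem_filter.1 (mem_coe.1 hi)).2.2
        simp only [neg_im, mul_im, ofReal_re, I_im, mul_one, ofReal_im, I_re, mul_zero,
          add_zero] at k1
        rw [abs_le] at k1
        have k2 : i.2 ≤ ⌊1 / 2 - t⌋ := Int.le_floor.2 (by linarith [k1.1])
        have k3 : ⌊1 / 2 - t⌋ < i.2 + 2 := Int.floor_lt.2 (by push_cast; linarith [k1.2])
        simp only [coe_insert, coe_singleton, Set.mem_insert_iff, Set.mem_singleton_iff]
        omega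
      · exact Sigma.ext ((mem_filter.1 (mem_coe.1 hi)).2.1.trans
          (mem_filter.1 (mem_coe.1 hj)).2.1.symm) (heq_of_eq e)
    · rw [mul_zero, Real.rpow_zero, mul_one]
      push_cast
      have : H / R * ((2 * R) ^ 2 * (1 + Real.log (2 * R))) = 4 * H * R * (1 + Real.log (2 * R)) := by
        field_simp; ring
      rw [this]
      gcongr
  · obtain ⟨k1, k2, k3, k4⟩ := hmem i hi
    obtain ⟨⟨c, ψ⟩, t⟩ := i
    simp only [fz] at *
    have hβ : 1 * 1 * (34 * (H / R)) ≤ √(2 * R) * Lg * (34 * (H / R)) := by gcongr; linarith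
    by_cases hc : c = 1
    · subst hc
      have k5 := pvt_one (hre t) h1 h2 h3
      rw [hn] at k5
      rw [eta, if_pos ⟨rfl, hM _ hi rfl⟩, sum_congr rfl fun k _ => by
        rw [Subsingleton.elim (k : ZMod 1) 1, map_one, one_mul]]
      linarith
    · have : NeZero c := ⟨by omega⟩
      have k5 := pvt_ne k3 (fun e => hc (by
        rw [← (DirichletCharacter.isPrimitive_def ψ).1 k3, e,
          DirichletCharacter.conductor_one])) (hre t) h1 h2 h3
      rw [hn] at k5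
      rw [eta, if_neg fun e => hc e.1, mul_zero, add_zero]
      have k6 : (c : ℝ) ≤ 2 * R := by exact_mod_cast k2.le
      have k7 : (1 : ℝ) ≤ c := by exact_mod_cast (show 1 ≤ c by omega)
      have k8 := Real.log_le_log (by linarith) k6
      have k9 := Real.log_nonneg k7
      calc _ ≤ 2 * (√(2 * R) * Lg) * (17 * (H / R)) := k5.trans (by gcongr <;> linarith)
        _ = _ := by ring
  · unfold eta
    split_ifs <;> positivity
  · calc (1 : ℝ) ≤ 4 * 1 * 1 * 1 := by norm_num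
      _ ≤ _ := by gcongr <;> linarith

theorem wg_w0 : ∃ L, Wg w0 L := by
  have hz : ∀ x, x ≤ 1 / 4 ∨ 1 ≤ x → w0 x = 0 := fun x hx => bump_eq_zero (by
    rcases hx with h | h
    · exact le_abs.2 (Or.inr (by linarith))
    · exact le_abs.2 (Or.inl (by linarith)))
  have h1 : ContDiff ℝ 1 w0 := by
    have k : ContDiff ℝ 1 fun x : ℝ => 8 * x - 9 / 2 := by fun_prop
    exact (Real.smoothTransition.contDiff.comp ((k.add contDiff_const).add
      contDiff_const)).mul (Real.smoothTransition.contDiff.comp (contDiff_const.sub k))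
  obtain ⟨C, hC⟩ := h1.lipschitzWith_of_hasCompactSupport (HasCompactSupport.intro
    (isCompact_Icc (a := (1 / 4 : ℝ)) (b := 1)) fun x hx => hz x (by
      rw [Set.mem_Icc, not_and_or, not_le, not_le] at hx
      exact hx.imp le_of_lt le_of_lt)) one_ne_zero
  refine ⟨C + 1, fun x => ?_, hz, fun x y => ?_, by linarith [C.coe_nonneg]⟩
  · rw [w0, abs_of_nonneg (bump_mem _ _).1]
    exact (bump_mem _ _).2
  · have := hC.dist_le_mul x y
    rw [Real.dist_eq, Real.dist_eq] at this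
    linarith [abs_nonneg (x - y)]

theorem norm_DD {X : ℝ} (hX : 0 < X) (i : Σ _ : Ch, ℤ) : ‖DD X (cf i.1.2) i.2‖ =
    ‖∑ n ∈ Ioc 0 ⌊X⌋₊, (w0 (n / X) : ℂ) * ((lp n : ℂ) * fz i n)‖ := by
  have e : DD X (cf i.1.2) i.2 = ex i.2 (-Real.log X) *
      ∑ n ∈ Ioc 0 ⌊X⌋₊, (w0 (n / X) : ℂ) * ((lp n : ℂ) * fz i n) := by
    rw [DD, mul_sum]
    refine sum_congr rfl fun n hn => ?_
    have hn0 : (0 : ℝ) < n := by exact_mod_cast (mem_Ioc.1 hn).1
    rw [Real.log_div hn0.ne' hX.ne', sub_eq_add_neg, MP_03e5d0_nt.ex_add, fz, cf, neg_neg,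
      cpow_def_of_ne_zero (by exact_mod_cast hn0.ne'), ← natCast_log, ex]
    rw [show I * ((i.2 : ℝ) : ℂ) * (Real.log n : ℝ) = (Real.log n : ℝ) * (((i.2 : ℝ) : ℂ) * I) by
      ring, ofReal_mul]
    ring
  rw [e, norm_mul, MP_03e5d0_nt.norm_ex, one_mul]

theorem mass_blocks {P H B : ℝ} (hP : 1 ≤ P) (hPH : P ≤ H) (hB : 0 ≤ B)
    (a : (c : ℕ) → DirichletCharacter ℂ c → ℤ → ℂ)
    (h : ∀ (R : ℕ) (A : Finset ℕ), 1 ≤ R → (R : ℝ) ≤ H → A ⊆ Ico R (2 * R) →
      ∑ i ∈ IB A H, ‖a i.1.1 i.1.2 i.2‖ ^ 2 ≤ B) :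
    mass P H a ≤ 2 * (1 + Real.log H) * B := by
  have hN : 1 ≤ ⌊P⌋₊ := Nat.le_floor (by simpa using hP)
  have hNH : (⌊P⌋₊ : ℝ) ≤ H := (Nat.floor_le (by linarith)).trans hPH
  have hpow : ∀ j ≤ Nat.log 2 ⌊P⌋₊, ((2 ^ j : ℕ) : ℝ) ≤ H := fun j hj => le_trans (by
    exact_mod_cast (Nat.pow_le_pow_right two_pos hj).trans (Nat.pow_log_le_self 2 (by omega))) hNH
  rw [mass, ← sum_fiberwise_of_maps_to (t := range (Nat.log 2 ⌊P⌋₊ + 1)) (g := Nat.log 2)
    fun c hc => mem_range.2 (Nat.lt_succ_of_le (Nat.log_mono_right (mem_Icc.1 hc).2))]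
  refine (sum_le_card_nsmul _ _ B fun j hj => ?_).trans ?_
  · refine le_trans (le_of_eq ?_) (h (2 ^ j) ((Icc 1 ⌊P⌋₊).filter fun c => Nat.log 2 c = j)
      Nat.one_le_two_pow (hpow j (Nat.lt_succ_iff.1 (mem_range.1 hj))) fun c hc => ?_)
    · rw [IB, sum_sigma, sum_sigma]
    · obtain ⟨k1, rfl⟩ := mem_filter.1 hc
      have k2 := (mem_Icc.1 k1).1
      exact mem_Ico.2 ⟨Nat.pow_log_le_self 2 (by omega), by
        rw [← pow_succ']; exact Nat.lt_pow_succ_log_self one_lt_two c⟩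
  · rw [card_range, nsmul_eq_mul]
    refine mul_le_mul_of_nonneg_right ?_ hB
    have k1 := Real.log_le_log (by positivity) (hpow _ le_rfl)
    push_cast at k1 ⊢
    rw [Real.log_pow] at k1
    have k2 : (0 : ℝ) ≤ Nat.log 2 ⌊P⌋₊ := Nat.cast_nonneg _
    nlinarith [Real.log_two_gt_d9]

end Pool.Agent.Lib.MP_778b46_nt.MA
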