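import Pool.Agent.Lib.MP_778b46_nt.MA.S3
import Pool.Agent.Lib.MP_778b46_nt.MA.T2
import Pool.Agent.Lib.MP_778b46_nt.GX.As6

set_option autoImplicit false

noncomputable section

namespace Pool.Agent.Lib.MP_778b46_nt.MA

open Complex Finset MeasureTheory
open scoped Real ContDiff
open Pool.Agent.Lib.MP_03e5d0_nt (Sm ex ft bump)
open Pool.Agent.Lib.MP_778b46_nt.GX (Lf Lp)

/-! The major arc theorem for every exponent below `2 / 5`. -/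

/-- As `main`, with `k / 40` replaced by `r = k / K`. -/
theorem main2 {ϑ : ℝ} (hϑ : 0 < ϑ) (hϑ' : ϑ < 2 / 5) : ∃ K : ℝ, 0 < K ∧
    ∀ δ ε : ℝ, 0 < δ → δ ≤ 1 / 40 → 0 < ε →
      ∃ η c C : ℝ, 0 < η ∧ η ≤ ε ∧ η / K ≤ c ∧ 1 ≤ C ∧ ∀ X : ℝ, C ≤ X → ∀ (N : ℕ) [NeZero N],
        N = ⌊X ^ ϑ⌋₊.factorial → ∃ E : Finset ℕ, (E.card : ℝ) ≤ X ^ (1 - ϑ + ε) ∧
          ∀ m : ℕ, Even m → X ≤ m → (m : ℝ) ≤ 5 / 4 * X → m ∉ E → ∃ A : ℝ, X / 16 ≤ A ∧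
            A * (1 - Lo2 C X N (X ^ ϑ) δ (X ^ η) m - Lo1 C X N (X ^ ϑ) δ (X ^ η) -
              X ^ (-c) * (1 + Tot X N (X ^ ϑ) δ (X ^ η)) ^ 2) ≤ RR X m := by
  classical
  obtain ⟨θ, hθ0, hθ⟩ := exists_between hϑ'
  obtain ⟨K, hK, hs⟩ := lw_small hθ
  refine ⟨40 * K, by linarith, fun δ ε hδ hδ' hε => ?_⟩
  obtain ⟨k, hk, hkδ, hkε, hkθ⟩ : ∃ k : ℝ, 0 < k ∧ 100 * k ≤ δ ∧ 100 * k ≤ ε ∧ ϑ + 16 * k ≤ θ := by
    refine ⟨min (min (δ / 100) (ε / 100)) ((θ - ϑ) / 16),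
      lt_min (lt_min (by linarith) (by linarith)) (by linarith), ?_⟩
    have h1 := min_le_left (min (δ / 100) (ε / 100)) ((θ - ϑ) / 16)
    have h2 := min_le_right (min (δ / 100) (ε / 100)) ((θ - ϑ) / 16)
    exact ⟨by linarith [min_le_left (δ / 100) (ε / 100)],
      by linarith [min_le_right (δ / 100) (ε / 100)], by linarith⟩
  obtain ⟨r, hrk⟩ : ∃ r : ℝ, r = k / K := ⟨_, rfl⟩
  have hK0 : 0 < K := by linarith
  have hr0 : 0 < r := by rw [hrk]; positivity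
  have hr : 40 * r ≤ k := by
    rw [hrk, ← mul_div_assoc, div_le_iff₀ hK0, mul_comm k]
    exact mul_le_mul_of_nonneg_right hK hk.le
  have hηK : 16 * k / (40 * K) ≤ 2 * r / 5 := by
    rw [hrk]
    refine le_of_eq ?_
    field_simp
    ring
  obtain ⟨C₀, hC₀, hml⟩ := main_lower
  obtain ⟨X₀, hX₀, hsg⟩ := r1_gen hr0 hr (by linarith) hkθ hθ.le (by
    rw [hrk]
    exact hs k hk (by linarith))
  obtain ⟨Ce, hCe, hef⟩ := ef hδ hδ' hk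
  obtain ⟨Cm, hmm⟩ := minor_ms
  obtain ⟨Cd, hCd, hdv⟩ := MP_2a1a00_nt.card_divisors_le k hk
  have hg : 0 < 2 * r / 45 := by linarith
  obtain ⟨X₁, e1⟩ := s3_ev 2 0 hϑ
  obtain ⟨X₂, e2⟩ := s3_ev 64 0 hg
  obtain ⟨X₃, e3⟩ := s3_ev (2 * Cm) 9 hg
  obtain ⟨X₄, e4⟩ := s3_ev (4 * Cd) 0 hg
  obtain ⟨X₅, e5⟩ := s3_ev (8 * C₀ * Ce) 2 hg
  obtain ⟨X₆, e6⟩ := s3_ev (4 * C₀) 0 hg
  obtain ⟨C, c0, c1, c2, c3, c4, c5, c6, c7⟩ : ∃ C : ℝ, C₀ ≤ C ∧ X₀ ≤ C ∧ X₁ ≤ C ∧ X₂ ≤ C ∧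
      X₃ ≤ C ∧ X₄ ≤ C ∧ X₅ ≤ C ∧ X₆ ≤ C := by
    refine ⟨|C₀| + |X₀| + |X₁| + |X₂| + |X₃| + |X₄| + |X₅| + |X₆|, ?_⟩
    have := abs_nonneg C₀
    have := abs_nonneg X₀
    have := abs_nonneg X₁
    have := abs_nonneg X₂
    have := abs_nonneg X₃
    have := abs_nonneg X₄
    have := abs_nonneg X₅
    have := abs_nonneg X₆
    refine ⟨?_, ?_, ?_, ?_, ?_, ?_, ?_, ?_⟩ <;> refine (le_abs_self _).trans ?_ <;> linarith
  refine ⟨16 * k, 2 * r / 5, C, by linarith, by linarith, hηK, hC₀.trans c0,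
    fun X hX N _ hN => ?_⟩
  have hX2 : 2 ≤ X := hX₀.trans (c1.trans hX)
  have hX1 : 1 ≤ X := by linarith
  have hX0 : 0 < X := by linarith
  replace e1 := e1 X (c2.trans hX)
  replace e2 := e2 X (c3.trans hX)
  replace e3 := e3 X (c4.trans hX)
  replace e4 := e4 X (c5.trans hX)
  replace e5 := e5 X (c6.trans hX)
  replace e6 := e6 X (c7.trans hX)
  rw [pow_zero, mul_one] at e1 e2 e4 e6
  have mono : ∀ {a b : ℝ}, a ≤ b → X ^ a ≤ X ^ b := fun h =>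
    Real.rpow_le_rpow_of_exponent_le hX1 h
  have add : ∀ a b : ℝ, X ^ a * X ^ b = X ^ (a + b) := fun a b => (Real.rpow_add hX0 a b).symm
  have one : ∀ {a : ℝ}, 0 ≤ a → 1 ≤ X ^ a := fun h => Real.one_le_rpow hX1 h
  have top : ∀ {a : ℝ}, a ≤ 1 → X ^ a ≤ X := fun h => (mono h).trans (Real.rpow_one X).le
  have pos : ∀ a : ℝ, 0 < X ^ a := fun a => Real.rpow_pos_of_pos hX0 a
  have two : X ^ 2 = X ^ (2 : ℝ) := (Real.rpow_two X).symm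
  have hlog : 0 ≤ Real.log X ^ 2 := sq_nonneg _
  obtain ⟨B, hB1, hB2, hB3, hB⟩ := hsg X (X ^ ϑ) N (c1.trans hX) e1 le_rfl hN
  have hT₁ : 1 ≤ X ^ (15 * k) := one (by linarith)
  have h4P : 4 * X ^ ϑ ≤ X := by
    refine (s3_key hX1 (le_trans (by norm_num) e2) (b := 1) (by linarith)).trans
      (Real.rpow_one X).le
  set E₁ : Finset ℕ := (Icc 1 ⌊2 * X⌋₊).filter fun m : ℕ =>
    X ^ (1 - 4 * r / 9) < ‖(RR X m : ℂ) - R1 X (X ^ ϑ) (X ^ ϑ * X ^ (15 * k)) m‖ with hE₁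
  set E₂ : Finset ℕ := (Icc 1 ⌊2 * X⌋₊).filter fun m : ℕ => ∃ χ ∈ B, ∃ χ' ∈ B,
    X ^ (-(44 * k)) * X ^ ϑ < (Nat.gcd (Nat.lcm χ.conductor χ'.conductor) m : ℝ) with hE₂
  have b1 : 2 * (E₁.card : ℝ) ≤ X ^ (1 - ϑ + ε) := by
    have a1 := hmm X (X ^ ϑ) (X ^ ϑ * X ^ (15 * k)) hX2 (one hϑ.le)
      (le_mul_of_one_le_right (pos _).le hT₁) (by rw [add, add]; exact top (by linarith))
      (mono (by linarith)) E₁
    have a2 := (s3_cheb (S := E₁) (pos _).le fun m hm => (mem_filter.1 hm).2).trans a1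
    have a3 : X ^ 3 / X ^ ϑ = X ^ (1 - ϑ + 8 * r / 9) * (X ^ (1 - 4 * r / 9)) ^ 2 := by
      rw [sq, add, add, div_eq_iff (pos _).ne', add, ← Real.rpow_natCast]
      congr 1
      push_cast
      ring
    have a4 : Cm * X ^ 3 / X ^ ϑ * Real.log X ^ 9 =
        Cm * Real.log X ^ 9 * X ^ (1 - ϑ + 8 * r / 9) * (X ^ (1 - 4 * r / 9)) ^ 2 := by
      rw [mul_div_assoc, a3]
      ring
    rw [a4] at a2
    have a5 := le_of_mul_le_mul_right a2 (pow_pos (pos _) 2)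
    have a6 := s3_key hX1 e3 (a := 1 - ϑ + 8 * r / 9) (b := 1 - ϑ + ε) (by linarith)
    linarith
  have b2 : 2 * (E₂.card : ℝ) ≤ X ^ (1 - ϑ + ε) := by
    have a0 : X ^ ϑ * X ^ ϑ ≤ X := by
      rw [add]
      exact top (by linarith)
    have a1 := bad_card B ⌊2 * X⌋₊ (Z := X ^ (-(44 * k)) * X ^ ϑ) (τ := Cd * X ^ k)
      (mul_pos (pos _) (pos _)) fun χ h χ' h' => s3_tu hCd hk hdv a0 (hB2 h) (hB2 h')
    have a2 : (⌊2 * X⌋₊ : ℝ) ≤ 2 * X := Nat.floor_le (by linarith)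
    have a3 : (B.card : ℝ) ^ 2 * (Cd * X ^ k) * ⌊2 * X⌋₊ / (X ^ (-(44 * k)) * X ^ ϑ) ≤
        (X ^ (3 * k)) ^ 2 * (Cd * X ^ k) * (2 * X) / (X ^ (-(44 * k)) * X ^ ϑ) := by
      have := pos k
      gcongr
    have a4 : (X ^ (3 * k)) ^ 2 * (Cd * X ^ k) * (2 * X) / (X ^ (-(44 * k)) * X ^ ϑ) =
        2 * Cd * X ^ (1 - ϑ + 51 * k) := by
      have a5 : X ^ (1 - ϑ + 51 * k) * (X ^ (-(44 * k)) * X ^ ϑ) =
          X ^ (3 * k) * X ^ (3 * k) * X ^ k * X ^ (1 : ℝ) := by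
        simp only [add]
        congr 1
        ring
      rw [div_eq_iff (mul_pos (pos _) (pos _)).ne', mul_assoc (2 * Cd), a5, Real.rpow_one]
      ring
    have a6 := s3_key hX1 e4 (a := 1 - ϑ + 51 * k) (b := 1 - ϑ + ε) (by linarith)
    have a7 : (E₂.card : ℝ) ≤ 2 * Cd * X ^ (1 - ϑ + 51 * k) := by
      rw [← a4]
      refine le_trans (le_of_eq ?_) (a1.trans a3)
      rw [hE₂]
    linarith
  refine ⟨E₁ ∪ E₂, ?_, fun m hm h1 h2 hE => ?_⟩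
  · have : ((E₁ ∪ E₂).card : ℝ) ≤ E₁.card + E₂.card := by exact_mod_cast card_union_le E₁ E₂
    linarith
  have hm1 : 1 ≤ m := by exact_mod_cast hX1.trans h1
  have hm2 : (m : ℝ) ≤ 2 * X := by linarith
  have hmem : m ∈ Icc 1 ⌊2 * X⌋₊ := mem_Icc.2 ⟨hm1, Nat.le_floor hm2⟩
  rw [mem_union, not_or] at hE
  have g1 : ‖(RR X m : ℂ) - R1 X (X ^ ϑ) (X ^ ϑ * X ^ (15 * k)) m‖ ≤ X ^ (1 - 4 * r / 9) :=
    not_lt.1 fun h => hE.1 (mem_filter.2 ⟨hmem, h⟩)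
  have g2 := hB m hm1 hm2 fun χ h χ' h' =>
    not_lt.1 fun h'' => hE.2 (mem_filter.2 ⟨hmem, χ, h, χ', h', h''⟩)
  have g3 := s3_re (D := X ^ (2 - 4 * r / 9)) hX0 (by
    refine (mul_le_mul_of_nonneg_left g1 hX0.le).trans (le_of_eq ?_)
    rw [show 2 - 4 * r / 9 = 1 + (1 - 4 * r / 9) by ring, ← add, Real.rpow_one]) g2
  set F : ℝ := Ce * X ^ (1 - δ) * (X ^ (16 * k)) ^ 2 * Real.log X ^ 2 with hF
  have hF0 : 0 ≤ F := by
    have := pos (1 - δ)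
    positivity
  have hF1 : F = Ce * Real.log X ^ 2 * X ^ (1 - δ + 32 * k) := by
    rw [hF, show 1 - δ + 32 * k = 1 - δ + (16 * k + 16 * k) by ring, ← add, ← add]
    ring
  have hF2 : F ≤ X := by
    have a1 : Ce * Real.log X ^ 2 ≤ X ^ (2 * r / 45) := by
      refine le_trans ?_ e5
      refine mul_le_mul_of_nonneg_right (le_mul_of_one_le_left hCe ?_) hlog
      linarith only [hC₀]
    rw [hF1]
    exact (s3_key hX1 a1 (b := 1) (by linarith)).trans (Real.rpow_one X).le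
  have g4 := hml C X (X ^ ϑ) δ (X ^ (15 * k)) (X ^ (16 * k)) F m N B c0 hX1 hδ (by linarith) hT₁
    hF0 hm h1 h2 hB1 hB2 fun χ hχ y hy => hef X (X ^ (15 * k)) (X ^ (16 * k)) y N χ hX2 hT₁
      (by rw [add]; exact mono (by linarith)) (top (by linarith))
      (le_trans (mem_filter.1 (hB2 hχ)).2 (top (by linarith))) hy
      fun n hn hn' => hN ▸ coprime_fact (pos _).le h4P hn hn'
  have hS := S0_ge (N := N) (NeZero.pos N) hm
  have hI : 1 / 8 ≤ I0 w1 (m / X) :=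
    I0_ge (by rwa [le_div_iff₀ hX0, one_mul]) (by rwa [div_le_iff₀ hX0])
  have hT := s3_tot hX0.le N (X ^ ϑ) δ (X ^ (16 * k))
  have hY : X ^ 2 * X ^ (-(2 * r / 5)) = X ^ (2 - 2 * r / 5) := by
    rw [two, add, sub_eq_add_neg]
  refine ⟨X * S0 N m * I0 w1 (m / X), ?_,
    s3_fin hX0 (pos _).le hS hI (one_le_pow₀ (by linarith)) g4 g3 ?_ ?_ ?_⟩
  · have : 1 / 2 * (1 / 8) ≤ S0 N m * I0 w1 (m / X) :=
      mul_le_mul hS hI (by norm_num) (by linarith only [hS])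
    have := mul_le_mul_of_nonneg_left this hX0.le
    linarith only [this]
  · have a1 : (B.card : ℝ) ^ 2 * (X ^ (15 * k) * F * (X + F)) ≤
        (X ^ (3 * k)) ^ 2 * (X ^ (15 * k) * F * (X + X)) := by
      gcongr
    have a2 : X ^ (2 - δ + 53 * k) =
        X ^ (3 * k) * X ^ (3 * k) * X ^ (15 * k) * X ^ (1 - δ + 32 * k) * X ^ (1 : ℝ) := by
      simp only [add]
      congr 1
      ring
    have a3 := s3_key hX1 e5 (a := 2 - δ + 53 * k) (b := 2 - 2 * r / 5) (by linarith)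
    rw [hY]
    refine le_trans ?_ a3
    rw [a2, Real.rpow_one]
    refine (mul_le_mul_of_nonneg_left (mul_le_mul_of_nonneg_left a1 (by linarith))
      (by norm_num)).trans (le_of_eq ?_)
    rw [hF1]
    ring
  · rw [← Real.rpow_mul hX0.le, ← mul_assoc]
    exact s3_key hX1 e6 (by linarith)
  · rw [hY]
    exact s3_key hX1 e2 (by linarith)

end Pool.Agent.Lib.MP_778b46_nt.MA

namespace Pool.Agent.Lib.MP_778b46_nt.GX

/-- The circle method for every exponent below `2 / 5`. -/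
theorem ma_all {ϑ : ℝ} (h0 : 0 < ϑ) (h1 : ϑ < 2 / 5) : MA ϑ := by
  obtain ⟨K, hK, h⟩ := MA.main2 h0 h1
  exact ma_of_sets hK h

end Pool.Agent.Lib.MP_778b46_nt.GX
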