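import Pool.Agent.Lib.MP_778b46_nt.MA.O6
import Pool.Agent.Lib.MP_778b46_nt.MA.F4

set_option autoImplicit false

noncomputable section

namespace Pool.Agent.Lib.MP_778b46_nt.MA

open Complex Finset MeasureTheory
open scoped Real ContDiff
open Pool.Agent.Lib.MP_03e5d0_nt (Sm ex ft bump)
open Pool.Agent.Lib.MP_778b46_nt.GX (Lf Lp)

/-! The bilinear form on the arcs. -/

variable {N : ℕ} [NeZero N]

theorem AR_cont (q c : ℕ) (T : ℝ) (a : DirichletCharacter ℂ N → ℤ → ℂ) :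
    Continuous (AR q c T a) := by
  unfold AR
  exact continuous_const.mul (continuous_finsetSum _ fun t _ =>
    (mm_cont wt_w0 _).mul continuous_const)

theorem b1_dd {X P : ℝ} (hX : 0 < X) (hP : 0 ≤ P) (h4 : 4 * P ≤ X)
    (hN : N = ⌊P⌋₊.factorial) {q : ℕ} (hq : q ∈ Icc 1 ⌊P⌋₊) (c : ℕ) (t : ℤ) :
    DD X (ac q c) t = ∑ χ : DirichletCharacter ℂ N, gc χ q c * dd X χ t := by
  have hqN : q ∣ N := by
    rw [hN]
    exact Nat.dvd_factorial (mem_Icc.1 hq).1 (mem_Icc.1 hq).2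
  rw [DD_congr hX (g := fun n => ∑ χ : DirichletCharacter ℂ N, gc χ q c * cf χ n)
    (fun n hn hn' => expand hqN c (hN ▸ coprime_fact hP h4 hn hn')), DD_sum]
  rfl

theorem b1_card (q : ℕ) : (cop q).card ≤ q :=
  (card_filter_le _ _).trans (card_range q).le

/-- On each arc `jj_trunc` with `f = g = ac q c`, `T = H₀ / q`, `T' = H / q`; by `DD_congr`,
`coprime_fact`, `expand`, `DD_sum`: `DD X (ac q c) t = ∑ χ, gc χ q c * dd X χ t`. There are at
most `P ^ 2` arcs. -/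
theorem r1_bb {κ : ℝ} (hκ : 0 < κ) : ∃ C : ℝ, 0 ≤ C ∧ ∀ (X P H₀ H : ℝ) (m N : ℕ) [NeZero N],
    2 ≤ X → 1 ≤ P → 4 * P ≤ X → P ≤ H₀ → H₀ ≤ X → H₀ * X ^ κ ≤ H → N = ⌊P⌋₊.factorial →
    ‖2 * π * X * R1 X P H₀ m -
      BB X P H m (fun q => H₀ / q) (dd X : DirichletCharacter ℂ N → ℤ → ℂ) (dd X)‖ ≤
      C * P ^ 2 := by
  obtain ⟨C, hC, h⟩ := jj_trunc hκ
  refine ⟨C, hC, fun X P H₀ H m N _ hX hP h4 hH₀ hHX hH hN => ?_⟩
  have hX0 : 0 < X := by linarith
  have hP0 : 0 ≤ P := by linarith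
  have hne : (2 * π * X : ℂ) ≠ 0 :=
    mul_ne_zero (mul_ne_zero two_ne_zero (ofReal_ne_zero.2 Real.pi_ne_zero))
      (ofReal_ne_zero.2 hX0.ne')
  unfold R1 BB
  rw [mul_inv_cancel_left₀ hne, ← sum_sub_distrib]
  refine (norm_sum_le _ _).trans ((sum_le_card_nsmul _ _ (P * C) fun q hq => ?_).trans ?_)
  · have hq1 : (1 : ℝ) ≤ q := by exact_mod_cast (mem_Icc.1 hq).1
    have hqP : (q : ℝ) ≤ P := (Nat.cast_le.2 (mem_Icc.1 hq).2).trans (Nat.floor_le hP0)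
    have hq0 : (0 : ℝ) < q := by linarith
    rw [← sum_sub_distrib]
    refine (norm_sum_le _ _).trans ((sum_le_card_nsmul _ _ C fun c _ => ?_).trans ?_)
    · rw [← mul_sub, norm_mul, norm_ee, one_mul]
      have := h X (H₀ / q) (H / q) m (ac q c) (ac q c) hX
        (by rw [le_div_iff₀ hq0]; linarith)
        ((div_le_self (by linarith) hq1).trans hHX)
        (by rw [div_mul_eq_mul_div]; exact div_le_div_of_nonneg_right hH hq0.le)
        (norm_ac q c) (norm_ac q c)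
      simp only [b1_dd hX0 hP0 h4 hN hq] at this
      exact this
    · rw [nsmul_eq_mul]
      exact mul_le_mul_of_nonneg_right ((Nat.cast_le.2 (b1_card q)).trans hqP) hC
  · rw [nsmul_eq_mul, Nat.card_Icc, Nat.add_sub_cancel]
    have := Nat.floor_le hP0
    calc (⌊P⌋₊ : ℝ) * (P * C) ≤ P * (P * C) := by gcongr
      _ = C * P ^ 2 := by ring

theorem b1_exch {ι κ σ : Type} [Fintype κ] (A : Finset ι) (S : Finset σ) (e : ι → ℂ) (k : ℂ)
    (g : κ → ι → ℂ) (p : σ → σ → ℂ) (a b : κ → σ → ℂ) :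
    ∑ c ∈ A, e c * ∑ t ∈ S, ∑ t' ∈ S,
      p t t' * ((k * ∑ x, g x c * a x t) * (k * ∑ y, g y c * b y t')) =
    k ^ 2 * ∑ x, ∑ y, (∑ c ∈ A, e c * g x c * g y c) *
      ∑ t ∈ S, ∑ t' ∈ S, p t t' * (a x t * b y t') := by
  have h1 : ∀ c, ∑ t ∈ S, ∑ t' ∈ S,
      p t t' * ((k * ∑ x, g x c * a x t) * (k * ∑ y, g y c * b y t')) =
      ∑ x, ∑ y, k ^ 2 * (g x c * g y c) * ∑ t ∈ S, ∑ t' ∈ S, p t t' * (a x t * b y t') := by
    intro c
    calc _ = ∑ t ∈ S, ∑ t' ∈ S, ∑ x, ∑ y,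
          k ^ 2 * (g x c * g y c) * (p t t' * (a x t * b y t')) := by
          refine sum_congr rfl fun t _ => sum_congr rfl fun t' _ => ?_
          rw [mul_mul_mul_comm, sum_mul_sum, mul_sum, mul_sum]
          refine sum_congr rfl fun x _ => ?_
          rw [mul_sum, mul_sum]
          exact sum_congr rfl fun y _ => by ring
      _ = ∑ t ∈ S, ∑ x, ∑ y, ∑ t' ∈ S,
          k ^ 2 * (g x c * g y c) * (p t t' * (a x t * b y t')) := by
          refine sum_congr rfl fun t _ => ?_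
          rw [sum_comm]
          exact sum_congr rfl fun x _ => sum_comm
      _ = ∑ x, ∑ y, ∑ t ∈ S, ∑ t' ∈ S,
          k ^ 2 * (g x c * g y c) * (p t t' * (a x t * b y t')) := by
          rw [sum_comm]
          exact sum_congr rfl fun x _ => sum_comm
      _ = _ := by simp only [mul_sum]
  simp only [h1]
  simp only [mul_sum (s := univ)]
  rw [sum_comm]
  refine sum_congr rfl fun x _ => ?_
  rw [sum_comm]
  refine sum_congr rfl fun y _ => ?_
  rw [sum_mul, mul_sum]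
  exact sum_congr rfl fun c _ => by ring

/-- `bil_ps` on each arc, then exchange the sums; the sum over `c` is `ww`. -/
theorem bb_ps (X P H : ℝ) (m : ℕ) {W : ℕ → ℝ} (hW : ∀ q ∈ Icc 1 ⌊P⌋₊, 0 < W q)
    (a b : DirichletCharacter ℂ N → ℤ → ℂ) :
    BB X P H m W a b = (2 * π : ℂ)⁻¹ ^ 2 * ∑ q ∈ Icc 1 ⌊P⌋₊, ∑ χ, ∑ χ', ww q m χ χ' *
      ∑ t ∈ II (H / q), ∑ t' ∈ II (H / q),
        PS w0 (W q) (m / X) (-(I * t)) (-(I * t')) * (a χ t * b χ' t') := by
  unfold BB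
  rw [mul_sum]
  refine sum_congr rfl fun q hq => ?_
  unfold ww
  rw [← b1_exch (cop q) (II (H / q)) (fun c => ee (-(m * c / q))) (2 * π : ℂ)⁻¹
    (fun χ c => gc χ q c) (fun t t' => PS w0 (W q) (m / X) (-(I * t)) (-(I * t'))) a b]
  refine sum_congr rfl fun c _ => ?_
  rw [← bil_ps wt_w0 (II (H / q)) (II (H / q)) (fun t : ℤ => -(I * t))
    (fun t => (2 * π : ℂ)⁻¹ * ∑ χ, gc χ q c * a χ t) (fun t : ℤ => -(I * t))
    (fun t => (2 * π : ℂ)⁻¹ * ∑ χ, gc χ q c * b χ t) (hW q hq) (m / X)]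
  have h : ∀ (a : DirichletCharacter ℂ N → ℤ → ℂ) (y : ℝ), AR q c (H / q) a y =
      ∑ t ∈ II (H / q), MM w0 y (-(I * t)) * ((2 * π : ℂ)⁻¹ * ∑ χ, gc χ q c * a χ t) := by
    intro a y
    unfold AR
    rw [mul_sum]
    exact sum_congr rfl fun t _ => by ring
  simp only [h]

/-- From `bb_ps`. -/
theorem bb_sub (X P H : ℝ) (m : ℕ) {W : ℕ → ℝ} (hW : ∀ q ∈ Icc 1 ⌊P⌋₊, 0 < W q)
    (a b : DirichletCharacter ℂ N → ℤ → ℂ) :
    BB X P H m W a a - BB X P H m W b b =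
      BB X P H m W (a - b) a + BB X P H m W b (a - b) := by
  simp only [bb_ps X P H m hW]
  rw [← mul_sub, ← mul_add, ← sum_sub_distrib, ← sum_add_distrib]
  congr 1
  refine sum_congr rfl fun q _ => ?_
  rw [← sum_sub_distrib, ← sum_add_distrib]
  refine sum_congr rfl fun χ _ => ?_
  rw [← sum_sub_distrib, ← sum_add_distrib]
  refine sum_congr rfl fun χ' _ => ?_
  rw [← mul_sub, ← mul_add, ← sum_sub_distrib, ← sum_add_distrib]
  congr 1
  refine sum_congr rfl fun t _ => ?_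
  rw [← sum_sub_distrib, ← sum_add_distrib]
  refine sum_congr rfl fun t' _ => ?_
  simp only [Pi.sub_apply]
  ring

end Pool.Agent.Lib.MP_778b46_nt.MA
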