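import Pool.Agent.Lib.MP_778b46_nt.MA.B3

set_option autoImplicit false

noncomputable section

namespace Pool.Agent.Lib.MP_778b46_nt.MA

open Complex Finset MeasureTheory
open scoped Real ContDiff
open Pool.Agent.Lib.MP_03e5d0_nt (Sm ex ft bump)
open Pool.Agent.Lib.MP_778b46_nt.GX (Lf Lp)

/-! Reduction to narrow arcs and to the large characters. -/

/-- `bb_sub`, `bb_l2`. -/
theorem bb_near : ∃ C : ℝ, 0 ≤ C ∧ ∀ (X P H Λ A α : ℝ) (m N : ℕ) [NeZero N] (W : ℕ → ℝ)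
    (a b : DirichletCharacter ℂ N → ℤ → ℂ), 1 ≤ P → 0 ≤ H → N = ⌊P⌋₊.factorial → Rat0 N Λ →
    (∀ q ∈ Icc 1 ⌊P⌋₊, 0 < W q) → 0 ≤ A → 0 ≤ α → nsq P H a ≤ A ^ 2 → nsq P H b ≤ A ^ 2 →
    nsq P H (a - b) ≤ α ^ 2 →
    ‖BB X P H m W a a - BB X P H m W b b‖ ≤ C * Λ * (1 + Real.log P) * (α * A) := by
  obtain ⟨C, hC, h⟩ := bb_l2
  refine ⟨2 * C, by positivity, fun X P H Λ A α m N _ W a b hP hH hN hR hW hA hα ha hb hab => ?_⟩
  have hΛ := hR.one_le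
  have hl := Real.log_nonneg hP
  have h0 : 0 ≤ C * Λ * (1 + Real.log P) := by positivity
  have s1 : √(nsq P H a) ≤ A := Real.sqrt_le_iff.2 ⟨hA, ha⟩
  have s2 : √(nsq P H b) ≤ A := Real.sqrt_le_iff.2 ⟨hA, hb⟩
  have s3 : √(nsq P H (a - b)) ≤ α := Real.sqrt_le_iff.2 ⟨hα, hab⟩
  have h1 := (h X P H Λ m N W (a - b) a hP hH hN hR).trans
    (mul_le_mul_of_nonneg_left (mul_le_mul s3 s1 (Real.sqrt_nonneg _) hα) h0)
  have h2 := (h X P H Λ m N W b (a - b) hP hH hN hR).trans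
    (mul_le_mul_of_nonneg_left (mul_le_mul s2 s3 (Real.sqrt_nonneg _) hA) h0)
  rw [bb_sub X P H m hW]
  refine (norm_add_le _ _).trans ?_
  linarith

/-- `bb_near` with `b = res B a`. -/
theorem bb_res : ∃ C : ℝ, 0 ≤ C ∧ ∀ (X P H Λ A α Y : ℝ) (m N : ℕ) [NeZero N] (W : ℕ → ℝ)
    (a : DirichletCharacter ℂ N → ℤ → ℂ) (B : Finset (DirichletCharacter ℂ N)),
    1 ≤ P → 0 ≤ H → N = ⌊P⌋₊.factorial → Rat0 N Λ → (∀ q ∈ Icc 1 ⌊P⌋₊, 0 < W q) →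
    0 ≤ A → 0 ≤ α → nsq P H a ≤ A ^ 2 → nsq P H (fun χ t => sml Y (a χ t)) ≤ α ^ 2 →
    (∀ χ ∈ CH N P, χ ∉ B → ∀ t ∈ II (H / χ.conductor), ‖a χ t‖ ≤ Y) →
    ‖BB X P H m W a a - BB X P H m W (res B a) (res B a)‖ ≤
      C * Λ * (1 + Real.log P) * (α * A) := by
  obtain ⟨C, hC, h⟩ := bb_near
  refine ⟨C, hC, fun X P H Λ A α Y m N _ W a B hP hH hN hR hW hA hα ha hs hY =>
    h X P H Λ A α m N W a (res B a) hP hH hN hR hW hA hα ha (le_trans ?_ ha) (le_trans ?_ hs)⟩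
  · refine sum_le_sum fun χ _ => sum_le_sum fun t _ => ?_
    unfold res
    split_ifs
    · exact le_rfl
    · rw [norm_zero, zero_pow two_ne_zero]
      exact sq_nonneg _
  · refine sum_le_sum fun χ hχ => sum_le_sum fun t ht => ?_
    rw [Pi.sub_apply, Pi.sub_apply]
    unfold res
    split_ifs with hB
    · rw [sub_self, norm_zero, zero_pow two_ne_zero]
      exact sq_nonneg _
    · simp only [sub_zero, sml, if_pos (hY χ hχ hB t ht), le_refl]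

/-- `χ ↦ ⟨conductor, primitiveCharacter⟩` is injective (`MP_c03ca8_nt.Q.char_inj`, compare
`sum_char_le`); `DD_congr` with `coprime_fact` and `char_eq_prim`. -/
theorem nsq_le_mass {X P : ℝ} (H : ℝ) (hX : 0 < X) (hP : 0 ≤ P) (h4 : 4 * P ≤ X) {N : ℕ} [NeZero N]
    (hN : N = ⌊P⌋₊.factorial) (F : ℂ → ℂ) :
    nsq P H (fun (χ : DirichletCharacter ℂ N) t => F (dd X χ t)) ≤
      mass P H fun _ ψ t => F (DD X (cf ψ) t) := by
  classical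
  have e : ∀ (χ : DirichletCharacter ℂ N) (t : ℤ), dd X χ t = DD X (cf χ.primitiveCharacter) t :=
    fun χ t => DD_congr hX (fun n hn hn' => by
      have h1 : Nat.Coprime n N := hN ▸ coprime_fact hP h4 hn hn'
      unfold cf
      rw [MP_c03ca8_nt.Q.char_eq_prim, if_pos h1]) t
  unfold nsq mass
  simp only [e]
  rw [sum_sigma' (Icc 1 ⌊P⌋₊) MP_c03ca8_nt.Q.prim
    fun c ψ => ∑ t ∈ II (H / c), ‖F (DD X (cf ψ) t)‖ ^ 2]
  have h1 := sum_image (s := CH N P) (g := fun χ : DirichletCharacter ℂ N =>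
      (⟨χ.conductor, χ.primitiveCharacter⟩ : Σ c : ℕ, DirichletCharacter ℂ c))
    (f := fun x : (Σ c : ℕ, DirichletCharacter ℂ c) =>
      ∑ t ∈ II (H / x.1), ‖F (DD X (cf x.2) t)‖ ^ 2)
    fun χ _ χ' _ h => MP_c03ca8_nt.Q.char_inj χ χ' h
  rw [← h1]
  refine sum_le_sum_of_subset_of_nonneg ?_ fun x _ _ => sum_nonneg fun t _ => sq_nonneg _
  intro x hx
  obtain ⟨χ, hχ, rfl⟩ := mem_image.1 hx
  refine mem_sigma.2 ⟨mem_Icc.2 ⟨Nat.pos_of_ne_zero χ.conductor_ne_zero,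
    Nat.le_floor (mem_filter.1 hχ).2⟩, ?_⟩
  unfold MP_c03ca8_nt.Q.prim
  exact mem_filter.2 ⟨mem_univ _, χ.primitiveCharacter_isPrimitive⟩

/-- Take the principal character and the characters of `CH N P` with a value of norm `> Y`. -/
theorem exists_large {N : ℕ} [NeZero N] {P H A Y : ℝ} (hP : 1 ≤ P) (hY : 0 < Y)
    (a : DirichletCharacter ℂ N → ℤ → ℂ) (hA : nsq P H a ≤ A ^ 2) :
    ∃ B : Finset (DirichletCharacter ℂ N), 1 ∈ B ∧ B ⊆ CH N P ∧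
      (B.card : ℝ) ≤ 1 + A ^ 2 / Y ^ 2 ∧
      ∀ χ ∈ CH N P, χ ∉ B → ∀ t ∈ II (H / χ.conductor), ‖a χ t‖ ≤ Y := by
  classical
  obtain ⟨L, hL⟩ : ∃ L : Finset (DirichletCharacter ℂ N), ∀ χ, χ ∈ L ↔
      χ ∈ CH N P ∧ ∃ t ∈ II (H / χ.conductor), Y < ‖a χ t‖ :=
    ⟨(CH N P).filter fun χ => ∃ t ∈ II (H / χ.conductor), Y < ‖a χ t‖, fun χ => mem_filter⟩
  have h1 : (L.card : ℝ) * Y ^ 2 ≤ A ^ 2 := by
    refine le_trans ?_ hA
    rw [← nsmul_eq_mul, ← sum_const]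
    refine (sum_le_sum fun χ hχ => ?_).trans (sum_le_sum_of_subset_of_nonneg
      (fun χ hχ => ((hL χ).1 hχ).1) fun χ _ _ => sum_nonneg fun t _ => sq_nonneg _)
    obtain ⟨t, ht, h⟩ := ((hL χ).1 hχ).2
    exact (pow_le_pow_left₀ hY.le h.le 2).trans
      (single_le_sum (f := fun t => ‖a χ t‖ ^ 2) (fun t _ => sq_nonneg _) ht)
  refine ⟨insert 1 L, mem_insert_self _ _, insert_subset ?_ fun χ hχ => ((hL χ).1 hχ).1, ?_,
    fun χ hχ hB t ht => ?_⟩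
  · refine mem_filter.2 ⟨mem_univ _, ?_⟩
    rw [DirichletCharacter.conductor_one, Nat.cast_one]
    exact hP
  · have h2 : ((insert 1 L).card : ℝ) ≤ L.card + 1 := by exact_mod_cast card_insert_le _ _
    have h3 : (L.card : ℝ) ≤ A ^ 2 / Y ^ 2 := (le_div_iff₀ (by positivity)).2 h1
    linarith
  · by_contra h
    exact hB (mem_insert_of_mem ((hL χ).2 ⟨hχ, t, ht, not_le.1 h⟩))

end Pool.Agent.Lib.MP_778b46_nt.MA
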