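import Pool.Agent.Lib.MP_778b46_nt.MA.O2
import Pool.Agent.Lib.MP_ecd12e_nt.GM.Pars

set_option autoImplicit false

noncomputable section

namespace Pool.Agent.Lib.MP_778b46_nt.MA

open Complex Finset MeasureTheory
open scoped Real ContDiff
open Pool.Agent.Lib.MP_03e5d0_nt (Sm ex ft bump)
open Pool.Agent.Lib.MP_778b46_nt.GX (Lf Lp)

/-! Plancherel. -/

/-- Plancherel for a smooth function of compact support. -/
theorem o7_planch {g : ℝ → ℂ} (h1 : HasCompactSupport g) (h2 : ContDiff ℝ ∞ g) :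
    Integrable (fun y : ℝ => ‖∫ x : ℝ, g x * ex y x‖ ^ 2) ∧
      ∫ y : ℝ, ‖∫ x : ℝ, g x * ex y x‖ ^ 2 = 2 * π * ∫ x : ℝ, ‖g x‖ ^ 2 := by
  obtain ⟨G, hG⟩ : ∃ G : SchwartzMap ℝ ℂ, ⇑G = g := ⟨h1.toSchwartzMap h2, rfl⟩
  have hc : (-(2 * π)⁻¹ : ℝ) ≠ 0 := neg_ne_zero.2 (inv_ne_zero (by positivity))
  have key : ∀ y : ℝ, ∫ x : ℝ, g x * ex y x =
      (FourierTransform.fourier G : SchwartzMap ℝ ℂ) (-(2 * π)⁻¹ * y) := by
    intro y
    rw [SchwartzMap.fourier_coe, Real.fourier_real_eq_integral_exp_smul, hG]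
    refine integral_congr_ae (Filter.Eventually.of_forall fun x => ?_)
    have e : -2 * π * x * (-(2 * π)⁻¹ * y) = y * x := by
      field_simp
    simp only [smul_eq_mul, ex]
    rw [e, mul_comm]
    congr 2
    push_cast
    ring
  simp_rw [key]
  constructor
  · exact (((FourierTransform.fourier G : SchwartzMap ℝ ℂ).memLp 2).integrable_norm_pow
      two_ne_zero).comp_mul_left' hc
  · rw [Measure.integral_comp_mul_left
      (fun ξ => ‖(FourierTransform.fourier G : SchwartzMap ℝ ℂ) ξ‖ ^ 2),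
      SchwartzMap.integral_norm_sq_fourier, hG, inv_neg, inv_inv, abs_neg,
      abs_of_pos (by positivity), smul_eq_mul]

theorem o7_eval (S : Finset ℤ) (a : ℤ → ℂ) (θ : ℝ) :
    ∑ t ∈ S, gs w0 (-(I * t)) (Real.exp (-θ)) * a t =
      (w0 (Real.exp (-θ)) : ℂ) * (Real.exp θ : ℝ) * MP_ecd12e_nt.GM.tp S a θ := by
  rw [MP_ecd12e_nt.GM.tp, Finset.mul_sum]
  refine Finset.sum_congr rfl fun t _ => ?_
  rw [gs, Real.log_exp, MP_ecd12e_nt.Bar.ei, Complex.ofReal_exp,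
    show (-(I * t) - 1) * ((-θ : ℝ) : ℂ) = θ + ((t * θ : ℝ) : ℂ) * I by push_cast; ring,
    Complex.exp_add]
  ring

theorem o7_norm (S : Finset ℤ) (a : ℤ → ℂ) :
    ∫ x : ℝ, ‖∑ t ∈ S, gs w0 (-(I * t)) x * a t‖ ^ 2 ≤
      Real.exp 2 * (2 * π * ∑ t ∈ S, ‖a t‖ ^ 2) := by
  have hc : Continuous fun x : ℝ => ‖∑ t ∈ S, gs w0 (-(I * t)) x * a t‖ ^ 2 :=
    (continuous_finsetSum _ fun t _ =>
      (gs_smooth wt_w0 _).continuous.mul continuous_const).norm.pow 2
  have h4 : Real.exp (-2) ≤ 1 / 4 := by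
    have h1 : (2 : ℝ) ≤ Real.exp 1 := by linarith [Real.add_one_le_exp (1 : ℝ)]
    have h2 : Real.exp 2 = Real.exp 1 * Real.exp 1 := by rw [← Real.exp_add]; norm_num
    rw [Real.exp_neg, one_div]
    exact inv_anti₀ (by norm_num) (by nlinarith)
  have e1 : ∫ x : ℝ, ‖∑ t ∈ S, gs w0 (-(I * t)) x * a t‖ ^ 2 =
      ∫ x in Real.exp (-2)..Real.exp (-0), ‖∑ t ∈ S, gs w0 (-(I * t)) x * a t‖ ^ 2 := by
    refine (intervalIntegral.integral_eq_integral_of_support_subset fun x hx => ?_).symm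
    by_contra hx'
    refine hx ?_
    have h5 : x ≤ 1 / 4 ∨ 1 ≤ x := by
      rw [neg_zero, Real.exp_zero, Set.mem_Ioc, not_and_or, not_lt, not_le] at hx'
      exact hx'.imp (fun h => h.trans h4) le_of_lt
    simp only [gs_zero wt_w0 _ h5, zero_mul, Finset.sum_const_zero, norm_zero]
    norm_num
  have e2 := intervalIntegral.integral_comp_mul_deriv (a := 2) (b := 0)
    (f := fun θ : ℝ => Real.exp (-θ)) (f' := fun θ : ℝ => -Real.exp (-θ))
    (fun θ _ => by simpa using (hasDerivAt_neg θ).exp) (by fun_prop) hc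
  rw [e1, ← e2, intervalIntegral.integral_symm, ← intervalIntegral.integral_neg]
  have htp : Continuous fun θ : ℝ => ‖MP_ecd12e_nt.GM.tp S a θ‖ ^ 2 := by fun_prop
  refine le_trans ?_ (mul_le_mul_of_nonneg_left (MP_ecd12e_nt.GM.int_tp_le S a (x0 := 0) (x1 := 2)
    (by norm_num) (by linarith [Real.pi_gt_three])) (Real.exp_pos 2).le)
  rw [← intervalIntegral.integral_const_mul]
  refine intervalIntegral.integral_mono_on (by norm_num) (Continuous.intervalIntegrable ?_ _ _)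
    (Continuous.intervalIntegrable (by fun_prop) _ _) fun θ hθ => ?_
  · exact ((hc.comp (by fun_prop)).mul (by fun_prop)).neg
  · have h6 : Real.exp θ * Real.exp (-θ) = 1 := by rw [← Real.exp_add]; simp
    have h7 : Real.exp θ ≤ Real.exp 2 := Real.exp_le_exp.2 hθ.2
    have h8 := w0_mem (Real.exp (-θ))
    have h9 : w0 (Real.exp (-θ)) ^ 2 ≤ 1 := pow_le_one₀ h8.1 h8.2
    have h10 := Real.exp_pos θ
    simp only [Function.comp_apply]
    rw [o7_eval, norm_mul, norm_mul, Complex.norm_real, Complex.norm_real, Real.norm_of_nonneg h8.1,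
      Real.norm_of_nonneg h10.le]
    calc _ = w0 (Real.exp (-θ)) ^ 2 * Real.exp θ * (Real.exp θ * Real.exp (-θ)) *
          ‖MP_ecd12e_nt.GM.tp S a θ‖ ^ 2 := by ring
      _ ≤ _ := by
        rw [h6, mul_one]
        exact mul_le_mul_of_nonneg_right (by nlinarith) (sq_nonneg _)

/-- The sum is `∫ g x * ex y x = 𝓕 g (-y / (2 π))` with `g = ∑ gs w0 (-(I t)) * a t` smooth of
compact support (`HasCompactSupport.toSchwartzMap`, `SchwartzMap.integral_norm_sq_fourier`), so the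
integral is `2 π ∫ ‖g‖ ^ 2`. With `x = exp u`: `‖g x‖ ^ 2 dx ≤ 4 ‖∑ a t e (-t u)‖ ^ 2 du` on
`[-2, 0]` (`intervalIntegral.integral_comp_mul_deriv`), and `GM.int_tp_le` gives `2 π ∑ ‖a t‖ ^ 2`. -/
theorem mm_planch : ∃ C : ℝ, 0 ≤ C ∧ ∀ (S : Finset ℤ) (a : ℤ → ℂ),
    Integrable (fun y : ℝ => ‖∑ t ∈ S, MM w0 y (-(I * t)) * a t‖ ^ 2) ∧
      ∫ y : ℝ, ‖∑ t ∈ S, MM w0 y (-(I * t)) * a t‖ ^ 2 ≤ C * ∑ t ∈ S, ‖a t‖ ^ 2 := by
  refine ⟨2 * π * (Real.exp 2 * (2 * π)), by positivity, fun S a => ?_⟩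
  have h1 : HasCompactSupport fun x : ℝ => ∑ t ∈ S, gs w0 (-(I * t)) x * a t := by
    refine HasCompactSupport.intro (isCompact_Icc (a := 1 / 4) (b := 1)) fun x hx => ?_
    rw [Set.mem_Icc, not_and_or, not_le, not_le] at hx
    simp only [gs_zero wt_w0 _ (hx.imp le_of_lt le_of_lt), zero_mul, Finset.sum_const_zero]
  have h2 : ContDiff ℝ ∞ fun x : ℝ => ∑ t ∈ S, gs w0 (-(I * t)) x * a t :=
    ContDiff.sum fun t _ => (gs_smooth wt_w0 _).mul contDiff_const
  have key : ∀ y : ℝ, ∑ t ∈ S, MM w0 y (-(I * t)) * a t =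
      ∫ x : ℝ, (∑ t ∈ S, gs w0 (-(I * t)) x * a t) * ex y x := by
    intro y
    simp_rw [Finset.sum_mul]
    rw [integral_finsetSum]
    · refine Finset.sum_congr rfl fun t _ => ?_
      rw [MM, ← integral_mul_const]
      exact integral_congr_ae (Filter.Eventually.of_forall fun x => mul_right_comm _ _ _)
    · intro t _
      refine Continuous.integrable_of_hasCompactSupport ?_ (gs_hcs wt_w0 _).mul_right.mul_right
      refine ((gs_smooth wt_w0 _).continuous.mul continuous_const).mul ?_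
      unfold ex
      fun_prop
  simp_rw [key]
  obtain ⟨h3, h4⟩ := o7_planch h1 h2
  refine ⟨h3, ?_⟩
  rw [h4]
  calc _ ≤ 2 * π * (Real.exp 2 * (2 * π * ∑ t ∈ S, ‖a t‖ ^ 2)) :=
        mul_le_mul_of_nonneg_left (o7_norm S a) (by positivity)
    _ = _ := by ring

end Pool.Agent.Lib.MP_778b46_nt.MA
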