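import Pool.Agent.Lib.MP_778b46_nt.MA.B1
import Pool.Agent.Lib.MP_778b46_nt.MA.O7

set_option autoImplicit false

noncomputable section

namespace Pool.Agent.Lib.MP_778b46_nt.MA

open Complex Finset MeasureTheory
open scoped Real ContDiff
open Pool.Agent.Lib.MP_03e5d0_nt (Sm ex ft bump)
open Pool.Agent.Lib.MP_778b46_nt.GX (Lf Lp)

/-! The bilinear form is bounded in mean square. -/

/-- With `F χ y = ∑ t ∈ II T, MM w0 y (-(I t)) * a χ t` we have
`AR q c T a y = (2 π)⁻¹ ∑ χ, gc χ q c * F χ y`; `gc_orth` for each `y`, then `mm_planch`. -/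
theorem ar_sq : ∃ C : ℝ, 0 ≤ C ∧ ∀ (N : ℕ) [NeZero N] (q : ℕ) (T : ℝ)
    (a : DirichletCharacter ℂ N → ℤ → ℂ), q ∣ N →
    (∀ c, Integrable fun y => ‖AR q c T a y‖ ^ 2) ∧
    ∑ c ∈ cop q, ∫ y, ‖AR q c T a y‖ ^ 2 ≤
      C * ∑ χ ∈ univ.filter (fun χ : DirichletCharacter ℂ N => χ.conductor ∣ q),
        (χ.conductor : ℝ) / Nat.totient q * ∑ t ∈ II T, ‖a χ t‖ ^ 2 := by
  obtain ⟨C, hC, h⟩ := mm_planch
  refine ⟨C, hC, fun N _ q T a hq => ?_⟩
  have e : ∀ c y, AR q c T a y =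
      ∑ t ∈ II T, MM w0 y (-(I * t)) * ((2 * π : ℂ)⁻¹ * ∑ χ, gc χ q c * a χ t) := fun c y => by
    rw [AR, mul_sum]
    exact sum_congr rfl fun t _ => by ring
  have hπ : ‖(2 * π : ℂ)⁻¹‖ ≤ 1 := by
    rw [norm_inv, norm_mul, Complex.norm_real, Real.norm_eq_abs, abs_of_pos Real.pi_pos]
    refine inv_le_one_of_one_le₀ ?_
    have h1 : ‖(2 : ℂ)‖ = 2 := by simp
    rw [h1]
    linarith [Real.pi_gt_three]
  simp only [e]
  refine ⟨fun c => (h _ _).1, (sum_le_sum fun c _ => (h _ _).2).trans ?_⟩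
  rw [← mul_sum]
  refine mul_le_mul_of_nonneg_left ?_ hC
  simp only [mul_sum (II T)]
  rw [sum_comm, sum_comm (t := II T)]
  refine sum_le_sum fun t _ => le_trans (sum_le_sum fun c _ => ?_) (gc_orth hq fun χ => a χ t)
  rw [norm_mul]
  exact pow_le_pow_left₀ (by positivity) (mul_le_of_le_one_left (norm_nonneg _) hπ) 2

theorem b3_opt {x A B : ℝ} (hx : 0 ≤ x) (hA : 0 ≤ A) (hB : 0 ≤ B)
    (h : ∀ l, 0 < l → x ≤ (l * A + l⁻¹ * B) / 2) : x ≤ √A * √B := by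
  have hd : discrim A (-(2 * x)) B ≤ 0 := discrim_le_zero fun s => by
    rcases le_or_gt s 0 with hs | hs
    · have h1 := mul_nonneg hA (mul_self_nonneg s)
      have h2 := mul_nonneg hx (neg_nonneg.2 hs)
      linarith
    · have h1 := mul_le_mul_of_nonneg_left (h s hs) hs.le
      have h2 : s * ((s * A + s⁻¹ * B) / 2) = (A * (s * s) + B) / 2 := by field_simp
      linarith
  rw [← Real.sqrt_mul hA]
  refine Real.le_sqrt_of_sq_le ?_
  unfold discrim at hd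
  linarith

theorem b3_nsq_nonneg {N : ℕ} [NeZero N] (P H : ℝ) (a : DirichletCharacter ℂ N → ℤ → ℂ) :
    0 ≤ nsq P H a := sum_nonneg fun _ _ => sum_nonneg fun _ _ => by positivity

theorem b3_sum {N : ℕ} [NeZero N] {P H Λ : ℝ} (a : DirichletCharacter ℂ N → ℤ → ℂ) (hP : 1 ≤ P)
    (hH : 0 ≤ H) (hN : N = ⌊P⌋₊.factorial) (hΛ : Rat0 N Λ) :
    ∑ q ∈ Icc 1 ⌊P⌋₊, ∑ χ ∈ univ.filter (fun χ : DirichletCharacter ℂ N => χ.conductor ∣ q),
      (χ.conductor : ℝ) / Nat.totient q * ∑ t ∈ II (H / q), ‖a χ t‖ ^ 2 ≤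
      Λ * (1 + Real.log P) * nsq P H a := by
  have hr : ∀ χ : DirichletCharacter ℂ N, 1 ≤ χ.conductor := fun χ =>
    Nat.one_le_iff_ne_zero.2 χ.conductor_ne_zero
  have h1 : ∀ q ∈ Icc 1 ⌊P⌋₊,
      ∑ χ ∈ univ.filter (fun χ : DirichletCharacter ℂ N => χ.conductor ∣ q),
        (χ.conductor : ℝ) / Nat.totient q * ∑ t ∈ II (H / q), ‖a χ t‖ ^ 2 ≤
      ∑ χ ∈ CH N P, (if χ.conductor ∣ q then (χ.conductor : ℝ) / Nat.totient q else 0) *
        ∑ t ∈ II (H / χ.conductor), ‖a χ t‖ ^ 2 := by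
    intro q hq
    obtain ⟨hq1, hq2⟩ := mem_Icc.1 hq
    have hqP : (q : ℝ) ≤ P := (Nat.cast_le.2 hq2).trans (Nat.floor_le (by linarith))
    refine le_trans (sum_le_sum fun χ hχ => ?_) (sum_le_sum_of_subset_of_nonneg
      (fun χ hχ => ?_) fun χ _ _ => ?_)
    · have hd := (mem_filter.1 hχ).2
      have hle : (χ.conductor : ℝ) ≤ q := Nat.cast_le.2 (Nat.le_of_dvd hq1 hd)
      have h0 : (0 : ℝ) < χ.conductor := Nat.cast_pos.2 (hr χ)
      rw [if_pos hd]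
      refine mul_le_mul_of_nonneg_left (sum_le_sum_of_subset_of_nonneg
        (II_mono (div_le_div_of_nonneg_left hH h0 hle)) fun _ _ _ => by positivity) (by positivity)
    · have hd := (mem_filter.1 hχ).2
      exact mem_filter.2 ⟨mem_univ _, (Nat.cast_le.2 (Nat.le_of_dvd hq1 hd)).trans hqP⟩
    · refine mul_nonneg ?_ (sum_nonneg fun _ _ => by positivity)
      split_ifs
      · positivity
      · exact le_rfl
  refine (sum_le_sum h1).trans ?_
  rw [sum_comm, nsq, mul_sum]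
  refine sum_le_sum fun χ _ => ?_
  rw [← sum_mul, ← sum_filter]
  refine mul_le_mul_of_nonneg_right ?_ (sum_nonneg fun _ _ => by positivity)
  convert sum_ratio hΛ hP hN (hr χ)

/-- For every `l > 0`: `‖x‖ ‖y‖ ≤ (l ‖x‖ ^ 2 + ‖y‖ ^ 2 / l) / 2`; `ar_sq`; for `r ∣ q ≤ P` the
character is in `CH N P` and `II (H / q) ⊆ II (H / r)`; `sum_ratio`. Then optimise `l` (let it tend
to `0` or `∞` if one of the square sums vanishes, or add a small `η > 0`). -/
theorem bb_l2 : ∃ C : ℝ, 0 ≤ C ∧ ∀ (X P H Λ : ℝ) (m N : ℕ) [NeZero N] (W : ℕ → ℝ)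
    (a b : DirichletCharacter ℂ N → ℤ → ℂ), 1 ≤ P → 0 ≤ H → N = ⌊P⌋₊.factorial → Rat0 N Λ →
    ‖BB X P H m W a b‖ ≤ C * Λ * (1 + Real.log P) * (√(nsq P H a) * √(nsq P H b)) := by
  obtain ⟨C, hC, h⟩ := ar_sq
  refine ⟨C, hC, fun X P H Λ m N _ W a b hP hH hN hΛ => ?_⟩
  have hD : 0 ≤ C * Λ * (1 + Real.log P) := by
    have := hΛ.one_le
    have := Real.log_nonneg hP
    positivity
  have hdvd : ∀ q ∈ Icc 1 ⌊P⌋₊, q ∣ N := fun q hq =>
    hN ▸ Nat.dvd_factorial (mem_Icc.1 hq).1 (mem_Icc.1 hq).2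
  have hQ : ∀ a : DirichletCharacter ℂ N → ℤ → ℂ,
      ∑ q ∈ Icc 1 ⌊P⌋₊, ∑ c ∈ cop q, ∫ y, ‖AR q c (H / q) a y‖ ^ 2 ≤
        C * Λ * (1 + Real.log P) * nsq P H a := fun a => by
    refine (sum_le_sum fun q hq => (h N q (H / q) a (hdvd q hq)).2).trans ?_
    rw [← mul_sum, mul_assoc C, mul_assoc C]
    exact mul_le_mul_of_nonneg_left (b3_sum a hP hH hN hΛ) hC
  have key := b3_opt (norm_nonneg (BB X P H m W a b)) (mul_nonneg hD (b3_nsq_nonneg P H a))
    (mul_nonneg hD (b3_nsq_nonneg P H b)) fun l hl => by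
      have h1 : ‖BB X P H m W a b‖ ≤ ∑ q ∈ Icc 1 ⌊P⌋₊, ∑ c ∈ cop q,
          ((l * ∫ y, ‖AR q c (H / q) a y‖ ^ 2) + l⁻¹ * ∫ y, ‖AR q c (H / q) b y‖ ^ 2) / 2 := by
        refine norm_sum_le_of_le _ fun q hq => norm_sum_le_of_le _ fun c _ => ?_
        have ia := ((h N q (H / q) a (hdvd q hq)).1 c).const_mul l
        have ib := ((h N q (H / q) b (hdvd q hq)).1 c).const_mul l⁻¹
        rw [norm_mul, norm_ee, one_mul, ← integral_const_mul, ← integral_const_mul,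
          ← integral_add ia ib, ← integral_div]
        refine norm_integral_le_of_norm_le ((ia.add ib).div_const 2)
          (Filter.Eventually.of_forall fun y => ?_)
        rw [norm_mul, norm_mul, norm_mul, MP_03e5d0_nt.norm_ex, mul_one, Complex.norm_real,
          Real.norm_eq_abs, abs_of_nonneg (kk_mem _).1, mul_assoc]
        refine (mul_le_of_le_one_left (by positivity) (kk_mem _).2).trans ?_
        generalize ‖AR q c (H / q) a y‖ = u
        generalize ‖AR q c (H / q) b y‖ = v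
        have h2 : (l * u ^ 2 + l⁻¹ * v ^ 2) / 2 - u * v = l⁻¹ * (l * u - v) ^ 2 / 2 := by
          field_simp
          ring
        have h3 : 0 ≤ l⁻¹ * (l * u - v) ^ 2 / 2 := by positivity
        linarith
      refine h1.trans ?_
      simp only [← sum_div, sum_add_distrib, ← mul_sum]
      have h4 := mul_le_mul_of_nonneg_left (hQ a) hl.le
      have h5 := mul_le_mul_of_nonneg_left (hQ b) (inv_pos.2 hl).le
      linarith
  rw [Real.sqrt_mul hD, Real.sqrt_mul hD, mul_mul_mul_comm, Real.mul_self_sqrt hD] at key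
  exact key

end Pool.Agent.Lib.MP_778b46_nt.MA
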