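import Pool.Agent.Lib.MP_778b46_nt.MA.B2

set_option autoImplicit false

noncomputable section

namespace Pool.Agent.Lib.MP_778b46_nt.MA

open Complex Finset MeasureTheory
open scoped Real ContDiff
open Pool.Agent.Lib.MP_03e5d0_nt (Sm ex ft bump)
open Pool.Agent.Lib.MP_778b46_nt.GX (Lf Lp)

/-! Narrow arcs. -/

theorem b4_le (Y : ℝ) (z : ℂ) : ‖z - sml Y z‖ ≤ ‖z‖ := by
  unfold sml
  split_ifs
  · rw [sub_self, norm_zero]
    exact norm_nonneg _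
  · rw [sub_zero]

theorem b4_sq {Y : ℝ} (hY : 0 < Y) (z : ℂ) : ‖z - sml Y z‖ ≤ ‖z‖ ^ 2 / Y := by
  unfold sml
  split_ifs with h
  · rw [sub_self, norm_zero]
    positivity
  · rw [sub_zero, le_div_iff₀ hY, sq]
    exact mul_le_mul_of_nonneg_left (not_le.1 h).le (norm_nonneg _)

open Classical in
/-- The sum of the absolute values of the coefficients of one character. -/
def b4_be {N : ℕ} [NeZero N] (P H : ℝ) (b : DirichletCharacter ℂ N → ℤ → ℂ)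
    (χ : DirichletCharacter ℂ N) : ℝ :=
  if χ ∈ CH N P then ∑ t ∈ II (H / χ.conductor), ‖b χ t‖ else 0

theorem b4_be_nonneg {N : ℕ} [NeZero N] (P H : ℝ) (b : DirichletCharacter ℂ N → ℤ → ℂ)
    (χ : DirichletCharacter ℂ N) : 0 ≤ b4_be P H b χ := by
  unfold b4_be
  split_ifs
  · exact sum_nonneg fun _ _ => norm_nonneg _
  · exact le_rfl

theorem b4_be_sum {N : ℕ} [NeZero N] (P H : ℝ) (b : DirichletCharacter ℂ N → ℤ → ℂ) :
    ∑ χ, b4_be P H b χ = ∑ χ ∈ CH N P, ∑ t ∈ II (H / χ.conductor), ‖b χ t‖ := by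
  classical
  rw [← sum_subset (subset_univ (CH N P)) fun χ _ h => by rw [b4_be, if_neg h]]
  exact sum_congr rfl fun χ h => by rw [b4_be, if_pos h]

theorem b4_be_ge {N : ℕ} [NeZero N] {P H : ℝ} (hP : 1 ≤ P) (hH : 0 ≤ H)
    (b : DirichletCharacter ℂ N → ℤ → ℂ) {χ : DirichletCharacter ℂ N} {q : ℕ}
    (hq : q ∈ Icc 1 ⌊P⌋₊) (h : χ.conductor ∣ q) :
    ∑ t ∈ II (H / q), ‖b χ t‖ ≤ b4_be P H b χ := by
  obtain ⟨h1, h2⟩ := mem_Icc.1 hq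
  have h3 : (χ.conductor : ℝ) ≤ q := Nat.cast_le.2 (Nat.le_of_dvd h1 h)
  have h4 : (0 : ℝ) < χ.conductor := Nat.cast_pos.2 (Nat.pos_of_dvd_of_pos h h1)
  have h5 : (q : ℝ) ≤ P := (Nat.cast_le.2 h2).trans (Nat.floor_le (zero_le_one.trans hP))
  have h6 : χ ∈ CH N P := mem_filter.2 ⟨mem_univ _, h3.trans h5⟩
  rw [b4_be, if_pos h6]
  exact sum_le_sum_of_subset_of_nonneg (II_mono (div_le_div_of_nonneg_left hH h4 h3))
    fun _ _ _ => norm_nonneg _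

theorem b4_ps : ∃ D : ℝ, 0 ≤ D ∧ ∀ (T U U' μ : ℝ) (t t' : ℤ), 1 ≤ T → T ≤ U → T ≤ U' →
    ‖PS w0 U μ (-(I * t)) (-(I * t')) - PS w0 U' μ (-(I * t)) (-(I * t'))‖ ≤
      D * T ^ (-(1 / 3 : ℝ)) := by
  obtain ⟨C, hC, h⟩ := ps_near wt_w0
  refine ⟨2 * C, by positivity, fun T U U' μ t t' hT hU hU' => ?_⟩
  have e : ∀ k : ℤ, (-(I * (k : ℂ))).re = 0 := fun k => by simp
  have key : ∀ V : ℝ, T ≤ V → ‖PS w0 V μ (-(I * t)) (-(I * t')) -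
      2 * π * GG w0 (-(I * t)) (-(I * t')) μ‖ ≤ C * T ^ (-(1 / 3 : ℝ)) := fun V hV =>
    (h V μ _ _ (hT.trans hV) (e t).ge ((e t).le.trans zero_le_one) (e t').ge
      ((e t').le.trans zero_le_one)).trans (mul_le_mul_of_nonneg_left
        (Real.rpow_le_rpow_of_nonpos (one_pos.trans_le hT) hV (by norm_num)) hC)
  have h1 := key U hU
  have h2 := key U' hU'
  rw [norm_sub_rev] at h2
  have h3 := norm_sub_le_norm_sub_add_norm_sub (PS w0 U μ (-(I * t)) (-(I * t')))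
    (2 * π * GG w0 (-(I * t)) (-(I * t')) μ) (PS w0 U' μ (-(I * t)) (-(I * t')))
  linarith

theorem b4_two (S : Finset ℤ) (p p' : ℤ → ℤ → ℂ) (u v : ℤ → ℂ) {D : ℝ}
    (h : ∀ t t', ‖p t t' - p' t t'‖ ≤ D) :
    ‖∑ t ∈ S, ∑ t' ∈ S, p t t' * (u t * v t') - ∑ t ∈ S, ∑ t' ∈ S, p' t t' * (u t * v t')‖ ≤
      D * ((∑ t ∈ S, ‖u t‖) * ∑ t ∈ S, ‖v t‖) := by
  rw [sum_mul_sum, mul_sum, ← sum_sub_distrib]
  refine norm_sum_le_of_le _ fun t _ => ?_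
  rw [mul_sum, ← sum_sub_distrib]
  refine norm_sum_le_of_le _ fun t' _ => ?_
  rw [← sub_mul, norm_mul, norm_mul]
  exact mul_le_mul_of_nonneg_right (h t t') (by positivity)

theorem b4_mid : ∃ D : ℝ, 0 ≤ D ∧ ∀ (X P H Λ T : ℝ) (m N : ℕ) [NeZero N] (W W' : ℕ → ℝ)
    (b : DirichletCharacter ℂ N → ℤ → ℂ), 1 ≤ P → 0 ≤ H → N = ⌊P⌋₊.factorial → Rat0 N Λ →
    1 ≤ m → 1 ≤ T → (∀ q ∈ Icc 1 ⌊P⌋₊, T ≤ W q) → (∀ q ∈ Icc 1 ⌊P⌋₊, T ≤ W' q) →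
    ‖BB X P H m W b b - BB X P H m W' b b‖ ≤
      D * (Λ ^ 2 * tu m * T ^ (-(1 / 3 : ℝ)) * (∑ χ, b4_be P H b χ) ^ 2) := by
  obtain ⟨D, hD, hps⟩ := b4_ps
  refine ⟨4 * D, by positivity, fun X P H Λ T m N _ W W' b hP hH hN hΛ hm hT hW hW' => ?_⟩
  have hT0 : 0 < T := one_pos.trans_le hT
  have hE : 0 ≤ D * T ^ (-(1 / 3 : ℝ)) := mul_nonneg hD (Real.rpow_nonneg hT0.le _)
  rw [bb_ps X P H m (fun q hq => hT0.trans_le (hW q hq)),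
    bb_ps X P H m (fun q hq => hT0.trans_le (hW' q hq)), ← mul_sub, norm_mul]
  have h1 : ‖(2 * π : ℂ)⁻¹ ^ 2‖ ≤ 1 := by
    rw [norm_pow, norm_inv]
    refine pow_le_one₀ (by positivity) (inv_le_one_of_one_le₀ ?_)
    rw [norm_mul, Complex.norm_real, Real.norm_of_nonneg Real.pi_pos.le, Complex.norm_ofNat]
    linarith [Real.pi_gt_three]
  refine (mul_le_of_le_one_left (norm_nonneg _) h1).trans ?_
  have h2 : ∑ q ∈ Icc 1 ⌊P⌋₊, ∑ χ : DirichletCharacter ℂ N, ∑ χ' : DirichletCharacter ℂ N,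
      ‖ww q m χ χ'‖ * (D * T ^ (-(1 / 3 : ℝ)) * (b4_be P H b χ * b4_be P H b χ')) ≤
      4 * D * (Λ ^ 2 * tu m * T ^ (-(1 / 3 : ℝ)) * (∑ χ, b4_be P H b χ) ^ 2) := by
    rw [sq (∑ χ, b4_be P H b χ), sum_mul_sum, ← mul_assoc, mul_sum, sum_comm]
    refine sum_le_sum fun χ _ => ?_
    rw [mul_sum, sum_comm]
    refine sum_le_sum fun χ' _ => ?_
    rw [← sum_mul]
    refine (mul_le_mul_of_nonneg_right (ww_icc hΛ hN hm χ χ') (mul_nonneg hE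
      (mul_nonneg (b4_be_nonneg P H b χ) (b4_be_nonneg P H b χ')))).trans (le_of_eq ?_)
    ring
  refine le_trans ?_ h2
  rw [← sum_sub_distrib]
  refine norm_sum_le_of_le _ fun q hq => ?_
  rw [← sum_sub_distrib]
  refine norm_sum_le_of_le _ fun χ _ => ?_
  rw [← sum_sub_distrib]
  refine norm_sum_le_of_le _ fun χ' _ => ?_
  rw [← mul_sub, norm_mul]
  by_cases h0 : ww q m χ χ' = 0
  · rw [h0, norm_zero, zero_mul, zero_mul]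
  have hq' : q ∣ N := hN ▸ Nat.dvd_factorial (mem_Icc.1 hq).1 (mem_Icc.1 hq).2
  obtain ⟨c1, c2, -⟩ := ww_ne hq' m χ χ' h0
  refine mul_le_mul_of_nonneg_left ?_ (norm_nonneg _)
  refine (b4_two (II (H / q)) (fun t t' => PS w0 (W q) (m / X) (-(I * t)) (-(I * t')))
    (fun t t' => PS w0 (W' q) (m / X) (-(I * t)) (-(I * t'))) (b χ) (b χ')
    fun t t' => hps T _ _ _ t t' hT (hW q hq) (hW' q hq)).trans ?_
  exact mul_le_mul_of_nonneg_left (mul_le_mul (b4_be_ge hP hH b hq c1) (b4_be_ge hP hH b hq c2)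
    (sum_nonneg fun _ _ => norm_nonneg _) (b4_be_nonneg P H b χ)) hE

/-- Let `b χ t = a χ t - sml Y (a χ t)` (zero or of norm `> Y`, so `‖b‖ ≤ ‖a‖ ^ 2 / Y`). `bb_near`
for `W` and `W'`. For `b`: `bb_ps` twice, `ps_near` twice, `ww_ne` (nonzero terms have both
characters in `CH N P` and `II (H / q) ⊆ II (H / conductor)`), `ww_icc`. -/
theorem bb_narrow : ∃ C : ℝ, 0 ≤ C ∧ ∀ (X P H Λ A α Y T : ℝ) (m N : ℕ) [NeZero N] (W W' : ℕ → ℝ)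
    (a : DirichletCharacter ℂ N → ℤ → ℂ), 1 ≤ P → 0 ≤ H → N = ⌊P⌋₊.factorial → Rat0 N Λ →
    1 ≤ m → 1 ≤ T → (∀ q ∈ Icc 1 ⌊P⌋₊, T ≤ W q) → (∀ q ∈ Icc 1 ⌊P⌋₊, T ≤ W' q) → 0 < Y →
    0 ≤ A → 0 ≤ α → nsq P H a ≤ A ^ 2 → nsq P H (fun χ t => sml Y (a χ t)) ≤ α ^ 2 →
    ‖BB X P H m W a a - BB X P H m W' a a‖ ≤
      C * (Λ * (1 + Real.log P) * (α * A) +
        Λ ^ 2 * tu m * T ^ (-(1 / 3 : ℝ)) * (A ^ 2 / Y) ^ 2) := by
  obtain ⟨C, hC, hn⟩ := bb_near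
  obtain ⟨D, hD, hm⟩ := b4_mid
  refine ⟨2 * C + D, by positivity,
    fun X P H Λ A α Y T m N _ W W' a hP hH hN hΛ h1 hT hW hW' hY hA hα ha hs => ?_⟩
  have hT0 : 0 < T := one_pos.trans_le hT
  obtain ⟨b, hb⟩ : ∃ b : DirichletCharacter ℂ N → ℤ → ℂ,
      ∀ χ t, b χ t = a χ t - sml Y (a χ t) := ⟨_, fun _ _ => rfl⟩
  have e1 : a - b = fun χ t => sml Y (a χ t) := by
    funext χ t
    rw [Pi.sub_apply, Pi.sub_apply, hb, sub_sub_cancel]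
  have e2 : nsq P H b ≤ A ^ 2 := by
    refine le_trans (sum_le_sum fun χ _ => sum_le_sum fun t _ => ?_) ha
    rw [hb]
    exact pow_le_pow_left₀ (norm_nonneg _) (b4_le Y _) 2
  have e3 : ∑ χ, b4_be P H b χ ≤ A ^ 2 / Y := by
    rw [b4_be_sum]
    refine le_trans ?_ (div_le_div_of_nonneg_right ha hY.le)
    rw [nsq, sum_div]
    refine sum_le_sum fun χ _ => ?_
    rw [sum_div]
    refine sum_le_sum fun t _ => ?_
    rw [hb]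
    exact b4_sq hY _
  have n1 := hn X P H Λ A α m N W a b hP hH hN hΛ (fun q hq => hT0.trans_le (hW q hq)) hA hα ha e2
    (e1 ▸ hs)
  have n2 := hn X P H Λ A α m N W' a b hP hH hN hΛ (fun q hq => hT0.trans_le (hW' q hq)) hA hα ha
    e2 (e1 ▸ hs)
  have n3 := hm X P H Λ T m N W W' b hP hH hN hΛ h1 hT hW hW'
  have p0 : 0 ≤ Λ ^ 2 * tu m * T ^ (-(1 / 3 : ℝ)) :=
    mul_nonneg (mul_nonneg (sq_nonneg _) (zero_le_one.trans (tu_pos h1))) (Real.rpow_nonneg hT0.le _)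
  have n4 : Λ ^ 2 * tu m * T ^ (-(1 / 3 : ℝ)) * (∑ χ, b4_be P H b χ) ^ 2 ≤
      Λ ^ 2 * tu m * T ^ (-(1 / 3 : ℝ)) * (A ^ 2 / Y) ^ 2 :=
    mul_le_mul_of_nonneg_left
      (pow_le_pow_left₀ (sum_nonneg fun χ _ => b4_be_nonneg P H b χ) e3 2) p0
  have n5 := n3.trans (mul_le_mul_of_nonneg_left n4 hD)
  have p1 : 0 ≤ Λ * (1 + Real.log P) * (α * A) :=
    mul_nonneg (mul_nonneg (zero_le_one.trans hΛ.one_le)
      (add_nonneg zero_le_one (Real.log_nonneg hP))) (mul_nonneg hα hA)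
  have p2 : 0 ≤ Λ ^ 2 * tu m * T ^ (-(1 / 3 : ℝ)) * (A ^ 2 / Y) ^ 2 := mul_nonneg p0 (sq_nonneg _)
  rw [norm_sub_rev] at n2
  have t1 := norm_sub_le_norm_sub_add_norm_sub (BB X P H m W a a) (BB X P H m W b b)
    (BB X P H m W' a a)
  have t2 := norm_sub_le_norm_sub_add_norm_sub (BB X P H m W b b) (BB X P H m W' b b)
    (BB X P H m W' a a)
  have r : C * Λ * (1 + Real.log P) * (α * A) = C * (Λ * (1 + Real.log P) * (α * A)) := by ring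
  rw [r] at n1 n2
  generalize Λ * (1 + Real.log P) * (α * A) = u at *
  generalize Λ ^ 2 * tu m * T ^ (-(1 / 3 : ℝ)) * (A ^ 2 / Y) ^ 2 = v at *
  nlinarith [mul_nonneg hC p2, mul_nonneg hD p1]

end Pool.Agent.Lib.MP_778b46_nt.MA
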