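import Pool.Agent.Lib.MP_03e5d0_nt.MPer
import Pool.Agent.Lib.MP_c03ca8_nt.Q.Defs
import Pool.Agent.Lib.MP_778b46_nt.GX.Defs

/-!
Major arcs for the binary Goldbach problem: definitions. See the blueprint `gx_MA_BP.md`.
-/

set_option autoImplicit false

noncomputable section

namespace Pool.Agent.Lib.MP_778b46_nt.MA

open Complex Finset MeasureTheory
open scoped Real ContDiff
open Pool.Agent.Lib.MP_03e5d0_nt (ex bump)
open Pool.Agent.Lib.MP_778b46_nt.GX (Lf Lp)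

/-- `log n` on the primes, zero elsewhere. -/
def lp (n : ℕ) : ℝ := if n.Prime then Real.log n else 0

/-- `exp (2 π i x)`. -/
def ee (x : ℝ) : ℂ := cexp (2 * π * I * x)

/-- One on `[3/8, 3/4]`, zero outside `(1/4, 7/8)`. -/
def w0 (x : ℝ) : ℝ := bump (3 / 2) (8 * x - 9 / 2)

/-- The weight of the primes. -/
def w1 (x : ℝ) : ℝ := w0 x * w0 x

/-- One on `[-1, 1]`, zero outside `(-2, 2)`. -/
def kk (y : ℝ) : ℝ := bump 1 y

/-- Smooth real weights supported in `[1/4, 1]`. -/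
structure Wt (v : ℝ → ℝ) : Prop where
  smooth : ContDiff ℝ ∞ v
  supp : ∀ x, x ≤ 1 / 4 ∨ 1 ≤ x → v x = 0

/-- The weighted number of representations as a sum of two primes. -/
def RR (X : ℝ) (m : ℕ) : ℝ :=
  ∑ n ∈ antidiagonal m, (lp n.1 * w1 (n.1 / X)) * (lp n.2 * w1 (n.2 / X))

/-- The twisted exponential sum at `y / (2 π X)`. -/
def SS (X : ℝ) (f : ℕ → ℂ) (y : ℝ) : ℂ :=
  ∑ n ∈ Icc 1 ⌊X⌋₊, ((lp n * w1 (n / X) : ℝ) : ℂ) * f n * ex y (n / X)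

/-- The Dirichlet polynomial over the primes. -/
def DD (X : ℝ) (f : ℕ → ℂ) (t : ℝ) : ℂ :=
  ∑ n ∈ Icc 1 ⌊X⌋₊, ((lp n * w0 (n / X) : ℝ) : ℂ) * f n * ex t (Real.log (n / X))

/-- The integers of absolute value at most `T`. -/
def II (T : ℝ) : Finset ℤ := Icc (-(⌊T⌋₊ : ℤ)) ⌊T⌋₊

/-- The integral over one arc. -/
def JJ (X : ℝ) (m : ℕ) (T : ℝ) (f g : ℕ → ℂ) : ℂ :=
  ∫ y : ℝ, (kk (y / T) : ℂ) * SS X f y * SS X g y * ex (-y) (m / X)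

/-- `v x * x ^ (s - 1)`. -/
def gs (v : ℝ → ℝ) (s : ℂ) (x : ℝ) : ℂ := (v x : ℂ) * cexp ((s - 1) * (Real.log x : ℝ))

/-- The Mellin transform of `v x * exp (i y x)`. -/
def MM (v : ℝ → ℝ) (y : ℝ) (s : ℂ) : ℂ := ∫ x : ℝ, gs v s x * ex y x

/-- The singular integral of a pair of exponents. -/
def GG (v : ℝ → ℝ) (s s' : ℂ) (ν : ℝ) : ℂ := ∫ x : ℝ, gs v s x * gs v s' (ν - x)

/-- The main singular integral. -/
def I0 (v : ℝ → ℝ) (ν : ℝ) : ℝ := ∫ x : ℝ, v x * v (ν - x)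

/-- The smoothed singular integral. -/
def PS (v : ℝ → ℝ) (T μ : ℝ) (s s' : ℂ) : ℂ :=
  ∫ y : ℝ, (kk (y / T) : ℂ) * MM v y s * MM v y s' * ex (-y) μ

/-- The reduced residues. -/
def cop (q : ℕ) : Finset ℕ := (range q).filter fun c => Nat.Coprime c q

/-- The additive character `n ↦ e (n c / q)`. -/
def ac (q c : ℕ) (n : ℕ) : ℂ := ee (n * c / q)

/-- The major arc contribution: arcs `|α - c / q| ≤ H / (π q X)`, `q ≤ P`. -/
def R1 (X P H : ℝ) (m : ℕ) : ℂ :=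
  (2 * π * X : ℂ)⁻¹ * ∑ q ∈ Icc 1 ⌊P⌋₊, ∑ c ∈ cop q,
    ee (-(m * c / q)) * JJ X m (H / q) (ac q c) (ac q c)

/-- A Dirichlet character as a function on the naturals. -/
def cf {q : ℕ} (χ : DirichletCharacter ℂ q) (n : ℕ) : ℂ := χ n

/-- Generalised Gauss sum. -/
def GS {N : ℕ} [NeZero N] (ξ : DirichletCharacter ℂ N) (q : ℕ) (h : ℤ) : ℂ :=
  ∑ a : ZMod N, ξ a * ee (a.val * h / q)

/-- Coefficient of `χ` in the expansion of `e (n c / q)` on the units. -/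
def gc {N : ℕ} [NeZero N] (χ : DirichletCharacter ℂ N) (q : ℕ) (c : ℕ) : ℂ :=
  (Nat.totient N : ℂ)⁻¹ * GS χ⁻¹ q c

/-- The term of level `q` of the singular series of a pair of characters. -/
def ww {N : ℕ} [NeZero N] (q m : ℕ) (χ χ' : DirichletCharacter ℂ N) : ℂ :=
  ∑ c ∈ cop q, ee (-(m * c / q)) * gc χ q c * gc χ' q c

/-- The complete singular series of a pair of characters. -/
def SG {N : ℕ} [NeZero N] (m : ℕ) (χ χ' : DirichletCharacter ℂ N) : ℂ :=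
  (N : ℂ) / (Nat.totient N : ℂ) ^ 2 * ∑ a : ZMod N, χ⁻¹ a * χ'⁻¹ (m - a)

/-- The singular series of the principal pair. -/
def S0 (N m : ℕ) : ℝ :=
  (N : ℝ) / (Nat.totient N : ℝ) ^ 2 *
    (((range N).filter fun a : ℕ => IsCoprime ((a : ℤ) * (m - a)) N).card : ℝ)

/-- The part of `r` that does not divide `m`. -/
def qd (r m : ℕ) : ℕ := r / Nat.gcd r m

/-- The same for the least common multiple of two conductors. -/
def gg {N : ℕ} (m : ℕ) (χ χ' : DirichletCharacter ℂ N) : ℕ :=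
  qd (Nat.lcm χ.conductor χ'.conductor) m

/-- The characters of conductor at most `P`. -/
def CH (N : ℕ) [NeZero N] (P : ℝ) : Finset (DirichletCharacter ℂ N) :=
  univ.filter fun χ => (χ.conductor : ℝ) ≤ P

/-- The zeros in the box `[1 - δ, 1] × [-T, T]`. -/
def zset (f : ℂ → ℂ) (δ T : ℝ) : Set ℂ :=
  {ρ | f ρ = 0 ∧ 1 - δ ≤ ρ.re ∧ ρ.re ≤ 1 ∧ |ρ.im| ≤ T}

open Classical in
/-- The same as a finite set. -/
def zs (f : ℂ → ℂ) (δ T : ℝ) : Finset ℂ :=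
  if h : (zset f δ T).Finite then h.toFinset else ∅

/-- The weight of a zero, multiplicity included. -/
def xw (X : ℝ) (f : ℂ → ℂ) (ρ : ℂ) : ℝ := analyticOrderNatAt f ρ * (X / 4) ^ (ρ.re - 1)

/-- The total weight of the zeros near one. -/
def Tot (X : ℝ) (N : ℕ) [NeZero N] (P δ T : ℝ) : ℝ :=
  ∑ χ ∈ CH N P, ∑ ρ ∈ zs (Lp χ) δ T, xw X (Lp χ) ρ

/-- The arithmetic factor of a pair of characters. -/
def ka (C : ℝ) {N : ℕ} (m : ℕ) (χ χ' : DirichletCharacter ℂ N) : ℝ :=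
  if (χ * χ').conductor ∣ gg m χ χ' then min 1 (C * (gg m χ χ' : ℝ) ^ (-(1 / 3 : ℝ))) else 0

/-- The archimedean factor of a pair of zeros. -/
def kb (C : ℝ) (ρ ρ' : ℂ) : ℝ := min 1 (C * (1 + max |ρ.im| |ρ'.im|) ^ (-(1 / 2 : ℝ)))

/-- The loss from the pairs of zeros. -/
def Lo2 (C X : ℝ) (N : ℕ) [NeZero N] (P δ T : ℝ) (m : ℕ) : ℝ :=
  ∑ χ ∈ CH N P, ∑ χ' ∈ CH N P, ∑ ρ ∈ zs (Lp χ) δ T, ∑ ρ' ∈ zs (Lp χ') δ T,
    ka C m χ χ' * kb C ρ ρ' * (xw X (Lp χ) ρ * xw X (Lp χ') ρ')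

/-- The loss from the pairs formed by the pole and a zero. -/
def Lo1 (C X : ℝ) (N : ℕ) [NeZero N] (P δ T : ℝ) : ℝ :=
  ∑ χ ∈ CH N P, ∑ ρ ∈ zs (Lp χ) δ T,
    C * (χ.conductor : ℝ) ^ (-(1 / 3 : ℝ)) * (1 + |ρ.im|) ^ (-(1 / 2 : ℝ)) * xw X (Lp χ) ρ

/-- The major arc theorem. -/
def Main : Prop :=
  ∀ ϑ δ ε : ℝ, 0 < ϑ → ϑ ≤ 7 / 20 → 0 < δ → δ ≤ 1 / 40 → 0 < ε →
    ∃ η c C : ℝ, 0 < η ∧ η ≤ ε ∧ η / 2000 ≤ c ∧ 1 ≤ C ∧ ∀ X : ℝ, C ≤ X → ∀ (N : ℕ) [NeZero N],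
      N = ⌊X ^ ϑ⌋₊.factorial → ∃ E : Finset ℕ, (E.card : ℝ) ≤ X ^ (1 - ϑ + ε) ∧
        ∀ m : ℕ, Even m → X ≤ m → (m : ℝ) ≤ 5 / 4 * X → m ∉ E → ∃ A : ℝ, X / 16 ≤ A ∧
          A * (1 - Lo2 C X N (X ^ ϑ) δ (X ^ η) m - Lo1 C X N (X ^ ϑ) δ (X ^ η) -
            X ^ (-c) * (1 + Tot X N (X ^ ϑ) δ (X ^ η)) ^ 2) ≤ RR X m

/-- The values at most `Y` in absolute value. -/
def sml (Y : ℝ) (z : ℂ) : ℂ := if ‖z‖ ≤ Y then z else 0

/-- The square sum over the primitive characters of conductor `c ≤ P` and the heights up to `H / c`. -/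
def mass (P H : ℝ) (a : (c : ℕ) → DirichletCharacter ℂ c → ℤ → ℂ) : ℝ :=
  ∑ c ∈ Icc 1 ⌊P⌋₊, ∑ ψ ∈ MP_c03ca8_nt.Q.prim c, ∑ t ∈ II (H / c), ‖a c ψ t‖ ^ 2

/-- The same square sum, over the characters of one level. -/
def nsq {N : ℕ} [NeZero N] (P H : ℝ) (a : DirichletCharacter ℂ N → ℤ → ℂ) : ℝ :=
  ∑ χ ∈ CH N P, ∑ t ∈ II (H / χ.conductor), ‖a χ t‖ ^ 2

/-- The function on the arc around `c / q` with coefficients `a`. -/
def AR {N : ℕ} [NeZero N] (q c : ℕ) (T : ℝ) (a : DirichletCharacter ℂ N → ℤ → ℂ) (y : ℝ) : ℂ :=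
  (2 * π : ℂ)⁻¹ * ∑ t ∈ II T, MM w0 y (-(I * t)) * ∑ χ, gc χ q c * a χ t

/-- The bilinear form on the arcs of widths `W q`. -/
def BB {N : ℕ} [NeZero N] (X P H : ℝ) (m : ℕ) (W : ℕ → ℝ)
    (a b : DirichletCharacter ℂ N → ℤ → ℂ) : ℂ :=
  ∑ q ∈ Icc 1 ⌊P⌋₊, ∑ c ∈ cop q, ee (-(m * c / q)) *
    ∫ y : ℝ, (kk (y / W q) : ℂ) * AR q c (H / q) a y * AR q c (H / q) b y * ex (-y) (m / X)

/-- The coefficients of the primes. -/
def dd (X : ℝ) {N : ℕ} (χ : DirichletCharacter ℂ N) (t : ℤ) : ℂ := DD X (cf χ) t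

/-- The integral over the boundary of the rectangle `[a, b] × [c, d]`. -/
def rect (F : ℂ → ℂ) (a b c d : ℝ) : ℂ :=
  (∫ x in a..b, F (x + c * I)) - (∫ x in a..b, F (x + d * I)) +
    I * (∫ y in c..d, F (b + y * I)) - I * ∫ y in c..d, F (a + y * I)

/-- An entire function with the size of an `L`-function up to height `T + 4`. -/
structure Ent (f : ℂ → ℂ) (b T : ℝ) : Prop where
  diff : Differentiable ℂ f
  one : 1 ≤ b
  up : ∀ s : ℂ, 1 / 10 ≤ s.re → s.re ≤ 2 → |s.im| ≤ T + 4 → ‖f s‖ ≤ Real.exp b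
  lo : ∀ s : ℂ, 101 / 100 ≤ s.re → Real.exp (-b) ≤ ‖f s‖
  ne : ∀ s : ℂ, 1 ≤ s.re → f s ≠ 0

/-- Every divisor `q` of `N` has `q / φ q ≤ Λ`. -/
def Rat0 (N : ℕ) (Λ : ℝ) : Prop := ∀ q : ℕ, q ∣ N → (q : ℝ) ≤ Λ * Nat.totient q

/-- The number of divisors. -/
def tu (m : ℕ) : ℝ := m.divisors.card

open Classical in
/-- Restriction of the coefficients to a set of characters. -/
def res {N : ℕ} (B : Finset (DirichletCharacter ℂ N)) (a : DirichletCharacter ℂ N → ℤ → ℂ)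
    (χ : DirichletCharacter ℂ N) (t : ℤ) : ℂ := if χ ∈ B then a χ t else 0

open Classical in
/-- The approximation of `SS X (cf χ) y / X` by the pole and the zeros near one. -/
def VV (X : ℝ) {N : ℕ} [NeZero N] (χ : DirichletCharacter ℂ N) (δ T y : ℝ) : ℂ :=
  (if χ = 1 then 1 else 0) * MM w1 y 1 - ∑ ρ ∈ zs (Lp χ) δ T,
    MM w1 y ρ * ((analyticOrderNatAt (Lp χ) ρ : ℂ) * (X : ℂ) ^ (ρ - 1))

end Pool.Agent.Lib.MP_778b46_nt.MA
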