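import Pool.Agent.Lib.MP_778b46_nt.MA.Defs
import Pool.Agent.Lib.MP_e97e2b_nt.Ln.J1

set_option autoImplicit false

noncomputable section

namespace Pool.Agent.Lib.MP_778b46_nt.MA

open Complex Finset MeasureTheory
open scoped Real ContDiff
open Pool.Agent.Lib.MP_03e5d0_nt (Sm ex ft bump)
open Pool.Agent.Lib.MP_778b46_nt.GX (Lf Lp)

/-! The residue theorem on a rectangle. -/

/-- The boundary of the rectangle. -/
def e1_bd (a b c d : ℝ) (s : ℂ) : Prop :=
  a ≤ s.re ∧ s.re ≤ b ∧ c ≤ s.im ∧ s.im ≤ d ∧ (s.re = a ∨ s.re = b ∨ s.im = c ∨ s.im = d)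

theorem e1_h {a b c d x t : ℝ} (hab : a ≤ b) (hcd : c ≤ d) (hx : x ∈ Set.uIcc a b)
    (ht : t = c ∨ t = d) : e1_bd a b c d (x + t * I) := by
  rw [Set.uIcc_of_le hab] at hx
  rcases ht with rfl | rfl <;> simp [e1_bd, hx.1, hx.2, hcd]

theorem e1_v {a b c d y t : ℝ} (hab : a ≤ b) (hcd : c ≤ d) (hy : y ∈ Set.uIcc c d)
    (ht : t = a ∨ t = b) : e1_bd a b c d (t + y * I) := by
  rw [Set.uIcc_of_le hcd] at hy
  rcases ht with rfl | rfl <;> simp [e1_bd, hy.1, hy.2, hab]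

theorem e1_congr {F G : ℂ → ℂ} {a b c d : ℝ} (hab : a ≤ b) (hcd : c ≤ d)
    (h : ∀ s, e1_bd a b c d s → F s = G s) : rect F a b c d = rect G a b c d := by
  unfold rect
  rw [intervalIntegral.integral_congr (f := fun x : ℝ => F (x + c * I))
      (g := fun x : ℝ => G (x + c * I)) (fun x hx => h _ (e1_h hab hcd hx (Or.inl rfl))),
    intervalIntegral.integral_congr (f := fun x : ℝ => F (x + d * I))
      (g := fun x : ℝ => G (x + d * I)) (fun x hx => h _ (e1_h hab hcd hx (Or.inr rfl))),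
    intervalIntegral.integral_congr (f := fun y : ℝ => F (b + y * I))
      (g := fun y : ℝ => G (b + y * I)) (fun x hx => h _ (e1_v hab hcd hx (Or.inr rfl))),
    intervalIntegral.integral_congr (f := fun y : ℝ => F (a + y * I))
      (g := fun y : ℝ => G (a + y * I)) (fun x hx => h _ (e1_v hab hcd hx (Or.inl rfl)))]

theorem e1_ih {F : ℂ → ℂ} {a b c d t : ℝ} (hab : a ≤ b) (hcd : c ≤ d)
    (h : ∀ s, e1_bd a b c d s → ContinuousAt F s) (ht : t = c ∨ t = d) :
    IntervalIntegrable (fun x : ℝ => F (x + t * I)) volume a b := by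
  refine ContinuousOn.intervalIntegrable fun x hx => ContinuousAt.continuousWithinAt ?_
  exact ContinuousAt.comp (f := fun x : ℝ => (x : ℂ) + t * I) (h _ (e1_h hab hcd hx ht))
    (by fun_prop)

theorem e1_iv {F : ℂ → ℂ} {a b c d t : ℝ} (hab : a ≤ b) (hcd : c ≤ d)
    (h : ∀ s, e1_bd a b c d s → ContinuousAt F s) (ht : t = a ∨ t = b) :
    IntervalIntegrable (fun y : ℝ => F (t + y * I)) volume c d := by
  refine ContinuousOn.intervalIntegrable fun x hx => ContinuousAt.continuousWithinAt ?_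
  exact ContinuousAt.comp (f := fun y : ℝ => (t : ℂ) + y * I) (h _ (e1_v hab hcd hx ht))
    (by fun_prop)

theorem e1_add {F G : ℂ → ℂ} {a b c d : ℝ} (hab : a ≤ b) (hcd : c ≤ d)
    (hF : ∀ s, e1_bd a b c d s → ContinuousAt F s)
    (hG : ∀ s, e1_bd a b c d s → ContinuousAt G s) :
    rect (fun s => F s + G s) a b c d = rect F a b c d + rect G a b c d := by
  unfold rect
  rw [intervalIntegral.integral_add (e1_ih hab hcd hF (Or.inl rfl)) (e1_ih hab hcd hG (Or.inl rfl)),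
    intervalIntegral.integral_add (e1_ih hab hcd hF (Or.inr rfl)) (e1_ih hab hcd hG (Or.inr rfl)),
    intervalIntegral.integral_add (e1_iv hab hcd hF (Or.inl rfl)) (e1_iv hab hcd hG (Or.inl rfl)),
    intervalIntegral.integral_add (e1_iv hab hcd hF (Or.inr rfl)) (e1_iv hab hcd hG (Or.inr rfl))]
  ring

theorem e1_cmul (k : ℂ) (F : ℂ → ℂ) (a b c d : ℝ) :
    rect (fun s => k * F s) a b c d = k * rect F a b c d := by
  unfold rect
  simp only [intervalIntegral.integral_const_mul]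
  ring

theorem e1_ne {ρ s : ℂ} {a b c d : ℝ} (ha : a < ρ.re) (hb : ρ.re < b) (hc : c < ρ.im)
    (hd : ρ.im < d) (hs : e1_bd a b c d s) : s - ρ ≠ 0 := by
  intro h
  have e : s = ρ := sub_eq_zero.1 h
  subst e
  rcases hs.2.2.2.2 with h | h | h | h <;> linarith

theorem e1_ftc {a b : ℝ} (u w : ℂ) (h : ∀ x ∈ Set.uIcc a b, u + w * x ∈ slitPlane) :
    ∫ x in a..b, w * (u + w * x)⁻¹ = log (u + w * b) - log (u + w * a) := by
  have hd : ∀ x ∈ Set.uIcc a b,
      HasDerivAt (fun x : ℝ => log (u + w * x)) (w * (u + w * x)⁻¹) x := by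
    intro x hx
    have h1 : HasDerivAt (fun z : ℂ => u + w * z) w (x : ℂ) := by
      simpa using ((hasDerivAt_id (x : ℂ)).const_mul w).const_add u
    have h2 := (h1.clog (h x hx)).comp_ofReal
    rw [div_eq_mul_inv] at h2
    exact h2
  refine intervalIntegral.integral_eq_sub_of_hasDerivAt hd ?_
  refine ContinuousOn.intervalIntegrable fun x hx => ContinuousAt.continuousWithinAt ?_
  exact continuousAt_const.mul (ContinuousAt.inv₀ (f := fun x : ℝ => u + w * x) (by fun_prop)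
    (slitPlane_ne_zero (h x hx)))

theorem e1_log_pos {z : ℂ} (h : 0 < z.im) : log (-z) = log z - π * I := by
  apply Complex.ext
  · simp [log_re]
  · simp [log_im, arg_neg_eq_arg_sub_pi_of_im_pos h]

theorem e1_log_neg {z : ℂ} (h : z.im < 0) : log (-z) = log z + π * I := by
  apply Complex.ext
  · simp [log_re]
  · simp [log_im, arg_neg_eq_arg_add_pi_of_im_neg h]

/-- `Complex.integral_boundary_rect_eq_zero_of_differentiableOn` with `z = a + c I`,
`w = b + d I`. -/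
theorem rect_zero {F : ℂ → ℂ} {a b c d : ℝ} (hab : a ≤ b) (hcd : c ≤ d)
    (hF : ∀ s : ℂ, a ≤ s.re → s.re ≤ b → c ≤ s.im → s.im ≤ d → DifferentiableAt ℂ F s) :
    rect F a b c d = 0 := by
  have h := Complex.integral_boundary_rect_eq_zero_of_differentiableOn F (a + c * I) (b + d * I)
    (fun s hs => by
      rw [mem_reProdIm] at hs
      simp only [add_re, ofReal_re, mul_re, I_re, mul_zero, ofReal_im, I_im, mul_one, sub_self,
        add_zero, add_im, mul_im, zero_add, Set.uIcc_of_le hab, Set.uIcc_of_le hcd] at hs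
      exact (hF s hs.1.1 hs.1.2 hs.2.1 hs.2.2).differentiableWithinAt)
  simpa [rect] using h

/-- Fundamental theorem of calculus on each side: `log (s - ρ)` is a primitive on the right side,
on the bottom and on the top (there `s - ρ ∈ slitPlane`), `log (ρ - s)` on the left side; and
`log (-z) = log z - π I` for `0 < im z`, `log (-z) = log z + π I` for `im z < 0`
(`Complex.arg_neg_eq_arg_sub_pi_of_im_pos`, `Complex.arg_neg_eq_arg_add_pi_of_im_neg`). -/
theorem rect_inv {ρ : ℂ} {a b c d : ℝ} (ha : a < ρ.re) (hb : ρ.re < b) (hc : c < ρ.im)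
    (hd : ρ.im < d) : rect (fun s => (s - ρ)⁻¹) a b c d = 2 * π * I := by
  have h1 := e1_ftc (a := a) (b := b) (c * I - ρ) 1 (fun x _ => Or.inr (by simp; linarith))
  have h2 := e1_ftc (a := a) (b := b) (d * I - ρ) 1 (fun x _ => Or.inr (by simp; linarith))
  have h3 := e1_ftc (a := c) (b := d) (b - ρ) I (fun x _ => Or.inl (by simp; linarith))
  have h4 := e1_ftc (a := c) (b := d) (ρ - a) (-I) (fun x _ => Or.inl (by simp; linarith))
  have e1 : ∫ x in a..b, ((x : ℂ) + c * I - ρ)⁻¹ = ∫ x in a..b, 1 * (c * I - ρ + 1 * (x : ℂ))⁻¹ :=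
    intervalIntegral.integral_congr fun x _ => by
      show _ = 1 * (c * I - ρ + 1 * (x : ℂ))⁻¹
      rw [one_mul]; congr 1; ring
  have e2 : ∫ x in a..b, ((x : ℂ) + d * I - ρ)⁻¹ = ∫ x in a..b, 1 * (d * I - ρ + 1 * (x : ℂ))⁻¹ :=
    intervalIntegral.integral_congr fun x _ => by
      show _ = 1 * (d * I - ρ + 1 * (x : ℂ))⁻¹
      rw [one_mul]; congr 1; ring
  have e3 : I * ∫ y in c..d, ((b : ℂ) + y * I - ρ)⁻¹ =
      ∫ y in c..d, I * (b - ρ + I * (y : ℂ))⁻¹ := by
    rw [← intervalIntegral.integral_const_mul]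
    refine intervalIntegral.integral_congr fun x _ => ?_
    show I * ((b : ℂ) + x * I - ρ)⁻¹ = I * (b - ρ + I * (x : ℂ))⁻¹
    congr 2; ring
  have e4 : I * ∫ y in c..d, ((a : ℂ) + y * I - ρ)⁻¹ =
      ∫ y in c..d, -I * (ρ - a + -I * (y : ℂ))⁻¹ := by
    rw [← intervalIntegral.integral_const_mul]
    refine intervalIntegral.integral_congr fun x _ => ?_
    show I * ((a : ℂ) + x * I - ρ)⁻¹ = -I * (ρ - a + -I * (x : ℂ))⁻¹
    rw [show ρ - a + -I * (x : ℂ) = -((a : ℂ) + x * I - ρ) by ring, inv_neg]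
    ring
  have l1 := e1_log_pos (z := d * I - ρ + 1 * (a : ℂ)) (by simp; linarith)
  have l2 := e1_log_neg (z := c * I - ρ + 1 * (a : ℂ)) (by simp; linarith)
  unfold rect
  rw [e1, e2, e3, e4, h1, h2, h3, h4,
    show (b : ℂ) - ρ + I * d = d * I - ρ + 1 * b by ring,
    show (b : ℂ) - ρ + I * c = c * I - ρ + 1 * b by ring,
    show ρ - a + -I * (d : ℂ) = -(d * I - ρ + 1 * (a : ℂ)) by ring,
    show ρ - a + -I * (c : ℂ) = -(c * I - ρ + 1 * (a : ℂ)) by ring, l1, l2]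
  ring

/-- `F s / (s - ρ) = dslope F ρ s + F ρ (s - ρ)⁻¹` on the boundary; `dslope F ρ` is entire
(`Complex.differentiableOn_dslope`). -/
theorem rect_cauchy {F : ℂ → ℂ} (hF : Differentiable ℂ F) {ρ : ℂ} {a b c d : ℝ} (ha : a < ρ.re)
    (hb : ρ.re < b) (hc : c < ρ.im) (hd : ρ.im < d) :
    rect (fun s => F s * (s - ρ)⁻¹) a b c d = 2 * π * I * F ρ := by
  have hab : a ≤ b := by linarith
  have hcd : c ≤ d := by linarith
  have h2 : Differentiable ℂ (dslope F ρ) :=
    differentiableOn_univ.1 ((differentiableOn_dslope Filter.univ_mem).2 hF.differentiableOn)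
  rw [e1_congr (G := fun s => dslope F ρ s + F ρ * (s - ρ)⁻¹) hab hcd (fun s hs => by
      have hne := e1_ne ha hb hc hd hs
      show F s * (s - ρ)⁻¹ = dslope F ρ s + F ρ * (s - ρ)⁻¹
      rw [dslope_of_ne _ (sub_ne_zero.1 hne), slope_def_field, div_eq_mul_inv]
      ring),
    e1_add (F := dslope F ρ) (G := fun s => F ρ * (s - ρ)⁻¹) hab hcd
      (fun s _ => h2.continuous.continuousAt) (fun s hs =>
      continuousAt_const.mul (ContinuousAt.inv₀ (f := fun s : ℂ => s - ρ) (by fun_prop)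
        (e1_ne ha hb hc hd hs))),
    rect_zero hab hcd (fun s _ _ _ _ => h2 s), e1_cmul, rect_inv ha hb hc hd]
  ring

theorem e1_ms {F g : ℂ → ℂ} (hF : Differentiable ℂ F) (hg : Differentiable ℂ g) {a b c d : ℝ}
    (hab : a ≤ b) (hcd : c ≤ d)
    (h0 : ∀ s : ℂ, a ≤ s.re → s.re ≤ b → c ≤ s.im → s.im ≤ d → g s ≠ 0) (A : Multiset ℂ) :
    (∀ ρ ∈ A, a < ρ.re ∧ ρ.re < b ∧ c < ρ.im ∧ ρ.im < d) → ∀ f : ℂ → ℂ,
      (∀ s, f s = (A.map fun ρ => s - ρ).prod * g s) →
      (∀ s, e1_bd a b c d s → f s ≠ 0) ∧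
      rect (fun s => F s * (deriv f s / f s)) a b c d = 2 * π * I * (A.map F).sum := by
  induction A using Multiset.induction_on with
  | empty =>
    intro _ f hf
    have e : f = g := funext fun s => by simpa using hf s
    rw [e]
    refine ⟨fun s hs => h0 s hs.1 hs.2.1 hs.2.2.1 hs.2.2.2.1, ?_⟩
    rw [rect_zero (F := fun s => F s * (deriv g s / g s)) hab hcd (fun s h1 h2 h3 h4 => (hF s).mul
      ((hg.deriv s).div (hg s) (h0 s h1 h2 h3 h4)))]
    simp
  | cons ρ A ih =>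
    intro hA f hf
    obtain ⟨ha, hb, hc, hd⟩ := hA ρ (Multiset.mem_cons_self _ _)
    set u : ℂ → ℂ := fun s => (A.map fun z => s - z).prod * g s with hu
    have hud : Differentiable ℂ u :=
      (Pool.Agent.Lib.MP_e97e2b_nt.Ln.j1_diff A (fun z s => s - z) fun z => by fun_prop).mul hg
    obtain ⟨i1, i2⟩ := ih (fun z hz => hA z (Multiset.mem_cons_of_mem hz)) u (fun s => rfl)
    have e : f = fun s => (s - ρ) * u s := funext fun s => by
      rw [hf s, Multiset.map_cons, Multiset.prod_cons, mul_assoc]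
    have hder : ∀ s, deriv f s = u s + (s - ρ) * deriv u s := fun s => by
      rw [e]
      have := (((hasDerivAt_id s).sub_const ρ).fun_mul (hud s).hasDerivAt).deriv
      simpa using this
    refine ⟨fun s hs => by
      rw [e]; exact mul_ne_zero (e1_ne ha hb hc hd hs) (i1 s hs), ?_⟩
    rw [e1_congr (G := fun s => F s * (s - ρ)⁻¹ + F s * (deriv u s / u s)) hab hcd (fun s hs => by
        have t1 := e1_ne ha hb hc hd hs
        have t2 := i1 s hs
        show F s * (deriv f s / f s) = F s * (s - ρ)⁻¹ + F s * (deriv u s / u s)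
        rw [hder s, show f s = (s - ρ) * u s by rw [e]]
        field_simp),
      e1_add (F := fun s => F s * (s - ρ)⁻¹) (G := fun s => F s * (deriv u s / u s)) hab hcd
        (fun s hs => hF.continuous.continuousAt.mul
        (ContinuousAt.inv₀ (f := fun s : ℂ => s - ρ) (by fun_prop) (e1_ne ha hb hc hd hs)))
        (fun s hs => hF.continuous.continuousAt.mul
          (hud.deriv.continuous.continuousAt.div hud.continuous.continuousAt (i1 s hs))),
      rect_cauchy hF ha hb hc hd, i2, Multiset.map_cons, Multiset.sum_cons]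
    ring

/-- `Ln.j1_rem` with `K` the closed rectangle: `f = ∏ (s - ρ) * g` with `g ≠ 0` on `K`, so off the
zeros `f' / f = ∑ (s - ρ)⁻¹ + g' / g`; multiplicities by `Ln.j1_ord`; `rect_zero`, `rect_cauchy`. -/
theorem rect_logder {f F : ℂ → ℂ} (hf : Differentiable ℂ f) (hF : Differentiable ℂ F)
    {a b c d : ℝ} (hab : a < b) (hcd : c < d) (Z : Finset ℂ)
    (h1 : ∀ ρ ∈ Z, a < ρ.re ∧ ρ.re < b ∧ c < ρ.im ∧ ρ.im < d)
    (h2 : ∀ s : ℂ, a ≤ s.re → s.re ≤ b → c ≤ s.im → s.im ≤ d → f s = 0 → s ∈ Z) :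
    rect (fun s => F s * (deriv f s / f s)) a b c d =
      2 * π * I * ∑ ρ ∈ Z, (analyticOrderNatAt f ρ : ℂ) * F ρ := by
  have hf0 : f ≠ 0 := by
    intro h
    have h3 := h2 (a + c * I) (by simp) (by simp [hab.le]) (by simp) (by simp [hcd.le])
      (by rw [h]; rfl)
    have h4 := (h1 _ h3).1
    simp at h4
  obtain ⟨A, g, hA, hg, hg0, he⟩ := Pool.Agent.Lib.MP_e97e2b_nt.Ln.j1_rem
    {s : ℂ | a ≤ s.re ∧ s.re ≤ b ∧ c ≤ s.im ∧ s.im ≤ d} Z f hf hf0
    (fun s hs h => h2 s hs.1 hs.2.1 hs.2.2.1 hs.2.2.2 h)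
    (fun s hs => ⟨(h1 s hs).1.le, (h1 s hs).2.1.le, (h1 s hs).2.2.1.le, (h1 s hs).2.2.2.le⟩)
  have hAZ : ∀ ρ ∈ A, ρ ∈ Z := by
    intro ρ hρ
    have hK := hA ρ hρ
    refine h2 ρ hK.1 hK.2.1 hK.2.2.1 hK.2.2.2 ?_
    rw [he ρ, Multiset.prod_eq_zero (Multiset.mem_map.2 ⟨ρ, hρ, sub_self ρ⟩), zero_mul]
  rw [(e1_ms hF hg hab.le hcd.le (fun s t1 t2 t3 t4 => hg0 s ⟨t1, t2, t3, t4⟩) A
    (fun ρ hρ => h1 ρ (hAZ ρ hρ)) f he).2, Finset.sum_multiset_map_count]
  congr 1
  rw [Finset.sum_subset (s₂ := Z) (fun ρ hρ => hAZ ρ (Multiset.mem_toFinset.1 hρ))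
    (fun ρ _ hρ => by
      rw [Multiset.count_eq_zero_of_notMem (fun h => hρ (Multiset.mem_toFinset.2 h)), zero_smul])]
  refine Finset.sum_congr rfl fun ρ hρ => ?_
  have hK := h1 ρ hρ
  have ho := Pool.Agent.Lib.MP_e97e2b_nt.Ln.j1_ord A ρ g hg
    (hg0 ρ ⟨hK.1.le, hK.2.1.le, hK.2.2.1.le, hK.2.2.2.le⟩)
  rw [← funext he] at ho
  rw [nsmul_eq_mul, analyticOrderNatAt, ho]
  simp

end Pool.Agent.Lib.MP_778b46_nt.MA
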