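import Pool.Agent.Lib.MP_778b46_nt.MA.Defs
import Pool.Agent.Lib.MP_e97e2b_nt.Ln.J3

set_option autoImplicit false

noncomputable section

namespace Pool.Agent.Lib.MP_778b46_nt.MA

open Complex Finset MeasureTheory
open scoped Real ContDiff
open Pool.Agent.Lib.MP_03e5d0_nt (Sm ex ft bump)
open Pool.Agent.Lib.MP_778b46_nt.GX (Lf Lp)

/-! Zeros and the logarithmic derivative near the line of real part one. -/

/-- Isolated zeros of an entire function that is not identically zero, in a compact set. -/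
theorem zset_finite {f : ℂ → ℂ} (hf : Differentiable ℂ f) (h1 : f 1 ≠ 0) (δ T : ℝ) :
    (zset f δ T).Finite := by
  by_contra hinf
  have hsub : zset f δ T ⊆ Metric.closedBall (0 : ℂ) (|δ| + |T| + 1) := by
    rintro ρ ⟨-, h2, h3, h4⟩
    rw [Metric.mem_closedBall, dist_zero_right]
    have e1 := Complex.norm_le_abs_re_add_abs_im ρ
    have e2 : |ρ.re| ≤ |δ| + 1 := by
      rw [abs_le]
      constructor <;> linarith [le_abs_self δ, abs_nonneg δ]
    linarith [le_abs_self T]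
  obtain ⟨x, -, hx⟩ := Set.Infinite.exists_accPt_of_subset_isCompact hinf
    (isCompact_closedBall _ _) hsub
  have hA : AnalyticOnNhd ℂ f Set.univ := fun z _ => hf.analyticAt z
  refine h1 (hA.eqOn_zero_of_preconnected_of_frequently_eq_zero isPreconnected_univ
    (Set.mem_univ x) ?_ (Set.mem_univ 1))
  exact (accPt_iff_frequently_nhdsNE.1 hx).mono fun z hz => hz.1

theorem mem_zs {f : ℂ → ℂ} (hf : Differentiable ℂ f) (h1 : f 1 ≠ 0) {δ T : ℝ} {ρ : ℂ} :
    ρ ∈ zs f δ T ↔ f ρ = 0 ∧ 1 - δ ≤ ρ.re ∧ ρ.re ≤ 1 ∧ |ρ.im| ≤ T := by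
  rw [zs, dif_pos (zset_finite hf h1 δ T), Set.Finite.mem_toFinset]
  rfl

theorem one_le_ord {f : ℂ → ℂ} (hf : Differentiable ℂ f) (h1 : f 1 ≠ 0) {ρ : ℂ} (h : f ρ = 0) :
    1 ≤ analyticOrderNatAt f ρ := by
  have hA : AnalyticOnNhd ℂ f Set.univ := fun z _ => hf.analyticAt z
  have h2 : analyticOrderAt f ρ ≠ ⊤ :=
    hA.analyticOrderAt_ne_top_of_isPreconnected isPreconnected_univ (Set.mem_univ 1)
      (Set.mem_univ ρ) (by
        rw [(hf.analyticAt 1).analyticOrderAt_eq_zero.2 h1]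
        exact ENat.zero_ne_top)
  have h3 : analyticOrderAt f ρ ≠ 0 := (hf.analyticAt ρ).analyticOrderAt_ne_zero.2 h
  rw [Nat.one_le_iff_ne_zero]
  intro h0
  rw [← Nat.cast_analyticOrderNatAt h2, h0] at h3
  exact h3 rfl

theorem e2_ord (f : ℂ → ℂ) (w z : ℂ) :
    analyticOrderNatAt (fun s => f (s + w)) z = analyticOrderNatAt f (z + w) := by
  have h := analyticOrderAt_comp_of_deriv_ne_zero (f := f) (g := fun s => s + w) (z₀ := z)
    (by fun_prop) (by simp)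
  unfold analyticOrderNatAt
  exact congrArg ENat.toNat h

theorem e2_count (Z : Multiset ℂ) (S : Finset ℂ) (φ : ℂ → ℂ) (hφ : Function.Injective φ) :
    ∑ ρ ∈ S, (Z.count (φ ρ) : ℝ) ≤ Z.card := by
  have h1 : ∑ ρ ∈ S, Z.count (φ ρ) = ∑ z ∈ S.image φ, Z.count z :=
    (sum_image (f := fun z => Z.count z) fun x _ y _ h => hφ h).symm
  have h2 : ∑ z ∈ S.image φ, Z.count z ≤ ∑ z ∈ S.image φ ∪ Z.toFinset, Z.count z :=
    sum_le_sum_of_subset subset_union_left
  have h3 : ∑ z ∈ S.image φ ∪ Z.toFinset, Z.count z = Z.card :=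
    Multiset.sum_count_eq_card fun a ha => mem_union_right _ (Multiset.mem_toFinset.2 ha)
  exact_mod_cast h1.le.trans (h2.trans h3.le)

theorem e2_jen {f : ℂ → ℂ} {b T : ℝ} (hE : Ent f b T) {γ : ℝ} (hγ : |γ| ≤ T + 3) {δ : ℝ}
    (hδ : 0 < δ) (hδ' : δ ≤ 3 / 20) :
    ∃ (Z : Multiset ℂ) (h0 : ℂ),
      (∀ ρ, Z.count ρ = if ‖ρ - ((101 / 100 : ℝ) : ℂ)‖ ≤ δ then
        analyticOrderNatAt (fun s => f (s + γ * I)) ρ else 0) ∧
      (∀ ρ ∈ Z, ‖ρ - ((101 / 100 : ℝ) : ℂ)‖ ≤ δ ∧ f (ρ + γ * I) = 0) ∧ (Z.card : ℝ) ≤ 2 * b ∧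
      ‖h0‖ ≤ 100 * (2 * b) / δ ∧
      ∀ s : ℂ, ‖s - ((101 / 100 : ℝ) : ℂ)‖ ≤ δ / 2 → f (s + γ * I) ≠ 0 →
        ‖-deriv (fun s => f (s + γ * I)) s / f (s + γ * I) +
          (Z.map fun ρ => 1 / (s - ρ)).sum - h0‖ ≤
          100 * (2 * b) / δ ^ 2 * ‖s - ((101 / 100 : ℝ) : ℂ)‖ := by
  have hd : Differentiable ℂ fun s => f (s + γ * I) := hE.diff.comp (by fun_prop)
  obtain ⟨Z, h0, z1, z2, z3, -, z4, z5⟩ := MP_e97e2b_nt.Ln.jen _ hd (101 / 100) (3 / 10) δ b 0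
    (by norm_num) hδ (by linarith) hE.one le_rfl (fun s hs => by
      have y3 := abs_le.1 ((abs_re_le_norm _).trans hs)
      have y4 := abs_le.1 ((abs_im_le_norm _).trans hs)
      have y5 := abs_le.1 hγ
      simp only [sub_re, sub_im, ofReal_re, ofReal_im, sub_zero] at y3 y4
      rw [zero_mul, add_zero]
      refine hE.up _ ?_ ?_ ?_
      · simp only [add_re, mul_re, ofReal_re, ofReal_im, I_re, I_im]
        linarith
      · simp only [add_re, mul_re, ofReal_re, ofReal_im, I_re, I_im]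
        linarith
      · simp only [add_im, mul_im, ofReal_re, ofReal_im, I_re, I_im]
        rw [abs_le]
        constructor <;> linarith)
    (fun s _ hs => hE.lo _ (by
      simp only [add_re, mul_re, ofReal_re, ofReal_im, I_re, I_im]
      linarith))
  simp only [mul_zero, add_zero] at z3 z4 z5
  exact ⟨Z, h0, z1, z2, z3, z4, z5⟩

/-- `Ln.jen` for `s ↦ f (s + γ I)` with `c = 101/100`, `R = 3/10`, `δ = 3/20`, `P = 0` counts at
most `2 b` zeros in the disc of radius `3/20` around `c + γ I`; the discs with `γ = k / 10`,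
`|k| ≤ 10 (T + 2) + 1`, cover the box (`0.13 ^ 2 + 0.05 ^ 2 ≤ 0.15 ^ 2`). The order is invariant
under the translation (`analyticOrderAt_comp` type lemma or the characterisation
`AnalyticAt.analyticOrderAt_eq_natCast`). -/
theorem ent_count : ∃ C : ℝ, 1 ≤ C ∧ ∀ (f : ℂ → ℂ) (b T : ℝ), Ent f b T → 1 ≤ T →
    ∑ ρ ∈ zs f (3 / 25) (T + 2), (analyticOrderNatAt f ρ : ℝ) ≤ C * b * T := by
  refine ⟨126, by norm_num, fun f b T hE hT => ?_⟩
  have h1 : f 1 ≠ 0 := hE.ne 1 (by simp)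
  have hb := hE.one
  set K : ℕ := ⌊10 * (T + 2)⌋₊ + 1 with hK
  have hK1 : 10 * (T + 2) < K := by
    rw [hK]
    push_cast
    exact Nat.lt_floor_add_one _
  have hK2 : (K : ℝ) ≤ 10 * (T + 2) + 1 := by
    rw [hK]
    push_cast
    linarith [Nat.floor_le (show 0 ≤ 10 * (T + 2) by linarith)]
  have hmaps : ∀ ρ ∈ zs f (3 / 25) (T + 2), round (10 * ρ.im) ∈ Icc (-(K : ℤ)) K := by
    intro ρ hρ
    obtain ⟨-, -, -, h4⟩ := (mem_zs hE.diff h1).1 hρ
    have e1 := abs_le.1 (abs_sub_round (10 * ρ.im))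
    have e2 := abs_le.1 h4
    rw [mem_Icc]
    constructor
    · have : (-(K : ℤ) - 1 : ℤ) < round (10 * ρ.im) := by
        have : ((-(K : ℤ) - 1 : ℤ) : ℝ) < (round (10 * ρ.im) : ℤ) := by
          push_cast
          linarith
        exact_mod_cast this
      omega
    · have : round (10 * ρ.im) < (K : ℤ) + 1 := by
        have : ((round (10 * ρ.im) : ℤ) : ℝ) < (((K : ℤ) + 1 : ℤ) : ℝ) := by
          push_cast
          linarith
        exact_mod_cast this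
      omega
  rw [← sum_fiberwise_of_maps_to hmaps]
  have hk : ∀ k ∈ Icc (-(K : ℤ)) K, ∑ ρ ∈ zs f (3 / 25) (T + 2) with round (10 * ρ.im) = k,
      (analyticOrderNatAt f ρ : ℝ) ≤ 2 * b := by
    intro k hk
    have hk' : |(k : ℝ) / 10| ≤ T + 3 := by
      obtain ⟨k1, k2⟩ := mem_Icc.1 hk
      have k3 : (-(K : ℝ)) ≤ k := by exact_mod_cast k1
      have k4 : (k : ℝ) ≤ K := by exact_mod_cast k2
      rw [abs_le]
      constructor <;> linarith
    obtain ⟨Z, h0, z1, -, z3, -⟩ := e2_jen hE hk' (δ := 3 / 20) (by norm_num) le_rfl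
    refine le_trans ?_ z3
    refine le_trans (le_of_eq (sum_congr rfl fun ρ hρ => ?_))
      (e2_count Z _ (fun ρ => ρ - ((k : ℝ) / 10 : ℝ) * I) sub_left_injective)
    obtain ⟨hρ1, hρ2⟩ := mem_filter.1 hρ
    obtain ⟨-, h2, h3, -⟩ := (mem_zs hE.diff h1).1 hρ1
    have e1 := abs_le.1 (abs_sub_round (10 * ρ.im))
    rw [hρ2] at e1
    rw [z1, if_pos, e2_ord, sub_add_cancel]
    refine abs_le_of_sq_le_sq' ?_ (by norm_num) |>.2
    rw [Complex.sq_norm, Complex.normSq_apply]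
    simp only [sub_re, sub_im, mul_re, mul_im, ofReal_re, ofReal_im, I_re, I_im, mul_zero,
      mul_one, sub_zero, add_zero]
    nlinarith
  refine (sum_le_sum hk).trans ?_
  rw [sum_const, nsmul_eq_mul, Int.card_Icc]
  have e : ((((K : ℤ) + 1 - -(K : ℤ)).toNat : ℕ) : ℝ) = 2 * K + 1 := by
    have : ((K : ℤ) + 1 - -(K : ℤ)).toNat = 2 * K + 1 := by omega
    rw [this]
    push_cast
    ring
  rw [e]
  nlinarith

/-- `Ln.jen` for `z ↦ f (z + im s * I)` with `c = 101/100`, `R = 3/10`, `δ = 1/8`, `P = 0`, at the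
real point `re s`; the at most `2 b` zeros of the disc lie in `zs f (3/25 + ..)`: they have real
part in `[0.885, 1)` (`Ent.ne`) and height at most `T + 9/8`. -/
theorem ent_logder : ∃ C : ℝ, 1 ≤ C ∧ ∀ (f : ℂ → ℂ) (b T d : ℝ) (s : ℂ), Ent f b T → 1 ≤ T →
    19 / 20 ≤ s.re → s.re ≤ 101 / 100 → |s.im| ≤ T + 1 → 0 < d → d ≤ 1 →
    (∀ ρ ∈ zs f (3 / 25) (T + 2), d ≤ ‖s - ρ‖) → f s ≠ 0 ∧ ‖deriv f s / f s‖ ≤ C * b / d := by
  refine ⟨2402, by norm_num, fun f b T d s hE hT s1 s2 s3 hd hd1 hZ => ?_⟩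
  have h1 : f 1 ≠ 0 := hE.ne 1 (by simp)
  have hb := hE.one
  have hs : f s ≠ 0 := by
    intro h0
    have hre : s.re ≤ 1 := by
      by_contra h
      exact hE.ne s (not_le.1 h).le h0
    have := hZ s ((mem_zs hE.diff h1).2 ⟨h0, by linarith, hre, by linarith⟩)
    rw [sub_self, norm_zero] at this
    linarith
  refine ⟨hs, ?_⟩
  obtain ⟨Z, h0, -, z2, z3, z4, z5⟩ := e2_jen hE (γ := s.im) (by linarith) (δ := 1 / 8)
    (by norm_num) (by norm_num)
  have hn : ‖(s.re : ℂ) - ((101 / 100 : ℝ) : ℂ)‖ ≤ 1 / 8 / 2 := by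
    rw [← ofReal_sub, norm_real, Real.norm_eq_abs, abs_le]
    constructor <;> linarith
  have z6 := z5 s.re hn (by rwa [re_add_im])
  rw [deriv_comp_add_const, re_add_im] at z6
  have hS : ‖(Z.map fun ρ => 1 / ((s.re : ℂ) - ρ)).sum‖ ≤ 1 / d * (Z.map fun _ => (1 : ℝ)).sum := by
    refine MP_e97e2b_nt.Ln.j3_sum_le Z _ _ _ fun ρ hρ => ?_
    obtain ⟨y1, y2⟩ := z2 ρ hρ
    have y3 := abs_le.1 ((abs_re_le_norm _).trans y1)
    have y4 := abs_le.1 ((abs_im_le_norm _).trans y1)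
    simp only [sub_re, sub_im, ofReal_re, ofReal_im, sub_zero] at y3 y4
    have hre : (ρ + s.im * I).re ≤ 1 := by
      by_contra h
      exact hE.ne _ (not_le.1 h).le y2
    have y5 := abs_le.1 s3
    have y6 := hZ (ρ + s.im * I) ((mem_zs hE.diff h1).2 ⟨y2, by
      simp only [add_re, mul_re, ofReal_re, ofReal_im, I_re, I_im]
      linarith, hre, by
      simp only [add_im, mul_im, ofReal_re, ofReal_im, I_re, I_im]
      rw [abs_le]
      constructor <;> linarith⟩)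
    have e : s - (ρ + s.im * I) = s.re - ρ := by
      linear_combination -(re_add_im s)
    rw [e] at y6
    rw [norm_div, norm_one, mul_one]
    exact one_div_le_one_div_of_le hd y6
  simp only [Multiset.map_const', Multiset.sum_replicate, nsmul_eq_mul, mul_one] at hS
  have e : deriv f s / f s = (Z.map fun ρ => 1 / ((s.re : ℂ) - ρ)).sum - h0 -
      (-deriv f s / f s + (Z.map fun ρ => 1 / ((s.re : ℂ) - ρ)).sum - h0) := by ring
  have n1 := norm_sub_le ((Z.map fun ρ => 1 / ((s.re : ℂ) - ρ)).sum - h0)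
    (-deriv f s / f s + (Z.map fun ρ => 1 / ((s.re : ℂ) - ρ)).sum - h0)
  have n2 := norm_sub_le (Z.map fun ρ => 1 / ((s.re : ℂ) - ρ)).sum h0
  rw [← e] at n1
  have n3 : 100 * (2 * b) / (1 / 8) ^ 2 * ‖(s.re : ℂ) - ((101 / 100 : ℝ) : ℂ)‖ ≤
      100 * (2 * b) / (1 / 8) ^ 2 * (1 / 8 / 2) := by gcongr
  have n4 : 1 / d * (Z.card : ℝ) ≤ 1 / d * (2 * b) := by gcongr
  have n5 : b ≤ b / d := by
    rw [le_div_iff₀ hd]
    nlinarith
  have n6 : 1 / d * (2 * b) = 2 * (b / d) := by ring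
  have n7 : 2402 * b / d = 2402 * (b / d) := by ring
  have n8 : 100 * (2 * b) / (1 / 8) ^ 2 * (1 / 8 / 2) = 800 * b := by ring
  have n9 : 100 * (2 * b) / (1 / 8) = 1600 * b := by ring
  have n10 := (z6.trans n3).trans n8.le
  have n11 := z4.trans n9.le
  have n12 := (hS.trans n4).trans n6.le
  linarith

/-- Of the `card A + 1` midpoints `a + (i + 1/2) ℓ / (card A + 1)`, one has no point of `A` within
`ℓ / (4 (card A + 1))` (pigeonhole: a point of `A` is close to at most one midpoint). -/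
theorem gap (A : Finset ℝ) (a : ℝ) {ℓ : ℝ} (hℓ : 0 < ℓ) :
    ∃ x : ℝ, a < x ∧ x < a + ℓ ∧ ∀ y ∈ A, ℓ / (4 * (A.card + 1)) ≤ |x - y| := by
  by_contra hcon
  push Not at hcon
  set h : ℝ := ℓ / (A.card + 1) with hh
  have hN : (0 : ℝ) < A.card + 1 := by positivity
  have hpos : 0 < h := div_pos hℓ hN
  have hl : h * (A.card + 1) = ℓ := div_mul_cancel₀ ℓ hN.ne'
  have h4 : ℓ / (4 * (A.card + 1)) = h / 4 := by
    rw [hh]
    field_simp
  rw [h4] at hcon
  have key : ∀ i : ℕ, i ∈ range (A.card + 1) → ∃ y ∈ A, |a + (i + 1 / 2) * h - y| < h / 4 := by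
    intro i hi
    have hi' : (i : ℝ) ≤ A.card := by exact_mod_cast Nat.lt_succ_iff.1 (mem_range.1 hi)
    have hi0 : (0 : ℝ) ≤ i := Nat.cast_nonneg i
    refine hcon _ ?_ ?_
    · nlinarith
    · nlinarith
  choose! y hy1 hy2 using key
  obtain ⟨i, hi, j, hj, hij, he⟩ := exists_ne_map_eq_of_card_lt_of_maps_to
    (s := range (A.card + 1)) (t := A) (by simp) (f := y) hy1
  have e1 := abs_lt.1 (hy2 i hi)
  have e2 := abs_lt.1 (hy2 j hj)
  rw [he] at e1
  rcases lt_or_gt_of_ne hij with hlt | hlt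
  · have : (i : ℝ) + 1 ≤ j := by exact_mod_cast hlt
    nlinarith
  · have : (j : ℝ) + 1 ≤ i := by exact_mod_cast hlt
    nlinarith

end Pool.Agent.Lib.MP_778b46_nt.MA
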