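import Pool.Agent.Lib.MP_778b46_nt.MA.E1
import Pool.Agent.Lib.MP_778b46_nt.MA.E2

set_option autoImplicit false

noncomputable section

namespace Pool.Agent.Lib.MP_778b46_nt.MA

open Complex Finset MeasureTheory
open scoped Real ContDiff
open Pool.Agent.Lib.MP_03e5d0_nt (Sm ex ft bump)
open Pool.Agent.Lib.MP_778b46_nt.GX (Lf Lp)

/-! The contour shift. -/

theorem e3_side {F g : ℂ → ℂ} {a b c d T K M M₁ : ℝ} (hab : a ≤ b) (hab' : b ≤ a + 1) (hT : 1 ≤ T)
    (hc : c ≤ -T) (hc' : -T - 1 ≤ c) (hd : T ≤ d) (hd' : d ≤ T + 1) (hK : 0 ≤ K) (hM : 0 ≤ M)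
    (hM₁ : 0 ≤ M₁) (hA : Continuous fun y : ℝ => F (b + y * I) * g (b + y * I))
    (hg : ∀ s : ℂ, a ≤ s.re → s.re ≤ b → c ≤ s.im → s.im ≤ d →
      s.re = a ∨ s.re = b ∨ s.im = c ∨ s.im = d → ‖g s‖ ≤ K)
    (h0 : ∀ s : ℂ, s.re = a → ‖F s‖ ≤ M)
    (h1 : ∀ s : ℂ, a ≤ s.re → s.re ≤ b → T ≤ |s.im| → ‖F s‖ ≤ M₁) :
    ‖I * (∫ y in (-T)..T, F (b + y * I) * g (b + y * I)) - rect (fun s => F s * g s) a b c d‖ ≤
      4 * T * K * (M + M₁) := by
  have hcd : c ≤ d := by linarith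
  have hor : ∀ y : ℝ, (y = c ∨ y = d) →
      ‖∫ x in a..b, F (x + y * I) * g (x + y * I)‖ ≤ M₁ * K := fun y hy => by
    refine (intervalIntegral.norm_integral_le_of_norm_le_const (C := M₁ * K) fun x hx => ?_).trans
      (mul_le_of_le_one_right (by positivity) (abs_le.2 ⟨by linarith, by linarith⟩))
    rw [Set.uIoc_of_le hab] at hx
    rw [norm_mul]
    refine mul_le_mul (h1 _ (by simpa using hx.1.le) (by simpa using hx.2) ?_)
      (hg _ (by simpa using hx.1.le) (by simpa using hx.2) ?_ ?_ (by simp [hy])) (norm_nonneg _) hM₁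
    all_goals
      simp only [add_im, ofReal_im, mul_im, ofReal_re, I_im, I_re, mul_one, mul_zero, add_zero,
        zero_add, le_abs]
      rcases hy with rfl | rfl
    exacts [Or.inr (by linarith), Or.inl hd, le_rfl, hcd, hcd, le_rfl]
  have ver : ∀ (x u v N : ℝ), a ≤ x → x ≤ b → (x = a ∨ x = b) → c ≤ u → u ≤ v → v ≤ d → 0 ≤ N →
      (∀ y ∈ Set.Ioc u v, ‖F (x + y * I)‖ ≤ N) →
      ‖∫ y in u..v, F (x + y * I) * g (x + y * I)‖ ≤ N * K * (v - u) :=
    fun x u v N a1 a2 a3 a4 a5 a6 a7 a8 => by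
    refine (intervalIntegral.norm_integral_le_of_norm_le_const (C := N * K) fun y hy => ?_).trans_eq
      (by rw [abs_of_nonneg (sub_nonneg.2 a5)])
    rw [Set.uIoc_of_le a5] at hy
    rw [norm_mul]
    refine mul_le_mul (a8 y hy) (hg _ (by simpa using a1) (by simpa using a2)
      (by simpa using a4.trans hy.1.le) (by simpa using hy.2.trans a6) ?_) (norm_nonneg _) a7
    rcases a3 with rfl | rfl <;> simp
  have v0 := ver a c d M le_rfl hab (Or.inl rfl) le_rfl hcd le_rfl hM fun y _ => h0 _ (by simp)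
  have v1 := ver b c (-T) M₁ hab le_rfl (Or.inr rfl) le_rfl hc (by linarith) hM₁ fun y hy =>
    h1 _ (by simpa using hab) (by simp) (by simpa using le_abs.2 (Or.inr (by linarith [hy.2])))
  have v2 := ver b T d M₁ hab le_rfl (Or.inr rfl) (by linarith) hd le_rfl hM₁ fun y hy =>
    h1 _ (by simpa using hab) (by simp) (by simpa using le_abs.2 (Or.inl hy.1.le))
  have t0 := hor c (Or.inl rfl)
  have t1 := hor d (Or.inr rfl)
  rw [rect, ← intervalIntegral.integral_add_adjacent_intervals (b := T) (hA.intervalIntegrable c _)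
    (hA.intervalIntegrable _ d), ← intervalIntegral.integral_add_adjacent_intervals (b := -T)
    (hA.intervalIntegrable c _) (hA.intervalIntegrable _ T)]
  have key : ∀ R B U V W L : ℂ, ‖I * R - (B - U + I * (V + R + W) - I * L)‖ ≤
      ‖B‖ + ‖U‖ + ‖V‖ + ‖W‖ + ‖L‖ := fun R B U V W L => by
    have e : I * R - (B - U + I * (V + R + W) - I * L) = -B + U - I * V - I * W + I * L := by ring
    have n1 := norm_add_le (-B + U - I * V - I * W) (I * L)
    have n2 := norm_sub_le (-B + U - I * V) (I * W)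
    have n3 := norm_sub_le (-B + U) (I * V)
    have n4 := norm_add_le (-B) U
    simp only [norm_mul, norm_I, one_mul, norm_neg] at n1 n2 n3 n4
    rw [e]
    linarith
  refine (key _ _ _ _ _ _).trans ?_
  have p0 := mul_nonneg hM hK
  have p1 := mul_nonneg hM₁ hK
  nlinarith

theorem e3_gap (Z : Finset ℂ) (φ : ℂ → ℝ) (a : ℝ) {ℓ δ : ℝ} (h0 : 0 < δ) (h : δ ≤ ℓ) :
    ∃ x : ℝ, a < x ∧ x < a + ℓ ∧ ∀ ρ ∈ Z, δ / (4 * (Z.card + 1)) ≤ |x - φ ρ| := by
  obtain ⟨x, h1, h2, h3⟩ := gap (Z.image φ) a (h0.trans_le h)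
  refine ⟨x, h1, h2, fun ρ hρ => le_trans ?_ (h3 _ (mem_image_of_mem φ hρ))⟩
  have : ((Z.image φ).card : ℝ) ≤ Z.card := Nat.cast_le.2 card_image_le
  gcongr
  exact h0.le.trans h

/-- Let `Z = zs f (3/25) (T + 2)`, `n = card Z ≤ C b T` (`ent_count`, `one_le_ord`). By `gap` choose
`σ ∈ (1 - 2 δ, 1 - δ)` away from the real parts, `T₊ ∈ (T, T + 1)`, `T₋ ∈ (-T - 1, -T)` away from
the imaginary parts, at distance `d = δ / (4 (n + 1))`. `rect_logder` and `rect_cauchy` (`ρ = 1`)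
on `[σ, 101/100] × [T₋, T₊]`. On the left side, the top and the bottom
`‖f' / f‖ ≤ C b / d` (`ent_logder`), on the right side `d = 1 / 100`. The zeros of the rectangle
outside `zs f δ T` have real part `< 1 - δ` or height `> T`. -/
theorem ent_contour {δ : ℝ} (h0 : 0 < δ) (h1 : δ ≤ 1 / 40) : ∃ C : ℝ, 0 ≤ C ∧
    ∀ (f F : ℂ → ℂ) (e : ℂ) (b T X M₀ M₁ : ℝ), Ent f b T → 1 ≤ T → ‖e‖ ≤ 1 → 1 ≤ X → 0 ≤ M₀ →
    0 ≤ M₁ → Differentiable ℂ F →
    (∀ s : ℂ, 9 / 10 ≤ s.re → s.re ≤ 101 / 100 → ‖F s‖ ≤ M₀ * X ^ s.re) →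
    (∀ s : ℂ, 9 / 10 ≤ s.re → s.re ≤ 101 / 100 → T ≤ |s.im| → ‖F s‖ ≤ M₁) →
    ‖(2 * π : ℂ)⁻¹ * (∫ t in (-T)..T, F ((101 / 100 : ℝ) + t * I) *
        (-(deriv f ((101 / 100 : ℝ) + t * I) / f ((101 / 100 : ℝ) + t * I)) +
          e * (((101 / 100 : ℝ) + t * I) - 1)⁻¹)) -
      (e * F 1 - ∑ ρ ∈ zs f δ T, (analyticOrderNatAt f ρ : ℂ) * F ρ)‖ ≤
      C * b ^ 2 * T ^ 2 * (M₀ * X ^ (1 - δ) + M₁) := by
  classical
  obtain ⟨C1, hC1, H1⟩ := ent_count
  obtain ⟨C2, hC2, H2⟩ := ent_logder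
  refine ⟨64 * C1 * C2 / δ + C1, by positivity, fun f F e b T X M₀ M₁ hf hT he hX hM₀ hM₁ hF hF0
    hF1 => ?_⟩
  have hb := hf.one
  have f1 : f 1 ≠ 0 := hf.ne 1 le_rfl
  set Z := zs f (3 / 25) (T + 2) with hZ
  have hcount := H1 f b T hf hT
  have hcard : (Z.card : ℝ) ≤ C1 * b * T := by
    refine le_trans ?_ hcount
    rw [card_eq_sum_ones, Nat.cast_sum]
    exact sum_le_sum fun ρ hρ => Nat.cast_le.2 (one_le_ord hf.diff f1 ((mem_zs hf.diff f1).1 hρ).1)
  have hN : 1 ≤ C1 * b * T := one_le_mul_of_one_le_of_one_le (one_le_mul_of_one_le_of_one_le hC1 hb) hT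
  obtain ⟨σ, s1, s2, s3⟩ := e3_gap Z re (1 - 2 * δ) h0 le_rfl
  obtain ⟨U, u1, u2, u3⟩ := e3_gap Z im T (ℓ := 1) h0 (by linarith)
  obtain ⟨V, v1, v2, v3⟩ := e3_gap Z im (-T - 1) (ℓ := 1) h0 (by linarith)
  set d := δ / (4 * ((Z.card : ℝ) + 1)) with hd
  have d0 : 0 < d := by positivity
  have d1 : d ≤ δ / 4 := by
    rw [hd]
    gcongr
    nlinarith [(Nat.cast_nonneg Z.card : (0 : ℝ) ≤ _)]
  set K := C2 * b / d with hK
  have K1 : K ≤ 8 * C1 * C2 / δ * b ^ 2 * T := by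
    rw [hK, hd, div_div_eq_mul_div, div_mul_eq_mul_div, div_mul_eq_mul_div]
    gcongr ?_ / δ
    have : 0 ≤ C2 * b := by positivity
    nlinarith
  set M := M₀ * X ^ (1 - δ) with hM
  have M0 : 0 ≤ M := by positivity
  have hFl : ∀ s : ℂ, σ ≤ s.re → s.re ≤ 1 - δ → ‖F s‖ ≤ M := fun s a1 a2 =>
    (hF0 s (by linarith) (by linarith)).trans (by rw [hM]; gcongr)
  have hline : ∀ y : ℝ, (((101 / 100 : ℝ) : ℂ) + y * I).re = 101 / 100 := fun y => by simp
  have cl : Continuous fun y : ℝ => ((101 / 100 : ℝ) : ℂ) + y * I := by fun_prop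
  have cA : Continuous fun y : ℝ => F ((101 / 100 : ℝ) + y * I) *
      (deriv f ((101 / 100 : ℝ) + y * I) / f ((101 / 100 : ℝ) + y * I)) :=
    (hF.continuous.comp cl).mul ((hf.diff.deriv.continuous.comp cl).div
      (hf.diff.continuous.comp cl) fun y => hf.ne _ (by rw [hline]; norm_num))
  have cB : Continuous fun y : ℝ => F ((101 / 100 : ℝ) + y * I) *
      (((101 / 100 : ℝ) : ℂ) + y * I - 1)⁻¹ :=
    (hF.continuous.comp cl).mul ((cl.sub continuous_const).inv₀ fun y h => by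
      have := (hline y).symm.trans (congrArg re (sub_eq_zero.1 h))
      norm_num at this)
  have side : ∀ g : ℂ → ℂ, _ → _ → _ := fun g => e3_side (F := F) (g := g) (a := σ)
    (b := 101 / 100) (c := V) (d := U) (T := T) (K := K) (M := M) (M₁ := M₁) (by linarith)
    (by linarith) hT (by linarith) v1.le u1.le u2.le (by positivity) M0 hM₁
  have hF1' : ∀ s : ℂ, σ ≤ s.re → s.re ≤ 101 / 100 → T ≤ |s.im| → ‖F s‖ ≤ M₁ := fun s a1 =>
    hF1 s (by linarith)
  have hre : ∀ s ρ : ℂ, |s.re - ρ.re| ≤ ‖s - ρ‖ := fun s ρ => abs_re_le_norm (s - ρ)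
  have him : ∀ s ρ : ℂ, |s.im - ρ.im| ≤ ‖s - ρ‖ := fun s ρ => abs_im_le_norm (s - ρ)
  have eA := side (fun s => deriv f s / f s) cA (fun s a1 a2 a3 a4 a5 => by
    refine (H2 f b T d s hf hT (by linarith) a2 (abs_le.2 ⟨by linarith, by linarith⟩) d0
      (by linarith) fun ρ hρ => ?_).2
    rcases a5 with h | h | h | h
    · exact (h ▸ s3 ρ hρ).trans (hre s ρ)
    · have := ((mem_zs hf.diff f1).1 hρ).2.2.1
      exact le_trans (le_abs.2 (Or.inl (by linarith))) (hre s ρ)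
    · exact (h ▸ v3 ρ hρ).trans (him s ρ)
    · exact (h ▸ u3 ρ hρ).trans (him s ρ)) (fun s h => hFl s h.ge (by linarith)) hF1'
  have eB := side (fun s => (s - 1)⁻¹) cB (fun s a1 a2 a3 a4 a5 => by
    have b1 : d ≤ ‖s - 1‖ := by
      have r1 := hre s 1
      have r2 := him s 1
      rw [one_re] at r1
      rw [one_im, sub_zero] at r2
      rcases a5 with h | h | h | h
      · exact le_trans (le_abs.2 (Or.inr (by linarith))) r1
      · exact le_trans (le_abs.2 (Or.inl (by linarith))) r1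
      · exact le_trans (le_abs.2 (Or.inr (by linarith))) r2
      · exact le_trans (le_abs.2 (Or.inl (by linarith))) r2
    rw [norm_inv, ← one_div, hK]
    gcongr
    exact one_le_mul_of_one_le_of_one_le hC2 hb) (fun s h => hFl s h.ge (by linarith)) hF1'
  set Z' := Z.filter fun ρ => σ < ρ.re ∧ V < ρ.im ∧ ρ.im < U with hZ'
  rw [rect_logder hf.diff hF (by linarith) (by linarith) Z' (fun ρ hρ => by
      obtain ⟨a1, a2⟩ := mem_filter.1 hρ
      exact ⟨a2.1, by linarith [((mem_zs hf.diff f1).1 a1).2.2.1], a2.2⟩)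
    (fun s a1 a2 a3 a4 a5 => by
      have b1 : s ∈ Z := (mem_zs hf.diff f1).2 ⟨a5, by linarith,
        not_lt.1 fun h => hf.ne s h.le a5, abs_le.2 ⟨by linarith, by linarith⟩⟩
      have ne : ∀ x y : ℝ, d ≤ |x - y| → x ≠ y := fun x y h h' => by
        rw [h', sub_self, abs_zero] at h
        linarith
      exact mem_filter.2 ⟨b1, a1.lt_of_ne (ne _ _ (s3 s b1)), a3.lt_of_ne (ne _ _ (v3 s b1)),
        a4.lt_of_ne' (ne _ _ (u3 s b1))⟩)] at eA
  rw [rect_cauchy hF (by rw [one_re]; linarith) (by rw [one_re]; linarith)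
    (by rw [one_im]; linarith) (by rw [one_im]; linarith)] at eB
  have hsub : zs f δ T ⊆ Z' := fun ρ hρ => by
    obtain ⟨a1, a2, a3, a4⟩ := (mem_zs hf.diff f1).1 hρ
    obtain ⟨a5, a6⟩ := abs_le.1 a4
    exact mem_filter.2 ⟨(mem_zs hf.diff f1).2 ⟨a1, by linarith, a3, by linarith⟩, by linarith,
      by linarith, by linarith⟩
  have eZ : ‖∑ ρ ∈ Z' \ zs f δ T, (analyticOrderNatAt f ρ : ℂ) * F ρ‖ ≤ C1 * b * T * (M + M₁) := by
    refine (norm_sum_le_of_le (n := fun ρ => (analyticOrderNatAt f ρ : ℝ) * (M + M₁)) _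
      fun ρ hρ => ?_).trans ?_
    · obtain ⟨a1, a2⟩ := mem_sdiff.1 hρ
      obtain ⟨a3, a4, -⟩ := mem_filter.1 a1
      obtain ⟨a5, -, a6, -⟩ := (mem_zs hf.diff f1).1 a3
      rw [norm_mul, Complex.norm_natCast]
      refine mul_le_mul_of_nonneg_left ?_ (Nat.cast_nonneg _)
      rcases le_or_gt ρ.re (1 - δ) with h | h
      · linarith [hFl ρ a4.le h]
      · have := hF1' ρ a4.le (by linarith) (not_lt.1 fun h' =>
          a2 ((mem_zs hf.diff f1).2 ⟨a5, h.le, a6, h'.le⟩))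
        linarith
    · rw [← sum_mul]
      refine mul_le_mul_of_nonneg_right (le_trans (sum_le_sum_of_subset_of_nonneg
        (sdiff_subset.trans (filter_subset _ _)) fun _ _ _ => Nat.cast_nonneg _) hcount)
        (by positivity)
  rw [← sum_sdiff hsub] at eA
  have eI : ∫ t in (-T)..T, F ((101 / 100 : ℝ) + t * I) *
      (-(deriv f ((101 / 100 : ℝ) + t * I) / f ((101 / 100 : ℝ) + t * I)) +
        e * (((101 / 100 : ℝ) + t * I) - 1)⁻¹) =
      e * (∫ y in (-T)..T, F ((101 / 100 : ℝ) + y * I) * (((101 / 100 : ℝ) : ℂ) + y * I - 1)⁻¹) -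
        ∫ y in (-T)..T, F ((101 / 100 : ℝ) + y * I) *
          (deriv f ((101 / 100 : ℝ) + y * I) / f ((101 / 100 : ℝ) + y * I)) := by
    rw [← intervalIntegral.integral_const_mul, ← intervalIntegral.integral_sub
      ((cB.intervalIntegrable _ _).const_mul e) (cA.intervalIntegrable _ _)]
    exact intervalIntegral.integral_congr fun t _ => by ring
  rw [eI]
  have key : ∀ A B R S E : ℂ, ‖(2 * π : ℂ)⁻¹ * (e * B - A) - (e * E - S)‖ ≤
      ‖I * B - 2 * π * I * E‖ + ‖I * A - 2 * π * I * (R + S)‖ + ‖R‖ := fun A B R S E => by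
    have hπ : (π : ℂ) ≠ 0 := ofReal_ne_zero.2 Real.pi_ne_zero
    have e1 : (2 * π : ℂ)⁻¹ * (e * B - A) - (e * E - S) = (2 * π * I)⁻¹ *
        (e * (I * B - 2 * π * I * E) - (I * A - 2 * π * I * (R + S))) - R := by
      field_simp
      ring
    have e2 : ‖(2 * π * I : ℂ)⁻¹‖ ≤ 1 := by
      rw [norm_inv, norm_mul, norm_mul, norm_I, norm_real, Real.norm_of_nonneg Real.pi_pos.le,
        Complex.norm_two]
      exact inv_le_one_of_one_le₀ (by linarith [Real.pi_gt_three])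
    rw [e1]
    refine (norm_sub_le _ _).trans (add_le_add ?_ le_rfl)
    rw [norm_mul]
    refine (mul_le_of_le_one_left (norm_nonneg _) e2).trans ((norm_sub_le _ _).trans
      (add_le_add ?_ le_rfl))
    rw [norm_mul]
    exact mul_le_of_le_one_left (norm_nonneg _) he
  refine (key _ _ _ _ _).trans ((add_le_add (add_le_add eB eA) eZ).trans ?_)
  have f2 : 8 * T * K + C1 * b * T ≤ (64 * C1 * C2 / δ + C1) * b ^ 2 * T ^ 2 := by
    have g1 : 8 * T * K ≤ 64 * C1 * C2 / δ * b ^ 2 * T ^ 2 :=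
      (mul_le_mul_of_nonneg_left K1 (by positivity)).trans_eq (by ring)
    have g2 : 1 ≤ b * T := one_le_mul_of_one_le_of_one_le hb hT
    nlinarith [mul_le_mul_of_nonneg_left g2 (zero_le_one.trans hN)]
  nlinarith [mul_le_mul_of_nonneg_right f2 (add_nonneg M0 hM₁)]

end Pool.Agent.Lib.MP_778b46_nt.MA
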