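import Pool.Agent.Lib.MP_778b46_nt.MA.O1
import Pool.Agent.Lib.MP_c03ca8_nt.Q.LSMul
import Pool.Agent.Lib.MP_c03ca8_nt.Q.Char

set_option autoImplicit false

noncomputable section

namespace Pool.Agent.Lib.MP_778b46_nt.MA

open Complex Finset MeasureTheory
open scoped Real ContDiff
open Pool.Agent.Lib.MP_03e5d0_nt (Sm ex ft bump)
open Pool.Agent.Lib.MP_778b46_nt.GX (Lf Lp)

/-! The Gauss sum of an imprimitive character. -/

theorem f0_sum (M : ℕ) [NeZero M] (g : ZMod M → ℂ) : ∑ a, g a = ∑ k ∈ range M, g k := by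
  symm
  refine Finset.sum_nbij' (fun k => (k : ZMod M)) (fun a => a.val) ?_ ?_ ?_ ?_ ?_
  · exact fun k _ => Finset.mem_univ _
  · exact fun a _ => Finset.mem_range.2 (ZMod.val_lt a)
  · exact fun k hk => ZMod.val_cast_of_lt (Finset.mem_range.1 hk)
  · exact fun a _ => ZMod.natCast_zmod_val a
  · exact fun k _ => rfl

theorem f0_ne {p : ℕ} (hp : 1 < p) : ee (1 / p) ≠ 1 := by
  intro h
  obtain ⟨n, hn⟩ := Complex.exp_eq_one_iff.1 h
  have h1 : (((1 / p : ℝ)) : ℂ) = n :=
    mul_left_cancel₀ Complex.two_pi_I_ne_zero (by rw [hn]; ring)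
  have h2 : (1 / p : ℝ) = n := by exact_mod_cast h1
  have h3 : (1 : ℝ) < p := by exact_mod_cast hp
  have h4 : (0 : ℝ) < n := h2 ▸ by positivity
  have h5 : (n : ℝ) < 1 := h2 ▸ (div_lt_one (by linarith)).2 h3
  have h6 : 0 < n := by exact_mod_cast h4
  have h7 : n < 1 := by exact_mod_cast h5
  omega

theorem f0_vanish {p M : ℕ} (hp : 1 < p) (hM : 0 < M) (F : ℕ → ℂ) (hF : ∀ a, F (M + a) = F a) :
    ∑ a ∈ range (p * M), F a * ee (a / (p * M : ℕ)) = 0 := by
  have hp' : (p : ℝ) ≠ 0 := by positivity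
  have hM' : (M : ℝ) ≠ 0 := by positivity
  have hF' : ∀ j a, F (j * M + a) = F a := fun j a => by
    induction j with
    | zero => simp
    | succ j ih => rw [show (j + 1) * M + a = M + (j * M + a) by ring, hF, ih]
  set g : ℕ → ℂ := fun a => F a * ee (a / (p * M : ℕ)) with hg
  have h1 : ∀ a, g (M + a) = g a * ee (1 / p) := fun a => by
    simp only [hg]
    rw [hF, mul_assoc, ← ee_add]
    congr 2
    push_cast
    field_simp
    ring
  have h2 : ∀ a, g (p * M + a) = g a := fun a => by
    simp only [hg]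
    rw [hF', show (((p * M + a : ℕ) : ℝ) / (p * M : ℕ)) = a / (p * M : ℕ) + (1 : ℤ) by
      push_cast
      field_simp
      ring, ee_add, ee_int, mul_one]
  have h3 := Finset.sum_range_add g (p * M) M
  rw [add_comm, Finset.sum_range_add] at h3
  simp only [h1, h2] at h3
  rw [← Finset.sum_mul] at h3
  have h4 : (∑ a ∈ range (p * M), g a) * (ee (1 / p) - 1) = 0 := by linear_combination h3
  exact (mul_eq_zero.1 h4).resolve_right (sub_ne_zero.2 (f0_ne hp))

/-- The Gauss sum of the character induced to the level `M`. -/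
def f0_G {r : ℕ} (ψ : DirichletCharacter ℂ r) (M : ℕ) : ℂ :=
  ∑ a ∈ range M, (if Nat.Coprime a M then ψ a else 0) * ee (a / M)

theorem f0_step {r p M : ℕ} (ψ : DirichletCharacter ℂ r) (hp : p.Prime) (hM : 0 < M)
    (hr : r ∣ M) : f0_G ψ (p * M) = if p ∣ M then 0 else -ψ p * f0_G ψ M := by
  have h0 := f0_vanish hp.one_lt hM (fun a => if Nat.Coprime a M then ψ a else 0) fun a => by
    simp only [Nat.coprime_self_add_left, Nat.cast_add, (ZMod.natCast_eq_zero_iff M r).2 hr,
      zero_add]
  split_ifs with h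
  · rw [← h0]
    refine Finset.sum_congr rfl fun a _ => ?_
    have : Nat.Coprime a (p * M) ↔ Nat.Coprime a M :=
      ⟨fun e => e.coprime_mul_left_right, fun e => (e.coprime_dvd_right h).mul_right e⟩
    simp only [this]
  · have hc : Nat.Coprime p M := (Nat.Prime.coprime_iff_not_dvd hp).2 h
    have he : (range (p * M)).filter (fun a => p ∣ a) = (range M).image fun b => p * b := by
      ext a
      simp only [Finset.mem_filter, Finset.mem_range, Finset.mem_image]
      constructor
      · rintro ⟨h1, b, rfl⟩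
        exact ⟨b, lt_of_mul_lt_mul_left h1 (Nat.zero_le _), rfl⟩
      · rintro ⟨b, h1, rfl⟩
        exact ⟨Nat.mul_lt_mul_of_pos_left h1 hp.pos, dvd_mul_right _ _⟩
    rw [← Finset.sum_filter_add_sum_filter_not _ (fun a => p ∣ a), he,
      Finset.sum_image fun a _ b _ e => Nat.eq_of_mul_eq_mul_left hp.pos e] at h0
    have h1 : ∑ b ∈ range M, (if Nat.Coprime (p * b) M then ψ (p * b : ℕ) else 0) *
        ee ((p * b : ℕ) / (p * M : ℕ)) = ψ p * f0_G ψ M := by
      rw [f0_G, Finset.mul_sum]
      refine Finset.sum_congr rfl fun b _ => ?_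
      have e1 : Nat.Coprime (p * b) M ↔ Nat.Coprime b M :=
        ⟨fun e => e.coprime_mul_left, fun e => hc.mul_left e⟩
      have e2 : (((p * b : ℕ) : ℝ) / (p * M : ℕ)) = b / M := by
        push_cast
        exact mul_div_mul_left _ _ (by exact_mod_cast hp.ne_zero)
      rw [e2]
      simp only [e1, Nat.cast_mul, map_mul]
      split_ifs <;> ring
    have h2 : ∑ a ∈ (range (p * M)).filter (fun a => ¬p ∣ a),
        (if Nat.Coprime a M then ψ a else 0) * ee (a / (p * M : ℕ)) = f0_G ψ (p * M) := by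
      rw [f0_G, Finset.sum_filter]
      refine Finset.sum_congr rfl fun a _ => ?_
      have : Nat.Coprime a (p * M) ↔ ¬p ∣ a ∧ Nat.Coprime a M := by
        rw [Nat.coprime_mul_iff_right, Nat.coprime_comm, hp.coprime_iff_not_dvd]
      simp only [this]
      by_cases e : p ∣ a <;> simp [e]
    rw [h1, h2] at h0
    linear_combination h0

theorem f0_ind {r : ℕ} (hr : 0 < r) (ψ : DirichletCharacter ℂ r) (k : ℕ) : 0 < k →
    ‖f0_G ψ (r * k)‖ ≤ ‖f0_G ψ r‖ ∧ (f0_G ψ (r * k) ≠ 0 → Nat.Coprime r k) := by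
  induction k using induction_on_primes with
  | zero => exact fun h => absurd h (lt_irrefl 0)
  | one => exact fun _ => ⟨by rw [mul_one], fun _ => Nat.coprime_one_right r⟩
  | prime_mul p k hp ih =>
    intro h
    have hk : 0 < k := Nat.pos_of_mul_pos_left h
    obtain ⟨i1, i2⟩ := ih hk
    rw [mul_left_comm, f0_step ψ hp (Nat.mul_pos hr hk) (dvd_mul_right _ _)]
    split_ifs with e
    · exact ⟨by rw [norm_zero]; exact norm_nonneg _, fun e => absurd rfl e⟩
    · refine ⟨?_, fun e1 => Nat.Coprime.mul_right ?_ (i2 (right_ne_zero_of_mul e1))⟩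
      · rw [norm_mul, norm_neg]
        exact (mul_le_of_le_one_left (norm_nonneg _) (ψ.norm_le_one _)).trans i1
      · exact (hp.coprime_iff_not_dvd.2 fun e2 => e (e2.mul_right _)).symm

theorem f0_prim {r : ℕ} [NeZero r] {ψ : DirichletCharacter ℂ r} (hψ : ψ.IsPrimitive) :
    ‖f0_G ψ r‖ = √r := by
  have hp : DirichletCharacter.IsPrimitive ψ⁻¹ := by
    rw [DirichletCharacter.isPrimitive_def, DirichletCharacter.conductor_inv]
    exact hψ
  have h := MP_c03ca8_nt.Q.lsmul_norm_gauss hp
  have e : gaussSum ψ (ZMod.stdAddChar (N := r)) = f0_G ψ r := by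
    rw [gaussSum, f0_sum, f0_G]
    refine Finset.sum_congr rfl fun a _ => ?_
    congr 1
    · split_ifs with h1
      · rfl
      · exact ψ.map_nonunit fun h2 => h1 ((ZMod.isUnit_iff_coprime a r).1 h2)
    · have := ZMod.stdAddChar_coe (N := r) (a : ℤ)
      rw [Int.cast_natCast] at this
      rw [this, ee]
      congr 1
      push_cast
      ring
  rw [inv_inv, e] at h
  rw [← h, Real.sqrt_sq (norm_nonneg _)]

variable {N : ℕ} [NeZero N]

/-- Let `r` be the conductor, `ψ` the primitive character, `N = r k`. If a prime `p` divides `r`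
and `k`, then `ξ` is periodic modulo `N / p` as a function on the integers (`char_eq_prim`), and
the shift `a ↦ a + N / p` multiplies the sum by `e (1 / p) ≠ 1`. If `r` and `k` are coprime, the
Chinese remainder theorem `a = k x + r y` gives `ψ k * gaussSum ψ * ∑ y coprime to k, e (y / k)`,
and the last sum has norm at most one (it is `μ k`; `MP_aa40d3_nt/Equi.lean` has
`sum_primitiveRoots_norm`, or induct over the primes of `k` with the same shift argument, or use
Moebius inversion and `∑ d ∣ k` of these sums `= [k = 1]`). `lsmul_norm_gauss` gives `√r`. -/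
theorem gs_top (ξ : DirichletCharacter ℂ N) :
    ‖GS ξ N 1‖ ≤ √ξ.conductor ∧ (GS ξ N 1 ≠ 0 → Nat.Coprime ξ.conductor (N / ξ.conductor)) := by
  have : NeZero ξ.conductor := ⟨ξ.conductor_ne_zero⟩
  have hr : 0 < ξ.conductor := Nat.pos_of_ne_zero ξ.conductor_ne_zero
  have e : GS ξ N 1 = f0_G ξ.primitiveCharacter N := by
    rw [GS, f0_sum, f0_G]
    refine Finset.sum_congr rfl fun a ha => ?_
    rw [MP_c03ca8_nt.Q.char_eq_prim, ZMod.val_cast_of_lt (Finset.mem_range.1 ha), Int.cast_one,
      mul_one]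
  have h := f0_ind hr ξ.primitiveCharacter (N / ξ.conductor)
    (Nat.div_pos (Nat.le_of_dvd (NeZero.pos N) ξ.conductor_dvd_level) hr)
  rwa [Nat.mul_div_cancel' ξ.conductor_dvd_level, ← e,
    f0_prim ξ.primitiveCharacter_isPrimitive] at h

end Pool.Agent.Lib.MP_778b46_nt.MA
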