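import Pool.Agent.Lib.MP_778b46_nt.MA.F0

set_option autoImplicit false

noncomputable section

namespace Pool.Agent.Lib.MP_778b46_nt.MA

open Complex Finset MeasureTheory
open scoped Real ContDiff
open Pool.Agent.Lib.MP_03e5d0_nt (Sm ex ft bump)
open Pool.Agent.Lib.MP_778b46_nt.GX (Lf Lp)

/-! Generalised Gauss sums. -/

variable {N : ℕ} [NeZero N]

theorem f1_ee {q : ℕ} (hq : 0 < q) {x y : ℤ} (h : x ≡ y [ZMOD q]) :
    ee ((x : ℝ) / q) = ee ((y : ℝ) / q) := by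
  obtain ⟨k, hk⟩ := h.dvd
  have hq' : (q : ℝ) ≠ 0 := Nat.cast_ne_zero.2 hq.ne'
  have h1 : (y : ℝ) / q = (x : ℝ) / q + (k : ℤ) := by
    have h2 : (y : ℝ) = x + q * k := by exact_mod_cast (by linarith : y = x + q * k)
    rw [h2]
    field_simp
  rw [h1, ee_add, ee_int, mul_one]

theorem f1_val {q : ℕ} [NeZero q] (hq : q ∣ N) (u : (ZMod N)ˣ) :
    ((ZMod.unitsMap hq u : (ZMod q)ˣ) : ZMod q).val = (u : ZMod N).val % q := by
  rw [ZMod.unitsMap_val, ZMod.cast_eq_val, ZMod.val_natCast]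

/-- All fibres of the surjective homomorphism `ZMod.unitsMap hq` have the same size
(`ZMod.unitsMap_surjective`, `MonoidHom.card_fiber_eq_of_mem_range`, `ZMod.card_units_eq_totient`,
`Finset.sum_fiberwise`). -/
theorem sum_fibre {q : ℕ} [NeZero q] (hq : q ∣ N) (F : (ZMod q)ˣ → ℂ) :
    ∑ u : (ZMod N)ˣ, F (ZMod.unitsMap hq u) =
      (Nat.totient N : ℂ) / Nat.totient q * ∑ w : (ZMod q)ˣ, F w := by
  classical
  have hs := ZMod.unitsMap_surjective hq
  have hc : ∀ w : (ZMod q)ˣ, #{u : (ZMod N)ˣ | ZMod.unitsMap hq u = w} =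
      #{u : (ZMod N)ˣ | ZMod.unitsMap hq u = 1} := fun w =>
    MonoidHom.card_fiber_eq_of_mem_range (ZMod.unitsMap hq) (hs w) (hs 1)
  have key : ∀ G : (ZMod q)ˣ → ℂ, ∑ u : (ZMod N)ˣ, G (ZMod.unitsMap hq u) =
      (#{u : (ZMod N)ˣ | ZMod.unitsMap hq u = 1} : ℂ) * ∑ w : (ZMod q)ˣ, G w := by
    intro G
    rw [← Finset.sum_fiberwise univ (fun u : (ZMod N)ˣ => ZMod.unitsMap hq u), Finset.mul_sum]
    refine Finset.sum_congr rfl fun w _ => ?_
    rw [Finset.sum_congr rfl (g := fun _ => G w) fun u hu => by rw [(Finset.mem_filter.1 hu).2]]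
    rw [Finset.sum_const, hc w, nsmul_eq_mul]
  have h1 := key fun _ => 1
  simp only [Finset.sum_const, Finset.card_univ, ZMod.card_units_eq_totient, nsmul_eq_mul,
    mul_one] at h1
  have hq0 : (Nat.totient q : ℂ) ≠ 0 :=
    Nat.cast_ne_zero.2 (Nat.totient_pos.2 (Nat.pos_of_ne_zero (NeZero.ne q))).ne'
  rw [key F, h1, mul_div_cancel_right₀ _ hq0]

/-- The reduced residues modulo `q` are the values of the units; `sum_fibre`; the value of
`unitsMap hq u` is `u.val % q`. -/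
theorem sum_cop {q : ℕ} (hq : q ∣ N) (F : ℕ → ℂ) :
    ∑ c ∈ cop q, F c =
      (Nat.totient q : ℂ) / Nat.totient N * ∑ u : (ZMod N)ˣ, F ((u : ZMod N).val % q) := by
  have hq0 : 0 < q := Nat.pos_of_dvd_of_pos hq (Nat.pos_of_ne_zero (NeZero.ne N))
  have : NeZero q := ⟨hq0.ne'⟩
  have h1 := sum_fibre hq fun w => F (w : ZMod q).val
  simp only [f1_val hq] at h1
  have h2 : ∑ c ∈ cop q, F c = ∑ w : (ZMod q)ˣ, F (w : ZMod q).val := by
    symm
    refine Finset.sum_bij (fun w _ => (w : ZMod q).val) (fun w _ => ?_) (fun w _ w' _ hw => ?_)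
      (fun c hc => ?_) (fun _ _ => rfl)
    · exact Finset.mem_filter.2 ⟨Finset.mem_range.2 (ZMod.val_lt _), ZMod.val_coe_unit_coprime w⟩
    · exact Units.ext (ZMod.val_injective q hw)
    · obtain ⟨h3, h4⟩ := Finset.mem_filter.1 hc
      refine ⟨ZMod.unitOfCoprime c h4, Finset.mem_univ _, ?_⟩
      rw [ZMod.coe_unitOfCoprime, ZMod.val_cast_of_lt (Finset.mem_range.1 h3)]
  have hq1 : (Nat.totient q : ℂ) ≠ 0 := Nat.cast_ne_zero.2 (Nat.totient_pos.2 hq0).ne'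
  have hN1 : (Nat.totient N : ℂ) ≠ 0 :=
    Nat.cast_ne_zero.2 (Nat.totient_pos.2 (Nat.pos_of_ne_zero (NeZero.ne N))).ne'
  rw [h1, h2]
  field_simp

/-- `ξ` vanishes off the units. -/
theorem gs_units (ξ : DirichletCharacter ℂ N) (q : ℕ) (h : ℤ) :
    GS ξ q h = ∑ u : (ZMod N)ˣ, ξ u * ee ((u : ZMod N).val * h / q) := by
  classical
  unfold GS
  symm
  refine Finset.sum_bij_ne_zero (fun u _ _ => (u : ZMod N)) (fun _ _ _ => Finset.mem_univ _)
    (fun u _ _ u' _ _ hu => Units.ext hu) (fun a _ ha => ?_) (fun _ _ _ => rfl)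
  by_cases hu : IsUnit a
  · obtain ⟨u, rfl⟩ := hu
    exact ⟨u, Finset.mem_univ _, ha, rfl⟩
  · exact absurd (by rw [ξ.map_nonunit hu, zero_mul]) ha

theorem gs_congr (ξ : DirichletCharacter ℂ N) {q : ℕ} (hq : 0 < q) {h h' : ℤ}
    (hh : h ≡ h' [ZMOD q]) : GS ξ q h = GS ξ q h' := by
  unfold GS
  refine Finset.sum_congr rfl fun a _ => ?_
  have h1 := f1_ee hq (hh.mul_left (a.val : ℤ))
  push_cast at h1 ⊢
  rw [h1]

/-- Substitute `a ↦ a u⁻¹`; `(a u).val ≡ a.val u.val` modulo `N`, hence modulo `q`. -/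
theorem gs_unit (ξ : DirichletCharacter ℂ N) {q : ℕ} (hq : q ∣ N) (u : (ZMod N)ˣ) (h : ℤ) :
    GS ξ q ((u : ZMod N).val * h) = ξ⁻¹ u * GS ξ q h := by
  have hq0 : 0 < q := Nat.pos_of_dvd_of_pos hq (Nat.pos_of_ne_zero (NeZero.ne N))
  unfold GS
  rw [← Equiv.sum_comp (Units.mulRight u) fun a : ZMod N => ξ a * ee (a.val * h / q),
    Finset.mul_sum]
  refine Finset.sum_congr rfl fun a _ => ?_
  have h1 : (((a * (u : ZMod N)).val : ℕ) : ℤ) ≡ (a.val : ℤ) * ((u : ZMod N).val : ℤ) [ZMOD q] := by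
    have h2 : (a * (u : ZMod N)).val ≡ a.val * (u : ZMod N).val [MOD q] := by
      rw [ZMod.val_mul]
      exact (Nat.mod_modEq _ _).of_dvd hq
    have h3 := Int.natCast_modEq_iff.2 h2
    rwa [Nat.cast_mul] at h3
  have h4 := f1_ee hq0 (h1.mul_right h)
  have h5 : ξ⁻¹ (u : ZMod N) * ξ u = 1 := by
    rw [← MulChar.mul_apply, inv_mul_cancel, MulChar.one_apply_coe]
  simp only [Units.mulRight_apply, map_mul, Int.cast_mul, Int.cast_natCast] at h4 ⊢
  rw [h4, mul_assoc (a.val : ℝ)]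
  linear_combination (-(ξ a * ee (a.val * ((u : ZMod N).val * h) / q))) * h5

theorem gs_cancel (ξ : DirichletCharacter ℂ N) {d : ℕ} (hd : 0 < d) (q : ℕ) (h : ℤ) :
    GS ξ (d * q) (d * h) = GS ξ q h := by
  unfold GS
  refine Finset.sum_congr rfl fun a _ => ?_
  have hd' : (d : ℝ) ≠ 0 := Nat.cast_ne_zero.2 hd.ne'
  congr 2
  simp only [Int.cast_mul, Int.cast_natCast, Nat.cast_mul]
  rw [mul_left_comm, mul_div_mul_left _ _ hd']

/-- There is a unit `u ≡ 1` modulo `q` with `ξ u ≠ 1` (`factorsThrough_iff_ker_unitsMap`,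
`mem_conductorSet_iff_conductor_dvd`); `gs_unit` and `gs_congr`. -/
theorem gs_eq_zero (ξ : DirichletCharacter ℂ N) {q : ℕ} (hq : q ∣ N) (hc : ¬ ξ.conductor ∣ q)
    (h : ℤ) : GS ξ q h = 0 := by
  have hq0 : 0 < q := Nat.pos_of_dvd_of_pos hq (Nat.pos_of_ne_zero (NeZero.ne N))
  have : NeZero q := ⟨hq0.ne'⟩
  rw [← DirichletCharacter.mem_conductorSet_iff_conductor_dvd ξ hq,
    DirichletCharacter.mem_conductorSet_iff,
    DirichletCharacter.factorsThrough_iff_ker_unitsMap hq, SetLike.not_le_iff_exists] at hc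
  obtain ⟨u, hu1, hu2⟩ := hc
  rw [MonoidHom.mem_ker] at hu1 hu2
  have h1 := f1_val hq u
  rw [hu1] at h1
  have h2 : (u : ZMod N).val ≡ 1 [MOD q] := by
    unfold Nat.ModEq
    rw [← h1, Units.val_one, ZMod.val_one_eq_one_mod]
  have h3 := (Int.natCast_modEq_iff.2 h2).mul_right h
  rw [Nat.cast_one, one_mul] at h3
  have h4 := gs_unit ξ hq u h
  rw [gs_congr ξ hq0 h3] at h4
  have h5 : ξ⁻¹ (u : ZMod N) * ξ u = 1 := by
    rw [← MulChar.mul_apply, inv_mul_cancel, MulChar.one_apply_coe]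
  have h6 : ξ (u : ZMod N) - 1 ≠ 0 := by
    intro h7
    apply hu2
    ext
    rw [MulChar.coe_toUnitHom, Units.val_one]
    exact sub_eq_zero.1 h7
  refine (mul_eq_zero.1 ?_).resolve_left h6
  linear_combination ξ (u : ZMod N) * h4 + GS ξ q h * h5

/-- `gs_units`, `sum_fibre`. -/
theorem gs_level {q : ℕ} [NeZero q] (hq : q ∣ N) (ξ : DirichletCharacter ℂ q) (h : ℤ) :
    GS (DirichletCharacter.changeLevel hq ξ) q h =
      (Nat.totient N : ℂ) / Nat.totient q * GS ξ q h := by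
  have hq0 : 0 < q := Nat.pos_of_ne_zero (NeZero.ne q)
  rw [gs_units, gs_units, ← sum_fibre hq fun w => ξ w * ee ((w : ZMod q).val * h / q)]
  refine Finset.sum_congr rfl fun u _ => ?_
  have h1 := f1_ee hq0 ((Int.natCast_modEq_iff.2 (Nat.mod_modEq (u : ZMod N).val q)).mul_right h)
  simp only [Int.cast_mul, Int.cast_natCast] at h1
  rw [DirichletCharacter.changeLevel_eq_cast_of_dvd, f1_val hq, h1, ZMod.unitsMap_val]

/-- Let `d = gcd q |h|`, `s = q / d`, `h = d h'`: `gs_cancel`. If the conductor does not divide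
`s`, `gs_eq_zero`. Otherwise `ξ = changeLevel ξ'` with `ξ'` of level `s` and the same conductor
(`conductor_changeLevel`), `gs_level`, `h'` is a unit modulo `s`: `gs_congr`, `gs_unit`, `gs_top`. -/
theorem gs_bd (ξ : DirichletCharacter ℂ N) {q : ℕ} (hq : q ∣ N) (h : ℤ) :
    ‖GS ξ q h‖ ≤ (Nat.totient N : ℝ) / Nat.totient (qd q h.natAbs) * √ξ.conductor ∧
      (GS ξ q h ≠ 0 → ξ.conductor ∣ qd q h.natAbs ∧
        Nat.Coprime ξ.conductor (qd q h.natAbs / ξ.conductor)) := by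
  have hq0 : 0 < q := Nat.pos_of_dvd_of_pos hq (Nat.pos_of_ne_zero (NeZero.ne N))
  have hd0 : 0 < Nat.gcd q h.natAbs := Nat.gcd_pos_of_pos_left _ hq0
  have hqs : q = Nat.gcd q h.natAbs * qd q h.natAbs :=
    (Nat.mul_div_cancel' (Nat.gcd_dvd_left _ _)).symm
  obtain ⟨h', hh'⟩ : ((Nat.gcd q h.natAbs : ℕ) : ℤ) ∣ h :=
    Int.natCast_dvd.2 (Nat.gcd_dvd_right _ _)
  have hcop : Nat.Coprime h'.natAbs (qd q h.natAbs) := by
    have h1 := Nat.coprime_div_gcd_div_gcd hd0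
    have h2 : h.natAbs / Nat.gcd q h.natAbs = h'.natAbs := by
      refine Nat.div_eq_of_eq_mul_right hd0 ?_
      have h3 := congrArg Int.natAbs hh'
      rwa [Int.natAbs_mul, Int.natAbs_natCast] at h3
    rw [h2] at h1
    exact h1.symm
  generalize qd q h.natAbs = s at *
  generalize Nat.gcd q h.natAbs = d at *
  subst hqs hh'
  rw [gs_cancel ξ hd0]
  have hs : s ∣ N := (Dvd.intro_left d rfl).trans hq
  have hs0 : 0 < s := Nat.pos_of_dvd_of_pos hs (Nat.pos_of_ne_zero (NeZero.ne N))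
  have : NeZero s := ⟨hs0.ne'⟩
  by_cases hc : ξ.conductor ∣ s
  · obtain ⟨_, ξ', rfl⟩ := (DirichletCharacter.mem_conductorSet_iff_conductor_dvd ξ hs).2 hc
    have hi : IsCoprime h' (s : ℤ) := by
      rw [Int.isCoprime_iff_gcd_eq_one, Int.gcd_eq_natAbs, Int.natAbs_natCast]
      exact hcop
    have h1 : h' ≡ (((ZMod.unitOfIsCoprime h' hi : (ZMod s)ˣ) : ZMod s).val : ℤ) * 1 [ZMOD s] := by
      rw [← ZMod.intCast_eq_intCast_iff, mul_one, Int.cast_natCast, ZMod.natCast_zmod_val,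
        ZMod.coe_unitOfIsCoprime]
    rw [DirichletCharacter.conductor_changeLevel] at hc ⊢
    rw [gs_level, gs_congr ξ' hs0 h1, gs_unit ξ' (dvd_refl s)]
    obtain ⟨h2, h3⟩ := gs_top ξ'
    refine ⟨?_, fun h4 => ⟨hc, h3 fun h5 => h4 (by rw [h5, mul_zero, mul_zero])⟩⟩
    rw [norm_mul, norm_mul, norm_div, Complex.norm_natCast, Complex.norm_natCast]
    refine mul_le_mul_of_nonneg_left ?_ (by positivity)
    exact (mul_le_of_le_one_left (norm_nonneg _) (DirichletCharacter.norm_le_one _ _)).trans h2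
  · rw [gs_eq_zero ξ hs hc]
    exact ⟨by rw [norm_zero]; positivity, fun h1 => absurd rfl h1⟩

end Pool.Agent.Lib.MP_778b46_nt.MA
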