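import Pool.Agent.Lib.MP_778b46_nt.MA.O1

set_option autoImplicit false

noncomputable section

namespace Pool.Agent.Lib.MP_778b46_nt.MA

open Complex Finset MeasureTheory
open scoped Real ContDiff
open Pool.Agent.Lib.MP_03e5d0_nt (Sm ex ft bump)
open Pool.Agent.Lib.MP_778b46_nt.GX (Lf Lp)

/-! The complete singular series. -/

/-- Sum of `G` over the residues `a` modulo `d` with `a (m - a)` coprime to `d`. -/
def uu (G : ℤ → ℂ) (m d : ℕ) : ℂ :=
  ∑ a ∈ (range d).filter (fun a : ℕ => IsCoprime ((a : ℤ) * (m - a)) d), G a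

/-- The local factor when the prime `p` is added to the modulus `d`. -/
def la (m d p : ℕ) : ℝ := if p ∣ d then p else if p ∣ m then p - 1 else p - 2

theorem f3_sum_mul (f : ℕ → ℂ) (d k : ℕ) :
    ∑ a ∈ range (d * k), f a = ∑ j ∈ range k, ∑ b ∈ range d, f (d * j + b) := by
  induction k with
  | zero => simp
  | succ k ih => rw [Nat.mul_succ, sum_range_add, ih, sum_range_succ]

theorem f3_per {G : ℤ → ℂ} {d : ℕ} (hG : ∀ a, G (a + d) = G a) (j : ℕ) (a : ℤ) :
    G (a + (d * j : ℕ)) = G a := by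
  induction j with
  | zero => simp
  | succ j ih => rw [Nat.mul_succ, Nat.cast_add, ← add_assoc, hG, ih]

theorem f3_cop (m d j b : ℕ) :
    IsCoprime (((d * j + b : ℕ) : ℤ) * (m - (d * j + b : ℕ))) d ↔
      IsCoprime ((b : ℤ) * (m - b)) d := by
  have e : ((d * j + b : ℕ) : ℤ) * (m - (d * j + b : ℕ)) =
      (b : ℤ) * (m - b) + d * (j * (m - 2 * b - d * j)) := by
    push_cast
    ring
  rw [e, IsCoprime.add_mul_left_left_iff]

theorem f3_count {d p : ℕ} (m b : ℕ) (hp : p.Prime) (hd : ¬ p ∣ d) :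
    ((((range p).filter fun j : ℕ =>
      IsCoprime (((d * j + b : ℕ) : ℤ) * (m - (d * j + b : ℕ))) p).card : ℕ) : ℝ) =
      if p ∣ m then (p : ℝ) - 1 else p - 2 := by
  have _ := Fact.mk hp
  have hd0 : (d : ZMod p) ≠ 0 := fun h => hd ((ZMod.natCast_eq_zero_iff d p).1 h)
  have key : ∀ a : ℕ, IsCoprime ((a : ℤ) * (m - a)) p ↔
      (a : ZMod p) ∈ (univ \ {0, (m : ZMod p)} : Finset (ZMod p)) := by
    intro a
    rw [isCoprime_comm, (Nat.prime_iff_prime_int.1 hp).coprime_iff_not_dvd,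
      ← ZMod.intCast_zmod_eq_zero_iff_dvd]
    push_cast
    rw [mul_eq_zero, sub_eq_zero]
    simp [eq_comm]
  have h1 : ((range p).filter fun j : ℕ =>
      IsCoprime (((d * j + b : ℕ) : ℤ) * (m - (d * j + b : ℕ))) p).card =
      (univ \ {0, (m : ZMod p)} : Finset (ZMod p)).card := by
    refine card_bij (fun j _ => ((d * j + b : ℕ) : ZMod p)) ?_ ?_ ?_
    · intro j hj
      exact (key _).1 (mem_filter.1 hj).2
    · intro i hi j hj h
      have h2 : (i : ZMod p) = j := by
        push_cast at h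
        exact mul_left_cancel₀ hd0 (add_right_cancel h)
      have h3 := (ZMod.natCast_eq_natCast_iff' i j p).1 h2
      rwa [Nat.mod_eq_of_lt (mem_range.1 (mem_filter.1 hi).1),
        Nat.mod_eq_of_lt (mem_range.1 (mem_filter.1 hj).1)] at h3
    · intro x hx
      have e : ((d * ((d : ZMod p)⁻¹ * (x - b)).val + b : ℕ) : ZMod p) = x := by
        push_cast
        rw [ZMod.natCast_zmod_val, mul_inv_cancel_left₀ hd0, sub_add_cancel]
      refine ⟨((d : ZMod p)⁻¹ * (x - b)).val, mem_filter.2 ⟨mem_range.2 (ZMod.val_lt _), ?_⟩, e⟩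
      rw [key, e]
      exact hx
  rw [h1, card_univ_sdiff, ZMod.card]
  split_ifs with h
  · rw [(ZMod.natCast_eq_zero_iff m p).2 h, pair_eq_singleton, card_singleton,
      Nat.cast_sub hp.one_le, Nat.cast_one]
  · rw [card_pair fun h' => h ((ZMod.natCast_eq_zero_iff m p).1 h'.symm), Nat.cast_sub hp.two_le,
      Nat.cast_ofNat]

/-- If `p ∣ d` the coprimality condition is unchanged and periodic modulo `d`. Otherwise Chinese
remainder theorem: above each residue modulo `d` there are `p` residues modulo `d p`, of which one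
(`p ∣ m`) or two have `p ∣ a (m - a)`. -/
theorem uu_step {G : ℤ → ℂ} {d p : ℕ} (m : ℕ) (hd : 0 < d) (hp : p.Prime)
    (hG : ∀ a, G (a + d) = G a) : uu G m (d * p) = la m d p * uu G m d := by
  unfold uu
  rw [sum_filter, sum_filter, f3_sum_mul, sum_comm, mul_sum]
  refine sum_congr rfl fun b _ => ?_
  have e : ∀ j : ℕ, G ((d * j + b : ℕ) : ℤ) = G b := fun j => by
    rw [Nat.cast_add, add_comm, f3_per hG]
  simp only [e, Nat.cast_mul d p, IsCoprime.mul_right_iff, f3_cop]
  by_cases hb : IsCoprime ((b : ℤ) * (m - b)) d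
  · simp only [hb, true_and, if_true]
    rw [← sum_filter, sum_const, nsmul_eq_mul]
    congr 1
    unfold la
    by_cases h : p ∣ d
    · rw [if_pos h, filter_true_of_mem, card_range, ofReal_natCast]
      intro j _
      exact ((f3_cop m d j b).2 hb).of_isCoprime_of_dvd_right (Int.natCast_dvd_natCast.2 h)
    · rw [if_neg h, ← f3_count m b hp h, ofReal_natCast]
  · simp [hb]

theorem f3_la_nonneg (m d : ℕ) {p : ℕ} (hp : p.Prime) : 0 ≤ la m d p := by
  have h : (2 : ℝ) ≤ p := by exact_mod_cast hp.two_le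
  unfold la
  split_ifs <;> linarith

/-- Induction over the prime factors of `k` (`Nat.recOnMul` or `induction_on_primes`); the factor
does not depend on `G`. -/
theorem uu_mul (m : ℕ) {d k : ℕ} (hd : 0 < d) (hk : 0 < k) : ∃ l : ℝ, 0 ≤ l ∧
    ∀ G : ℤ → ℂ, (∀ a, G (a + d) = G a) → uu G m (d * k) = l * uu G m d := by
  induction k using induction_on_primes with
  | zero => exact absurd hk (lt_irrefl 0)
  | one => exact ⟨1, zero_le_one, fun G _ => by simp⟩
  | prime_mul p a hp ih =>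
    have ha : 0 < a := Nat.pos_of_mul_pos_left hk
    obtain ⟨l, hl, h⟩ := ih ha
    refine ⟨la m (d * a) p * l, mul_nonneg (f3_la_nonneg _ _ hp) hl, fun G hG => ?_⟩
    rw [mul_comm p a, ← mul_assoc, uu_step m (Nat.mul_pos hd ha) hp (f3_per hG a), h G hG]
    push_cast
    ring

theorem f3_card_step {d p : ℕ} (m : ℕ) (hd : 0 < d) (hp : p.Prime) :
    (((range (p * d)).filter fun a : ℕ => IsCoprime ((a : ℤ) * (m - a)) (p * d : ℕ)).card : ℝ) =
      la m d p * (((range d).filter fun a : ℕ => IsCoprime ((a : ℤ) * (m - a)) d).card : ℝ) := by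
  have h := uu_step (G := fun _ => 1) m hd hp fun _ => rfl
  unfold uu at h
  rw [sum_const, sum_const, nsmul_one, nsmul_one, mul_comm d p] at h
  exact_mod_cast h

/-- Induction over the prime factors with `uu_step`; `Nat.totient_mul_of_prime_of_dvd`,
`Nat.totient_mul_of_prime_of_not_dvd`. -/
theorem S0_eq {N : ℕ} (hN : 0 < N) (m : ℕ) : S0 N m = ∏ p ∈ N.primeFactors,
    if p ∣ m then (p : ℝ) / (p - 1) else 1 - 1 / ((p : ℝ) - 1) ^ 2 := by
  induction N using induction_on_primes with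
  | zero => exact absurd hN (lt_irrefl 0)
  | one => simp [S0, isCoprime_one_right]
  | prime_mul p a hp ih =>
    have ha : 0 < a := Nat.pos_of_mul_pos_left hN
    have h2 : (2 : ℝ) ≤ p := by exact_mod_cast hp.two_le
    have hp0 : (p : ℝ) ≠ 0 := by linarith
    have hp1 : (p : ℝ) - 1 ≠ 0 := by linarith
    have hφ : (Nat.totient a : ℝ) ≠ 0 := by exact_mod_cast (Nat.totient_pos.2 ha).ne'
    rw [Nat.primeFactors_mul hp.ne_zero ha.ne', hp.primeFactors, ← insert_eq]
    by_cases h : p ∣ a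
    · rw [insert_eq_of_mem (hp.mem_primeFactors h ha.ne'), ← ih ha]
      unfold S0
      rw [f3_card_step m ha hp, Nat.totient_mul_of_prime_of_dvd hp h, la, if_pos h]
      push_cast
      field_simp
    · rw [prod_insert fun h' => h (Nat.dvd_of_mem_primeFactors h'), ← ih ha]
      unfold S0
      rw [f3_card_step m ha hp, Nat.totient_mul_of_prime_of_not_dvd hp h, la, if_neg h]
      push_cast [Nat.cast_sub hp.one_le]
      split_ifs
      · field_simp
      · field_simp
        ring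

theorem f3_three {p m : ℕ} (hp : p.Prime) (hm : Even m) (h : ¬ p ∣ m) : 3 ≤ p := by
  rcases hp.two_le.eq_or_lt with h2 | h2
  · exact absurd (h2 ▸ hm.two_dvd) h
  · exact h2

theorem f3_tele (K : ℕ) : ∏ n ∈ range (K + 3),
    (if 3 ≤ n then 1 - 1 / ((n : ℝ) - 1) ^ 2 else 1) = ((K : ℝ) + 2) / (2 * (K + 1)) := by
  induction K with
  | zero => simp [prod_range_succ]
  | succ K ih =>
    rw [show K + 1 + 3 = K + 3 + 1 by ring, prod_range_succ, ih, if_pos (by omega)]
    push_cast
    have e : (K : ℝ) + 3 - 1 = K + 2 := by ring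
    rw [e]
    field_simp
    ring

theorem f3_g_mem (n : ℕ) : 0 ≤ (if 3 ≤ n then 1 - 1 / ((n : ℝ) - 1) ^ 2 else 1) ∧
    (if 3 ≤ n then 1 - 1 / ((n : ℝ) - 1) ^ 2 else 1) ≤ 1 := by
  split_ifs with h
  · have h3 : (3 : ℝ) ≤ n := by exact_mod_cast h
    have h1 : 1 / ((n : ℝ) - 1) ^ 2 ≤ 1 := by
      rw [div_le_one (by nlinarith)]
      nlinarith
    have h0 : 0 ≤ 1 / ((n : ℝ) - 1) ^ 2 := by positivity
    constructor <;> linarith
  · exact ⟨zero_le_one, le_rfl⟩

/-- The primes not dividing `m` are at least `3`; `∏ n ∈ Icc 2 K, (1 - 1 / n ^ 2) = (K + 1) / (2 K)`. -/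
theorem S0_ge {N m : ℕ} (hN : 0 < N) (hm : Even m) : 1 / 2 ≤ S0 N m := by
  rw [S0_eq hN]
  have h1 : (1 : ℝ) / 2 ≤ (N + 2) / (2 * (N + 1)) := by
    rw [div_le_div_iff₀ (by positivity) (by positivity)]
    linarith
  refine h1.trans ?_
  rw [← f3_tele]
  refine (prod_le_prod_of_subset_of_le_one (s := N.primeFactors) (fun p hp => ?_)
    (fun n _ => (f3_g_mem n).1) fun n _ _ => (f3_g_mem n).2).trans ?_
  · have := Nat.le_of_mem_primeFactors hp
    exact mem_range.2 (by omega)
  · refine prod_le_prod (fun n _ => (f3_g_mem n).1) fun p hp => ?_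
    have hp' := Nat.prime_of_mem_primeFactors hp
    by_cases h : p ∣ m
    · rw [if_pos h]
      refine (f3_g_mem p).2.trans ?_
      have h2 : (2 : ℝ) ≤ p := by exact_mod_cast hp'.two_le
      rw [one_le_div (by linarith)]
      linarith
    · rw [if_neg h, if_pos (f3_three hp' hm h)]

theorem f3_ratio {N : ℕ} (hN : 0 < N) :
    (N : ℝ) / Nat.totient N = ∏ p ∈ N.primeFactors, (p : ℝ) / (p - 1) := by
  have hφ : (Nat.totient N : ℝ) ≠ 0 := by exact_mod_cast (Nat.totient_pos.2 hN).ne'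
  have h := congrArg (Nat.cast : ℕ → ℝ) (Nat.totient_mul_prod_primeFactors N)
  rw [Nat.cast_mul, Nat.cast_mul, Nat.cast_prod, Nat.cast_prod] at h
  have e : ∏ p ∈ N.primeFactors, ((p - 1 : ℕ) : ℝ) = ∏ p ∈ N.primeFactors, ((p : ℝ) - 1) :=
    prod_congr rfl fun p hp => by
      rw [Nat.cast_sub (Nat.prime_of_mem_primeFactors hp).one_le, Nat.cast_one]
  have h0 : ∏ p ∈ N.primeFactors, ((p : ℝ) - 1) ≠ 0 := prod_ne_zero_iff.2 fun p hp => by
    have h2 : (2 : ℝ) ≤ p := by exact_mod_cast (Nat.prime_of_mem_primeFactors hp).two_le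
    linarith
  rw [prod_div_distrib, div_eq_div_iff hφ h0, ← e, ← h, mul_comm]

theorem f3_tu {N : ℕ} (hN : 0 < N) (m : ℕ) :
    ∏ p ∈ N.primeFactors, (if p ∣ m then (1 : ℝ) else 2) ≤ tu (qd N m) := by
  have hq : qd N m ≠ 0 :=
    (Nat.div_pos (Nat.gcd_le_left m hN) (Nat.gcd_pos_of_pos_left m hN)).ne'
  have e : Nat.gcd N m * qd N m = N := Nat.mul_div_cancel' (Nat.gcd_dvd_left N m)
  have hs : N.primeFactors.filter (fun p => ¬ p ∣ m) ⊆ (qd N m).primeFactors := by
    intro p hp
    obtain ⟨h1, h2⟩ := mem_filter.1 hp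
    have hp' := Nat.prime_of_mem_primeFactors h1
    have h3 : p ∣ Nat.gcd N m * qd N m := e.symm ▸ Nat.dvd_of_mem_primeFactors h1
    exact hp'.mem_primeFactors ((hp'.dvd_mul.1 h3).resolve_left
      fun h4 => h2 (h4.trans (Nat.gcd_dvd_right N m))) hq
  rw [prod_ite, prod_const_one, one_mul, tu, Nat.card_divisors hq, Nat.cast_prod]
  refine (prod_le_prod_of_subset_of_one_le hs (fun _ _ => zero_le_two)
    fun _ _ _ => one_le_two).trans (prod_le_prod (fun _ _ => zero_le_two) fun p hp => ?_)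
  have h1 := (Nat.prime_of_mem_primeFactors hp).factorization_pos_of_dvd hq
    (Nat.dvd_of_mem_primeFactors hp)
  exact_mod_cast Nat.succ_le_succ h1

/-- For `p ∣ N`, `p ∤ m` we have `p ∣ qd N m`, `p ≥ 3` and
`1 - 1 / (p - 1) ^ 2 = p / (p - 1) * ((p - 2) / (p - 1)) ≥ p / (p - 1) / 2`; `2 ^ ω g ≤ tu g`. -/
theorem S0_ge' {N m : ℕ} (hN : 0 < N) (hm : Even m) :
    (N : ℝ) / Nat.totient N ≤ tu (qd N m) * S0 N m := by
  refine le_trans ?_ (mul_le_mul_of_nonneg_right (f3_tu hN m)
    (le_trans (by norm_num) (S0_ge hN hm)))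
  rw [f3_ratio hN, S0_eq hN, ← prod_mul_distrib]
  refine prod_le_prod (fun p hp => ?_) fun p hp => ?_
  · have h2 : (2 : ℝ) ≤ p := by exact_mod_cast (Nat.prime_of_mem_primeFactors hp).two_le
    exact div_nonneg (by linarith) (by linarith)
  · by_cases h : p ∣ m
    · rw [if_pos h, if_pos h, one_mul]
    · have h3 : (3 : ℝ) ≤ p := by
        exact_mod_cast f3_three (Nat.prime_of_mem_primeFactors hp) hm h
      have h1 : (0 : ℝ) < p - 1 := by linarith
      have e : 2 * (1 - 1 / ((p : ℝ) - 1) ^ 2) = p / (p - 1) * (2 * (p - 2) / (p - 1)) := by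
        field_simp
        ring
      rw [if_neg h, if_neg h, e]
      refine le_mul_of_one_le_right (div_nonneg (by linarith) h1.le) ?_
      rw [one_le_div h1]
      linarith

end Pool.Agent.Lib.MP_778b46_nt.MA
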