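import Pool.Agent.Lib.MP_778b46_nt.MA.F2
import Pool.Agent.Lib.MP_778b46_nt.MA.F3
import Pool.Agent.Lib.MP_2a1a00_nt.Div

set_option autoImplicit false

noncomputable section

namespace Pool.Agent.Lib.MP_778b46_nt.MA

open Complex Finset MeasureTheory
open scoped Real ContDiff
open Pool.Agent.Lib.MP_03e5d0_nt (Sm ex ft bump)
open Pool.Agent.Lib.MP_778b46_nt.GX (Lf Lp)

/-! Bounds for the complete singular series. -/

variable {N : ℕ} [NeZero N]

theorem f5_sum (m : ℕ) (χ χ' : DirichletCharacter ℂ N) (G : ℤ → ℂ)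
    (hG : ∀ a : ℤ, IsCoprime a N → IsCoprime (m - a) N →
      χ (a : ZMod N) * χ' ((m - a : ℤ) : ZMod N) = G a) :
    ∑ a : ZMod N, χ a * χ' (m - a) = uu G m N := by
  have h1 : ∑ a : ZMod N, χ a * χ' (m - a) = ∑ a ∈ range N, χ (a : ZMod N) * χ' (m - a) := by
    refine sum_nbij' (fun a => a.val) (fun n => (n : ZMod N)) (fun a _ => ?_) (fun _ _ => mem_univ _)
      (fun a _ => ZMod.natCast_zmod_val a) (fun n hn => ZMod.val_cast_of_lt (mem_range.1 hn))
      fun a _ => by rw [ZMod.natCast_zmod_val]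
    exact mem_range.2 (ZMod.val_lt a)
  rw [h1, uu, sum_filter]
  refine sum_congr rfl fun a _ => ?_
  have e : χ (a : ZMod N) * χ' (m - a) =
      χ ((a : ℤ) : ZMod N) * χ' ((m - a : ℤ) : ZMod N) := by
    push_cast
    rfl
  rw [e]
  split_ifs with h
  · exact hG a h.of_mul_left_left h.of_mul_left_right
  · rw [IsCoprime.mul_left_iff, not_and_or] at h
    rcases h with h | h
    · rw [(χ.apply_eq_zero_iff _).2 h, zero_mul]
    · rw [(χ'.apply_eq_zero_iff _).2 h, mul_zero]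

theorem f5_S0 (N m : ℕ) :
    S0 N m = (N : ℝ) / (Nat.totient N : ℝ) ^ 2 * ‖uu (fun _ => 1) m N‖ := by
  rw [S0, uu, sum_const, nsmul_eq_mul, mul_one, Complex.norm_natCast]

theorem f5_norm (m : ℕ) (χ χ' : DirichletCharacter ℂ N) (G : ℤ → ℂ)
    (hG : ∀ a : ℤ, IsCoprime a N → IsCoprime (m - a) N →
      χ⁻¹ (a : ZMod N) * χ'⁻¹ ((m - a : ℤ) : ZMod N) = G a) :
    ‖SG m χ χ'‖ = (N : ℝ) / (Nat.totient N : ℝ) ^ 2 * ‖uu G m N‖ := by
  rw [SG, f5_sum m _ _ G hG, norm_mul, norm_div, norm_pow, Complex.norm_natCast,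
    Complex.norm_natCast]

theorem SG_one (m : ℕ) : SG m (1 : DirichletCharacter ℂ N) 1 = S0 N m := by
  rw [SG, f5_sum m _ _ (fun _ => 1), S0, uu, sum_const, nsmul_eq_mul, mul_one]
  · push_cast
    rfl
  · intro a h1 h2
    rw [inv_one, MulChar.one_apply ((ZMod.coe_int_isUnit_iff_isCoprime _ _).2 h1.symm),
      MulChar.one_apply ((ZMod.coe_int_isUnit_iff_isCoprime _ _).2 h2.symm), mul_one]

/-- Triangle inequality: the terms have norm at most one and vanish unless `a` and `m - a` are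
units. -/
theorem SG_le (m : ℕ) (χ χ' : DirichletCharacter ℂ N) : ‖SG m χ χ'‖ ≤ S0 N m := by
  rw [f5_norm m χ χ' _ fun _ _ _ => rfl, S0]
  refine mul_le_mul_of_nonneg_left ((norm_sum_le_of_le _ (n := fun _ => 1) fun a _ => ?_).trans
    (le_of_eq (by simp))) (by positivity)
  rw [norm_mul]
  exact mul_le_one₀ (DirichletCharacter.norm_le_one _ _) (norm_nonneg _)
    (DirichletCharacter.norm_le_one _ _)

/-- With `G a = ξ⁻¹ a * ξ'⁻¹ (m - a)`, periodic modulo `d`, both series are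
`level / φ level ^ 2 * uu G m level` (`changeLevel_eq_cast_of_dvd'`); `uu_mul` for `G` and for `1`. -/
theorem SG_level {d : ℕ} [NeZero d] (hd : d ∣ N) (m : ℕ) (ξ ξ' : DirichletCharacter ℂ d) :
    ‖SG m (DirichletCharacter.changeLevel hd ξ) (DirichletCharacter.changeLevel hd ξ')‖ * S0 d m =
      ‖SG m ξ ξ'‖ * S0 N m := by
  obtain ⟨k, hk⟩ := id hd
  have hk0 : 0 < k := Nat.pos_of_ne_zero fun h => NeZero.ne N (by rw [hk, h, mul_zero])
  obtain ⟨l, -, hl⟩ := uu_mul m (NeZero.pos d) hk0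
  have h1 := hl (fun a => ξ⁻¹ (a : ZMod d) * ξ'⁻¹ ((m - a : ℤ) : ZMod d)) fun a => by simp
  have h2 := hl (fun _ => 1) fun _ => rfl
  rw [← hk] at h1 h2
  rw [f5_norm m ξ ξ' _ fun _ _ _ => rfl, f5_S0, f5_S0, h2, f5_norm m _ _
    (fun a => ξ⁻¹ (a : ZMod d) * ξ'⁻¹ ((m - a : ℤ) : ZMod d)) fun a a1 a2 => by
      rw [← map_inv, ← map_inv, DirichletCharacter.changeLevel_eq_cast_of_dvd' _ hd a1,
        DirichletCharacter.changeLevel_eq_cast_of_dvd' _ hd a2], h1, norm_mul, norm_mul]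
  ring

theorem f5_tu (g : ℕ) (hg : 0 < g) : (g : ℝ) ≤ tu g * Nat.totient g := by
  have h1 : g ≤ g.divisors.card * Nat.totient g := by
    conv_lhs => rw [← Nat.sum_totient g]
    exact (sum_le_card_nsmul _ _ _ fun e he => Nat.le_of_dvd (Nat.totient_pos.2 hg)
      (Nat.totient_dvd_of_dvd (Nat.dvd_of_mem_divisors he))).trans (le_of_eq (smul_eq_mul _ _))
  unfold tu
  exact_mod_cast h1

/-- The bound at the level of the least common multiple of the conductors. -/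
theorem f5_top {C : ℝ} (hC : ∀ n : ℕ, tu n ≤ C * (n : ℝ) ^ (1 / 12 : ℝ)) (m : ℕ) (hm : Even m)
    (χ χ' : DirichletCharacter ℂ N) (hN : Nat.lcm χ.conductor χ'.conductor = N) :
    ‖SG m χ χ'‖ ≤ C * C * (qd N m : ℝ) ^ (-(1 / 3 : ℝ)) * S0 N m := by
  have hN0 := NeZero.pos N
  have hS : 0 ≤ S0 N m := le_trans (by norm_num) (S0_ge hN0 hm)
  have hg : 0 < qd N m :=
    Nat.div_pos (Nat.le_of_dvd hN0 (Nat.gcd_dvd_left _ _)) (Nat.gcd_pos_of_pos_left _ hN0)
  have e : SG m χ χ' = ww N m χ χ' := by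
    rw [← sum_ww]
    refine sum_eq_single_of_mem N (Nat.mem_divisors_self N hN0.ne') fun q hq hne => ?_
    by_contra h
    obtain ⟨h1, h2, -⟩ := ww_ne (Nat.dvd_of_mem_divisors hq) m χ χ' h
    exact hne (Nat.dvd_antisymm (Nat.dvd_of_mem_divisors hq) (hN ▸ Nat.lcm_dvd h1 h2))
  rw [e]
  by_cases h0 : ww N m χ χ' = 0
  · rw [h0, norm_zero, mul_assoc]
    exact mul_nonneg (mul_self_nonneg C) (by positivity)
  have h1 := (ww_ne dvd_rfl m χ χ' h0).2.2
  rw [gg, hN] at h1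
  have h2 := S0_ge' hN0 hm
  have h3 := f5_tu _ hg
  have h4 := hC (qd N m)
  have h5 := ww_bd dvd_rfl m χ χ'
  have h6 : √((χ * χ').conductor : ℝ) ≤ √(qd N m : ℝ) :=
    Real.sqrt_le_sqrt (by exact_mod_cast Nat.le_of_dvd hg h1)
  have h7 : √(χ.conductor : ℝ) ≤ √(N : ℝ) :=
    Real.sqrt_le_sqrt (by exact_mod_cast Nat.le_of_dvd hN0 χ.conductor_dvd_level)
  have h8 : √(χ'.conductor : ℝ) ≤ √(N : ℝ) :=
    Real.sqrt_le_sqrt (by exact_mod_cast Nat.le_of_dvd hN0 χ'.conductor_dvd_level)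
  have hφ : (0 : ℝ) < Nat.totient (qd N m) := by exact_mod_cast Nat.totient_pos.2 hg
  have hφ' : (0 : ℝ) < Nat.totient N := by exact_mod_cast Nat.totient_pos.2 hN0
  have ht : 0 ≤ tu (qd N m) := Nat.cast_nonneg _
  have hg' : (0 : ℝ) < qd N m := by exact_mod_cast hg
  generalize (qd N m : ℝ) = g at h3 h4 h6 hg' ⊢
  have h9 : √g / Nat.totient (qd N m) ≤ tu (qd N m) * g ^ (-(1 / 2) : ℝ) := by
    rw [div_le_iff₀ hφ, Real.sqrt_eq_rpow, show (1 / 2 : ℝ) = 1 + -(1 / 2) by norm_num,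
      Real.rpow_add hg', Real.rpow_one]
    have := mul_le_mul_of_nonneg_right h3 (Real.rpow_nonneg hg'.le (-(1 / 2)))
    norm_num at this ⊢
    linarith
  have h10 : g ^ (-(1 / 3) : ℝ) = g ^ (1 / 12 : ℝ) * g ^ (1 / 12 : ℝ) * g ^ (-(1 / 2) : ℝ) := by
    rw [← Real.rpow_add hg', ← Real.rpow_add hg']
    norm_num
  calc ‖ww N m χ χ'‖ ≤ √(N : ℝ) * √(N : ℝ) * √g / (Nat.totient N * Nat.totient (qd N m)) :=
        h5.trans (by gcongr)
    _ = (N : ℝ) / Nat.totient N * (√g / Nat.totient (qd N m)) := by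
        rw [Real.mul_self_sqrt (Nat.cast_nonneg _), mul_div_mul_comm]
    _ ≤ tu (qd N m) * S0 N m * (tu (qd N m) * g ^ (-(1 / 2) : ℝ)) :=
        mul_le_mul h2 h9 (by positivity) (by positivity)
    _ ≤ C * g ^ (1 / 12 : ℝ) * S0 N m * (C * g ^ (1 / 12 : ℝ) * g ^ (-(1 / 2) : ℝ)) := by
        have := ht.trans h4
        gcongr
    _ = _ := by rw [h10]; ring

/-- If `SG ≠ 0` some `ww q ≠ 0` (`sum_ww`, `ww_ne`). For the decay go down to the level
`d = lcm r r'` (`SG_level`, `conductor_changeLevel`): there `sum_ww` has the single term `q = d`,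
of norm at most `d √g / (φ d φ g)` (`ww_bd`), `g = qd d m`; `S0_ge'`; `g ≤ tu g * φ g`; divisor
bound `MP_2a1a00_nt.card_divisors_le` with `ε = 1 / 12`. -/
theorem SG_ka : ∃ C : ℝ, 1 ≤ C ∧ ∀ (N : ℕ) [NeZero N] (m : ℕ) (χ χ' : DirichletCharacter ℂ N),
    Even m → ‖SG m χ χ'‖ ≤ ka C m χ χ' * S0 N m := by
  obtain ⟨C, hC0, hC⟩ := MP_2a1a00_nt.card_divisors_le (1 / 12) (by norm_num)
  have hC1 : 1 ≤ C := by simpa using hC 1
  refine ⟨C * C, one_le_mul_of_one_le_of_one_le hC1 hC1, fun N _ m χ χ' hm => ?_⟩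
  have hS : 0 ≤ S0 N m := le_trans (by norm_num) (S0_ge (NeZero.pos N) hm)
  unfold ka
  split_ifs with h
  · rw [min_mul_of_nonneg _ _ hS, one_mul]
    refine le_min (SG_le m χ χ') ?_
    have hd : Nat.lcm χ.conductor χ'.conductor ∣ N :=
      Nat.lcm_dvd χ.conductor_dvd_level χ'.conductor_dvd_level
    obtain ⟨hd1, ξ, hξ⟩ := (χ.mem_conductorSet_iff_conductor_dvd hd).2 (Nat.dvd_lcm_left _ _)
    obtain ⟨hd2, ξ', hξ'⟩ := (χ'.mem_conductorSet_iff_conductor_dvd hd).2 (Nat.dvd_lcm_right _ _)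
    have : NeZero (Nat.lcm χ.conductor χ'.conductor) :=
      ⟨Nat.lcm_ne_zero χ.conductor_ne_zero χ'.conductor_ne_zero⟩
    have h1 := SG_level hd m ξ ξ'
    rw [← hξ, ← hξ'] at h1
    have h2 := f5_top hC m hm ξ ξ' (by
      rw [← ξ.conductor_changeLevel hd, ← ξ'.conductor_changeLevel hd, ← hξ, ← hξ'])
    have h3 := S0_ge (NeZero.pos (Nat.lcm χ.conductor χ'.conductor)) hm
    refine le_of_mul_le_mul_right ?_ (lt_of_lt_of_le (by norm_num) h3)
    rw [h1, mul_right_comm]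
    exact mul_le_mul_of_nonneg_right h2 hS
  · rw [zero_mul, ← sum_ww, sum_eq_zero, norm_zero]
    intro q hq
    by_contra h0
    exact h (ww_ne (Nat.dvd_of_mem_divisors hq) m χ χ' h0).2.2

end Pool.Agent.Lib.MP_778b46_nt.MA
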