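import Pool.Agent.Lib.MP_778b46_nt.MA.LVa
import Pool.Agent.Lib.MP_778b46_nt.MA.Defs

/- Large values of the Dirichlet polynomial over the primes: estimates for the pieces, for an
abstract family of completely multiplicative functions. -/

noncomputable section

namespace Pool.Agent.Lib.MP_778b46_nt.MA

open Complex Finset Pool.Agent.Lib.MP_778b46_nt.GX
open ArithmeticFunction (moebius vonMangoldt zeta)

/-- a family with a large sieve inequality and cancellation in plain sums -/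
structure Fam {ι : Type} (I : Finset ι) (f : ι → ℕ → ℂ) (η : ι → ℝ) (C0 D β : ℝ) : Prop where
  mul : ∀ i m n, f i (m * n) = f i m * f i n
  le : ∀ i n, 0 < n → ‖f i n‖ ≤ 1
  ls : ∀ U W : ℕ, 1 ≤ U → (W : ℝ) ≤ U * Real.exp 40 → LSP I (Ioc U W) f (C0 * (U + D))
  pv : ∀ i ∈ I, ∀ K K' : ℕ, 1 ≤ K → K ≤ K' → K' ≤ 16 * K →
    ‖∑ k ∈ Ioc K K', f i k‖ ≤ β + K * η i
  η0 : ∀ i, 0 ≤ η i
  β0 : 0 ≤ β
  C00 : 0 ≤ C0
  D1 : 1 ≤ D

/-- a Lipschitz weight supported in `(1/4, 1)` -/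
structure Wg (w : ℝ → ℝ) (L : ℝ) : Prop where
  le : ∀ x, |w x| ≤ 1
  zero : ∀ x, x ≤ 1 / 4 ∨ 1 ≤ x → w x = 0
  lip : ∀ x y, |w x - w y| ≤ L * |x - y|
  L1 : 1 ≤ L

variable {ι : Type} {I : Finset ι} {f : ι → ℕ → ℂ} {η : ι → ℝ} {C0 D β L : ℝ} {w : ℝ → ℝ}

theorem ls_smooth (hls : ∀ U W : ℕ, 1 ≤ U → (W : ℝ) ≤ U * Real.exp 40 →
      LSP I (Ioc U W) f (C0 * (U + D))) (hC : 0 ≤ C0) (hD : 1 ≤ D) {M G : ℝ} (hM : 0 < M)
    (Z : ℕ) (a : ℕ → ℂ) (h1 : ∀ l ∈ Ioc 0 Z, a l ≠ 0 → 2 ≤ l ∧ M / 16 < l ∧ (l : ℝ) ≤ M)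
    (h2 : ∀ l ∈ Ioc 0 Z, ‖a l‖ ≤ G) :
    ∑ i ∈ I, ‖∑ l ∈ Ioc 0 Z, a l * f i l‖ ^ 2 ≤ 2 * C0 * (M + D) * M * G ^ 2 := by
  have hU1 : 1 ≤ ⌈M / 32⌉₊ := Nat.ceil_pos.2 (by positivity)
  have hU2 : (⌈M / 32⌉₊ : ℝ) < M / 32 + 1 := Nat.ceil_lt_add_one (by positivity)
  have hU3 : M / 32 ≤ ⌈M / 32⌉₊ := Nat.le_ceil _
  have hW : (⌊M⌋₊ : ℝ) ≤ M := Nat.floor_le hM.le
  have h := hls ⌈M / 32⌉₊ ⌊M⌋₊ hU1 (by
    have : 41 ≤ Real.exp 40 := by linarith [Real.add_one_le_exp 40]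
    nlinarith) fun l => if l ∈ Ioc 0 Z then a l else 0
  have e : ∀ i, ∑ l ∈ Ioc 0 Z, a l * f i l =
      ∑ l ∈ Ioc ⌈M / 32⌉₊ ⌊M⌋₊, (if l ∈ Ioc 0 Z then a l else 0) * f i l := by
    intro i
    simp only [ite_mul, zero_mul]
    rw [← sum_filter]
    refine (sum_subset (fun l hl => (mem_filter.1 hl).2) fun l hl hl' => ?_).symm
    refine mul_eq_zero_of_left ?_ _
    by_contra h0
    obtain ⟨k1, k2, k3⟩ := h1 l hl h0
    refine hl' (mem_filter.2 ⟨mem_Ioc.2 ⟨?_, Nat.le_floor k3⟩, hl⟩)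
    rcases le_or_gt 32 M with h | h
    · exact_mod_cast (show (⌈M / 32⌉₊ : ℝ) < l by linarith)
    · have : ⌈M / 32⌉₊ ≤ 1 := Nat.ceil_le.2 (by push_cast; linarith)
      omega
  simp only [e]
  refine h.trans ?_
  have h3 : ∑ l ∈ Ioc ⌈M / 32⌉₊ ⌊M⌋₊, ‖if l ∈ Ioc 0 Z then a l else 0‖ ^ 2 ≤ M * G ^ 2 := by
    refine (sum_le_card_nsmul _ _ (G ^ 2) fun l _ => ?_).trans ?_
    · split_ifs with hl
      · exact pow_le_pow_left₀ (norm_nonneg _) (h2 l hl) 2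
      · simp; positivity
    · rw [nsmul_eq_mul, Nat.card_Ioc]
      exact mul_le_mul_of_nonneg_right (le_trans (by exact_mod_cast Nat.sub_le _ _) hW)
        (by positivity)
  calc _ ≤ C0 * (2 * (M + D)) * (M * G ^ 2) := by gcongr; linarith
    _ = _ := by ring

theorem Fam.bad (h : Fam I f η C0 D β) (V : ℕ) {a a' : ℕ} (ha : 1 ≤ a) (ha' : a' ≤ 6 * a)
    (hD : D ≤ (a : ℝ) ^ 20) {E lam : ℝ} (hlam : 0 < lam)
    (hE : ∀ n : ℕ, n ≤ a' ^ 20 → (n.divisors.card : ℝ) ^ 40 ≤ E) (S : Finset ι) (hS : S ⊆ I)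
    (hS' : ∀ i ∈ S, lam * a ≤ ‖∑ n ∈ Ioc a a', bV V n * f i n‖) :
    (S.card : ℝ) ≤ 2 * C0 * 6 ^ 20 * E ^ 2 / lam ^ 40 := by
  obtain ⟨b, hb, hpow⟩ := cv_pow a a' 1 (bV V) (fun n _ => by simpa using bV_le V n) 19
  have ha0 : (0 : ℝ) < a := by exact_mod_cast ha
  have hW : ((a' ^ 20 : ℕ) : ℝ) ≤ 6 ^ 20 * (a : ℝ) ^ 20 := by
    rw [← mul_pow]
    exact_mod_cast Nat.pow_le_pow_left ha' 20
  have h1 := h.ls (a ^ 20) (a' ^ 20) (Nat.one_le_pow _ _ ha) (hW.trans (by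
    push_cast
    rw [mul_comm]
    refine mul_le_mul_of_nonneg_left ?_ (by positivity)
    rw [show (40 : ℝ) = (20 : ℕ) * 2 by norm_num, Real.exp_nat_mul]
    refine pow_le_pow_left₀ (by norm_num) ?_ _
    rw [show (2 : ℝ) = 1 + 1 by norm_num, Real.exp_add]
    nlinarith [Real.exp_one_gt_d9])) b
  have h2 : (S.card : ℝ) * (lam * a) ^ 40 ≤
      ∑ i ∈ I, ‖∑ n ∈ Ioc (a ^ 20) (a' ^ 20), b n * f i n‖ ^ 2 := by
    refine le_trans ?_ (sum_le_sum_of_subset_of_nonneg hS fun _ _ _ => by positivity)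
    rw [← nsmul_eq_mul]
    refine card_nsmul_le_sum _ _ _ fun i hi => ?_
    rw [← hpow (f i) (h.mul i), norm_pow, ← pow_mul]
    exact pow_le_pow_left₀ (by positivity) (hS' i hi) _
  have hE0 : 0 ≤ E := le_trans (by positivity) (hE 0 (Nat.zero_le _))
  have h3 : ∑ n ∈ Ioc (a ^ 20) (a' ^ 20), ‖b n‖ ^ 2 ≤ 6 ^ 20 * (a : ℝ) ^ 20 * E ^ 2 := by
    refine (sum_le_card_nsmul _ _ (E ^ 2) fun n hn => ?_).trans ?_
    · have hn0 : 0 < n := lt_of_le_of_lt (Nat.zero_le _) (mem_Ioc.1 hn).1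
      exact pow_le_pow_left₀ (norm_nonneg _) ((hb n hn0).trans (hE n (mem_Ioc.1 hn).2)) 2
    · rw [nsmul_eq_mul, Nat.card_Ioc]
      exact mul_le_mul_of_nonneg_right (le_trans (by exact_mod_cast Nat.sub_le _ _) hW)
        (by positivity)
  have hC := h.C00
  have h4 : C0 * (((a ^ 20 : ℕ) : ℝ) + D) * ∑ n ∈ Ioc (a ^ 20) (a' ^ 20), ‖b n‖ ^ 2 ≤
      C0 * (2 * (a : ℝ) ^ 20) * (6 ^ 20 * (a : ℝ) ^ 20 * E ^ 2) := by
    push_cast
    gcongr
    linarith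
  rw [le_div_iff₀ (by positivity)]
  refine le_of_mul_le_mul_right ?_ (show 0 < (a : ℝ) ^ 40 by positivity)
  refine le_trans (le_of_eq ?_) ((h2.trans (h1.trans h4)).trans (le_of_eq ?_)) <;> ring

theorem mu_sum {V : ℕ} (hV : 1 ≤ V) (Z : ℕ) (g S : ℕ → ℂ) (hg : ∀ n, 0 < n → ‖g n‖ ≤ 1)
    {A B : ℝ} (hA : 0 ≤ A) (hB : 0 ≤ B) (hS : ∀ d, 1 ≤ d → d ≤ V → ‖S d‖ ≤ A + B / d) :
    ‖∑ d ∈ Ioc 0 Z, muV V d * g d * S d‖ ≤ V * A + B * (1 + Real.log V) := by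
  have h1 : ∀ d ∈ Ioc 0 Z, ‖muV V d * g d * S d‖ ≤ if d ≤ V then A + B * (d : ℝ)⁻¹ else 0 := by
    intro d hd
    have k1 := muV_le V d
    rw [norm_mul, norm_mul]
    split_ifs at k1 ⊢ with h
    · refine (mul_le_mul (mul_le_one₀ k1 (norm_nonneg _) (hg d (mem_Ioc.1 hd).1))
        (hS d (mem_Ioc.1 hd).1 h) (norm_nonneg _) zero_le_one).trans ?_
      rw [one_mul, div_eq_mul_inv]
    · rw [le_antisymm k1 (norm_nonneg _)]; simp
  refine (norm_sum_le_of_le _ h1).trans ?_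
  rw [← sum_filter]
  refine (sum_le_sum_of_subset_of_nonneg (t := Ioc 0 V) (fun d hd => ?_)
    fun _ _ _ => by positivity).trans ?_
  · rw [mem_filter, mem_Ioc] at hd
    exact mem_Ioc.2 ⟨hd.1.1, hd.2⟩
  · rw [sum_add_distrib, sum_const, ← mul_sum, Nat.card_Ioc, nsmul_eq_mul, Nat.sub_zero]
    exact add_le_add le_rfl (mul_le_mul_of_nonneg_left
      (Pool.Agent.Lib.MP_e97e2b_nt.Ln.a2b_harm hV le_rfl) hB)

theorem Fam.bpoint (h : Fam I f η C0 D β) {i : ι} (hi : i ∈ I) {V a a' : ℕ} (hV : 1 ≤ V)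
    (hVa : V ≤ a) (haa : a ≤ a') (ha' : a' ≤ 6 * a) :
    ‖∑ n ∈ Ioc a a', bV V n * f i n‖ ≤ V * β + a * η i * (1 + Real.log V) := by
  have e : ∑ n ∈ Ioc a a', bV V n * f i n =
      ∑ d ∈ Ioc 0 a', muV V d * f i d * ∑ k ∈ Ioc (a / d) (a' / d), f i k := by
    simp only [mul_sum]
    rw [← sum_anti a a' fun d k => muV V d * f i d * f i k]
    refine sum_congr rfl fun n _ => ?_
    rw [bV, sum_mul]
    refine sum_congr rfl fun x hx => ?_
    rw [← (Nat.mem_divisorsAntidiagonal.1 hx).1, h.mul, mul_assoc]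
  rw [e]
  have := h.η0 i
  refine mu_sum hV _ _ _ (h.le i) h.β0 (by positivity) fun d hd hdV => ?_
  have k1 : 1 ≤ a / d := (Nat.le_div_iff_mul_le hd).2 (by omega)
  have k2 : a' / d ≤ 16 * (a / d) := by
    have k3 : a < (a / d + 1) * d := by rw [mul_comm]; exact Nat.lt_mul_div_succ a hd
    have k4 : a' / d < 6 * (a / d + 1) := (Nat.div_lt_iff_lt_mul hd).2 (by nlinarith)
    omega
  refine (h.pv i hi _ _ k1 (Nat.div_le_div_right haa) k2).trans (add_le_add le_rfl ?_)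
  rw [mul_div_right_comm]
  exact mul_le_mul_of_nonneg_right Nat.cast_div_le this

theorem Wg.cut (hw : Wg w L) {X : ℝ} (hX : 0 < X) {Z : ℕ} (hZ : ⌊X⌋₊ ≤ Z) (F : ℕ → ℂ) :
    ∑ m ∈ Ioc 0 Z, (w (m / X) : ℂ) * F m = ∑ m ∈ Ioc ⌊X / 4⌋₊ ⌊X⌋₊, (w (m / X) : ℂ) * F m := by
  refine (sum_subset (Ioc_subset_Ioc (Nat.zero_le _) hZ) fun m _ hm => ?_).symm
  rw [mem_Ioc, not_and_or, not_lt, not_le] at hm
  rw [hw.zero, ofReal_zero, zero_mul]
  rcases hm with hm | hm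
  · left
    rw [div_le_iff₀ hX]
    linarith [(Nat.le_floor_iff (by positivity)).1 hm]
  · right
    rw [le_div_iff₀ hX]
    linarith [(Nat.floor_lt hX.le).1 hm]

theorem Fam.term1 (h : Fam I f η C0 D β) (hw : Wg w L) {i : ι} (hi : i ∈ I) {X E : ℝ} {V Z : ℕ}
    (hV : 1 ≤ V) (hVX : 8 * (V : ℝ) ≤ X) (hZ : ⌊X⌋₊ ≤ Z) (hE : 1 + Real.log X ≤ E) :
    ‖∑ m ∈ Ioc 0 Z, (w (m / X) : ℂ) *
      ((∑ x ∈ m.divisorsAntidiagonal, muV V x.1 * (Real.log x.2 : ℝ)) * f i m)‖ ≤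
      17 * L * E * (V * β + X * η i * (1 + Real.log V)) := by
  have hV1 : (1 : ℝ) ≤ V := by exact_mod_cast hV
  have hX : 0 < X := by linarith
  have hlog : 0 ≤ Real.log X := Real.log_nonneg (by linarith)
  have hL := hw.L1
  rw [hw.cut hX hZ]
  have hUV : V ≤ ⌊X / 4⌋₊ := Nat.le_floor (by linarith)
  have hW : (⌊X⌋₊ : ℝ) ≤ X := Nat.floor_le hX.le
  have hU : (⌊X / 4⌋₊ : ℝ) ≤ X / 4 := Nat.floor_le (by positivity)
  have hUW : ⌊X / 4⌋₊ ≤ ⌊X⌋₊ := Nat.floor_le_floor (by linarith)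
  have hWU : ⌊X⌋₊ < 4 * (⌊X / 4⌋₊ + 1) := by
    have := Nat.lt_floor_add_one (X / 4)
    exact_mod_cast (show (⌊X⌋₊ : ℝ) < 4 * (⌊X / 4⌋₊ + 1) by linarith)
  have hW1 := Nat.lt_floor_add_one X
  generalize ⌊X / 4⌋₊ = U at *
  generalize ⌊X⌋₊ = W at *
  have e : ∑ m ∈ Ioc U W, (w (m / X) : ℂ) *
      ((∑ x ∈ m.divisorsAntidiagonal, muV V x.1 * (Real.log x.2 : ℝ)) * f i m) =
      ∑ d ∈ Ioc 0 W, muV V d * f i d * ∑ k ∈ Ioc (U / d) (W / d),
        ((Real.log k * w (d * k / X) : ℝ) : ℂ) * f i k := by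
    simp only [mul_sum]
    rw [← sum_anti U W fun d k => muV V d * f i d *
      (((Real.log k * w (d * k / X) : ℝ) : ℂ) * f i k)]
    refine sum_congr rfl fun n _ => ?_
    rw [sum_mul, mul_sum]
    refine sum_congr rfl fun x hx => ?_
    rw [← (Nat.mem_divisorsAntidiagonal.1 hx).1, h.mul]
    push_cast
    ring
  rw [e]
  have hη := h.η0 i
  have hβ := h.β0
  have hE1 : 1 ≤ E := by linarith
  refine (mu_sum hV _ _ _ (h.le i) (A := 17 * L * E * β) (B := 17 * L * E * (X * η i))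
    (by positivity) (by positivity) fun d hd hdV => ?_).trans (le_of_eq (by ring))
  have hd0 : (0 : ℝ) < d := by exact_mod_cast hd
  have k1 : 1 ≤ U / d := (Nat.le_div_iff_mul_le hd).2 (by omega)
  have k2 : W / d ≤ 16 * (U / d) := by
    have k3 : U < (U / d + 1) * d := by rw [mul_comm]; exact Nat.lt_mul_div_succ U hd
    have k4 : W / d < 4 * (U / d + 1) := (Nat.div_lt_iff_lt_mul hd).2 (by nlinarith)
    omega
  have k5 : ((W / d : ℕ) : ℝ) ≤ X / d := Nat.cast_div_le.trans (by gcongr)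
  refine (abel_le (f i) (fun k => ((Real.log k * w (d * k / X) : ℝ) : ℂ))
    (Nat.div_le_div_right hUW) (B := β + X * η i / d) fun K' h1 h2 => ?_).trans ?_
  · refine (h.pv i hi _ _ k1 h1 (h2.trans k2)).trans (add_le_add le_rfl ?_)
    rw [mul_div_right_comm]
    exact mul_le_mul_of_nonneg_right (Nat.cast_div_le.trans (by gcongr; linarith)) hη
  have k6 : w (d * ((W / d + 1 : ℕ) : ℝ) / X) = 0 := by
    refine hw.zero _ (Or.inr ?_)
    rw [le_div_iff₀ hX]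
    have : W + 1 ≤ d * (W / d + 1) := Nat.lt_mul_div_succ W hd
    have : (W : ℝ) + 1 ≤ d * ((W / d + 1 : ℕ) : ℝ) := by exact_mod_cast this
    linarith
  have k7 : ∀ k ∈ Ioc (U / d) (W / d), ‖((Real.log k * w (d * k / X) : ℝ) : ℂ) -
      ((Real.log (k + 1 : ℕ) * w (d * (k + 1 : ℕ) / X) : ℝ) : ℂ)‖ ≤ 1 / k + E * (L * (d / X)) := by
    intro k hk
    have hk0 : (0 : ℝ) < k := by
      have := (mem_Ioc.1 hk).1
      exact_mod_cast (show 0 < k by omega)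
    have hkX : (k : ℝ) ≤ X := le_trans (by
      exact_mod_cast (mem_Ioc.1 hk).2.trans (Nat.div_le_self _ _)) hW
    rw [← ofReal_sub, norm_real, Real.norm_eq_abs]
    push_cast
    have m1 : |Real.log k - Real.log (k + 1)| ≤ 1 / k := by
      rw [abs_sub_comm, abs_of_nonneg (sub_nonneg.2 (Real.log_le_log hk0 (by linarith))),
        ← Real.log_div (by positivity) hk0.ne']
      refine (Real.log_le_sub_one_of_pos (by positivity)).trans (le_of_eq ?_)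
      field_simp; ring
    have m2 : |Real.log (k + 1)| ≤ E := by
      rw [abs_of_nonneg (Real.log_nonneg (by linarith))]
      have := Real.log_le_log (by positivity) (show (k : ℝ) + 1 ≤ 2 * X by linarith)
      rw [Real.log_mul (by norm_num) hX.ne'] at this
      linarith [Real.log_two_lt_d9]
    have m3 := hw.lip (d * k / X) (d * (k + 1) / X)
    rw [show d * k / X - d * (k + 1) / X = -(d / X) by ring, abs_neg,
      abs_of_pos (show 0 < d / X by positivity)] at m3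
    rw [show Real.log k * w (d * k / X) - Real.log (k + 1) * w (d * (k + 1) / X) =
      (Real.log k - Real.log (k + 1)) * w (d * k / X) +
        Real.log (k + 1) * (w (d * k / X) - w (d * (k + 1) / X)) by ring]
    refine (abs_add_le _ _).trans (add_le_add ?_ ?_)
    · rw [abs_mul]
      exact (mul_le_mul m1 (hw.le _) (abs_nonneg _) (by positivity)).trans (by rw [mul_one])
    · rw [abs_mul]
      exact mul_le_mul m2 m3 (abs_nonneg _) (by linarith)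
  have k8 := sum_le_sum k7
  rw [sum_add_distrib, sum_const, nsmul_eq_mul, Nat.card_Ioc] at k8
  have k9 := sum_inv_le k1 k2 _ Ioc_subset_Icc_self zero_le_one
  have k10 : ((W / d - U / d : ℕ) : ℝ) * (E * (L * (d / X))) ≤ X / d * (E * (L * (d / X))) :=
    mul_le_mul_of_nonneg_right (le_trans (by exact_mod_cast Nat.sub_le _ _) k5) (by positivity)
  rw [show X / d * (E * (L * (d / X))) = L * E by field_simp] at k10
  have k11 : 1 ≤ L * E := one_le_mul_of_one_le_of_one_le hL hE1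
  simp only [k6, mul_zero, ofReal_zero, norm_zero, zero_add]
  calc _ ≤ (β + X * η i / d) * (17 * L * E) :=
        mul_le_mul_of_nonneg_left (by linarith) (by positivity)
    _ = _ := by ring

theorem prime_pow (hw : Wg w L) {X : ℝ} (hX : 1 ≤ X) {Z : ℕ} (hZ : ⌊X⌋₊ ≤ Z) (g : ℕ → ℂ)
    (hg : ∀ n, 0 < n → ‖g n‖ ≤ 1) :
    ‖∑ m ∈ Ioc 0 Z, (w (m / X) : ℂ) * (((lp m - vonMangoldt m : ℝ) : ℂ) * g m)‖ ≤
      2 * √X * Real.log X := by
  rw [hw.cut (by linarith) hZ, ← hw.cut (by linarith) le_rfl]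
  refine le_trans ?_ (Chebyshev.psi_sub_theta_le hX)
  rw [Chebyshev.psi_sub_theta_eq_sum_not_prime, sum_filter]
  refine norm_sum_le_of_le _ fun m hm => ?_
  rw [norm_mul, norm_mul, norm_real, norm_real, Real.norm_eq_abs, Real.norm_eq_abs]
  refine (mul_le_of_le_one_left (by positivity) (hw.le _)).trans
    ((mul_le_of_le_one_right (abs_nonneg _) (hg m (mem_Ioc.1 hm).1)).trans (le_of_eq ?_))
  unfold lp
  by_cases hp : m.Prime
  · simp [hp, ArithmeticFunction.vonMangoldt_apply_prime hp]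
  · simp [hp, ArithmeticFunction.vonMangoldt_nonneg]

end Pool.Agent.Lib.MP_778b46_nt.MA
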