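import Pool.Agent.Lib.MP_778b46_nt.MA.LVb

/- Large values of the Dirichlet polynomial over the primes: the bilinear term is cut into short
ranges, on which the weight separates up to a small error. -/

noncomputable section

namespace Pool.Agent.Lib.MP_778b46_nt.MA

open Complex Finset Pool.Agent.Lib.MP_778b46_nt.GX
open ArithmeticFunction (moebius vonMangoldt zeta)

variable {ι : Type} {I : Finset ι} {f : ι → ℕ → ℂ} {η : ι → ℝ} {C0 D β L : ℝ} {w : ℝ → ℝ}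

/-- the error made by freezing the weight -/
def er (w : ℝ → ℝ) (X : ℝ) (V : ℕ) (y : ℕ → ℝ) (m : ℕ) : ℂ :=
  ∑ x ∈ m.divisorsAntidiagonal, (if V < x.1 then bV V x.1 else 0) * (vonMangoldt x.2 : ℝ) *
    ((w (m / X) - w (y x.1 * x.2 / X) : ℝ) : ℂ)

theorem sum_tele (a : ℕ → ℕ) (ha : Monotone a) (K : ℕ) (g : ℕ → ℂ) :
    ∑ n ∈ Ioc (a 0) (a K), g n = ∑ r ∈ range K, ∑ n ∈ Ioc (a r) (a (r + 1)), g n := by
  induction K with
  | zero => simp
  | succ K ih =>
    rw [sum_range_succ, ← ih, sum_Ioc_consecutive g (ha (Nat.zero_le K)) (ha (Nat.le_succ K))]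

theorem decomp (hw : Wg w L) {X : ℝ} (hX : 0 < X) {V Z : ℕ} (hZ : 3 * X ≤ Z) (y : ℕ → ℝ)
    (hy : ∀ n, V < n → n ≤ Z → (n : ℝ) ≤ 3 * y n) (g : ℕ → ℂ)
    (hg : ∀ m n, g (m * n) = g m * g n) :
    ∑ m ∈ Ioc 0 Z, (w (m / X) : ℂ) * ((∑ x ∈ m.divisorsAntidiagonal,
      (if V < x.1 then bV V x.1 else 0) * (vonMangoldt x.2 : ℝ)) * g m) =
      ∑ n ∈ Ioc V Z, bV V n * g n *
        ∑ l ∈ Ioc 0 Z, ((vonMangoldt l * w (y n * l / X) : ℝ) : ℂ) * g l +
      ∑ m ∈ Ioc 0 Z, er w X V y m * g m := by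
  have e1 : ∑ n ∈ Ioc V Z, bV V n * g n *
      ∑ l ∈ Ioc 0 Z, ((vonMangoldt l * w (y n * l / X) : ℝ) : ℂ) * g l =
      ∑ n ∈ Ioc 0 Z, ∑ l ∈ Ioc (0 / n) (Z / n), (if V < n then bV V n else 0) * g n *
        (((vonMangoldt l * w (y n * l / X) : ℝ) : ℂ) * g l) := by
    rw [← sum_subset (Ioc_subset_Ioc_left (Nat.zero_le V)) fun n hn hn' => by
      rw [mem_Ioc] at hn hn'
      rw [if_neg (by omega)]
      simp]
    refine sum_congr rfl fun n hn => ?_
    rw [mem_Ioc] at hn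
    rw [if_pos hn.1, ← mul_sum, Nat.zero_div]
    congr 1
    refine (sum_subset (Ioc_subset_Ioc_right (Nat.div_le_self _ _)) fun l hl hl' => ?_).symm
    rw [mem_Ioc] at hl hl'
    have k1 : Z < l * n := (Nat.div_lt_iff_lt_mul (by omega)).1 (by omega)
    have k2 : (Z : ℝ) < l * n := by exact_mod_cast k1
    have k3 := mul_le_mul_of_nonneg_left (hy n hn.1 hn.2) (Nat.cast_nonneg (α := ℝ) l)
    rw [hw.zero _ (Or.inr (by rw [le_div_iff₀ hX]; linarith))]
    simp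
  rw [e1, ← sum_anti 0 Z fun n l => (if V < n then bV V n else 0) * g n *
    (((vonMangoldt l * w (y n * l / X) : ℝ) : ℂ) * g l), ← sum_add_distrib]
  refine sum_congr rfl fun m _ => ?_
  rw [er, sum_mul, sum_mul, mul_sum, ← sum_add_distrib]
  refine sum_congr rfl fun x hx => ?_
  have : g m = g x.1 * g x.2 := by rw [← hg, (Nat.mem_divisorsAntidiagonal.1 hx).1]
  rw [this]
  push_cast
  ring

theorem er_supp (hw : Wg w L) {X : ℝ} (hX : 8 ≤ X) {V Z : ℕ} (y : ℕ → ℝ)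
    (hy : ∀ n, V < n → n ≤ Z → y n ≤ n ∧ (n : ℝ) ≤ 3 * y n) {m : ℕ} (hm : m ∈ Ioc 0 Z)
    (h : er w X V y m ≠ 0) : 2 ≤ m ∧ 3 * X / 16 < m ∧ (m : ℝ) ≤ 3 * X := by
  obtain ⟨x, hx, h1⟩ := exists_ne_zero_of_sum_ne_zero h
  have hX0 : 0 < X := by linarith
  have e : (m : ℝ) = x.1 * x.2 := by exact_mod_cast (Nat.mem_divisorsAntidiagonal.1 hx).1.symm
  have h2 : V < x.1 := by
    by_contra h2
    simp [h2] at h1
  obtain ⟨k1, k2⟩ := hy x.1 h2 ((Nat.divisor_le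
    (Nat.fst_mem_divisors_of_mem_antidiagonal hx)).trans (mem_Ioc.1 hm).2)
  have k3 := mul_le_mul_of_nonneg_right k1 (Nat.cast_nonneg (α := ℝ) x.2)
  have k4 := mul_le_mul_of_nonneg_right k2 (Nat.cast_nonneg (α := ℝ) x.2)
  have key : X / 4 < m ∧ (m : ℝ) ≤ 3 * X := by
    constructor
    · by_contra hc
      rw [hw.zero _ (Or.inl (by rw [div_le_iff₀ hX0]; linarith)),
        hw.zero _ (Or.inl (by rw [div_le_iff₀ hX0]; linarith))] at h1
      simp at h1
    · by_contra hc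
      rw [hw.zero _ (Or.inr (by rw [le_div_iff₀ hX0]; linarith)),
        hw.zero _ (Or.inr (by rw [le_div_iff₀ hX0]; linarith))] at h1
      simp at h1
  exact ⟨by exact_mod_cast (show (2 : ℝ) ≤ m by linarith [key.1]), by linarith [key.1], key.2⟩

theorem er_le (hw : Wg w L) {X δ E : ℝ} (hX : 0 < X) (hδ : 0 ≤ δ) {V Z : ℕ} (y : ℕ → ℝ)
    (hy : ∀ n, V < n → n ≤ Z → y n ≤ n ∧ (n : ℝ) ≤ (1 + 2 * δ) * y n) {m : ℕ} (hm : m ∈ Ioc 0 Z)
    (h1 : (m.divisors.card : ℝ) ^ 2 ≤ E) (h2 : Real.log m ≤ 3 * E) :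
    ‖er w X V y m‖ ≤ 6 * L * δ * E ^ 2 := by
  have hL := hw.L1
  have hm0 := (mem_Ioc.1 hm).1
  have hE : 0 ≤ E := le_trans (by positivity) h1
  refine (norm_sum_le_of_le _ (n := fun _ => (m.divisors.card : ℝ) * (3 * E) * (2 * L * δ))
    fun x hx => ?_).trans ?_
  · by_cases h : V < x.1
    swap
    · simp only [h, if_false, zero_mul, norm_zero]; positivity
    have d1 := Nat.fst_mem_divisors_of_mem_antidiagonal hx
    have d2 := Nat.snd_mem_divisors_of_mem_antidiagonal hx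
    have e : (m : ℝ) = x.1 * x.2 := by exact_mod_cast (Nat.mem_divisorsAntidiagonal.1 hx).1.symm
    obtain ⟨k1, k2⟩ := hy x.1 h ((Nat.divisor_le d1).trans (mem_Ioc.1 hm).2)
    have k3 := mul_le_mul_of_nonneg_right k1 (Nat.cast_nonneg (α := ℝ) x.2)
    have k4 := mul_le_mul_of_nonneg_right k2 (Nat.cast_nonneg (α := ℝ) x.2)
    rw [if_pos h, norm_mul, norm_mul, norm_real, norm_real, Real.norm_eq_abs, Real.norm_eq_abs]
    refine mul_le_mul (mul_le_mul ((bV_le V _).trans (Nat.cast_le.2 (card_le_card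
      (Nat.divisors_subset_of_dvd hm0.ne' (Nat.dvd_of_mem_divisors d1))))) ?_ (abs_nonneg _)
      (by positivity)) ?_ (abs_nonneg _) (by positivity)
    · rw [abs_of_nonneg ArithmeticFunction.vonMangoldt_nonneg]
      refine ArithmeticFunction.vonMangoldt_le_log.trans (le_trans (Real.log_le_log ?_ ?_) h2)
      · exact_mod_cast Nat.pos_of_mem_divisors d2
      · exact_mod_cast Nat.divisor_le d2
    · rcases le_total X (y x.1 * x.2) with h3 | h3
      · rw [hw.zero _ (Or.inr (by rw [le_div_iff₀ hX]; linarith)),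
          hw.zero _ (Or.inr (by rw [le_div_iff₀ hX]; linarith)), sub_zero, abs_zero]
        positivity
      · refine (hw.lip _ _).trans ?_
        rw [← sub_div, abs_div, abs_of_pos hX, abs_of_nonneg (by linarith), mul_comm 2 L, mul_assoc]
        refine mul_le_mul_of_nonneg_left ?_ (by linarith)
        rw [div_le_iff₀ hX]
        nlinarith
  · rw [sum_const, card_anti, nsmul_eq_mul]
    calc _ = (m.divisors.card : ℝ) ^ 2 * (6 * L * δ * E) := by ring
      _ ≤ E * (6 * L * δ * E) := mul_le_mul_of_nonneg_right h1 (by positivity)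
      _ = _ := by ring

/-- one short range of the bilinear term -/
theorem Fam.prod (h : Fam I f η C0 D β) (hw : Wg w L) {X E δ y : ℝ} {V a a' : ℕ} (Z : ℕ)
    (hX : 1 ≤ X) (hV : 1 ≤ V) (hVa : V ≤ a) (haa : a ≤ a') (ha' : a' ≤ 6 * a) (hay : (a : ℝ) ≤ y)
    (hE : 1 + Real.log X ≤ E) (hVE : 1 + Real.log V ≤ E) (hη : ∑ i ∈ I, η i ^ 2 ≤ δ ^ 4)
    (hβ : D ^ 2 * β ^ 2 * (V : ℝ) ^ 2 ≤ δ ^ 4 * X ^ 2) (S : Finset ι) (hS : S ⊆ I)
    (hS' : ∀ i ∈ S, ‖∑ n ∈ Ioc a a', bV V n * f i n‖ ≤ δ ^ 2 * a) :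
    ∑ i ∈ S, ‖(∑ n ∈ Ioc a a', bV V n * f i n) *
      ∑ l ∈ Ioc 0 Z, ((vonMangoldt l * w (y * l / X) : ℝ) : ℂ) * f i l‖ ^ 2 ≤
      (8 * C0 + 2) * δ ^ 4 * X ^ 2 * E ^ 4 := by
  have hX0 : 0 < X := by linarith
  have ha1 : (1 : ℝ) ≤ a := by exact_mod_cast hV.trans hVa
  have hy0 : 0 < y := by linarith
  have hE1 : 1 ≤ E := by linarith [Real.log_nonneg hX]
  have hC := h.C00
  have hD := h.D1
  obtain ⟨M, hM⟩ : ∃ M, M = X / y := ⟨_, rfl⟩
  have hM0 : 0 < M := by rw [hM]; positivity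
  have hMy : M * y = X := by rw [hM]; field_simp
  have hMX : M ≤ X := by nlinarith
  have s1 : ∀ l ∈ Ioc 0 Z, ((vonMangoldt l * w (y * l / X) : ℝ) : ℂ) ≠ 0 →
      2 ≤ l ∧ M / 16 < l ∧ (l : ℝ) ≤ M := by
    intro l hl h0
    have k1 : w (y * l / X) ≠ 0 := fun e => h0 (by rw [e]; simp)
    have k2 := mt (hw.zero (y * l / X)) k1
    rw [not_or, not_le, not_le, lt_div_iff₀ hX0, div_lt_iff₀ hX0] at k2
    refine ⟨?_, by nlinarith [k2.1], by nlinarith [k2.2]⟩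
    by_contra hc
    have : l = 1 := by have := (mem_Ioc.1 hl).1; omega
    exact h0 (by simp [this])
  have s2 : ∀ l ∈ Ioc 0 Z, ‖((vonMangoldt l * w (y * l / X) : ℝ) : ℂ)‖ ≤ E := by
    intro l hl
    by_cases h0 : ((vonMangoldt l * w (y * l / X) : ℝ) : ℂ) = 0
    · rw [h0, norm_zero]; linarith
    rw [norm_real, Real.norm_eq_abs, abs_mul, abs_of_nonneg ArithmeticFunction.vonMangoldt_nonneg]
    refine (mul_le_of_le_one_right ArithmeticFunction.vonMangoldt_nonneg (hw.le _)).trans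
      (ArithmeticFunction.vonMangoldt_le_log.trans ?_)
    have := Real.log_le_log (by exact_mod_cast (mem_Ioc.1 hl).1) ((s1 l hl h0).2.2.trans hMX)
    linarith
  have s3 := ls_smooth h.ls hC hD hM0 Z _ s1 s2
  have s4 : ∀ i, ‖∑ l ∈ Ioc 0 Z, ((vonMangoldt l * w (y * l / X) : ℝ) : ℂ) * f i l‖ ≤ M * E := by
    intro i
    refine (norm_sum_le_of_le _ (n := fun l => if l ∈ Ioc 0 ⌊M⌋₊ then E else 0)
      fun l hl => ?_).trans ?_
    · split_ifs with h1
      · rw [norm_mul]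
        exact (mul_le_of_le_one_right (norm_nonneg _) (h.le i l (mem_Ioc.1 hl).1)).trans (s2 l hl)
      · by_contra hc
        refine h1 (mem_Ioc.2 ⟨(mem_Ioc.1 hl).1, Nat.le_floor (s1 l hl fun e => hc ?_).2.2⟩)
        rw [e]; simp
    · rw [← sum_filter, sum_const, nsmul_eq_mul]
      refine mul_le_mul_of_nonneg_right (le_trans ?_ (Nat.floor_le hM0.le)) (by linarith)
      exact_mod_cast (card_le_card fun l hl => (mem_filter.1 hl).2).trans (by simp)
  generalize hA : (fun i => ‖∑ l ∈ Ioc 0 Z,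
    ((vonMangoldt l * w (y * l / X) : ℝ) : ℂ) * f i l‖) = A
  have hA' : ∀ i, ‖∑ l ∈ Ioc 0 Z, ((vonMangoldt l * w (y * l / X) : ℝ) : ℂ) * f i l‖ = A i :=
    fun i => congrFun hA i
  simp only [norm_mul, mul_pow, hA'] at s3 s4 ⊢
  have hA0 : ∀ i, 0 ≤ A i := fun i => hA' i ▸ norm_nonneg _
  have s5 : ∑ i ∈ S, A i ^ 2 ≤ 2 * C0 * (M + D) * M * E ^ 2 :=
    (sum_le_sum_of_subset_of_nonneg hS fun _ _ _ => by positivity).trans s3
  have hE2 : E ^ 2 ≤ E ^ 4 := pow_le_pow_right₀ hE1 (by norm_num)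
  have t0 : 0 ≤ δ ^ 4 * X ^ 2 := by positivity
  rcases le_total D M with hc | hc
  · calc _ ≤ ∑ i ∈ S, (δ ^ 2 * y) ^ 2 * A i ^ 2 := sum_le_sum fun i hi =>
          mul_le_mul_of_nonneg_right (pow_le_pow_left₀ (norm_nonneg _) ((hS' i hi).trans
            (mul_le_mul_of_nonneg_left hay (by positivity))) 2) (by positivity)
      _ ≤ (δ ^ 2 * y) ^ 2 * (2 * C0 * (M + M) * M * E ^ 2) := by
          rw [← mul_sum]
          refine mul_le_mul_of_nonneg_left (s5.trans ?_) (by positivity)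
          gcongr
      _ = 4 * C0 * (δ ^ 4 * X ^ 2) * E ^ 2 := by rw [← hMy]; ring
      _ ≤ (8 * C0 + 2) * (δ ^ 4 * X ^ 2) * E ^ 4 := by gcongr; linarith
      _ = _ := by ring
  · calc _ ≤ ∑ i ∈ S, (2 * (V * β) ^ 2 * A i ^ 2 + 2 * (y * E) ^ 2 * (M * E) ^ 2 * η i ^ 2) := by
          refine sum_le_sum fun i hi => ?_
          have k0 := h.η0 i
          have k1 : ‖∑ n ∈ Ioc a a', bV V n * f i n‖ ≤ V * β + y * E * η i := by
            refine (h.bpoint (hS hi) hV hVa haa ha').trans (add_le_add le_rfl ?_)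
            rw [mul_right_comm]
            have : 0 ≤ 1 + Real.log V := by positivity
            gcongr
          have k2 : ‖∑ n ∈ Ioc a a', bV V n * f i n‖ ^ 2 ≤
              2 * (V * β) ^ 2 + 2 * (y * E * η i) ^ 2 :=
            (pow_le_pow_left₀ (norm_nonneg _) k1 2).trans
              (by nlinarith [sq_nonneg (V * β - y * E * η i)])
          have k3 : A i ^ 2 ≤ (M * E) ^ 2 := pow_le_pow_left₀ (hA0 i) (s4 i) 2
          have k4 := mul_le_mul_of_nonneg_left k3 (show 0 ≤ 2 * (y * E * η i) ^ 2 by positivity)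
          have k5 := mul_le_mul_of_nonneg_right k2 (sq_nonneg (A i))
          nlinarith
      _ ≤ 2 * (V * β) ^ 2 * (2 * C0 * (D + D) * D * E ^ 2) +
          2 * (y * E) ^ 2 * (M * E) ^ 2 * δ ^ 4 := by
          rw [sum_add_distrib, ← mul_sum, ← mul_sum]
          refine add_le_add (mul_le_mul_of_nonneg_left (s5.trans ?_) (by positivity))
            (mul_le_mul_of_nonneg_left (le_trans (sum_le_sum_of_subset_of_nonneg hS
              fun _ _ _ => by positivity) hη) (by positivity))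
          gcongr
      _ = 8 * C0 * (D ^ 2 * β ^ 2 * (V : ℝ) ^ 2) * E ^ 2 + 2 * (δ ^ 4 * X ^ 2) * E ^ 4 := by
          rw [← hMy]; ring
      _ ≤ 8 * C0 * (δ ^ 4 * X ^ 2) * E ^ 4 + 2 * (δ ^ 4 * X ^ 2) * E ^ 4 := by gcongr
      _ = _ := by ring

end Pool.Agent.Lib.MP_778b46_nt.MA
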