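import Pool.Agent.Lib.MP_778b46_nt.MA.LVe

/- Large values of the Dirichlet polynomial over the primes: the abstract estimate with an arbitrary
power of the short polynomial. -/

noncomputable section

namespace Pool.Agent.Lib.MP_778b46_nt.MA

open Complex Finset Pool.Agent.Lib.MP_778b46_nt.GX
open Pool.Agent.Lib.MP_c03ca8_nt.Q (prim)
open ArithmeticFunction (moebius vonMangoldt zeta)

theorem lw_bad {ι : Type} {I : Finset ι} {f : ι → ℕ → ℂ} {C1 D : ℝ}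
    (hmul : ∀ i m n, f i (m * n) = f i m * f i n) (hC : 0 ≤ C1) (k : ℕ)
    (hls : ∀ U W : ℕ, 1 ≤ U → (W : ℝ) ≤ U * 6 ^ (k + 1) → LSP I (Ioc U W) f (C1 * (U + D)))
    (V : ℕ) {a a' : ℕ} (ha : 1 ≤ a) (ha' : a' ≤ 6 * a)
    (hD : D ≤ (a : ℝ) ^ (k + 1)) {E lam : ℝ} (hlam : 0 < lam)
    (hE : ∀ n : ℕ, n ≤ a' ^ (k + 1) → (n.divisors.card : ℝ) ^ (2 * (k + 1)) ≤ E) (S : Finset ι)
    (hS : S ⊆ I) (hS' : ∀ i ∈ S, lam * a ≤ ‖∑ n ∈ Ioc a a', bV V n * f i n‖) :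
    (S.card : ℝ) ≤ 2 * C1 * 6 ^ (k + 1) * E ^ 2 / lam ^ (2 * (k + 1)) := by
  obtain ⟨b, hb, hpow⟩ := cv_pow a a' 1 (bV V) (fun n _ => by simpa using bV_le V n) k
  have ha0 : (0 : ℝ) < a := by exact_mod_cast ha
  have hW : ((a' ^ (k + 1) : ℕ) : ℝ) ≤ 6 ^ (k + 1) * (a : ℝ) ^ (k + 1) := by
    rw [← mul_pow]
    exact_mod_cast Nat.pow_le_pow_left ha' (k + 1)
  have h1 := hls (a ^ (k + 1)) (a' ^ (k + 1)) (Nat.one_le_pow _ _ ha) (hW.trans (by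
    push_cast
    rw [mul_comm])) b
  have h2 : (S.card : ℝ) * (lam * a) ^ (2 * (k + 1)) ≤
      ∑ i ∈ I, ‖∑ n ∈ Ioc (a ^ (k + 1)) (a' ^ (k + 1)), b n * f i n‖ ^ 2 := by
    refine le_trans ?_ (sum_le_sum_of_subset_of_nonneg hS fun _ _ _ => by positivity)
    rw [← nsmul_eq_mul]
    refine card_nsmul_le_sum _ _ _ fun i hi => ?_
    rw [← hpow (f i) (hmul i), norm_pow, ← pow_mul, mul_comm (k + 1)]
    exact pow_le_pow_left₀ (by positivity) (hS' i hi) _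
  have hE0 : 0 ≤ E := le_trans (by positivity) (hE 0 (Nat.zero_le _))
  have h3 : ∑ n ∈ Ioc (a ^ (k + 1)) (a' ^ (k + 1)), ‖b n‖ ^ 2 ≤
      6 ^ (k + 1) * (a : ℝ) ^ (k + 1) * E ^ 2 := by
    refine (sum_le_card_nsmul _ _ (E ^ 2) fun n hn => ?_).trans ?_
    · have hn0 : 0 < n := lt_of_le_of_lt (Nat.zero_le _) (mem_Ioc.1 hn).1
      exact pow_le_pow_left₀ (norm_nonneg _) ((hb n hn0).trans (hE n (mem_Ioc.1 hn).2)) 2
    · rw [nsmul_eq_mul, Nat.card_Ioc]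
      exact mul_le_mul_of_nonneg_right (le_trans (by exact_mod_cast Nat.sub_le _ _) hW)
        (by positivity)
  have h4 : C1 * (((a ^ (k + 1) : ℕ) : ℝ) + D) *
      ∑ n ∈ Ioc (a ^ (k + 1)) (a' ^ (k + 1)), ‖b n‖ ^ 2 ≤
      C1 * (2 * (a : ℝ) ^ (k + 1)) * (6 ^ (k + 1) * (a : ℝ) ^ (k + 1) * E ^ 2) := by
    push_cast
    gcongr
    linarith
  rw [le_div_iff₀ (by positivity)]
  refine le_of_mul_le_mul_right ?_ (show 0 < (a : ℝ) ^ (2 * (k + 1)) by positivity)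
  refine le_trans (le_of_eq ?_) ((h2.trans (h1.trans h4)).trans (le_of_eq ?_)) <;> ring

theorem ls_IB {B : ℝ} (hB : 1 ≤ B) : ∃ C1 : ℝ, 0 ≤ C1 ∧ ∀ (R : ℕ) (A : Finset ℕ) (H Lg : ℝ),
    1 ≤ R → (R : ℝ) ≤ H → A ⊆ Ico R (2 * R) → 1 + Real.log (2 * R) ≤ Lg → ∀ S ⊆ IB A H,
    ∀ U W : ℕ, 1 ≤ U → (W : ℝ) ≤ U * B → LSP S (Ioc U W) fz (C1 * (U + 4 * H * R * Lg)) := by
  classical
  obtain ⟨C, hC, h⟩ := hybrid_ls B hB
  refine ⟨C * 2, by positivity, fun R A H Lg hR hRH hA hLg S hS U W hU hW => ?_⟩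
  have hR1 : (1 : ℝ) ≤ R := by exact_mod_cast hR
  have hl : 0 ≤ Real.log (2 * R) := Real.log_nonneg (by linarith)
  have hT : 1 ≤ H / R := (one_le_div (by linarith)).2 hRH
  have hmem : ∀ i ∈ S, R ≤ i.1.1 ∧ i.1.1 < 2 * R ∧ i.1.2.IsPrimitive ∧ |(i.2 : ℝ)| ≤ H / R := by
    intro i hi
    obtain ⟨k1, k2⟩ := mem_sigma.1 (hS hi)
    obtain ⟨k3, k4⟩ := mem_sigma.1 k1
    obtain ⟨k5, k6⟩ := mem_Ico.1 (hA k3)
    have k7 : (R : ℝ) ≤ i.1.1 := by exact_mod_cast k5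
    refine ⟨k5, k6, by simpa [prim] using k4, (lve_II (div_nonneg (by linarith) (by linarith))
      k2).trans (div_le_div_of_nonneg_left (by linarith) (by linarith) k7)⟩
  have hre : ∀ t : ℝ, (-((t : ℂ) * I)).re = 0 := fun t => by simp
  have hH0 : 0 ≤ H := by linarith
  refine (h _ S (fun i => i.1) (fun i => -((i.2 : ℝ) * I)) (2 * R) U W (H / R) 2 0 (by omega) hU
    (hW.trans (mul_le_mul_of_nonneg_left (by linarith [Real.add_one_le_exp B]) (Nat.cast_nonneg _)))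
    hT zero_le_two le_rfl (fun i hi => ?_) (fun i hi => ?_) fun x t => ?_).congr
    (fun _ _ _ _ => rfl) ?_
  · obtain ⟨k1, k2, k3, -⟩ := hmem i hi
    exact mem_PC.2 ⟨by omega, k2.le, k3⟩
  · rw [hre]
    refine ⟨le_rfl, zero_le_one, ?_⟩
    simpa using (hmem i hi).2.2.2
  · refine le_trans (Nat.cast_le.2 (card_le_card_of_injOn (t := {⌊1 / 2 - t⌋, ⌊1 / 2 - t⌋ - 1})
      (fun i => i.2) (fun i hi => ?_) fun i hi j hj e => ?_)) (by exact_mod_cast card_le_two)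
    · have k1 := (mem_filter.1 (mem_coe.1 hi)).2.2
      simp only [neg_im, mul_im, ofReal_re, I_im, mul_one, ofReal_im, I_re, mul_zero,
        add_zero] at k1
      rw [abs_le] at k1
      have k2 : i.2 ≤ ⌊1 / 2 - t⌋ := Int.le_floor.2 (by linarith [k1.1])
      have k3 : ⌊1 / 2 - t⌋ < i.2 + 2 := Int.floor_lt.2 (by push_cast; linarith [k1.2])
      simp only [coe_insert, coe_singleton, Set.mem_insert_iff, Set.mem_singleton_iff]
      omega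
    · exact Sigma.ext ((mem_filter.1 (mem_coe.1 hi)).2.1.trans
        (mem_filter.1 (mem_coe.1 hj)).2.1.symm) (heq_of_eq e)
  · rw [mul_zero, Real.rpow_zero, mul_one]
    push_cast
    have : H / R * ((2 * R) ^ 2 * (1 + Real.log (2 * R))) = 4 * H * R * (1 + Real.log (2 * R)) := by
      field_simp; ring
    rw [this]
    gcongr

theorem lw_core (k : ℕ) (C0 C1 L : ℝ) (hC : 0 ≤ C0) (hC1 : 0 ≤ C1) (hL : 1 ≤ L) : ∃ C : ℝ, 0 ≤ C ∧
    ∀ (ι : Type) [DecidableEq ι] (I : Finset ι) (f : ι → ℕ → ℂ) (η : ι → ℝ) (w : ℝ → ℝ)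
      (X D β δ E : ℝ) (V : ℕ), Fam I f η C0 D β → (∀ U W : ℕ, 1 ≤ U → (W : ℝ) ≤ U * 6 ^ (k + 1) →
        LSP I (Ioc U W) f (C1 * (U + D))) → Wg w L → 1 ≤ V → 8 * (V : ℝ) ≤ X → 0 < δ →
      δ ≤ 1 → (I.card : ℝ) ≤ 3 * D → D ≤ (V : ℝ) ^ (k + 1) → D ≤ δ ^ 4 * X →
      D ^ 2 * β ^ 2 * (V : ℝ) ^ 2 ≤ δ ^ 4 * X ^ 2 → ∑ i ∈ I, η i ^ 2 ≤ δ ^ 4 →
      1 + Real.log X ≤ E →
      (∀ n : ℕ, (n : ℝ) ≤ (X ^ 3) ^ (k + 1) → (n.divisors.card : ℝ) ^ (2 * (k + 1)) ≤ E) →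
      ∃ Bad : Finset ι, (Bad.card : ℝ) ≤ C * E ^ 3 / δ ^ (4 * k + 5) ∧
        ∑ i ∈ I \ Bad, ‖∑ n ∈ Ioc 0 ⌊X⌋₊, (w (n / X) : ℂ) * ((lp n : ℂ) * f i n)‖ ^ 2 ≤
          C * E ^ 6 * δ ^ 2 * X ^ 2 := by
  classical
  refine ⟨6 * C1 * 6 ^ (k + 1) + 4 * (12 + 2312 * L ^ 2 + 9 * (8 * C0 + 2) + 864 * C0 * L ^ 2),
    by positivity, ?_⟩
  intro ι _ I f η w X D β δ E V h hls hw hV hVX hδ hδ1 hI hDV hDX hβ hη hE hτ
  obtain ⟨K, a, y, yy, ham, a0, hZ1, hZ2, hK, ha6, hay, hyy, hy⟩ := ranges hV hVX hδ hδ1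
  have hV1 : (1 : ℝ) ≤ V := by exact_mod_cast hV
  have hX : 8 ≤ X := by linarith
  have hX0 : 0 < X := by linarith
  have hlog : 0 ≤ Real.log X := Real.log_nonneg (by linarith)
  have hE1 : 1 ≤ E := by linarith
  have hD1 := h.D1
  have hβ0 := h.β0
  have hVE : 1 + Real.log V ≤ E := by
    linarith [Real.log_le_log (by linarith) (show (V : ℝ) ≤ X by linarith)]
  have hVa : ∀ r, V ≤ a r := fun r => a0 ▸ ham (Nat.zero_le r)
  have hK' : (K : ℝ) ≤ 3 * E / δ := hK.trans (by gcongr)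
  have hZ3 : (a K : ℝ) ≤ X ^ 3 := hZ2.trans (by nlinarith [sq_nonneg X])
  have hZ0 : ⌊X⌋₊ ≤ a K := by
    exact_mod_cast (show (⌊X⌋₊ : ℝ) ≤ a K by linarith [Nat.floor_le hX0.le])
  have hδ4 : δ ^ 4 ≤ δ ^ 2 := pow_le_pow_of_le_one hδ.le hδ1 (by norm_num)
  have hδ2 : δ ^ 4 ≤ 1 := pow_le_one₀ hδ.le hδ1
  set B : ℕ → ι → ℂ := fun r i => ∑ n ∈ Ioc (a r) (a (r + 1)), bV V n * f i n with hB
  set A : ℕ → ι → ℂ := fun r i =>
    ∑ l ∈ Ioc 0 (a K), ((vonMangoldt l * w (y r * l / X) : ℝ) : ℂ) * f i l with hA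
  refine ⟨(range K).biUnion fun r => I.filter fun i => δ ^ 2 * a r ≤ ‖B r i‖, ?_, ?_⟩
  · have h1 : ∀ r ∈ range K, ((I.filter fun i => δ ^ 2 * a r ≤ ‖B r i‖).card : ℝ) ≤
        2 * C1 * 6 ^ (k + 1) * E ^ 2 / (δ ^ 2) ^ (2 * (k + 1)) := by
      intro r hr
      refine lw_bad h.mul hC1 k hls V (hV.trans (hVa r)) (ha6 r) (hDV.trans (pow_le_pow_left₀ (by positivity)
        (by exact_mod_cast hVa r) _)) (by positivity) (fun n hn => hτ n ?_) _ (filter_subset _ _)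
        fun i hi => (mem_filter.1 hi).2
      have k1 : (a (r + 1) : ℝ) ≤ X ^ 3 := le_trans (by exact_mod_cast ham (mem_range.1 hr)) hZ3
      calc (n : ℝ) ≤ (a (r + 1) : ℝ) ^ (k + 1) := by exact_mod_cast hn
        _ ≤ _ := pow_le_pow_left₀ (by positivity) k1 _
    have h2 := sum_le_card_nsmul _ _ _ h1
    rw [card_range, nsmul_eq_mul] at h2
    refine le_trans (by exact_mod_cast card_biUnion_le) (h2.trans ?_)
    calc _ ≤ 3 * E / δ * (2 * C1 * 6 ^ (k + 1) * E ^ 2 / (δ ^ 2) ^ (2 * (k + 1))) := by gcongr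
      _ = 6 * C1 * 6 ^ (k + 1) * E ^ 3 / δ ^ (4 * k + 5) := by field_simp; ring
      _ ≤ _ := by gcongr; exact le_add_of_nonneg_right (by positivity)
  set S := I \ (range K).biUnion fun r => I.filter fun i => δ ^ 2 * a r ≤ ‖B r i‖ with hS
  have hSI : S ⊆ I := sdiff_subset
  have hSc : (S.card : ℝ) ≤ 3 * D := le_trans (by exact_mod_cast card_le_card hSI) hI
  set T0 : ι → ℂ := fun i => ∑ m ∈ Ioc 0 (a K), (w (m / X) : ℂ) *
    (((lp m - vonMangoldt m : ℝ) : ℂ) * f i m) with hT0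
  set T1 : ι → ℂ := fun i => ∑ m ∈ Ioc 0 (a K), (w (m / X) : ℂ) *
    ((∑ x ∈ m.divisorsAntidiagonal, muV V x.1 * (Real.log x.2 : ℝ)) * f i m) with hT1
  set T3 : ι → ℂ := fun i => ∑ m ∈ Ioc 0 (a K), er w X V yy m * f i m with hT3
  have e : ∀ i, ∑ n ∈ Ioc 0 ⌊X⌋₊, (w (n / X) : ℂ) * ((lp n : ℂ) * f i n) =
      T0 i + (T1 i - (∑ r ∈ range K, B r i * A r i + T3 i)) := by
    intro i
    have e1 := decomp hw hX0 hZ1 yy (fun n h1 h2 => ((hy n h1 h2).2.trans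
      (mul_le_mul_of_nonneg_right (by linarith) (by
        by_contra hc
        have k1 := (hy n h1 h2).2
        have k2 : (0 : ℝ) ≤ n := Nat.cast_nonneg n
        have k3 : (V : ℝ) < n := by exact_mod_cast h1
        nlinarith)))) (f i) (h.mul i)
    have e2 : ∑ n ∈ Ioc V (a K), bV V n * f i n *
        ∑ l ∈ Ioc 0 (a K), ((vonMangoldt l * w (yy n * l / X) : ℝ) : ℂ) * f i l =
        ∑ r ∈ range K, B r i * A r i := by
      conv_lhs => rw [← a0]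
      rw [sum_tele a ham, a0]
      refine sum_congr rfl fun r _ => ?_
      simp only [hB, hA]
      rw [sum_mul]
      exact sum_congr rfl fun n hn => by rw [hyy r n hn]
    rw [e2] at e1
    simp only [hT0, hT1, hT3]
    rw [← e1, hw.cut hX0 le_rfl, ← hw.cut hX0 hZ0, ← sum_sub_distrib, ← sum_add_distrib]
    refine sum_congr rfl fun m _ => ?_
    have := vM_split hV m
    rw [ofReal_sub]
    linear_combination (w (m / X) : ℂ) * f i m * this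
  simp only [e]
  refine (sum_le_sum fun i _ => sq_four _ _ _ _).trans ?_
  rw [← mul_sum, sum_add_distrib, sum_add_distrib, sum_add_distrib]
  have t0 : 0 ≤ δ ^ 2 * X ^ 2 := by positivity
  have hE2 : E ^ 2 ≤ E ^ 6 := pow_le_pow_right₀ hE1 (by norm_num)
  have hE4 : E ^ 4 ≤ E ^ 6 := pow_le_pow_right₀ hE1 (by norm_num)
  have b0 : ∑ i ∈ S, ‖T0 i‖ ^ 2 ≤ 12 * (E ^ 6 * δ ^ 2 * X ^ 2) := by
    refine (sum_le_card_nsmul _ _ (4 * X * E ^ 2) fun i _ => ?_).trans ?_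
    · refine (pow_le_pow_left₀ (norm_nonneg _)
        (prime_pow hw (by linarith) hZ0 (f i) (h.le i)) 2).trans ?_
      rw [mul_pow, mul_pow, Real.sq_sqrt hX0.le]
      gcongr
      · norm_num
      · linarith
    · rw [nsmul_eq_mul]
      calc _ ≤ 3 * (δ ^ 2 * X) * (4 * X * E ^ 6) := by
            gcongr
            exact hSc.trans (by nlinarith)
        _ = _ := by ring
  have b1 : ∑ i ∈ S, ‖T1 i‖ ^ 2 ≤ 2312 * L ^ 2 * (E ^ 6 * δ ^ 2 * X ^ 2) := by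
    have k1 : ∀ i ∈ S, ‖T1 i‖ ^ 2 ≤ (17 * L * E) ^ 2 * (2 * (V * β) ^ 2) +
        (17 * L * E) ^ 2 * (2 * (X * E) ^ 2) * η i ^ 2 := by
      intro i hi
      have k0 := h.η0 i
      have k2 : ‖T1 i‖ ≤ 17 * L * E * (V * β + X * E * η i) := by
        refine (h.term1 hw (hSI hi) hV hVX hZ0 hE).trans ?_
        rw [mul_right_comm X (η i)]
        gcongr
      refine (pow_le_pow_left₀ (norm_nonneg _) k2 2).trans ?_
      rw [mul_pow, mul_assoc ((17 * L * E) ^ 2), ← mul_add]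
      exact mul_le_mul_of_nonneg_left (by nlinarith [sq_nonneg (V * β - X * E * η i)])
        (by positivity)
    refine (sum_le_sum k1).trans ?_
    rw [sum_add_distrib, sum_const, nsmul_eq_mul, ← mul_sum]
    have k3 : ∑ i ∈ S, η i ^ 2 ≤ δ ^ 2 :=
      (sum_le_sum_of_subset_of_nonneg hSI fun _ _ _ => by positivity).trans (hη.trans hδ4)
    have k4 : (S.card : ℝ) ≤ 3 * D ^ 2 := hSc.trans (by nlinarith)
    calc _ ≤ 3 * D ^ 2 * ((17 * L * E) ^ 2 * (2 * (V * β) ^ 2)) +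
          (17 * L * E) ^ 2 * (2 * (X * E) ^ 2) * δ ^ 2 := by gcongr
      _ = 1734 * L ^ 2 * E ^ 2 * (D ^ 2 * β ^ 2 * (V : ℝ) ^ 2) +
          578 * L ^ 2 * E ^ 4 * (δ ^ 2 * X ^ 2) := by ring
      _ ≤ 1734 * L ^ 2 * E ^ 6 * (δ ^ 2 * X ^ 2) + 578 * L ^ 2 * E ^ 6 * (δ ^ 2 * X ^ 2) := by
          have k5 : D ^ 2 * β ^ 2 * (V : ℝ) ^ 2 ≤ δ ^ 2 * X ^ 2 := hβ.trans (by gcongr)
          exact add_le_add (mul_le_mul (by gcongr) k5 (by positivity) (by positivity)) (by gcongr)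
      _ = _ := by ring
  have b2 : ∑ i ∈ S, ‖∑ r ∈ range K, B r i * A r i‖ ^ 2 ≤
      9 * (8 * C0 + 2) * (E ^ 6 * δ ^ 2 * X ^ 2) := by
    have k1 : ∀ i ∈ S, ‖∑ r ∈ range K, B r i * A r i‖ ^ 2 ≤
        K * ∑ r ∈ range K, ‖B r i * A r i‖ ^ 2 := fun i _ =>
      (pow_le_pow_left₀ (norm_nonneg _) (norm_sum_le _ _) 2).trans (by
        simpa using sq_sum_le_card_mul_sum_sq (s := range K) (f := fun r => ‖B r i * A r i‖))
    refine (sum_le_sum k1).trans ?_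
    rw [← mul_sum, sum_comm]
    have k2 : ∀ r ∈ range K, ∑ i ∈ S, ‖B r i * A r i‖ ^ 2 ≤
        (8 * C0 + 2) * δ ^ 4 * X ^ 2 * E ^ 4 := fun r hr =>
      h.prod hw (a K) (by linarith) hV (hVa r) (ham (Nat.le_succ r)) (ha6 r) (hay r) hE hVE hη hβ
        S hSI fun i hi => le_of_lt (not_le.1 fun hc => (mem_sdiff.1 hi).2
          (mem_biUnion.2 ⟨r, hr, mem_filter.2 ⟨hSI hi, hc⟩⟩))
    have k3 := sum_le_card_nsmul _ _ _ k2
    rw [card_range, nsmul_eq_mul] at k3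
    calc _ ≤ 3 * E / δ * (3 * E / δ * ((8 * C0 + 2) * δ ^ 4 * X ^ 2 * E ^ 4)) :=
          mul_le_mul hK' (k3.trans (by gcongr)) (by positivity) (by positivity)
      _ = _ := by field_simp; ring
  have b3 : ∑ i ∈ S, ‖T3 i‖ ^ 2 ≤ 864 * C0 * L ^ 2 * (E ^ 6 * δ ^ 2 * X ^ 2) := by
    have hy3 : ∀ n, V < n → n ≤ a K → yy n ≤ n ∧ (n : ℝ) ≤ 3 * yy n := fun n h1 h2 =>
      ⟨(hy n h1 h2).1, (hy n h1 h2).2.trans (mul_le_mul_of_nonneg_right (by linarith) (by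
        by_contra hc
        have k1 := (hy n h1 h2).2
        have k2 : (0 : ℝ) ≤ n := Nat.cast_nonneg n
        have k3 : (V : ℝ) < n := by exact_mod_cast h1
        nlinarith))⟩
    have k1 := ls_smooth h.ls hC hD1 (M := 3 * X) (G := 6 * L * δ * E ^ 2) (by linarith) (a K)
      (er w X V yy) (fun m hm h0 => er_supp hw hX yy hy3 hm h0) fun m hm => by
        have m0 : (0 : ℝ) < m := by exact_mod_cast (mem_Ioc.1 hm).1
        have m1 : (m : ℝ) ≤ X ^ 3 := le_trans (by exact_mod_cast (mem_Ioc.1 hm).2) hZ3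
        refine er_le hw hX0 hδ.le yy hy hm (le_trans (pow_le_pow_right₀ ?_ (by omega))
          (hτ m (m1.trans (le_self_pow₀ (one_le_pow₀ (by linarith)) (by omega))))) ?_
        · exact_mod_cast card_pos.2 ⟨1, Nat.one_mem_divisors.2 (mem_Ioc.1 hm).1.ne'⟩
        · have := Real.log_le_log m0 m1
          rw [Real.log_pow] at this
          push_cast at this
          linarith
    refine ((sum_le_sum_of_subset_of_nonneg hSI fun _ _ _ => by positivity).trans k1).trans ?_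
    have k2 : D ≤ X := hDX.trans (by nlinarith)
    calc _ ≤ 2 * C0 * (3 * X + X) * (3 * X) * (6 * L * δ * E ^ 2) ^ 2 := by gcongr
      _ = 864 * C0 * L ^ 2 * (E ^ 4 * δ ^ 2 * X ^ 2) := by ring
      _ ≤ _ := by gcongr
  have b4 : 0 ≤ 6 * C1 * 6 ^ (k + 1) * (E ^ 6 * δ ^ 2 * X ^ 2) := by positivity
  calc _ ≤ 4 * (12 * (E ^ 6 * δ ^ 2 * X ^ 2) + 2312 * L ^ 2 * (E ^ 6 * δ ^ 2 * X ^ 2) +
        9 * (8 * C0 + 2) * (E ^ 6 * δ ^ 2 * X ^ 2) +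
        864 * C0 * L ^ 2 * (E ^ 6 * δ ^ 2 * X ^ 2)) := by gcongr
    _ ≤ _ := by linarith

end Pool.Agent.Lib.MP_778b46_nt.MA
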