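import Pool.Agent.Lib.MP_778b46_nt.MA.O1

set_option autoImplicit false

noncomputable section

namespace Pool.Agent.Lib.MP_778b46_nt.MA

open Complex Finset MeasureTheory
open scoped Real ContDiff
open Pool.Agent.Lib.MP_03e5d0_nt (Sm ex ft bump)
open Pool.Agent.Lib.MP_778b46_nt.GX (Lf Lp)

/-! The Mellin transform `MM`. -/

variable {v : ℝ → ℝ}

theorem gs_zero (hv : Wt v) (s : ℂ) {x : ℝ} (hx : x ≤ 1 / 4 ∨ 1 ≤ x) : gs v s x = 0 := by
  simp [gs, hv.supp x hx]

/-- Near a point `x > 0` a product of smooth functions; near `x < 1 / 4` zero. -/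
theorem gs_smooth (hv : Wt v) (s : ℂ) : ContDiff ℝ ∞ (gs v s) := by
  refine contDiff_iff_contDiffAt.2 fun x => ?_
  by_cases hx : x < 1 / 4
  · refine (contDiffAt_const (c := (0 : ℂ))).congr_of_eventuallyEq ?_
    filter_upwards [Iio_mem_nhds hx] with z hz using gs_zero hv s (Or.inl (le_of_lt hz))
  · have h0 : x ≠ 0 := by
      intro e
      rw [e] at hx
      norm_num at hx
    exact (ofRealCLM.contDiff.comp hv.smooth).contDiffAt.mul (contDiffAt_const.mul
      (ofRealCLM.contDiff.contDiffAt.comp x (Real.contDiffAt_log.2 h0))).cexp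

theorem gs_hcs (hv : Wt v) (s : ℂ) : HasCompactSupport (gs v s) := by
  refine HasCompactSupport.intro (isCompact_Icc (a := 1 / 4) (b := 1)) fun x hx => gs_zero hv s ?_
  rw [Set.mem_Icc, not_and_or, not_le, not_le] at hx
  exact hx.imp le_of_lt le_of_lt

/-- On the support `1 / 4 < x < 1`, so `x ^ (re s - 1) ≤ 4 ^ (1 - re s)`. -/
theorem norm_gs_le (hv : Wt v) {s : ℂ} (hs : s.re ≤ 1) (x : ℝ) :
    ‖gs v s x‖ ≤ 4 ^ (1 - s.re) * |v x| := by
  by_cases hx : x ≤ 1 / 4 ∨ 1 ≤ x
  · rw [gs_zero hv s hx, norm_zero]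
    positivity
  · rw [not_or, not_le, not_le] at hx
    rw [gs, norm_mul, norm_real, Real.norm_eq_abs, mul_comm, norm_exp,
      Real.rpow_def_of_pos (by norm_num)]
    refine mul_le_mul_of_nonneg_right (Real.exp_le_exp.2 ?_) (abs_nonneg _)
    have h1 : Real.log (1 / 4) ≤ Real.log x := Real.log_le_log (by norm_num) hx.1.le
    rw [one_div, Real.log_inv] at h1
    rw [re_mul_ofReal, sub_re, one_re]
    nlinarith

/-- Substitute `x = exp u` (`integral_image_eq_integral_abs_deriv_smul` for `Real.exp` on `univ`,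
image `Ioi 0`, or `integral_comp_exp` type lemmas); `gs` vanishes off `Ioi 0`. -/
theorem mm_ft (hv : Wt v) (y c t : ℝ) :
    ft (fun u => (v (Real.exp u) : ℂ) * cexp (c * u) * ex y (Real.exp u)) t =
      (2 * π : ℂ)⁻¹ * MM v y (c - I * t) := by
  rw [ft, MM]
  congr 1
  have h1 := integral_image_eq_integral_abs_deriv_smul (s := Set.univ) MeasurableSet.univ
    (fun x _ => (Real.hasDerivAt_exp x).hasDerivWithinAt) Real.exp_injective.injOn
    fun x => gs v (c - I * t) x * ex y x
  rw [Set.image_univ, Real.range_exp, Measure.restrict_univ,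
    setIntegral_eq_integral_of_forall_compl_eq_zero fun x hx => by
      rw [gs_zero hv _ (Or.inl ((not_lt.1 hx).trans (by norm_num))), zero_mul]] at h1
  rw [h1]
  refine integral_congr_ae (ae_of_all _ fun u => ?_)
  have h2 : cexp (c * u) * ex (-t) u = cexp u * cexp ((c - I * t - 1) * u) := by
    rw [ex, ← Complex.exp_add, ← Complex.exp_add]
    congr 1
    push_cast
    ring
  simp only [gs, Real.log_exp, abs_of_pos (Real.exp_pos u), real_smul]
  rw [ofReal_exp u]
  linear_combination (v (Real.exp u) : ℂ) * ex y (Real.exp u) * h2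

/-- `exists_sm` for `u ↦ v (exp u)` (zero for `u < -2` and `0 < u`), then `Sm.mul_holo` with
`g z = exp (c z) * exp (I y exp z)` and `δ = 1 / (1 + |y|)`: on the strip
`|re (I y exp z)| ≤ |y| exp (re z) |sin (im z)| ≤ e`. -/
theorem sm_W (hv : Wt v) (j : ℕ) : ∃ C : ℝ, 0 ≤ C ∧ ∀ c y : ℝ, 0 ≤ c → c ≤ 2 →
    Sm j (-2) 0 (C * (1 + |y|) ^ j)
      fun u => (v (Real.exp u) : ℂ) * cexp (c * u) * ex y (Real.exp u) := by
  obtain ⟨B, hB⟩ := MP_03e5d0_nt.exists_sm (a := -2) (b := 0) j
    (W := fun u => (v (Real.exp u) : ℂ))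
    (ofRealCLM.contDiff.comp (hv.smooth.comp Real.contDiff_exp)) fun u hu => by
      rw [hv.supp _ (hu.imp (fun e => ?_) fun e => Real.one_le_exp e.le), ofReal_zero]
      have h1 := Real.add_one_le_exp 1
      have h2 : Real.exp u * (Real.exp 1 * Real.exp 1) ≤ 1 := by
        rw [← Real.exp_add, ← Real.exp_add]
        exact Real.exp_le_one_iff.2 (by linarith)
      have h3 : 4 ≤ Real.exp 1 * Real.exp 1 := by nlinarith
      nlinarith [Real.exp_pos u]
  obtain ⟨C, hC0, hC⟩ := Sm.mul_holo j
  have hB0 := hB.nonneg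
  refine ⟨C * B * (Real.exp 2 * Real.exp (Real.exp 1)), by positivity, fun c y h0 h2 => ?_⟩
  have hy : 0 < 1 + |y| := by positivity
  have hd : 1 / (1 + |y|) ≤ 1 := (div_le_one hy).2 (by linarith [abs_nonneg y])
  have := hC (-2) 0 B (Real.exp 2 * Real.exp (Real.exp 1)) (1 / (1 + |y|)) _
    (fun z => cexp (c * z) * cexp (I * y * cexp z)) hB (by positivity) hd (by positivity)
    (by fun_prop) fun z _ e2 e3 => by
      have e4 : z.re ≤ 1 := by linarith
      rw [norm_mul, norm_exp, norm_exp]
      refine mul_le_mul (Real.exp_le_exp.2 ?_) (Real.exp_le_exp.2 ?_) (by positivity)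
        (by positivity)
      · rw [re_ofReal_mul]
        nlinarith
      · have e5 : (I * y * cexp z).re = -(y * (Real.exp z.re * Real.sin z.im)) := by
          simp [exp_im]
        rw [e5]
        refine (neg_le_abs _).trans ?_
        rw [abs_mul, abs_mul, abs_of_pos (Real.exp_pos _)]
        have e6 : |y| * |Real.sin z.im| ≤ 1 := by
          have e7 := (lt_div_iff₀ hy).1 e3
          have e8 := Real.abs_sin_le_abs (x := z.im)
          nlinarith [abs_nonneg y, abs_nonneg z.im]
        calc |y| * (Real.exp z.re * |Real.sin z.im|) = Real.exp z.re * (|y| * |Real.sin z.im|) := by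
              ring
          _ ≤ Real.exp 1 * 1 := mul_le_mul (Real.exp_le_exp.2 e4) e6 (by positivity) (by positivity)
          _ = _ := mul_one _
  convert this using 1
  · rw [one_div, inv_pow, div_inv_eq_mul]
  · funext u
    rw [ex, ofReal_exp, mul_assoc]

/-- `mm_ft` with `c = re s`, `t = - im s`, `sm_W`, `Sm.ft_le`. -/
theorem mm_bd (hv : Wt v) (j : ℕ) : ∃ C : ℝ, 0 ≤ C ∧ ∀ (y : ℝ) (s : ℂ), 0 ≤ s.re → s.re ≤ 2 →
    ‖MM v y s‖ ≤ C * ((1 + |y|) / (1 + |s.im|)) ^ j := by
  obtain ⟨C, hC0, hC⟩ := sm_W hv j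
  obtain ⟨D, hD0, hD⟩ := Sm.ft_le j 2
  refine ⟨2 * π * (D * C), by positivity, fun y s h0 h2 => ?_⟩
  have h1 := hD _ _ _ _ (by norm_num) (hC s.re y h0 h2) (-s.im)
  have h3 : (s.re : ℂ) - I * ((-s.im : ℝ) : ℂ) = s := by
    apply Complex.ext <;> simp
  have hp : (0 : ℝ) < 2 * π := by positivity
  rw [mm_ft hv, h3, norm_mul, norm_inv, show (2 * π : ℂ) = ((2 * π : ℝ) : ℂ) by push_cast; rfl,
    norm_real, Real.norm_eq_abs, abs_of_pos hp, abs_neg, inv_mul_le_iff₀ hp] at h1
  refine h1.trans (le_of_eq ?_)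
  rw [div_pow]
  ring

/-- Differentiation under the integral (`hasDerivAt_integral_of_dominated_loc_of_deriv_le`), or
restrict to `Icc (1/4) 1` and use a parametric integral lemma. -/
theorem mm_diff (hv : Wt v) (y : ℝ) : Differentiable ℂ (MM v y) := by
  intro s
  have hc : ∀ z, Continuous fun x => gs v z x * ex y x := fun z => (gs_smooth hv z).continuous.mul
    (MP_03e5d0_nt.continuous_ex.comp (Continuous.prodMk_right y))
  have hi : Integrable fun x => |v x| :=
    (hv.smooth.continuous.integrable_of_hasCompactSupport (HasCompactSupport.intro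
      (isCompact_Icc (a := 1 / 4) (b := 1)) fun x hx => hv.supp x (by
        rw [Set.mem_Icc, not_and_or, not_le, not_le] at hx
        exact hx.imp le_of_lt le_of_lt))).abs
  refine (hasDerivAt_integral_of_dominated_loc_of_deriv_le (μ := volume)
    (F := fun z x => gs v z x * ex y x) (F' := fun z x => gs v z x * ex y x * (Real.log x : ℝ))
    (bound := fun x => |v x| * (Real.exp ((‖s‖ + 2) * 3) * 3)) (Metric.ball_mem_nhds s one_pos)
    (Filter.Eventually.of_forall fun z => (hc z).aestronglyMeasurable)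
    ((hc s).integrable_of_hasCompactSupport (gs_hcs hv s).mul_right)
    ((hc s).aestronglyMeasurable.mul
      (continuous_ofReal.measurable.comp Real.measurable_log).aestronglyMeasurable)
    (ae_of_all _ fun x z hz => ?_) (hi.mul_const _)
    (ae_of_all _ fun x z _ => ?_)).2.differentiableAt
  · by_cases hx : x ≤ 1 / 4 ∨ 1 ≤ x
    · rw [gs_zero hv z hx, zero_mul, zero_mul, norm_zero]
      positivity
    · rw [not_or, not_le, not_le] at hx
      have h0 : 0 < x := by linarith [hx.1]
      have h1 : |Real.log x| ≤ 3 := by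
        have e1 := Real.one_sub_inv_le_log_of_pos h0
        have e2 : x⁻¹ ≤ 4 := by
          rw [inv_le_comm₀ h0 (by norm_num)]
          linarith [hx.1]
        have e3 := Real.log_nonpos h0.le hx.2.le
        exact abs_le.2 ⟨by linarith, by linarith⟩
      have h2 : ‖z - 1‖ ≤ ‖s‖ + 2 := by
        have e1 := mem_ball_iff_norm.1 hz
        have e2 := norm_sub_le z 1
        have e3 := norm_le_insert' z s
        rw [norm_one] at e2
        linarith
      rw [norm_mul, norm_mul, MP_03e5d0_nt.norm_ex, mul_one, gs, norm_mul, norm_real, norm_real,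
        Real.norm_eq_abs, Real.norm_eq_abs, mul_assoc]
      refine mul_le_mul_of_nonneg_left (mul_le_mul ((norm_exp_le_exp_norm _).trans
        (Real.exp_le_exp.2 ?_)) h1 (abs_nonneg _) (by positivity)) (abs_nonneg _)
      rw [norm_mul, norm_real, Real.norm_eq_abs]
      exact mul_le_mul h2 h1 (abs_nonneg _) (by positivity)
  · have h1 := (((((hasDerivAt_id z).sub_const 1).mul_const ((Real.log x : ℝ) : ℂ)).cexp).const_mul
      (v x : ℂ)).mul_const (ex y x)
    refine h1.congr_deriv ?_
    simp only [gs, id]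
    ring

/-- `continuous_of_dominated` with the bound `‖gs v s x‖`. -/
theorem mm_cont (hv : Wt v) (s : ℂ) : Continuous fun y => MM v y s := by
  refine continuous_of_dominated (bound := fun x => ‖gs v s x‖)
    (fun y => ((gs_smooth hv s).continuous.mul
      (MP_03e5d0_nt.continuous_ex.comp (Continuous.prodMk_right y))).aestronglyMeasurable)
    (fun y => ae_of_all _ fun x => by rw [norm_mul, MP_03e5d0_nt.norm_ex, mul_one])
    ((gs_smooth hv s).continuous.integrable_of_hasCompactSupport (gs_hcs hv s)).norm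
    (ae_of_all _ fun x => continuous_const.mul
      (MP_03e5d0_nt.continuous_ex.comp (Continuous.prodMk_left x)))

end Pool.Agent.Lib.MP_778b46_nt.MA
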