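import Pool.Agent.Lib.MP_778b46_nt.MA.O2

set_option autoImplicit false

noncomputable section

namespace Pool.Agent.Lib.MP_778b46_nt.MA

open Complex Finset MeasureTheory
open scoped Real ContDiff
open Pool.Agent.Lib.MP_03e5d0_nt (Sm ex ft bump)
open Pool.Agent.Lib.MP_778b46_nt.GX (Lf Lp)

/-! Fourier series in `log x`, Mellin inversion and Plancherel. -/

variable {v : ℝ → ℝ}

/-- Poisson summation (`Real.tsum_eq_tsum_fourier_of_rpow_decay` or the Schwartz version, see the
proof of `per_class` in `MP_03e5d0_nt/MPer.lean`) for `z ↦ W (2 π z)`; `tft_eq` relates `ft` and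
`𝓕`. For `|u| ≤ 4` and `k ≠ 0` we have `|u + 2 π k| > 2`, so only `k = 0` survives. Summability
of the Fourier side from `Sm.ft_le 2`. -/
theorem sm_series {j : ℕ} {B : ℝ} {W : ℝ → ℂ} (h : Sm j (-2) 0 B W) {u : ℝ} (hu : |u| ≤ 4) :
    HasSum (fun t : ℤ => ft W t * ex t u) (W u) := by
  have ha : (0 : ℝ) < 2 * π := by positivity
  have hs : Summable fun n : ℤ => 1 / (n : ℝ) ^ 2 := Real.summable_one_div_int_pow.2 one_lt_two
  have e0 : ∀ n : ℤ, FourierTransform.fourier (fun x => W (x * (2 * π))) (n : ℝ) = ft W n :=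
    fun n => by
      rw [MP_03e5d0_nt.mper_scale W ha, MP_03e5d0_nt.tft_eq]
      push_cast
      rfl
  obtain ⟨B', h'⟩ := MP_03e5d0_nt.tft_up h 2
  obtain ⟨C, hC0, hC⟩ := MP_03e5d0_nt.Sm.ft_le 2 2
  have hB := MP_03e5d0_nt.tft_nonneg h'
  have sm : Summable fun n : ℤ => ft W n :=
    (hs.mul_left (C * B')).of_norm_bounded_eventually (by
      filter_upwards [Filter.eventually_cofinite_ne 0] with n hn
      refine (hC _ _ _ _ (by norm_num) h' n).trans ?_
      have h4 : (0 : ℝ) < (n : ℝ) ^ 2 := by positivity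
      rw [mul_one_div]
      refine div_le_div_of_nonneg_left (by positivity) h4 ?_
      rw [← sq_abs]
      exact pow_le_pow_left₀ (abs_nonneg _) (by linarith) 2)
  have sm' : Summable fun n : ℤ => ft W n * ex n u :=
    sm.norm.of_norm_bounded fun n => by rw [norm_mul, MP_03e5d0_nt.norm_ex, mul_one]
  have hcs : HasCompactSupport fun x => W (x * (2 * π)) :=
    (show HasCompactSupport W by simpa using MP_03e5d0_nt.tft_hcs h 0).comp_homeomorph
      (Homeomorph.mulRight₀ (2 * π) ha.ne')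
  have po := Real.tsum_eq_tsum_fourier_of_rpow_decay_of_summable (f := fun x => W (x * (2 * π)))
    (h.smooth.continuous.comp (by fun_prop)) one_lt_two
    ((Asymptotics.isBigO_zero _ _).congr' (by
      rw [← Filter.coclosedCompact_eq_cocompact]
      exact (hasCompactSupport_iff_eventuallyEq.1 hcs).symm) Filter.EventuallyEq.rfl)
    (by simpa only [e0] using sm) (u / (2 * π))
  have e1 : ∀ n : ℤ, fourier n ((u / (2 * π) : ℝ) : UnitAddCircle) = ex n u := fun n => by
    have hp : (π : ℂ) ≠ 0 := ofReal_ne_zero.mpr Real.pi_ne_zero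
    rw [fourier_coe_apply, ex]
    congr 1
    push_cast
    field_simp
  have e2 : ∀ k : ℤ, (u / (2 * π) + k) * (2 * π) = u + k * (2 * π) := fun k => by field_simp
  simp only [e0, e1, e2] at po
  rw [tsum_eq_single 0 fun k hk => ?_] at po
  · rw [Int.cast_zero, zero_mul, add_zero] at po
    exact po ▸ sm'.hasSum
  · obtain ⟨h1, h2⟩ := abs_le.1 hu
    have h3 := Real.pi_gt_three
    refine h.supp _ ((lt_or_gt_of_ne hk).imp (fun e => ?_) fun e => ?_)
    · have : (k : ℝ) ≤ -1 := by exact_mod_cast Int.le_sub_one_of_lt e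
      nlinarith
    · have : (1 : ℝ) ≤ k := by exact_mod_cast e
      nlinarith

/-- `sm_series`, `mm_ft` with `c = 0`, `u = log x`. -/
theorem mm_series (hv : Wt v) (y : ℝ) {x : ℝ} (hx : 0 < x) (hl : |Real.log x| ≤ 4) :
    HasSum (fun t : ℤ => (2 * π : ℂ)⁻¹ * MM v y (-(I * t)) * ex t (Real.log x))
      ((v x : ℂ) * ex y x) := by
  obtain ⟨C, -, hC⟩ := sm_W hv 0
  have := sm_series (hC 0 y le_rfl zero_le_two) hl
  simp only [mm_ft hv y 0] at this
  simp only [Real.exp_log hx, ofReal_zero, zero_mul, Complex.exp_zero, mul_one,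
    zero_sub, ofReal_intCast] at this
  exact this

theorem o3_eq (hv : Wt v) (y c t : ℝ) : MM v y (c + I * t) = (2 * π : ℂ) *
    ft (fun u => (v (Real.exp u) : ℂ) * cexp (c * u) * ex y (Real.exp u)) (-t) := by
  have hp : (2 * π : ℂ) ≠ 0 := mul_ne_zero two_ne_zero (ofReal_ne_zero.mpr Real.pi_ne_zero)
  rw [mm_ft hv, mul_inv_cancel_left₀ hp, ofReal_neg, mul_neg, sub_neg_eq_add]

/-- `Sm.ft_integrable`, `mm_ft`, `t ↦ -t`. -/
theorem mm_integrable (hv : Wt v) (y : ℝ) {c : ℝ} (h0 : 0 ≤ c) (h2 : c ≤ 2) :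
    Integrable fun t : ℝ => MM v y (c + I * t) := by
  obtain ⟨C, -, hC⟩ := sm_W hv 0
  have h := hC c y h0 h2
  have h1 := (integrable_norm_iff h.ft_cont.aestronglyMeasurable).1
    (by simpa only [pow_zero, mul_one] using h.ft_integrable 0)
  simp only [o3_eq hv]
  exact h1.comp_neg.const_mul _

/-- `Sm.inv` at `u = log x`, `mm_ft`, `t ↦ -t` (`integral_neg_eq_self`). -/
theorem mm_inv (hv : Wt v) (y : ℝ) {c : ℝ} (h0 : 0 ≤ c) (h2 : c ≤ 2) {x : ℝ} (hx : 0 < x) :
    (v x : ℂ) * ex y x = (2 * π : ℂ)⁻¹ *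
      ∫ t : ℝ, MM v y (c + I * t) * cexp (-(c + I * t) * (Real.log x : ℝ)) := by
  obtain ⟨C, -, hC⟩ := sm_W hv 0
  have hp : (2 * π : ℂ) ≠ 0 := mul_ne_zero two_ne_zero (ofReal_ne_zero.mpr Real.pi_ne_zero)
  have h1 := (hC c y h0 h2).inv (Real.log x)
  rw [← integral_neg_eq_self, Real.exp_log hx] at h1
  have e : ∀ t : ℝ, MM v y (c + I * t) * cexp (-(c + I * t) * (Real.log x : ℝ)) =
      (2 * π * cexp (-(c * (Real.log x : ℝ)))) *
        (ft (fun u => (v (Real.exp u) : ℂ) * cexp (c * u) * ex y (Real.exp u)) (-t) *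
          ex (-t) (Real.log x)) := fun t => by
    rw [o3_eq hv, ex, show -((c : ℂ) + I * t) * (Real.log x : ℝ) =
      -(c * (Real.log x : ℝ)) + I * (-t : ℝ) * (Real.log x : ℝ) by push_cast; ring, Complex.exp_add]
    ring
  simp only [e]
  rw [integral_const_mul, ← h1, mul_assoc (2 * π : ℂ), inv_mul_cancel_left₀ hp, Complex.exp_neg]
  have := Complex.exp_ne_zero (c * (Real.log x : ℝ))
  field_simp

end Pool.Agent.Lib.MP_778b46_nt.MA
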