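import Pool.Agent.Lib.MP_778b46_nt.MA.O2
import Pool.Agent.Lib.MP_ecd12e_nt.GM.Vdc

set_option autoImplicit false

noncomputable section

namespace Pool.Agent.Lib.MP_778b46_nt.MA

open Complex Finset MeasureTheory
open scoped Real ContDiff
open Pool.Agent.Lib.MP_03e5d0_nt (Sm ex ft bump)
open Pool.Agent.Lib.MP_778b46_nt.GX (Lf Lp)

/-! Decay of the singular integral of a pair of exponents. -/

open Pool.Agent.Lib.MP_ecd12e_nt.Bar (ei norm_ei) in
theorem o4_core {v : ℝ → ℝ} (hv : Wt v) {C : ℝ} (h0 : ∀ x, |v x| ≤ C) (h1 : ∀ x, |deriv v x| ≤ C)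
    {σ σ' ν u0 u1 : ℝ} (t t' : ℝ) (a0 : 0 ≤ σ) (a1 : σ ≤ 1) (b0 : 0 ≤ σ') (b1 : σ' ≤ 1)
    (hu : u0 ≤ u1) (hl : u1 - u0 ≤ 3)
    (hI : ∀ u ∈ Set.Icc u0 u1, 1 / 4 ≤ Real.exp u ∧ Real.exp u ≤ 1 ∧ 1 / 4 ≤ ν - Real.exp u ∧
      ν - Real.exp u ≤ 1) :
    ‖∫ u in u0..u1, ((v (Real.exp u) * v (ν - Real.exp u) *
      Real.exp (σ * u + σ' * Real.log (ν - Real.exp u)) * (ν - Real.exp u)⁻¹ : ℝ) : ℂ) *
        ei (t * u + t' * Real.log (ν - Real.exp u))‖ * √(1 + max |t| |t'|) ≤ 192 * C ^ 2 := by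
  have hC : 0 ≤ C := (abs_nonneg _).trans (h0 0)
  have hC2 : 0 ≤ C ^ 2 := sq_nonneg C
  have dv : ∀ x, HasDerivAt v (deriv v x) x := fun x =>
    (hv.smooth.differentiable (by simp) x).hasDerivAt
  have cv : Continuous v := hv.smooth.continuous
  have cv' : Continuous (deriv v) := hv.smooth.continuous_deriv (by simp)
  have hne : ∀ u ∈ Set.Icc u0 u1, ν - Real.exp u ≠ 0 := fun u hu => by
    have := (hI u hu).2.2.1
    linarith
  have dn : ∀ u, HasDerivAt (fun u => ν - Real.exp u) (-Real.exp u) u := fun u =>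
    (Real.hasDerivAt_exp u).const_sub ν
  have dL : ∀ u ∈ Set.Icc u0 u1, HasDerivAt (fun u => Real.log (ν - Real.exp u))
      (-Real.exp u * (ν - Real.exp u)⁻¹) u := fun u hu => (dn u).log (hne u hu)
  have ck : ContinuousOn (fun u => (ν - Real.exp u)⁻¹) (Set.Icc u0 u1) :=
    ContinuousOn.inv₀ (by fun_prop) hne
  have cL : ContinuousOn (fun u => Real.log (ν - Real.exp u)) (Set.Icc u0 u1) :=
    ContinuousOn.log (by fun_prop) hne
  have hφ : ∀ u ∈ Set.Icc u0 u1, HasDerivAt (fun u => t * u + t' * Real.log (ν - Real.exp u))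
      ((-(t + t') * Real.exp u + t * ν) * (ν - Real.exp u)⁻¹) u := fun u hu => by
    refine (((hasDerivAt_id u).const_mul t).add ((dL u hu).const_mul t')).congr_deriv ?_
    have := hne u hu
    field_simp
    ring
  have hb : ∀ u ∈ Set.Icc u0 u1, HasDerivAt (fun u => v (Real.exp u) * v (ν - Real.exp u) *
      Real.exp (σ * u + σ' * Real.log (ν - Real.exp u)))
      ((deriv v (Real.exp u) * Real.exp u * v (ν - Real.exp u) +
        v (Real.exp u) * (deriv v (ν - Real.exp u) * -Real.exp u) +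
        v (Real.exp u) * v (ν - Real.exp u) * (σ + σ' * (-Real.exp u * (ν - Real.exp u)⁻¹))) *
        Real.exp (σ * u + σ' * Real.log (ν - Real.exp u))) u := fun u hu => by
    refine ((((dv _).comp u (Real.hasDerivAt_exp u)).mul ((dv _).comp u (dn u))).mul
      (((hasDerivAt_id u).const_mul σ).add ((dL u hu).const_mul σ')).exp).congr_deriv ?_
    simp only [Function.comp, Pi.mul_apply, Pi.add_apply, id]
    ring
  have cb' : ContinuousOn (fun u => (deriv v (Real.exp u) * Real.exp u * v (ν - Real.exp u) +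
        v (Real.exp u) * (deriv v (ν - Real.exp u) * -Real.exp u) +
        v (Real.exp u) * v (ν - Real.exp u) * (σ + σ' * (-Real.exp u * (ν - Real.exp u)⁻¹))) *
        Real.exp (σ * u + σ' * Real.log (ν - Real.exp u))) (Set.Icc u0 u1) := by
    refine ContinuousOn.mul (ContinuousOn.add (by fun_prop) (ContinuousOn.mul (by fun_prop)
      (continuousOn_const.add (continuousOn_const.mul (ContinuousOn.mul (by fun_prop) ck))))) ?_
    exact (ContinuousOn.add (by fun_prop) (continuousOn_const.mul cL)).rexp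
  have hE : ∀ u ∈ Set.Icc u0 u1, |Real.exp (σ * u + σ' * Real.log (ν - Real.exp u))| ≤ 1 :=
    fun u hu => by
      obtain ⟨-, c2, c3, c4⟩ := hI u hu
      rw [abs_of_pos (Real.exp_pos _), Real.exp_le_one_iff]
      have e1 : u ≤ 0 := Real.exp_le_one_iff.1 c2
      have e2 : Real.log (ν - Real.exp u) ≤ 0 := Real.log_nonpos (by linarith) c4
      nlinarith [mul_nonneg a0 (neg_nonneg.2 e1), mul_nonneg b0 (neg_nonneg.2 e2)]
  have hk : ∀ u ∈ Set.Icc u0 u1, 0 ≤ (ν - Real.exp u)⁻¹ ∧ (ν - Real.exp u)⁻¹ ≤ 4 := fun u hu => by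
    obtain ⟨-, -, c3, -⟩ := hI u hu
    exact ⟨inv_nonneg.2 (by linarith), inv_le_of_inv_le₀ (by norm_num) (by linarith)⟩
  have two : ∀ {x y : ℝ}, |x| ≤ C → |y| ≤ C → |x * y| ≤ C ^ 2 := fun hx hy => by
    rw [abs_mul, sq]
    exact mul_le_mul hx hy (abs_nonneg _) hC
  have thr : ∀ {x y c d : ℝ}, |x| ≤ c → |y| ≤ d → |x * y| ≤ c * d := fun hx hy => by
    rw [abs_mul]
    exact mul_le_mul hx hy (abs_nonneg _) ((abs_nonneg _).trans hx)
  have β0 : ∀ u ∈ Set.Icc u0 u1, |v (Real.exp u) * v (ν - Real.exp u) *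
      Real.exp (σ * u + σ' * Real.log (ν - Real.exp u))| ≤ C ^ 2 := fun u hu =>
    (thr (two (h0 _) (h0 _)) (hE u hu)).trans_eq (mul_one _)
  have β1 : ∀ u ∈ Set.Icc u0 u1, |(deriv v (Real.exp u) * Real.exp u * v (ν - Real.exp u) +
        v (Real.exp u) * (deriv v (ν - Real.exp u) * -Real.exp u) +
        v (Real.exp u) * v (ν - Real.exp u) * (σ + σ' * (-Real.exp u * (ν - Real.exp u)⁻¹))) *
        Real.exp (σ * u + σ' * Real.log (ν - Real.exp u))| ≤ 7 * C ^ 2 := fun u hu => by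
    obtain ⟨-, c2, -, -⟩ := hI u hu
    obtain ⟨k0, k1⟩ := hk u hu
    have c1 := Real.exp_pos u
    have e0 : |Real.exp u| ≤ 1 := by rwa [abs_of_pos c1]
    have e1 := two ((thr (h1 (Real.exp u)) e0).trans_eq (mul_one _)) (h0 (ν - Real.exp u))
    have e2 := two (h0 (Real.exp u))
      ((thr (h1 (ν - Real.exp u)) ((abs_neg (Real.exp u)).trans_le e0)).trans_eq (mul_one _))
    have e3 : |σ + σ' * (-Real.exp u * (ν - Real.exp u)⁻¹)| ≤ 5 := by
      have e4 : |σ' * (-Real.exp u * (ν - Real.exp u)⁻¹)| ≤ 1 * (1 * 4) :=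
        thr (by rwa [abs_of_nonneg b0])
          (thr ((abs_neg (Real.exp u)).trans_le e0) (by rwa [abs_of_nonneg k0]))
      have e5 := abs_add_le σ (σ' * (-Real.exp u * (ν - Real.exp u)⁻¹))
      rw [abs_of_nonneg a0] at e5
      linarith
    have e6 := thr (two (h0 (Real.exp u)) (h0 (ν - Real.exp u))) e3
    refine (thr (c := 7 * C ^ 2) ?_ (hE u hu)).trans_eq (mul_one _)
    refine (abs_add_three _ _ _).trans ?_
    linarith
  have κ0 : ∀ u ∈ Set.Icc u0 u1, |v (Real.exp u) * v (ν - Real.exp u) *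
      Real.exp (σ * u + σ' * Real.log (ν - Real.exp u)) * (ν - Real.exp u)⁻¹| ≤ C ^ 2 * 4 :=
    fun u hu => thr (β0 u hu) (by rw [abs_of_nonneg (hk u hu).1]; exact (hk u hu).2)
  have m1 : |t| ≤ max |t| |t'| := le_max_left _ _
  have m2 : |t'| ≤ max |t| |t'| := le_max_right _ _
  have m3 : max |t| |t'| = |t| ∨ max |t| |t'| = |t'| := max_choice _ _
  generalize max |t| |t'| = τ at m1 m2 m3 ⊢
  rcases le_total τ 1 with hτ | hτ
  · have e1 : √(1 + τ) ≤ 2 := Real.sqrt_le_iff.2 ⟨by norm_num, by linarith⟩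
    refine (mul_le_mul ((intervalIntegral.norm_integral_le_of_norm_le_const (C := C ^ 2 * 4)
      fun u hu' => ?_).trans (mul_le_mul_of_nonneg_left (c := 3) ?_ (by positivity))) e1
      (Real.sqrt_nonneg _) (by positivity)).trans (by linarith)
    · rw [Set.uIoc_of_le hu] at hu'
      rw [norm_mul, norm_ei, mul_one, Complex.norm_real, Real.norm_eq_abs]
      exact κ0 u (Set.Ioc_subset_Icc_self hu')
    · rwa [abs_of_nonneg (sub_nonneg.2 hu)]
  obtain ⟨r, hr, rfl⟩ : ∃ r : ℝ, 1 ≤ r ∧ τ = r ^ 2 :=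
    ⟨√τ, Real.one_le_sqrt.2 hτ, (Real.sq_sqrt (by linarith)).symm⟩
  have r0 : 0 < r := by linarith
  have e1 : √(1 + r ^ 2) ≤ 2 * r := Real.sqrt_le_iff.2 ⟨by linarith, by nlinarith⟩
  refine (mul_le_mul (b := 96 * C ^ 2 / r) ?_ e1 (Real.sqrt_nonneg _) (by positivity)).trans_eq
    (by field_simp; ring)
  have hl' : 7 * C ^ 2 * (u1 - u0) ≤ 21 * C ^ 2 := by nlinarith
  rcases le_or_gt (t * t') 0 with htt | htt
  · refine (MP_ecd12e_nt.GM.vdc1 (η := r ^ 2 / 4) hu (by positivity) hφ ck hb cb' β0 β1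
      fun u hu' => ?_).trans ?_
    · obtain ⟨c1, -, c3, -⟩ := hI u hu'
      have e2 : -(t + t') * Real.exp u + t * ν = t * (ν - Real.exp u) + -t' * Real.exp u := by ring
      have e3 : |t * (ν - Real.exp u) + -t' * Real.exp u| =
          |t * (ν - Real.exp u)| + |-t' * Real.exp u| := by
        refine abs_add_eq_add_abs_iff _ _ |>.2 ?_
        have p1 : 0 ≤ ν - Real.exp u := by linarith
        have p2 := (Real.exp_pos u).le
        rcases mul_nonpos_iff.1 htt with h | h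
        · exact Or.inl ⟨mul_nonneg h.1 p1, mul_nonneg (neg_nonneg.2 h.2) p2⟩
        · exact Or.inr ⟨mul_nonpos_of_nonpos_of_nonneg h.1 p1,
            mul_nonpos_of_nonpos_of_nonneg (neg_nonpos.2 h.2) p2⟩
      rw [e2, e3, abs_mul, abs_mul, abs_neg, abs_of_pos (Real.exp_pos u),
        abs_of_nonneg (show 0 ≤ ν - Real.exp u by linarith)]
      have q1 := mul_le_mul_of_nonneg_left c3 (abs_nonneg t)
      have q2 := mul_le_mul_of_nonneg_left c1 (abs_nonneg t')
      have q3 := abs_nonneg t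
      have q4 := abs_nonneg t'
      rcases m3 with h | h <;> linarith
    · rw [div_le_div_iff₀ (by positivity) r0]
      have q1 : (3 * C ^ 2 + 7 * C ^ 2 * (u1 - u0)) * r ≤ 24 * C ^ 2 * r :=
        mul_le_mul_of_nonneg_right (by linarith) r0.le
      have q2 : 24 * C ^ 2 * r ≤ 24 * C ^ 2 * r ^ 2 :=
        mul_le_mul_of_nonneg_left (by nlinarith) (by positivity)
      linarith
  · have hA : r ^ 2 ≤ |-(t + t')| := by
      rw [abs_neg, (abs_add_eq_add_abs_iff _ _).2 ((mul_pos_iff.1 htt).imp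
        (fun h => ⟨h.1.le, h.2.le⟩) fun h => ⟨h.1.le, h.2.le⟩)]
      have q3 := abs_nonneg t
      have q4 := abs_nonneg t'
      rcases m3 with h | h <;> linarith
    have hA0 : 0 < |-(t + t')| := lt_of_lt_of_le (by positivity) hA
    refine (MP_ecd12e_nt.GM.vdc2 (η := r) hu r0 (abs_pos.1 hA0) hφ ck hb cb' β0 β1 κ0).trans ?_
    have q1 : (6 * C ^ 2 + 7 * C ^ 2 * (u1 - u0)) / r ≤ 27 * C ^ 2 / r :=
      div_le_div_of_nonneg_right (by linarith) r0.le
    have q2 : 2 * r / (|-(t + t')| * Real.exp u0) ≤ 8 / r := by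
      rw [div_le_div_iff₀ (by positivity) r0]
      have q3 := mul_le_mul hA (hI u0 ⟨le_rfl, hu⟩).1 (by norm_num) hA0.le
      nlinarith
    have q3 := mul_le_mul_of_nonneg_left q2 (show 0 ≤ C ^ 2 * 4 by positivity)
    have q4 : 27 * C ^ 2 / r + C ^ 2 * 4 * (8 / r) + 37 * C ^ 2 / r = 96 * C ^ 2 / r := by ring
    have q5 : 0 ≤ 37 * C ^ 2 / r := by positivity
    linarith

open Pool.Agent.Lib.MP_ecd12e_nt.Bar (ei) in
theorem o4_pt (v : ℝ → ℝ) (s s' : ℂ) {ν u : ℝ} (h : 0 < ν - Real.exp u) :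
    Real.exp u • (gs v s (Real.exp u) * gs v s' (ν - Real.exp u)) =
      ((v (Real.exp u) * v (ν - Real.exp u) *
        Real.exp (s.re * u + s'.re * Real.log (ν - Real.exp u)) * (ν - Real.exp u)⁻¹ : ℝ) : ℂ) *
        ei (s.im * u + s'.im * Real.log (ν - Real.exp u)) := by
  have e1 : (ν - Real.exp u)⁻¹ = Real.exp (-Real.log (ν - Real.exp u)) := by
    rw [Real.exp_neg, Real.exp_log h]
  rw [e1, gs, gs, Real.log_exp, ei, real_smul]
  generalize Real.log (ν - Real.exp u) = L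
  generalize v (Real.exp u) = x
  generalize v (ν - Real.exp u) = y
  have e2 : cexp u * (cexp ((s - 1) * u) * cexp ((s' - 1) * L)) =
      cexp ((s.re : ℂ) * u + s'.re * L) * cexp (-L) * cexp (((s.im : ℂ) * u + s'.im * L) * I) := by
    simp only [← Complex.exp_add]
    congr 1
    linear_combination (-(u : ℂ)) * re_add_im s - (L : ℂ) * re_add_im s'
  push_cast
  linear_combination (x : ℂ) * y * e2

/-- The integrand vanishes unless `x` and `ν - x` lie in `[1/4, 1]`, so only `1/2 < ν < 2` matters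
and `x ∈ [max (1/4) (ν - 1), min 1 (ν - 1/4)]`. Put `t = im s`, `t' = im s'`, `τ = max |t| |t'|`;
for `τ ≤ 1` bound trivially. With `x = exp u` the phase `φ u = t u + t' log (ν - exp u)` has
`φ' = (A exp u + B) k`, `A = -(t + t')`, `B = t ν`, `k = 1 / (ν - exp u)`, and the real amplitude is
`b k`, `b u = v (exp u) v (ν - exp u) exp (re s * u) (ν - exp u) ^ re s'`, with `b`, `b'` bounded
uniformly (`Wt.bdd`). If `t t' ≤ 0` then `|A exp u + B| = |t| (ν - exp u) + |t'| exp u ≥ τ / 4`: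
`GM.vdc1`. Otherwise `|A| ≥ τ`: `GM.vdc2` with `η = √τ`. (A direct proof in the variable `x` is
also fine: the numerator `t ν - (t + t') x` of the derivative of the phase is linear.) -/
theorem gg_decay {v : ℝ → ℝ} (hv : Wt v) : ∃ C : ℝ, 0 ≤ C ∧ ∀ (s s' : ℂ) (ν : ℝ),
    0 ≤ s.re → s.re ≤ 1 → 0 ≤ s'.re → s'.re ≤ 1 →
    ‖GG v s s' ν‖ ≤ C * (1 + max |s.im| |s'.im|) ^ (-(1 / 2 : ℝ)) := by
  obtain ⟨C, -, h0, h1⟩ := hv.bdd
  refine ⟨192 * C ^ 2, by positivity, fun s s' ν a0 a1 b0 b1 => ?_⟩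
  have hτ : 0 < 1 + max |s.im| |s'.im| :=
    add_pos_of_pos_of_nonneg one_pos (le_max_of_le_left (abs_nonneg _))
  rw [Real.rpow_neg hτ.le, ← Real.sqrt_eq_rpow, ← div_eq_mul_inv,
    le_div_iff₀ (Real.sqrt_pos.2 hτ)]
  have hz : ∀ x, x ∉ Set.Ioc (max (1 / 4) (ν - 1)) (min 1 (ν - 1 / 4)) →
      gs v s x * gs v s' (ν - x) = 0 := by
    intro x hx
    rw [Set.mem_Ioc, max_lt_iff, le_min_iff] at hx
    by_cases c1 : x ≤ 1 / 4 ∨ 1 ≤ x
    · rw [gs_zero hv s c1, zero_mul]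
    · rw [gs_zero hv s' (x := ν - x), mul_zero]
      by_contra c2
      push Not at c1 c2
      exact hx ⟨⟨c1.1, by linarith [c2.2]⟩, c1.2.le, by linarith [c2.1]⟩
  rcases lt_or_ge (min 1 (ν - 1 / 4)) (max (1 / 4) (ν - 1)) with hac | hac
  · have : GG v s s' ν = 0 := by
      rw [GG, funext fun x => hz x fun hx => absurd (hx.1.trans_le hx.2) hac.not_gt, integral_zero]
    rw [this, norm_zero, zero_mul]
    positivity
  have m1 : 1 / 4 ≤ max (1 / 4) (ν - 1) := le_max_left _ _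
  have m2 : ν - 1 ≤ max (1 / 4) (ν - 1) := le_max_right _ _
  have m3 : min 1 (ν - 1 / 4) ≤ 1 := min_le_left _ _
  have m4 : min 1 (ν - 1 / 4) ≤ ν - 1 / 4 := min_le_right _ _
  generalize max (1 / 4) (ν - 1) = a at hz hac m1 m2
  generalize min 1 (ν - 1 / 4) = c at hz hac m3 m4
  have ha : 0 < a := by linarith
  have hc : 0 < c := by linarith
  have hu : Real.log a ≤ Real.log c := Real.log_le_log ha hac
  have hI : ∀ u ∈ Set.Icc (Real.log a) (Real.log c), 1 / 4 ≤ Real.exp u ∧ Real.exp u ≤ 1 ∧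
      1 / 4 ≤ ν - Real.exp u ∧ ν - Real.exp u ≤ 1 := fun u hu => by
    have e1 := (Real.log_le_iff_le_exp ha).1 hu.1
    have e2 := (Real.le_log_iff_exp_le hc).1 hu.2
    exact ⟨by linarith, by linarith, by linarith, by linarith⟩
  have hl : Real.log c - Real.log a ≤ 3 := by
    rw [← Real.log_div hc.ne' ha.ne']
    have e1 := Real.log_le_sub_one_of_pos (div_pos hc ha)
    have e2 : c / a ≤ 4 := by
      rw [div_le_iff₀ ha]
      linarith
    linarith
  have hF : Continuous fun x => gs v s x * gs v s' (ν - x) :=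
    (gs_smooth hv s).continuous.mul ((gs_smooth hv s').continuous.comp (by fun_prop))
  have e1 := intervalIntegral.integral_deriv_smul_comp (a := Real.log a) (b := Real.log c)
    (fun u _ => Real.hasDerivAt_exp u) Real.continuous_exp.continuousOn hF
  rw [Real.exp_log ha, Real.exp_log hc, intervalIntegral.integral_of_le hac,
    setIntegral_eq_integral_of_forall_compl_eq_zero hz] at e1
  simp only [Function.comp] at e1
  rw [GG, ← e1, intervalIntegral.integral_congr fun u hu' => o4_pt v s s' (ν := ν) (u := u) (by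
    rw [Set.uIcc_of_le hu] at hu'
    linarith [(hI u hu').2.2.1])]
  exact o4_core hv h0 h1 s.im s'.im a0 a1 b0 b1 hu hl hI

end Pool.Agent.Lib.MP_778b46_nt.MA
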