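import Pool.Agent.Lib.MP_778b46_nt.MA.O4

set_option autoImplicit false

noncomputable section

namespace Pool.Agent.Lib.MP_778b46_nt.MA

open Complex Finset MeasureTheory
open scoped Real ContDiff
open Pool.Agent.Lib.MP_03e5d0_nt (Sm ex ft bump)
open Pool.Agent.Lib.MP_778b46_nt.GX (Lf Lp)

/-! The singular integral and its smoothed form. -/

variable {v : ℝ → ℝ}

theorem o5_hcs (hv : Wt v) : HasCompactSupport v :=
  HasCompactSupport.intro (isCompact_Icc (a := (1 / 4 : ℝ)) (b := 1)) fun x hx => hv.supp x (by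
    simp only [Set.mem_Icc, not_and_or, not_le] at hx
    rcases hx with h | h
    · exact Or.inl h.le
    · exact Or.inr h.le)

theorem o5_int (hv : Wt v) (s s' : ℂ) (ν : ℝ) :
    Integrable fun x : ℝ => gs v s x * gs v s' (ν - x) :=
  ((gs_smooth hv s).continuous.mul ((gs_smooth hv s').continuous.comp
    (continuous_const.sub continuous_id))).integrable_of_hasCompactSupport
    (gs_hcs hv s).mul_right

theorem o5_int0 (hv : Wt v) (ν : ℝ) : Integrable fun x : ℝ => v x * v (ν - x) :=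
  (hv.smooth.continuous.mul (hv.smooth.continuous.comp
    (continuous_const.sub continuous_id))).integrable_of_hasCompactSupport
    (o5_hcs hv).mul_right

theorem o5_pow {s : ℂ} (h0 : 0 ≤ s.re) : (4 : ℝ) ^ (1 - s.re) ≤ 4 := by
  calc (4 : ℝ) ^ (1 - s.re) ≤ 4 ^ (1 : ℝ) :=
        Real.rpow_le_rpow_of_exponent_le (by norm_num) (by linarith)
    _ = 4 := Real.rpow_one _

theorem o5_exp {s : ℂ} (h0 : 0 ≤ s.re) {x : ℝ} (hx : 1 / 4 ≤ x) (hx1 : x ≤ 1) :
    ‖cexp ((s - 1) * (Real.log x : ℝ))‖ ≤ 4 := by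
  have hp : 0 < x := by linarith
  have hl : Real.log x ≤ 0 := Real.log_nonpos hp.le hx1
  have hl4 : -Real.log x ≤ Real.log 4 := by
    have := Real.log_le_log (by norm_num) hx
    rw [one_div, Real.log_inv] at this
    linarith
  rw [Complex.norm_exp]
  have e : ((s - 1) * (Real.log x : ℝ)).re = (1 - s.re) * -Real.log x := by
    simp only [mul_re, sub_re, one_re, ofReal_re, ofReal_im, mul_zero, sub_zero]
    ring
  rw [e]
  calc Real.exp ((1 - s.re) * -Real.log x) ≤ Real.exp (Real.log 4) :=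
        Real.exp_le_exp.2 (by nlinarith)
    _ = 4 := Real.exp_log (by norm_num)

theorem o5_deriv (hv : Wt v) : ∃ D : ℝ, 0 ≤ D ∧ ∀ s : ℂ, 0 ≤ s.re → s.re ≤ 1 → ∀ x : ℝ,
    ‖deriv (gs v s) x‖ ≤ D * (1 + |s.im|) := by
  obtain ⟨C, hC, h1, h2⟩ := hv.bdd
  refine ⟨20 * C, by positivity, fun s h0 hs x => ?_⟩
  have ha : 0 ≤ |s.im| := abs_nonneg _
  by_cases hx : 1 / 4 ≤ x ∧ x ≤ 1
  · have hp : 0 < x := by linarith [hx.1]
    have d1 : HasDerivAt (fun x : ℝ => (v x : ℂ)) (deriv v x : ℝ) x :=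
      ((hv.smooth.differentiable (by simp)) x).hasDerivAt.ofReal_comp
    have d2 : HasDerivAt (fun x : ℝ => cexp ((s - 1) * (Real.log x : ℝ)))
        (cexp ((s - 1) * (Real.log x : ℝ)) * ((s - 1) * ((x⁻¹ : ℝ) : ℂ))) x :=
      (((Real.hasDerivAt_log hp.ne').ofReal_comp).const_mul (s - 1)).cexp
    have d3 : deriv (gs v s) x = _ := (d1.mul d2).deriv
    rw [d3]
    have e1 := o5_exp h0 hx.1 hx.2
    have e2 : ‖s - 1‖ ≤ 1 + |s.im| := by
      refine (Complex.norm_le_abs_re_add_abs_im _).trans ?_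
      simp only [sub_re, one_re, sub_im, one_im, sub_zero]
      have : |s.re - 1| ≤ 1 := abs_le.2 ⟨by linarith, by linarith⟩
      linarith
    have e3 : ‖((x⁻¹ : ℝ) : ℂ)‖ ≤ 4 := by
      rw [Complex.norm_real, Real.norm_eq_abs, abs_of_pos (inv_pos.2 hp)]
      rw [inv_le_comm₀ hp (by norm_num)]
      linarith [hx.1]
    have e4 : ‖((deriv v x : ℝ) : ℂ)‖ ≤ C := by
      rw [Complex.norm_real, Real.norm_eq_abs]
      exact h2 x
    have e5 : ‖((v x : ℝ) : ℂ)‖ ≤ C := by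
      rw [Complex.norm_real, Real.norm_eq_abs]
      exact h1 x
    refine (norm_add_le _ _).trans ?_
    rw [norm_mul, norm_mul, norm_mul, norm_mul]
    calc _ ≤ C * 4 + C * (4 * ((1 + |s.im|) * 4)) := by gcongr
      _ ≤ _ := by nlinarith [mul_nonneg hC ha]
  · have hz : gs v s =ᶠ[nhds x] fun _ => 0 := by
      simp only [not_and_or, not_le] at hx
      rcases hx with h | h
      · filter_upwards [Iio_mem_nhds h] with y hy using gs_zero hv s (Or.inl (le_of_lt hy))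
      · filter_upwards [Ioi_mem_nhds h] with y hy using gs_zero hv s (Or.inr (le_of_lt hy))
    rw [hz.deriv_eq, deriv_const, norm_zero]
    positivity

/-- The derivative of `gs v s'` is at most `C (1 + |im s'|)` everywhere (it vanishes off
`[1/4, 1]`), mean value inequality, and `‖gs v s x‖ ≤ 4 |v x|` is integrable. -/
theorem gg_lip (hv : Wt v) : ∃ C : ℝ, 0 ≤ C ∧ ∀ (s s' : ℂ) (ν μ : ℝ),
    0 ≤ s.re → s.re ≤ 1 → 0 ≤ s'.re → s'.re ≤ 1 →
    ‖GG v s s' ν - GG v s s' μ‖ ≤ C * (1 + |s'.im|) * |ν - μ| := by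
  obtain ⟨D, hD, h⟩ := o5_deriv hv
  have hi : Integrable fun x => |v x| :=
    (hv.smooth.continuous.integrable_of_hasCompactSupport (o5_hcs hv)).abs
  have hA : 0 ≤ ∫ x, |v x| := integral_nonneg fun x => abs_nonneg _
  refine ⟨(∫ x, |v x|) * (4 * D), by positivity, fun s s' ν μ a0 a1 b0 b1 => ?_⟩
  rw [GG, GG, ← integral_sub (o5_int hv s s' ν) (o5_int hv s s' μ)]
  refine (norm_integral_le_of_norm_le (hi.mul_const (4 * (D * (1 + |s'.im|) * |ν - μ|)))
    (Filter.Eventually.of_forall fun x => ?_)).trans (le_of_eq ?_)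
  · rw [← mul_sub, norm_mul]
    have m1 : ‖gs v s' (ν - x) - gs v s' (μ - x)‖ ≤ D * (1 + |s'.im|) * ‖ν - x - (μ - x)‖ :=
      Convex.norm_image_sub_le_of_norm_deriv_le (s := Set.univ)
        (fun y _ => (gs_smooth hv s').differentiable (by simp) y) (fun y _ => h s' b0 b1 y)
        convex_univ (Set.mem_univ _) (Set.mem_univ _)
    rw [sub_sub_sub_cancel_right, Real.norm_eq_abs] at m1
    have m2 : ‖gs v s x‖ ≤ 4 * |v x| :=
      (norm_gs_le hv a1 x).trans (mul_le_mul_of_nonneg_right (o5_pow a0) (abs_nonneg _))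
    calc _ ≤ 4 * |v x| * (D * (1 + |s'.im|) * |ν - μ|) := by gcongr
      _ = _ := by ring
  · rw [integral_mul_const]
    ring

/-- `norm_gs_le` twice. -/
theorem gg_triv (hv : Wt v) (h0 : ∀ x, 0 ≤ v x) {s s' : ℂ} (hs : s.re ≤ 1) (hs' : s'.re ≤ 1)
    (ν : ℝ) : ‖GG v s s' ν‖ ≤ 4 ^ (1 - s.re) * 4 ^ (1 - s'.re) * I0 v ν := by
  rw [GG, I0, ← integral_const_mul]
  refine norm_integral_le_of_norm_le ((o5_int0 hv ν).const_mul _)
    (Filter.Eventually.of_forall fun x => ?_)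
  have m1 := norm_gs_le hv hs x
  have m2 := norm_gs_le hv hs' (ν - x)
  rw [abs_of_nonneg (h0 _)] at m1 m2
  have := h0 x
  rw [norm_mul]
  calc _ ≤ 4 ^ (1 - s.re) * v x * (4 ^ (1 - s'.re) * v (ν - x)) := by gcongr
    _ = _ := by ring

theorem gg_one (v : ℝ → ℝ) (ν : ℝ) : GG v 1 1 ν = I0 v ν := by
  rw [GG, I0, ← integral_complex_ofReal]
  simp [gs]

/-- The integrand is nonnegative and equals one on `[1/2, 5/8]`. -/
theorem I0_ge {μ : ℝ} (h1 : 1 ≤ μ) (h2 : μ ≤ 5 / 4) : 1 / 8 ≤ I0 w1 μ := by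
  have e : ∫ x in Set.Icc (1 / 2 : ℝ) (5 / 8), w1 x * w1 (μ - x) = 1 / 8 := by
    rw [setIntegral_congr_fun measurableSet_Icc (g := fun _ => (1 : ℝ))]
    · simp
      norm_num
    · intro x hx
      have a := w0_one (x := x) (by linarith [hx.1]) (by linarith [hx.2])
      have b := w0_one (x := μ - x) (by linarith [hx.2]) (by linarith [hx.1])
      simp [w1, a, b]
  rw [← e, I0]
  exact setIntegral_le_integral (o5_int0 wt_w1 μ)
    (Filter.Eventually.of_forall fun x => mul_nonneg (w1_mem _).1 (w1_mem _).1)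

end Pool.Agent.Lib.MP_778b46_nt.MA
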