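import Pool.Agent.Lib.MP_778b46_nt.MA.O5

set_option autoImplicit false

noncomputable section

namespace Pool.Agent.Lib.MP_778b46_nt.MA

open Complex Finset MeasureTheory
open scoped Real ContDiff
open Pool.Agent.Lib.MP_03e5d0_nt (Sm ex ft bump)
open Pool.Agent.Lib.MP_778b46_nt.GX (Lf Lp)

/-! The smoothed singular integral. -/

variable {v : ℝ → ℝ}

open Pool.Agent.Lib.MP_03e5d0_nt (norm_ex ex_add ex_zero continuous_ex)

theorem o8_int (hv : Wt v) (s : ℂ) : Integrable (gs v s) :=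
  (gs_smooth hv s).continuous.integrable_of_hasCompactSupport (gs_hcs hv s)

theorem o8_conv (v : ℝ → ℝ) (s s' : ℂ) :
    GG v s s' = convolution (gs v s) (gs v s') (ContinuousLinearMap.mul ℝ ℂ) volume := rfl

theorem o8_gg_int (hv : Wt v) (s s' : ℂ) : Integrable (GG v s s') :=
  (o8_int hv s).integrable_convolution (ContinuousLinearMap.mul ℝ ℂ) (o8_int hv s')

theorem o8_gg_cont (hv : Wt v) (s s' : ℂ) : Continuous (GG v s s') :=
  (gs_hcs hv s').continuous_convolution_right (ContinuousLinearMap.mul ℝ ℂ)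
    (o8_int hv s).locallyIntegrable (gs_smooth hv s').continuous

theorem o8_mm (hv : Wt v) (y : ℝ) (s s' : ℂ) :
    MM v y s * MM v y s' = ∫ ν : ℝ, GG v s s' ν * ex y ν := by
  have hi : ∀ s : ℂ, Integrable fun x => gs v s x * ex y x := fun s =>
    (o8_int hv s).mul_bdd (c := 1)
      (continuous_ex.comp (Continuous.prodMk_right y)).aestronglyMeasurable
      (ae_of_all _ fun x => (norm_ex y x).le)
  refine (integral_convolution (ContinuousLinearMap.mul ℝ ℂ) (hi s) (hi s')).symm.trans ?_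
  refine integral_congr_ae (ae_of_all _ fun ν => ?_)
  simp only [GG, convolution_def, ContinuousLinearMap.mul_apply']
  rw [← integral_mul_const]
  refine integral_congr_ae (ae_of_all _ fun x => ?_)
  have e := ex_add y x (ν - x)
  rw [add_sub_cancel] at e
  simp only [e]
  ring

theorem o8_ft (z : ℝ) :
    2 * π * ft (fun y => (kk y : ℂ)) (-z) = ∫ y : ℝ, (kk y : ℂ) * ex z y := by
  have hp : (2 * π : ℂ) ≠ 0 := mul_ne_zero two_ne_zero (ofReal_ne_zero.2 Real.pi_ne_zero)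
  rw [ft, neg_neg, mul_inv_cancel_left₀ hp]

theorem o8_diff (hv : Wt v) : ∃ C : ℝ, 0 ≤ C ∧ ∀ (T μ z : ℝ) (s s' : ℂ), 1 ≤ T →
    0 ≤ s.re → s.re ≤ 1 → 0 ≤ s'.re → s'.re ≤ 1 →
    ‖GG v s s' (μ + z / T) - GG v s s' μ‖ ≤ C * T ^ (-(1 / 3 : ℝ)) * (1 + |z|) := by
  obtain ⟨C₁, h₁, hC₁⟩ := gg_lip hv
  obtain ⟨C₂, h₂, hC₂⟩ := gg_decay hv
  refine ⟨C₁ + 2 * C₂, by positivity, fun T μ z s s' hT a1 a2 a3 a4 => ?_⟩
  have hT0 : 0 < T := by linarith
  have h0 : 0 ≤ T ^ (-(1 / 3 : ℝ)) := by positivity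
  have hz := abs_nonneg z
  rcases le_total (1 + max |s.im| |s'.im|) (T ^ (2 / 3 : ℝ)) with h | h
  · refine (hC₁ s s' _ _ a1 a2 a3 a4).trans ?_
    have e : T ^ (2 / 3 : ℝ) / T = T ^ (-(1 / 3 : ℝ)) := by
      rw [← Real.rpow_sub_one hT0.ne']
      norm_num
    have h3 : 1 + |s'.im| ≤ T ^ (2 / 3 : ℝ) := by linarith [le_max_right |s.im| |s'.im|]
    rw [add_sub_cancel_left, abs_div, abs_of_pos hT0]
    calc C₁ * (1 + |s'.im|) * (|z| / T) ≤ C₁ * T ^ (2 / 3 : ℝ) * (|z| / T) := by gcongr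
      _ = C₁ * (T ^ (2 / 3 : ℝ) / T) * |z| := by ring
      _ ≤ _ := by
        rw [e]
        gcongr <;> linarith
  · have h3 : (1 + max |s.im| |s'.im|) ^ (-(1 / 2 : ℝ)) ≤ T ^ (-(1 / 3 : ℝ)) := by
      refine (Real.rpow_le_rpow_of_nonpos (by positivity) h (by norm_num)).trans (le_of_eq ?_)
      rw [← Real.rpow_mul hT0.le]
      norm_num
    have h4 : ∀ ν, ‖GG v s s' ν‖ ≤ C₂ * T ^ (-(1 / 3 : ℝ)) := fun ν =>
      (hC₂ s s' ν a1 a2 a3 a4).trans (mul_le_mul_of_nonneg_left h3 h₂)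
    calc _ ≤ 2 * C₂ * T ^ (-(1 / 3 : ℝ)) * 1 := by
          linarith [norm_sub_le (GG v s s' (μ + z / T)) (GG v s s' μ), h4 (μ + z / T), h4 μ]
      _ ≤ _ := by gcongr <;> linarith

/-- `MM v y s * MM v y s' = ∫ ν, GG v s s' ν * ex y ν` (`integral_convolution` for
`gs v s * ex y` and `gs v s' * ex y`, or Fubini and a translation); `GG v s s'` is continuous and
vanishes off `[1/2, 2]`. Fubini in `(y, ν)`, then
`∫ y, kk (y / T) * ex y (ν - μ) = T * (2 π * ft kk (-(T (ν - μ))))`, and `ν = μ + z / T`. -/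
theorem ps_eq (hv : Wt v) {T : ℝ} (hT : 0 < T) (μ : ℝ) (s s' : ℂ) :
    PS v T μ s s' =
      ∫ z : ℝ, (2 * π * ft (fun y => (kk y : ℂ)) (-z)) * GG v s s' (μ + z / T) := by
  have hT' : (T : ℂ) ≠ 0 := ofReal_ne_zero.2 hT.ne'
  have hi : Integrable (Function.uncurry fun y ν : ℝ =>
      (kk (y / T) : ℂ) * GG v s s' ν * ex y (ν - μ)) (volume.prod volume) := by
    have h1 := kk_integrable hT (F := fun _ => 1) continuous_const
    simp only [mul_one] at h1
    exact (h1.mul_prod (o8_gg_int hv s s')).mul_bdd (c := 1) (continuous_ex.comp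
      (continuous_fst.prodMk (continuous_snd.sub continuous_const))).aestronglyMeasurable
      (ae_of_all _ fun x => (norm_ex _ _).le)
  have h1 : PS v T μ s s' =
      ∫ y : ℝ, ∫ ν : ℝ, (kk (y / T) : ℂ) * GG v s s' ν * ex y (ν - μ) := by
    refine integral_congr_ae (ae_of_all _ fun y => ?_)
    simp only
    rw [mul_assoc (kk (y / T) : ℂ), o8_mm hv, ← integral_const_mul, ← integral_mul_const]
    refine integral_congr_ae (ae_of_all _ fun ν => ?_)
    have e : ex y (ν - μ) = ex y ν * ex (-y) μ := by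
      simp only [ex, ← Complex.exp_add]
      congr 1
      push_cast
      ring
    simp only [e]
    ring
  have h2 : ∀ ν : ℝ, ∫ y : ℝ, (kk (y / T) : ℂ) * GG v s s' ν * ex y (ν - μ) =
      |T| • ((2 * π * ft (fun y => (kk y : ℂ)) (-(T * (ν - μ)))) * GG v s s' (μ + (ν - μ))) := by
    intro ν
    rw [o8_ft, add_sub_cancel, ← smul_mul_assoc,
      ← Measure.integral_comp_div (fun y : ℝ => (kk y : ℂ) * ex (T * (ν - μ)) y) T,
      ← integral_mul_const]
    refine integral_congr_ae (ae_of_all _ fun y => ?_)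
    have e : ex (T * (ν - μ)) (y / T) = ex y (ν - μ) := by
      simp only [ex]
      congr 1
      push_cast
      field_simp
    simp only [e]
    ring
  rw [h1, integral_integral_swap hi]
  simp only [h2]
  rw [integral_smul, integral_sub_right_eq_self (fun u : ℝ =>
    (2 * π * ft (fun y => (kk y : ℂ)) (-(T * u))) * GG v s s' (μ + u)) μ,
    ← Measure.integral_comp_div]
  refine integral_congr_ae (ae_of_all _ fun z => ?_)
  simp only [mul_div_cancel₀ z hT.ne']

/-- `∫ ft kk (-z) = kk 0 = 1` (`Sm.inv` at `0`), `∫ ‖ft kk z‖ (1 + |z|) < ∞` (`Sm.ft_integrable`).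
With `τ = 1 + max |im s| |im s'|`: if `τ ≤ T ^ (2/3)` use `gg_lip`, otherwise `gg_decay` twice. -/
theorem ps_near (hv : Wt v) : ∃ C : ℝ, 0 ≤ C ∧ ∀ (T μ : ℝ) (s s' : ℂ), 1 ≤ T →
    0 ≤ s.re → s.re ≤ 1 → 0 ≤ s'.re → s'.re ≤ 1 →
    ‖PS v T μ s s' - 2 * π * GG v s s' μ‖ ≤ C * T ^ (-(1 / 3 : ℝ)) := by
  obtain ⟨C, hC0, hC⟩ := o8_diff hv
  obtain ⟨B, hB⟩ := kk_sm 0
  have hc : Continuous fun z : ℝ => ft (fun y => (kk y : ℂ)) (-z) := hB.ft_cont.comp continuous_neg
  have h1 : Integrable fun z : ℝ => ‖ft (fun y => (kk y : ℂ)) (-z)‖ * (1 + |z|) := by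
    simpa only [pow_one, abs_neg] using (hB.ft_integrable 1).comp_neg
  have h0 : Integrable fun z : ℝ => ft (fun y => (kk y : ℂ)) (-z) := by
    refine h1.mono' hc.aestronglyMeasurable (ae_of_all _ fun z => ?_)
    exact le_mul_of_one_le_right (norm_nonneg _) (by linarith [abs_nonneg z])
  have h2 : ∫ z : ℝ, ft (fun y => (kk y : ℂ)) (-z) = 1 := by
    have e := hB.inv 0
    simp only [ex_zero, mul_one, kk_one (y := 0) (by simp), ofReal_one] at e
    rw [integral_neg_eq_self (ft fun y => (kk y : ℂ)), ← e]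
  have h3 : 0 ≤ ∫ z : ℝ, ‖ft (fun y => (kk y : ℂ)) (-z)‖ * (1 + |z|) :=
    integral_nonneg fun z => by positivity
  refine ⟨2 * π * C * ∫ z : ℝ, ‖ft (fun y => (kk y : ℂ)) (-z)‖ * (1 + |z|), by positivity,
    fun T μ s s' hT a1 a2 a3 a4 => ?_⟩
  have hb : ∀ z : ℝ, ‖(2 * π * ft (fun y => (kk y : ℂ)) (-z)) *
      (GG v s s' (μ + z / T) - GG v s s' μ)‖ ≤ (2 * π * C * T ^ (-(1 / 3 : ℝ))) *
        (‖ft (fun y => (kk y : ℂ)) (-z)‖ * (1 + |z|)) := fun z => by
    rw [norm_mul, norm_mul, norm_mul, Complex.norm_two, Complex.norm_real, Real.norm_eq_abs,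
      abs_of_pos Real.pi_pos]
    exact (mul_le_mul_of_nonneg_left (hC T μ z s s' hT a1 a2 a3 a4) (by positivity)).trans
      (le_of_eq (by ring))
  have h4 : Integrable fun z : ℝ => (2 * π * ft (fun y => (kk y : ℂ)) (-z)) *
      (GG v s s' (μ + z / T) - GG v s s' μ) :=
    (h1.const_mul _).mono' ((continuous_const.mul hc).mul (((o8_gg_cont hv s s').comp
      (continuous_const.add (continuous_id.div_const T))).sub
        continuous_const)).aestronglyMeasurable (ae_of_all _ hb)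
  have h5 : PS v T μ s s' - 2 * π * GG v s s' μ = ∫ z : ℝ,
      (2 * π * ft (fun y => (kk y : ℂ)) (-z)) * (GG v s s' (μ + z / T) - GG v s s' μ) := by
    have e := integral_add h4 ((h0.const_mul (2 * π)).mul_const (GG v s s' μ))
    rw [integral_mul_const, integral_const_mul, h2, mul_one] at e
    rw [ps_eq hv (by linarith), sub_eq_iff_eq_add, ← e]
    exact integral_congr_ae (ae_of_all _ fun z => by ring)
  rw [h5]
  refine (norm_integral_le_of_norm_le (h1.const_mul _) (ae_of_all _ hb)).trans (le_of_eq ?_)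
  rw [integral_const_mul]
  ring

end Pool.Agent.Lib.MP_778b46_nt.MA
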