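import Pool.Agent.Lib.MP_778b46_nt.MA.O3
import Pool.Agent.Lib.MP_778b46_nt.MA.O8

set_option autoImplicit false

noncomputable section

namespace Pool.Agent.Lib.MP_778b46_nt.MA

open Complex Finset MeasureTheory
open scoped Real ContDiff
open Pool.Agent.Lib.MP_03e5d0_nt (Sm ex ft bump)
open Pool.Agent.Lib.MP_778b46_nt.GX (Lf Lp)

/-! Truncated expansions of the exponential sums. -/

theorem o6_ex (μ : ℝ) : Continuous fun y : ℝ => ex (-y) μ :=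
  MP_03e5d0_nt.continuous_ex.comp (continuous_neg.prodMk continuous_const)

theorem o6_cont {v : ℝ → ℝ} (hv : Wt v) {ι : Type} (S : Finset ι) (s a : ι → ℂ) (c : ℂ) :
    Continuous fun y : ℝ => c * ∑ i ∈ S, MM v y (s i) * a i :=
  continuous_const.mul (continuous_finsetSum _ fun i _ => (mm_cont hv (s i)).mul continuous_const)

theorem o6_tail {F : ℤ → ℂ} {a : ℂ} (h : HasSum F a) (s : Finset ℤ) {g : ℤ → ℝ} {b : ℝ}
    (hg : HasSum g b) (h0 : ∀ t, 0 ≤ g t) (hb : ∀ t ∉ s, ‖F t‖ ≤ g t) :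
    ‖a - ∑ t ∈ s, F t‖ ≤ b := by
  have h1 := hasSum_sum_of_ne_finset_zero (f := fun t => if t ∈ s then F t else 0) (s := s)
    (L := SummationFilter.unconditional ℤ) fun t ht => if_neg ht
  rw [sum_congr rfl fun t ht => if_pos ht] at h1
  refine (h.sub h1).norm_le_of_bounded hg fun t => ?_
  split_ifs with ht
  · rw [sub_self, norm_zero]
    exact h0 t
  · rw [sub_zero]
    exact hb t ht

theorem o6_pair {T M E : ℝ} (hT : 0 < T) (μ : ℝ) {A B A' B' : ℝ → ℂ} (hA : Continuous A)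
    (hB : Continuous B) (hA' : Continuous A') (hB' : Continuous B') (h1 : ∀ y, ‖A y‖ ≤ M)
    (h2 : ∀ y, ‖B y‖ ≤ M) (h3 : ∀ y, |y| ≤ 2 * T → ‖A y - A' y‖ ≤ E)
    (h4 : ∀ y, |y| ≤ 2 * T → ‖B y - B' y‖ ≤ E) :
    ‖(∫ y : ℝ, (kk (y / T) : ℂ) * A y * B y * ex (-y) μ) -
      ∫ y : ℝ, (kk (y / T) : ℂ) * A' y * B' y * ex (-y) μ‖ ≤ 4 * T * (E * (2 * M + E)) := by
  simp only [mul_assoc (kk (_ / T) : ℂ)]
  have i1 : Integrable fun y : ℝ => (kk (y / T) : ℂ) * (A y * B y * ex (-y) μ) :=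
    kk_integrable hT ((hA.mul hB).mul (o6_ex μ))
  have i2 : Integrable fun y : ℝ => (kk (y / T) : ℂ) * (A' y * B' y * ex (-y) μ) :=
    kk_integrable hT ((hA'.mul hB').mul (o6_ex μ))
  rw [← integral_sub i1 i2]
  simp only [← mul_sub]
  refine kk_int_le hT fun y hy => ?_
  have e : A y * B y * ex (-y) μ - A' y * B' y * ex (-y) μ =
      ((A y - A' y) * B y + A y * (B y - B' y) - (A y - A' y) * (B y - B' y)) * ex (-y) μ := by
    ring
  have a3 := h3 y hy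
  have a4 := h4 y hy
  have hE : 0 ≤ E := (norm_nonneg _).trans a3
  have hM : 0 ≤ M := (norm_nonneg _).trans (h1 y)
  refine le_trans (le_of_eq (congrArg norm e)) ?_
  rw [norm_mul, MP_03e5d0_nt.norm_ex, mul_one]
  refine (norm_sub_le _ _).trans ((add_le_add (norm_add_le _ _) le_rfl).trans ?_)
  rw [norm_mul, norm_mul, norm_mul]
  have b1 := mul_le_mul a3 (h2 y) (norm_nonneg _) hE
  have b2 := mul_le_mul (h1 y) a4 (norm_nonneg _) hM
  have b3 := mul_le_mul a3 a4 (norm_nonneg _) hE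
  linarith

/-- `Finset.sum_mul_sum`, `integral_finset_sum`, `kk_integrable`, `mm_cont`. -/
theorem bil_ps {v : ℝ → ℝ} (hv : Wt v) {ι ι' : Type} (S : Finset ι) (S' : Finset ι')
    (s a : ι → ℂ) (s' b : ι' → ℂ) {T : ℝ} (hT : 0 < T) (μ : ℝ) :
    ∫ y : ℝ, (kk (y / T) : ℂ) * (∑ i ∈ S, MM v y (s i) * a i) *
      (∑ j ∈ S', MM v y (s' j) * b j) * ex (-y) μ =
      ∑ i ∈ S, ∑ j ∈ S', PS v T μ (s i) (s' j) * (a i * b j) := by
  have hi : ∀ i j, Integrable fun y : ℝ =>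
      (kk (y / T) : ℂ) * MM v y (s i) * MM v y (s' j) * ex (-y) μ * (a i * b j) := fun i j => by
    simp only [mul_assoc (kk (_ / T) : ℂ)]
    exact kk_integrable hT ((((mm_cont hv _).mul (mm_cont hv _)).mul (o6_ex μ)).mul
      continuous_const)
  simp only [PS, ← integral_mul_const]
  rw [sum_congr rfl fun i _ => (integral_finsetSum S' fun j _ => hi i j).symm,
    ← integral_finsetSum S fun i _ => integrable_finsetSum S' fun j _ => hi i j]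
  congr 1
  funext y
  rw [mul_assoc (kk (y / T) : ℂ), sum_mul_sum, mul_sum, sum_mul]
  refine sum_congr rfl fun i _ => ?_
  rw [mul_sum, sum_mul]
  exact sum_congr rfl fun j _ => by ring

/-- Termwise `mm_series` (if `w0 (n / X) ≠ 0` then `1/4 < n / X < 1`), `hasSum_sum`. -/
theorem ss_series {X : ℝ} (hX : 0 < X) (f : ℕ → ℂ) (y : ℝ) :
    HasSum (fun t : ℤ => (2 * π : ℂ)⁻¹ * (MM w0 y (-(I * t)) * DD X f t)) (SS X f y) := by
  simp only [DD, SS, mul_sum]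
  refine hasSum_sum fun n _ => ?_
  by_cases h : w0 (n / X) = 0
  · simp only [w1, h, mul_zero, ofReal_zero, zero_mul]
    exact hasSum_zero
  have h1 : 1 / 4 < n / X := not_le.1 fun e => h (wt_w0.supp _ (Or.inl e))
  have h2 : n / X < 1 := not_le.1 fun e => h (wt_w0.supp _ (Or.inr e))
  have h0 : 0 < n / X := by linarith
  have h3 : |Real.log (n / X)| ≤ 4 := by
    have a1 := Real.one_sub_inv_le_log_of_pos h0
    have a2 := Real.log_nonpos h0.le h2.le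
    have a3 : (n / X)⁻¹ ≤ 4 := by
      rw [inv_le_comm₀ h0 (by norm_num)]
      linarith
    rw [abs_le]
    constructor <;> linarith
  have h4 := (mm_series wt_w0 y h0 h3).mul_left (((lp n * w0 (n / X) : ℝ) : ℂ) * f n)
  refine Eq.mp (congrArg₂ (HasSum · ·) (funext fun t => by ring) ?_) h4
  rw [w1]
  push_cast
  ring

/-- For `t ∉ II T'` we have `T' < |t|`; `mm_bd` with `j = k + 2`, `κ k ≥ 6`:
`((1 + 2 T) / (1 + |t|)) ^ (k + 2) ≤ 3 ^ (k + 2) X ^ (-κ k) T ^ 2 / (1 + |t|) ^ 2`, and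
`‖DD‖ ≤ 2 X`. -/
theorem ss_trunc {κ : ℝ} (hκ : 0 < κ) : ∃ C : ℝ, 0 ≤ C ∧ ∀ (X T T' y : ℝ) (f : ℕ → ℂ),
    2 ≤ X → 1 ≤ T → T ≤ X → T * X ^ κ ≤ T' → |y| ≤ 2 * T → (∀ n, ‖f n‖ ≤ 1) →
    ‖SS X f y - (2 * π : ℂ)⁻¹ * ∑ t ∈ II T', MM w0 y (-(I * t)) * DD X f t‖ ≤ C / X ^ 3 := by
  obtain ⟨k, hk⟩ := exists_nat_ge (6 / κ)
  obtain ⟨C, hC, h⟩ := mm_bd wt_w0 (k + 2)
  have hs := (Real.summable_one_div_int_pow.2 one_lt_two).hasSum
  have hZ : 0 ≤ ∑' t : ℤ, 1 / (t : ℝ) ^ 2 := tsum_nonneg fun t => by positivity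
  refine ⟨18 * C * 3 ^ k * ∑' t : ℤ, 1 / (t : ℝ) ^ 2, by positivity,
    fun X T T' y f hX hT hTX hT' hy hf => ?_⟩
  have hX0 : 0 < X := by linarith
  have hu : 1 ≤ X ^ κ := Real.one_le_rpow (by linarith) hκ.le
  have hu' : X ^ 6 ≤ (X ^ κ) ^ k := by
    rw [← Real.rpow_natCast, ← Real.rpow_natCast, ← Real.rpow_mul hX0.le]
    refine Real.rpow_le_rpow_of_exponent_le (by linarith) ?_
    rw [div_le_iff₀ hκ] at hk
    push_cast
    linarith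
  have hT1 : 1 ≤ T' := le_trans (one_le_mul_of_one_le_of_one_le hT hu) hT'
  rw [mul_sum, mul_div_right_comm]
  refine o6_tail (ss_series hX0 f y) _ (hs.mul_left _) (fun t => by positivity) fun t ht => ?_
  have ht' : T' < |(t : ℝ)| := not_le.1 fun e => ht ((mem_II (by linarith)).2 e)
  have ht0 : 0 < |(t : ℝ)| := by linarith
  have a1 : (1 + |y|) / (1 + |(t : ℝ)|) ≤ 3 * T / |(t : ℝ)| :=
    div_le_div₀ (by linarith) (by linarith) ht0 (by linarith)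
  have a2 : 3 * T / |(t : ℝ)| ≤ 3 / X ^ κ := by
    rw [div_le_div_iff₀ ht0 (by linarith)]
    nlinarith
  have a3 : 3 * T / |(t : ℝ)| ≤ 3 * X / |(t : ℝ)| := by gcongr
  have a4 : ((1 + |y|) / (1 + |(t : ℝ)|)) ^ (k + 2) ≤ 3 ^ k / X ^ 6 * (3 * X / |(t : ℝ)|) ^ 2 := by
    rw [pow_add]
    refine mul_le_mul ((pow_le_pow_left₀ (by positivity) (a1.trans a2) k).trans ?_)
      (pow_le_pow_left₀ (by positivity) (a1.trans a3) 2) (by positivity) (by positivity)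
    rw [div_pow]
    gcongr
  have a5 := h y (-(I * t)) (by simp) (by simp)
  have a6 : |(-(I * (t : ℂ))).im| = |(t : ℝ)| := by simp
  rw [a6] at a5
  have a7 : ‖(2 * π : ℂ)⁻¹‖ ≤ 1 := by
    rw [norm_inv, norm_mul, norm_real, Real.norm_of_nonneg Real.pi_pos.le, Complex.norm_two]
    exact inv_le_one_of_one_le₀ (by linarith [Real.pi_gt_three])
  rw [norm_mul, norm_mul]
  calc _ ≤ 1 * (C * (3 ^ k / X ^ 6 * (3 * X / |(t : ℝ)|) ^ 2) * (2 * X)) :=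
        mul_le_mul a7 (mul_le_mul (a5.trans (mul_le_mul_of_nonneg_left a4 hC))
          (norm_DD_le hX0.le hf _) (norm_nonneg _) (by positivity)) (by positivity) zero_le_one
    _ = _ := by
        rw [div_pow, sq_abs]
        field_simp
        ring

/-- `A B - A' B' = (A - A') B + A' (B - B')`, `ss_trunc`, `norm_SS_le`, `kk_int_le`. -/
theorem jj_trunc {κ : ℝ} (hκ : 0 < κ) : ∃ C : ℝ, 0 ≤ C ∧ ∀ (X T T' : ℝ) (m : ℕ) (f g : ℕ → ℂ),
    2 ≤ X → 1 ≤ T → T ≤ X → T * X ^ κ ≤ T' → (∀ n, ‖f n‖ ≤ 1) → (∀ n, ‖g n‖ ≤ 1) →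
    ‖JJ X m T f g - ∫ y : ℝ, (kk (y / T) : ℂ) *
      ((2 * π : ℂ)⁻¹ * ∑ t ∈ II T', MM w0 y (-(I * t)) * DD X f t) *
      ((2 * π : ℂ)⁻¹ * ∑ t ∈ II T', MM w0 y (-(I * t)) * DD X g t) * ex (-y) (m / X)‖ ≤ C := by
  obtain ⟨C, hC, h⟩ := ss_trunc hκ
  refine ⟨4 * C * (4 + C), by positivity, fun X T T' m f g hX hT hTX hT' hf hg => ?_⟩
  have hX0 : 0 < X := by linarith
  refine (o6_pair (by linarith) _ (SS_cont X f) (SS_cont X g) (o6_cont wt_w0 _ _ _ _)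
    (o6_cont wt_w0 _ _ _ _) (norm_SS_le hX0.le hf) (norm_SS_le hX0.le hg)
    (fun y hy => h X T T' y f hX hT hTX hT' hy hf)
    (fun y hy => h X T T' y g hX hT hTX hT' hy hg)).trans ?_
  have h1 : 1 ≤ X := by linarith
  have h2 : C / X ^ 3 ≤ C * X :=
    (div_le_self hC (one_le_pow₀ h1)).trans (le_mul_of_one_le_right hC h1)
  calc _ ≤ 4 * X * (C / X ^ 3 * (2 * (2 * X) + C * X)) := by gcongr
    _ = 4 * C * (4 + C) / X := by
        field_simp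
        ring
    _ ≤ _ := div_le_self (by positivity) h1

/-- Replace `SS` by the models (`kk_int_le`; the model of `f` has norm at most `2 X + E`), expand
by `bil_ps`, and use `ps_near`. -/
theorem jj_model : ∃ C : ℝ, 0 ≤ C ∧ ∀ (ι ι' : Type) (S : Finset ι) (S' : Finset ι')
    (s a : ι → ℂ) (s' b : ι' → ℂ) (X T E : ℝ) (m : ℕ) (f g : ℕ → ℂ),
    1 ≤ X → 1 ≤ T → 0 ≤ E → (∀ n, ‖f n‖ ≤ 1) → (∀ n, ‖g n‖ ≤ 1) →
    (∀ i ∈ S, 0 ≤ (s i).re ∧ (s i).re ≤ 1) → (∀ j ∈ S', 0 ≤ (s' j).re ∧ (s' j).re ≤ 1) →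
    (∀ y, |y| ≤ 2 * T → ‖SS X f y - X * ∑ i ∈ S, MM w1 y (s i) * a i‖ ≤ E) →
    (∀ y, |y| ≤ 2 * T → ‖SS X g y - X * ∑ j ∈ S', MM w1 y (s' j) * b j‖ ≤ E) →
    ‖JJ X m T f g - 2 * π * X ^ 2 *
        ∑ i ∈ S, ∑ j ∈ S', GG w1 (s i) (s' j) (m / X) * (a i * b j)‖ ≤
      C * (T * E * (X + E) +
        X ^ 2 * T ^ (-(1 / 3 : ℝ)) * ((∑ i ∈ S, ‖a i‖) * ∑ j ∈ S', ‖b j‖)) := by
  obtain ⟨C, hC, h⟩ := ps_near wt_w1
  refine ⟨16 + C, by positivity, fun ι ι' S S' s a s' b X T E m f g hX hT hE hf hg hs hs' h1 h2 => ?_⟩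
  have hX0 : 0 ≤ X := by linarith
  have hT0 : 0 < T := by linarith
  have a1 := o6_pair hT0 (m / X) (SS_cont X f) (SS_cont X g) (o6_cont wt_w1 S s a X)
    (o6_cont wt_w1 S' s' b X) (norm_SS_le hX0 hf) (norm_SS_le hX0 hg) h1 h2
  have a2 : ∫ y : ℝ, (kk (y / T) : ℂ) * (X * ∑ i ∈ S, MM w1 y (s i) * a i) *
      (X * ∑ j ∈ S', MM w1 y (s' j) * b j) * ex (-y) (m / X) =
      X ^ 2 * ∑ i ∈ S, ∑ j ∈ S', PS w1 T (m / X) (s i) (s' j) * (a i * b j) := by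
    rw [← bil_ps wt_w1 S S' s a s' b hT0, ← integral_const_mul]
    congr 1
    funext y
    ring
  have a3 : ‖(X : ℂ) ^ 2 * ∑ i ∈ S, ∑ j ∈ S', PS w1 T (m / X) (s i) (s' j) * (a i * b j) -
      2 * π * X ^ 2 * ∑ i ∈ S, ∑ j ∈ S', GG w1 (s i) (s' j) (m / X) * (a i * b j)‖ ≤
      X ^ 2 * (C * T ^ (-(1 / 3 : ℝ)) * ((∑ i ∈ S, ‖a i‖) * ∑ j ∈ S', ‖b j‖)) := by
    rw [mul_comm (2 * π : ℂ), mul_assoc, ← mul_sub, norm_mul, norm_pow, norm_real,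
      Real.norm_of_nonneg hX0, mul_sum, ← sum_sub_distrib, sum_mul_sum, mul_sum]
    refine mul_le_mul_of_nonneg_left (norm_sum_le_of_le _ fun i hi => ?_) (by positivity)
    rw [mul_sum, ← sum_sub_distrib, mul_sum]
    refine norm_sum_le_of_le _ fun j hj => ?_
    rw [← mul_assoc (2 * π : ℂ), ← sub_mul, norm_mul, norm_mul]
    exact mul_le_mul_of_nonneg_right
      (h T _ _ _ hT (hs i hi).1 (hs i hi).2 (hs' j hj).1 (hs' j hj).2) (by positivity)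
  rw [a2] at a1
  refine (norm_sub_le_norm_sub_add_norm_sub _ _ _).trans ((add_le_add a1 a3).trans ?_)
  have b1 : 0 ≤ T * E * (X + E) := by positivity
  have b2 : 0 ≤ X ^ 2 * T ^ (-(1 / 3 : ℝ)) * ((∑ i ∈ S, ‖a i‖) * ∑ j ∈ S', ‖b j‖) := by positivity
  have b3 : 0 ≤ T * E * E := by positivity
  nlinarith [mul_nonneg hC b1]

end Pool.Agent.Lib.MP_778b46_nt.MA
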