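import Pool.Agent.Lib.MP_778b46_nt.MA.O6
import Pool.Agent.Lib.MP_778b46_nt.MA.F5
import Pool.Agent.Lib.MP_778b46_nt.MA.E2
import Pool.Agent.Lib.MP_778b46_nt.GX.Basic

set_option autoImplicit false

noncomputable section

namespace Pool.Agent.Lib.MP_778b46_nt.MA

open Complex Finset MeasureTheory
open scoped Real ContDiff
open Pool.Agent.Lib.MP_03e5d0_nt (Sm ex ft bump)
open Pool.Agent.Lib.MP_778b46_nt.GX (Lf Lp)

/-! The main term and the pairs of zeros. -/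

/-- The exponents. -/
def s1s : Option ℂ → ℂ
  | none => 1
  | some ρ => ρ

open Classical in
/-- The indicator of the principal character. -/
def s1e {N : ℕ} (χ : DirichletCharacter ℂ N) : ℝ := if χ = 1 then 1 else 0

/-- The coefficient of a zero. -/
def s1c (X : ℝ) (f : ℂ → ℂ) (ρ : ℂ) : ℂ := -((analyticOrderNatAt f ρ : ℂ) * (X : ℂ) ^ (ρ - 1))

/-- The coefficients. -/
def s1a (X : ℝ) {N : ℕ} [NeZero N] (χ : DirichletCharacter ℂ N) : Option ℂ → ℂ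
  | none => s1e χ
  | some ρ => s1c X (Lp χ) ρ

theorem s1_e_nonneg {N : ℕ} (χ : DirichletCharacter ℂ N) : 0 ≤ s1e χ := by
  rw [s1e]
  split_ifs <;> norm_num

theorem s1_e_sum {N : ℕ} {B : Finset (DirichletCharacter ℂ N)} (h : 1 ∈ B) :
    ∑ χ ∈ B, s1e χ = 1 := by
  rw [sum_eq_single_of_mem (f := s1e) 1 h fun χ _ h1 => if_neg h1]
  exact if_pos rfl

theorem s1_norm {X : ℝ} (hX : 0 < X) (f : ℂ → ℂ) (ρ : ℂ) :
    ‖s1c X f ρ‖ = analyticOrderNatAt f ρ * X ^ (ρ.re - 1) := by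
  rw [s1c, norm_neg, norm_mul, norm_natCast, norm_cpow_eq_rpow_re_of_pos hX]
  simp

theorem s1_xw {X : ℝ} (hX : 0 < X) (f : ℂ → ℂ) (ρ : ℂ) :
    xw X f ρ = 4 ^ (1 - ρ.re) * ‖s1c X f ρ‖ := by
  rw [s1_norm hX, xw, Real.div_rpow hX.le (by norm_num), ← neg_sub ρ.re 1,
    Real.rpow_neg (by norm_num)]
  ring

theorem s1_xw_nonneg {X : ℝ} (hX : 0 < X) (f : ℂ → ℂ) (ρ : ℂ) : 0 ≤ xw X f ρ := by
  rw [s1_xw hX]
  positivity

theorem s1_le_xw {X : ℝ} (hX : 0 < X) (f : ℂ → ℂ) {ρ : ℂ} (h : ρ.re ≤ 1) :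
    ‖s1c X f ρ‖ ≤ xw X f ρ := by
  rw [s1_xw hX]
  exact le_mul_of_one_le_left (norm_nonneg _) (Real.one_le_rpow (by norm_num) (by linarith))

section

variable {N : ℕ} [NeZero N]

theorem s1_VV (X : ℝ) (χ : DirichletCharacter ℂ N) (δ T y : ℝ) :
    VV X χ δ T y = ∑ i ∈ insertNone (zs (Lp χ) δ T), MM w1 y (s1s i) * s1a X χ i := by
  rw [sum_insertNone, VV, sub_eq_add_neg, ← sum_neg_distrib]
  simp only [s1s, s1a, s1c, s1e, mul_neg]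
  split_ifs <;> simp

theorem s1_mem {χ : DirichletCharacter ℂ N} {δ T : ℝ} (hδ : δ ≤ 1) {ρ : ℂ}
    (h : ρ ∈ zs (Lp χ) δ T) : 0 ≤ ρ.re ∧ ρ.re ≤ 1 := by
  rw [mem_zs (GX.Lp_diff χ) (GX.Lp_ne_zero χ (by simp))] at h
  exact ⟨by linarith [h.2.1], h.2.2.1⟩

theorem s1_mem' {χ : DirichletCharacter ℂ N} {δ T : ℝ} (hδ : δ ≤ 1) :
    ∀ i ∈ insertNone (zs (Lp χ) δ T), 0 ≤ (s1s i).re ∧ (s1s i).re ≤ 1 := by
  rintro (_ | ρ) h
  · simp [s1s]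
  · exact s1_mem hδ (some_mem_insertNone.1 h)

theorem s1_sum_le {X : ℝ} (hX : 0 < X) (χ : DirichletCharacter ℂ N) {δ : ℝ} (hδ : δ ≤ 1) (T : ℝ) :
    ∑ i ∈ insertNone (zs (Lp χ) δ T), ‖s1a X χ i‖ ≤
      s1e χ + ∑ ρ ∈ zs (Lp χ) δ T, xw X (Lp χ) ρ := by
  rw [sum_insertNone]
  refine add_le_add (le_of_eq ?_) (sum_le_sum fun ρ h => s1_le_xw hX _ (s1_mem hδ h).2)
  rw [s1a, norm_real, Real.norm_of_nonneg (s1_e_nonneg χ)]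

omit [NeZero N] in
theorem s1_ka_nonneg {C : ℝ} (hC : 0 ≤ C) (m : ℕ) (χ χ' : DirichletCharacter ℂ N) :
    0 ≤ ka C m χ χ' := by
  rw [ka]
  split_ifs
  · exact le_min zero_le_one (by positivity)
  · exact le_rfl

omit [NeZero N] in
theorem s1_ka_mono {C C' : ℝ} (h : C ≤ C') (m : ℕ) (χ χ' : DirichletCharacter ℂ N) :
    ka C m χ χ' ≤ ka C' m χ χ' := by
  rw [ka, ka]
  split_ifs
  · exact min_le_min le_rfl (mul_le_mul_of_nonneg_right h (by positivity))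
  · exact le_rfl

theorem s1_ka_le {C : ℝ} (hC : 0 ≤ C) (m : ℕ) (χ χ' : DirichletCharacter ℂ N) :
    ka C m χ χ' ≤ C * ((χ * χ').conductor : ℝ) ^ (-(1 / 3 : ℝ)) := by
  rw [ka]
  split_ifs with h
  · refine (min_le_right _ _).trans (mul_le_mul_of_nonneg_left ?_ hC)
    have h1 : 0 < Nat.lcm χ.conductor χ'.conductor :=
      Nat.lcm_pos (Nat.pos_of_ne_zero χ.conductor_ne_zero) (Nat.pos_of_ne_zero χ'.conductor_ne_zero)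
    have h2 : 0 < gg m χ χ' :=
      Nat.div_pos (Nat.le_of_dvd h1 (Nat.gcd_dvd_left _ m)) (Nat.gcd_pos_of_pos_left m h1)
    exact Real.rpow_le_rpow_of_nonpos
      (Nat.cast_pos.2 (Nat.pos_of_ne_zero (χ * χ').conductor_ne_zero))
      (Nat.cast_le.2 (Nat.le_of_dvd h2 h)) (by norm_num)
  · positivity

end

theorem s1_kb_nonneg {C : ℝ} (hC : 0 ≤ C) (ρ ρ' : ℂ) : 0 ≤ kb C ρ ρ' :=
  le_min zero_le_one (mul_nonneg hC (Real.rpow_nonneg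
    (add_nonneg zero_le_one (le_max_of_le_left (abs_nonneg _))) _))

/-- The archimedean factor, for constants `C ≥ C₃`. -/
theorem s1_gg : ∃ C₃ : ℝ, 0 ≤ C₃ ∧ ∀ (s s' : ℂ) (μ : ℝ), 1 ≤ μ → μ ≤ 5 / 4 →
    0 ≤ s.re → s.re ≤ 1 → 0 ≤ s'.re → s'.re ≤ 1 →
    ‖GG w1 s s' μ‖ ≤ C₃ * (1 + max |s.im| |s'.im|) ^ (-(1 / 2 : ℝ)) * I0 w1 μ ∧
    ∀ C, C₃ ≤ C → ‖GG w1 s s' μ‖ ≤ kb C s s' * (4 ^ (1 - s.re) * 4 ^ (1 - s'.re)) * I0 w1 μ := by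
  obtain ⟨C, h0, h⟩ := gg_decay wt_w1
  refine ⟨8 * C, by positivity, fun s s' μ h1 h2 a1 a2 a3 a4 => ?_⟩
  have b1 := I0_ge h1 h2
  have b2 : 0 ≤ (1 + max |s.im| |s'.im|) ^ (-(1 / 2 : ℝ)) := Real.rpow_nonneg
    (add_nonneg zero_le_one (le_max_of_le_left (abs_nonneg _))) _
  have b3 : ‖GG w1 s s' μ‖ ≤ 8 * C * (1 + max |s.im| |s'.im|) ^ (-(1 / 2 : ℝ)) * I0 w1 μ := by
    have := h s s' μ a1 a2 a3 a4
    nlinarith [mul_nonneg h0 b2]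
  refine ⟨b3, fun C' hC => ?_⟩
  have b4 : (1 : ℝ) ≤ 4 ^ (1 - s.re) * 4 ^ (1 - s'.re) := one_le_mul_of_one_le_of_one_le
    (Real.one_le_rpow (by norm_num) (by linarith)) (Real.one_le_rpow (by norm_num) (by linarith))
  rw [kb]
  rcases min_choice 1 (C' * (1 + max |s.im| |s'.im|) ^ (-(1 / 2 : ℝ))) with e | e <;> rw [e]
  · rw [one_mul]
    exact gg_triv wt_w1 (fun x => (w1_mem x).1) a2 a4 μ
  · refine b3.trans (mul_le_mul_of_nonneg_right ?_ (by linarith))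
    exact (mul_le_mul_of_nonneg_right hC b2).trans
      (le_mul_of_one_le_right (mul_nonneg (by linarith) b2) b4)

/-- The loss from the pole and the zeros of one character. -/
def s1u (C X : ℝ) {N : ℕ} [NeZero N] (δ T : ℝ) (χ : DirichletCharacter ℂ N) : ℝ :=
  ∑ ρ ∈ zs (Lp χ) δ T,
    C * (χ.conductor : ℝ) ^ (-(1 / 3 : ℝ)) * (1 + |ρ.im|) ^ (-(1 / 2 : ℝ)) * xw X (Lp χ) ρ

/-- The loss from the zeros of two characters. -/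
def s1w (C X : ℝ) {N : ℕ} [NeZero N] (δ T : ℝ) (m : ℕ) (χ χ' : DirichletCharacter ℂ N) : ℝ :=
  ∑ ρ ∈ zs (Lp χ) δ T, ∑ ρ' ∈ zs (Lp χ') δ T,
    ka C m χ χ' * kb C ρ ρ' * (xw X (Lp χ) ρ * xw X (Lp χ') ρ')

theorem s1_pair : ∃ C₀ : ℝ, 1 ≤ C₀ ∧ ∀ (C X δ T μ : ℝ) (m N : ℕ) [NeZero N]
    (χ χ' : DirichletCharacter ℂ N), C₀ ≤ C → 0 < X → δ ≤ 1 → 1 ≤ μ → μ ≤ 5 / 4 → Even m →
    ‖SG m χ χ' * (∑ i ∈ insertNone (zs (Lp χ) δ T), ∑ j ∈ insertNone (zs (Lp χ') δ T),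
        GG w1 (s1s i) (s1s j) μ * (s1a X χ i * s1a X χ' j)) -
      ((s1e χ * s1e χ' * (S0 N m * I0 w1 μ) : ℝ) : ℂ)‖ ≤
      S0 N m * I0 w1 μ * (s1e χ * s1u C X δ T χ' / 2 + s1u C X δ T χ * s1e χ' / 2 +
        s1w C X δ T m χ χ') := by
  obtain ⟨C₂, h2, hS⟩ := SG_ka
  obtain ⟨C₃, h3, hG⟩ := s1_gg
  refine ⟨2 * C₂ * (C₃ + 1), by nlinarith, fun C X δ T μ m N _ χ χ' hC hX hδ m1 m2 hm => ?_⟩
  have c2 : C₂ ≤ C := by nlinarith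
  have c3 : C₃ ≤ C := by nlinarith
  have c4 : C₂ * C₃ ≤ C / 2 := by nlinarith
  have hI : 0 ≤ I0 w1 μ := by linarith [I0_ge m1 m2]
  have hS0 : 0 ≤ S0 N m := by linarith [S0_ge (Nat.pos_of_ne_zero (NeZero.ne N)) hm]
  have key : ∀ (ξ ξ' ψ : DirichletCharacter ℂ N) (s s' ρ : ℂ), ξ * ξ' = ψ → 0 ≤ s.re → s.re ≤ 1 →
      0 ≤ s'.re → s'.re ≤ 1 → ρ.re ≤ 1 → max |s.im| |s'.im| = |ρ.im| →
      ‖SG m ξ ξ'‖ * (‖GG w1 s s' μ‖ * ‖s1c X (Lp ψ) ρ‖) ≤ S0 N m * I0 w1 μ *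
        (C * (ψ.conductor : ℝ) ^ (-(1 / 3 : ℝ)) * (1 + |ρ.im|) ^ (-(1 / 2 : ℝ)) *
          xw X (Lp ψ) ρ / 2) := by
    intro ξ ξ' ψ s s' ρ e1 a1 a2 a3 a4 a5 e2
    have b1 := (hS N m ξ ξ' hm).trans
      (mul_le_mul_of_nonneg_right (s1_ka_le (by linarith) m ξ ξ') hS0)
    have b2 := (hG s s' μ m1 m2 a1 a2 a3 a4).1
    rw [e1] at b1
    rw [e2] at b2
    have b3 := s1_le_xw hX (Lp ψ) a5
    have b4 := s1_xw_nonneg hX (Lp ψ) ρ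
    calc _ ≤ (C₂ * (ψ.conductor : ℝ) ^ (-(1 / 3 : ℝ)) * S0 N m) *
          ((C₃ * (1 + |ρ.im|) ^ (-(1 / 2 : ℝ)) * I0 w1 μ) * xw X (Lp ψ) ρ) := by
          gcongr
      _ = C₂ * C₃ * (S0 N m * I0 w1 μ * ((ψ.conductor : ℝ) ^ (-(1 / 3 : ℝ)) *
          (1 + |ρ.im|) ^ (-(1 / 2 : ℝ)) * xw X (Lp ψ) ρ)) := by ring
      _ ≤ C / 2 * (S0 N m * I0 w1 μ * ((ψ.conductor : ℝ) ^ (-(1 / 3 : ℝ)) *
          (1 + |ρ.im|) ^ (-(1 / 2 : ℝ)) * xw X (Lp ψ) ρ)) := by gcongr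
      _ = _ := by ring
  have e0 : SG m χ χ' * (GG w1 1 1 μ * ((s1e χ : ℂ) * s1e χ')) =
      ((s1e χ * s1e χ' * (S0 N m * I0 w1 μ) : ℝ) : ℂ) := by
    rw [s1e, s1e, gg_one]
    split_ifs with h h'
    · rw [h, h', SG_one]
      simp
    all_goals simp
  have e1 : ‖SG m χ χ' * ∑ ρ' ∈ zs (Lp χ') δ T, GG w1 1 ρ' μ * ((s1e χ : ℂ) * s1c X (Lp χ') ρ')‖ ≤
      S0 N m * I0 w1 μ * (s1e χ * s1u C X δ T χ' / 2) := by
    rw [s1e]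
    split_ifs with h
    · rw [mul_sum, s1u, one_mul, sum_div, mul_sum]
      refine norm_sum_le_of_le _ fun ρ hρ => ?_
      have := s1_mem hδ hρ
      rw [ofReal_one, one_mul, norm_mul, norm_mul]
      exact key χ χ' χ' 1 ρ ρ (by rw [h, one_mul]) (by simp) (by simp) this.1 this.2 this.2
        (by simp)
    · simp
  have e2 : ‖SG m χ χ' * ∑ ρ ∈ zs (Lp χ) δ T, GG w1 ρ 1 μ * (s1c X (Lp χ) ρ * (s1e χ' : ℂ))‖ ≤
      S0 N m * I0 w1 μ * (s1u C X δ T χ * s1e χ' / 2) := by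
    rw [s1e]
    split_ifs with h
    · rw [mul_sum, s1u, mul_one, sum_div, mul_sum]
      refine norm_sum_le_of_le _ fun ρ hρ => ?_
      have := s1_mem hδ hρ
      rw [ofReal_one, mul_one, norm_mul, norm_mul]
      exact key χ χ' χ ρ 1 ρ (by rw [h, mul_one]) this.1 this.2 (by simp) (by simp) this.2
        (by simp)
    · simp
  have e3 : ‖SG m χ χ' * ∑ ρ ∈ zs (Lp χ) δ T, ∑ ρ' ∈ zs (Lp χ') δ T,
      GG w1 ρ ρ' μ * (s1c X (Lp χ) ρ * s1c X (Lp χ') ρ')‖ ≤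
      S0 N m * I0 w1 μ * s1w C X δ T m χ χ' := by
    rw [mul_sum, s1w, mul_sum]
    refine norm_sum_le_of_le _ fun ρ hρ => ?_
    rw [mul_sum, mul_sum]
    refine norm_sum_le_of_le _ fun ρ' hρ' => ?_
    have a := s1_mem hδ hρ
    have a' := s1_mem hδ hρ'
    have b1 := (hS N m χ χ' hm).trans (mul_le_mul_of_nonneg_right (s1_ka_mono c2 m χ χ') hS0)
    have b2 := (hG ρ ρ' μ m1 m2 a.1 a.2 a'.1 a'.2).2 C c3
    have b3 := s1_ka_nonneg (h3.trans c3) m χ χ'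
    rw [norm_mul, norm_mul, norm_mul, s1_xw hX, s1_xw hX]
    calc _ ≤ (ka C m χ χ' * S0 N m) * ((kb C ρ ρ' * (4 ^ (1 - ρ.re) * 4 ^ (1 - ρ'.re)) * I0 w1 μ) *
          (‖s1c X (Lp χ) ρ‖ * ‖s1c X (Lp χ') ρ'‖)) := by gcongr
      _ = _ := by ring
  simp only [sum_insertNone, s1s, s1a]
  rw [sum_add_distrib, ← e0, mul_add, mul_add, mul_add, mul_add, mul_add]
  refine le_trans (le_of_eq ?_) ((norm_add₃_le.trans (add_le_add (add_le_add e1 e2) e3)))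
  congr 1
  ring

/-- Index the pole and the zeros of `χ` by `Finset.insertNone (zs (Lp χ) δ T)`, with
`s none = 1`, `a none = [χ = 1]`, `s (some ρ) = ρ`, `a (some ρ) = -(ord * X ^ (ρ - 1))`
(`Finset.sum_insertNone`), so that `VV X χ δ T y = ∑ MM w1 y (s i) * a i`, and
`‖a (some ρ)‖ ≤ xw X (Lp χ) ρ`. `jj_model` for each pair, `SG_le`; the sums of `‖a i‖` over `B` add
up to at most `1 + Tot`. Main terms, `μ = m / X ∈ [1, 5/4]`: pole and pole gives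
`SG m 1 1 * GG w1 1 1 μ = S0 * I0` (`SG_one`, `gg_one`). Zero and zero: `SG_ka`, and
`‖GG w1 ρ ρ' μ‖ X ^ (β - 1) X ^ (β' - 1) ≤ kb C ρ ρ' * I0 * (X/4) ^ (β - 1) (X/4) ^ (β' - 1)` by
`gg_triv` for the bound `1` and `gg_decay`, `I0_ge` for the other. Pole and zero: if
`ka C m 1 χ ≠ 0` then `conductor χ ∣ gg m 1 χ ∣ conductor χ`, so `ka ≤ C conductor ^ (-1/3)`.
All terms of `Lo2`, `Lo1`, `Tot` are nonnegative, so `B` may be enlarged to `CH N P`. -/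
theorem main_lower : ∃ C₀ : ℝ, 1 ≤ C₀ ∧ ∀ (C X P δ T₁ T E : ℝ) (m N : ℕ) [NeZero N]
    (B : Finset (DirichletCharacter ℂ N)), C₀ ≤ C → 1 ≤ X → 0 < δ → δ ≤ 1 → 1 ≤ T₁ → 0 ≤ E →
    Even m → X ≤ m → (m : ℝ) ≤ 5 / 4 * X → 1 ∈ B → B ⊆ CH N P →
    (∀ χ ∈ B, ∀ y, |y| ≤ 2 * T₁ → ‖SS X (cf χ) y - X * VV X χ δ T y‖ ≤ E) →
    2 * π * X ^ 2 * (S0 N m * I0 w1 (m / X)) * (1 - Lo2 C X N P δ T m - Lo1 C X N P δ T) -
        C₀ * S0 N m * ((B.card : ℝ) ^ 2 * (T₁ * E * (X + E)) +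
          X ^ 2 * T₁ ^ (-(1 / 3 : ℝ)) * (1 + Tot X N P δ T) ^ 2) ≤
      (∑ χ ∈ B, ∑ χ' ∈ B, SG m χ χ' * JJ X m T₁ (cf χ) (cf χ')).re := by
  obtain ⟨C₁, h1, hJ⟩ := jj_model
  obtain ⟨C₂, h2, hP⟩ := s1_pair
  refine ⟨C₁ + C₂, by linarith, fun C X P δ T₁ T E m N _ B hC hX _ hδ hT hE hm m1 m2 hB1 hB hV => ?_⟩
  have hX0 : 0 < X := one_pos.trans_le hX
  have hC0 : 0 ≤ C := by linarith
  have m3 : 1 ≤ (m : ℝ) / X := (one_le_div hX0).2 m1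
  have m4 : (m : ℝ) / X ≤ 5 / 4 := (div_le_iff₀ hX0).2 m2
  have hI : 0 ≤ I0 w1 (m / X) := by linarith [I0_ge m3 m4]
  have hS0 : 0 ≤ S0 N m := by linarith [S0_ge (Nat.pos_of_ne_zero (NeZero.ne N)) hm]
  have hxw := fun f ρ => s1_xw_nonneg hX0 f ρ
  set n : DirichletCharacter ℂ N → ℝ := fun χ => s1e χ + ∑ ρ ∈ zs (Lp χ) δ T, xw X (Lp χ) ρ
  have hn : ∀ χ, 0 ≤ n χ := fun χ =>
    add_nonneg (s1_e_nonneg χ) (sum_nonneg fun ρ _ => hxw _ ρ)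
  set A := S0 N m * I0 w1 (m / X)
  have hA : 0 ≤ A := mul_nonneg hS0 hI
  set e := T₁ * E * (X + E)
  have he : 0 ≤ e := by positivity
  set g := X ^ 2 * T₁ ^ (-(1 / 3 : ℝ))
  have hg : 0 ≤ g := by positivity
  have hp : ∀ χ ∈ B, ∀ χ' ∈ B, 2 * π * X ^ 2 * A * (s1e χ * s1e χ' -
      (s1e χ * s1u C X δ T χ' / 2 + s1u C X δ T χ * s1e χ' / 2 + s1w C X δ T m χ χ')) -
      C₁ * S0 N m * (e + g * (n χ * n χ')) ≤ (SG m χ χ' * JJ X m T₁ (cf χ) (cf χ')).re := by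
    intro χ hχ χ' hχ'
    have a1 := hJ _ _ _ _ s1s (s1a X χ) s1s (s1a X χ') X T₁ E m _ _ hX hT hE (norm_cf χ)
      (norm_cf χ') (s1_mem' (χ := χ) (T := T) hδ) (s1_mem' (χ := χ') (T := T) hδ)
      (fun y hy => by rw [← s1_VV]; exact hV χ hχ y hy)
      (fun y hy => by rw [← s1_VV]; exact hV χ' hχ' y hy)
    have a2 := hP C X δ T (m / X) m N χ χ' (by linarith) hX0 hδ m3 m4 hm
    set M := ∑ i ∈ insertNone (zs (Lp χ) δ T), ∑ j ∈ insertNone (zs (Lp χ') δ T),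
      GG w1 (s1s i) (s1s j) (m / X) * (s1a X χ i * s1a X χ' j)
    have a3 : ‖SG m χ χ' * (JJ X m T₁ (cf χ) (cf χ') - 2 * π * X ^ 2 * M)‖ ≤
        C₁ * S0 N m * (e + g * (n χ * n χ')) := by
      rw [norm_mul, mul_comm C₁, mul_assoc (S0 N m)]
      refine mul_le_mul (SG_le m χ χ') (a1.trans ?_) (norm_nonneg _) hS0
      have b1 := s1_sum_le hX0 χ hδ T
      have b2 := s1_sum_le hX0 χ' hδ T
      have := hn χ
      gcongr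
    have a4 : SG m χ χ' * JJ X m T₁ (cf χ) (cf χ') =
        SG m χ χ' * (JJ X m T₁ (cf χ) (cf χ') - 2 * π * X ^ 2 * M) +
        ((2 * π * X ^ 2 : ℝ) : ℂ) * (SG m χ χ' * M - ((s1e χ * s1e χ' * A : ℝ) : ℂ)) +
        ((2 * π * X ^ 2 * (s1e χ * s1e χ' * A) : ℝ) : ℂ) := by
      push_cast
      ring
    rw [a4, add_re, add_re, ofReal_re, re_ofReal_mul]
    have a5 := (abs_le.1 ((abs_re_le_norm _).trans a3)).1
    have a6 := mul_le_mul_of_nonneg_left (abs_le.1 ((abs_re_le_norm _).trans a2)).1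
      (by positivity : 0 ≤ 2 * π * X ^ 2)
    linarith
  rw [re_sum]
  simp only [re_sum]
  refine le_trans ?_ (sum_le_sum fun χ hχ => sum_le_sum fun χ' hχ' => hp χ hχ χ' hχ')
  have t1 : ∑ χ ∈ B, n χ ≤ 1 + Tot X N P δ T := by
    rw [sum_add_distrib, s1_e_sum hB1]
    exact add_le_add le_rfl (sum_le_sum_of_subset_of_nonneg hB fun χ _ _ =>
      sum_nonneg fun ρ _ => hxw _ ρ)
  have t2 : ∑ χ ∈ B, s1u C X δ T χ ≤ Lo1 C X N P δ T :=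
    sum_le_sum_of_subset_of_nonneg hB fun χ _ _ => sum_nonneg fun ρ _ => by
      have := hxw (Lp χ) ρ
      positivity
  have hw : ∀ χ χ' : DirichletCharacter ℂ N, 0 ≤ s1w C X δ T m χ χ' := fun χ χ' =>
    sum_nonneg fun ρ _ => sum_nonneg fun ρ' _ => mul_nonneg
      (mul_nonneg (s1_ka_nonneg hC0 m χ χ') (s1_kb_nonneg hC0 ρ ρ'))
      (mul_nonneg (hxw _ _) (hxw _ _))
  have t3 : ∑ χ ∈ B, ∑ χ' ∈ B, s1w C X δ T m χ χ' ≤ Lo2 C X N P δ T m :=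
    (sum_le_sum fun χ _ => sum_le_sum_of_subset_of_nonneg hB fun χ' _ _ => hw χ χ').trans
      (sum_le_sum_of_subset_of_nonneg hB fun χ _ _ => sum_nonneg fun χ' _ => hw χ χ')
  have t4 : (∑ χ ∈ B, n χ) * ∑ χ ∈ B, n χ ≤ (1 + Tot X N P δ T) ^ 2 := by
    rw [← sq]
    exact pow_le_pow_left₀ (sum_nonneg fun χ _ => hn χ) t1 2
  simp only [sum_sub_distrib, sum_add_distrib, ← mul_sum, ← sum_mul, ← sum_div, sum_const,
    nsmul_eq_mul, s1_e_sum hB1]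
  have t5 : 0 ≤ (B.card : ℝ) ^ 2 * e + g * (1 + Tot X N P δ T) ^ 2 := by positivity
  have t6 := mul_le_mul_of_nonneg_left t4 hg
  refine sub_le_sub (mul_le_mul_of_nonneg_left (by linarith) (by positivity)) ?_
  calc _ ≤ C₁ * S0 N m * ((B.card : ℝ) ^ 2 * e + g * (1 + Tot X N P δ T) ^ 2) :=
        mul_le_mul_of_nonneg_left (by linarith) (by positivity)
    _ ≤ _ := by gcongr; linarith

end Pool.Agent.Lib.MP_778b46_nt.MA
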